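import Pool.Agent.Lib.MP_3145b1_co.RC.Spec

set_option autoImplicit false

/-!
# MP_3145b1_co, project RC: PK for all widths
-/

namespace Pool.Agent.MP3145b1.RC

open Finset

theorem rAll (h1 : S_One) (h2 : S_Ind) : S_All := by
  intro w hw
  induction w, hw using Nat.le_induction with
  | base => exact ⟨2, 1 / 4, by norm_num, by norm_num, by norm_num, h1⟩
  | succ w _ ih =>
    obtain ⟨K, c, hK, hc, hc1, h⟩ := ih
    refine ⟨7 * K, c ^ 2 / 28, by linarith, by positivity, ?_, h2 w K c hK hc hc1 h⟩
    nlinarith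

end Pool.Agent.MP3145b1.RC
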