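import Pool.Agent.Lib.MP_3145b1_co.RC.SpecF

/-!
# MP_3145b1_co, RC: Fourier coefficients of a composition
-/

set_option autoImplicit false

namespace Pool.Agent.MP3145b1.RC

open Finset Pool.Agent.MP3145b1

private theorem Cfo_split {N : ℕ} (U g0 g1 : (Fin N → Bool) → ℝ) (hU : ∀ y, U y = 1 ∨ U y = -1)
    (f : (Fin N → Bool) → ℝ) (hf1 : ∀ y, U y = -1 → f y = g1 y) (hf0 : ∀ y, U y ≠ -1 → f y = g0 y)
    (S : Finset (Fin N)) :
    coeff f S = (1 / 2) * (coeff g0 S + coeff g1 S) +
      (1 / 2) * (coeff (fun y => U y * g0 y) S - coeff (fun y => U y * g1 y) S) := by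
  unfold coeff
  have h : ∑ x : Fin N → Bool, f x * ∏ i ∈ S, (if x i then (-1 : ℝ) else 1) =
      (1 / 2) * (∑ x : Fin N → Bool, g0 x * ∏ i ∈ S, (if x i then (-1 : ℝ) else 1)) +
      (1 / 2) * (∑ x : Fin N → Bool, g1 x * ∏ i ∈ S, (if x i then (-1 : ℝ) else 1)) +
      (1 / 2) * (∑ x : Fin N → Bool, (U x * g0 x) * ∏ i ∈ S, (if x i then (-1 : ℝ) else 1)) -
      (1 / 2) * (∑ x : Fin N → Bool, (U x * g1 x) * ∏ i ∈ S, (if x i then (-1 : ℝ) else 1)) := by
    rw [Finset.mul_sum, Finset.mul_sum, Finset.mul_sum, Finset.mul_sum, ← Finset.sum_add_distrib,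
      ← Finset.sum_add_distrib, ← Finset.sum_sub_distrib]
    apply Finset.sum_congr rfl
    intro y _
    rcases hU y with h | h
    · rw [hf0 y (by rw [h]; norm_num), h]
      ring
    · rw [hf1 y h, h]
      ring
  rw [h]
  ring

private theorem Cfo_dep {w N : ℕ} (s : ℕ → Fin w → Bool → Fin w) (v : ℕ → Fin w → ℕ) (o : Fin w → ℝ)
    (P : ℕ → Finset (Fin N)) (u : ℕ → (Fin N → Bool) → ℝ) (hd : ∀ i, Dp (P i) (u i)) (k : ℕ) :
    ∀ (t : ℕ) (x : Fin w), Dp ((rd s v k t x).biUnion P) (Fs s v o u k t x) := by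
  induction k with
  | zero =>
    intro t x y y' _
    simp only [Fs]
  | succ k ih =>
    intro t x y y' h
    have h1 : u (v t x) y = u (v t x) y' := by
      apply hd (v t x)
      intro a ha
      apply h
      rw [Finset.mem_biUnion]
      exact ⟨v t x, by simp [rd], ha⟩
    have h2 : Fs s v o u k (t + 1) (s t x false) y = Fs s v o u k (t + 1) (s t x false) y' := by
      apply ih
      intro a ha
      apply h
      rw [Finset.mem_biUnion] at ha ⊢
      obtain ⟨j, hj, haj⟩ := ha
      refine ⟨j, ?_, haj⟩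
      simp only [rd, Finset.mem_insert, Finset.mem_union]
      exact Or.inr (Or.inl hj)
    have h3 : Fs s v o u k (t + 1) (s t x true) y = Fs s v o u k (t + 1) (s t x true) y' := by
      apply ih
      intro a ha
      apply h
      rw [Finset.mem_biUnion] at ha ⊢
      obtain ⟨j, hj, haj⟩ := ha
      refine ⟨j, ?_, haj⟩
      simp only [rd, Finset.mem_insert, Finset.mem_union]
      exact Or.inr (Or.inr hj)
    simp only [Fs]
    rw [h1, h2, h3]

private theorem Cfo_inter {N : ℕ} (P : ℕ → Finset (Fin N)) (hP : ∀ i j, i ≠ j → Disjoint (P i) (P j))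
    (S : Finset (Fin N)) (i j : ℕ) (hij : j ≠ i) : (S \ P i) ∩ P j = S ∩ P j := by
  ext a
  simp only [Finset.mem_inter, Finset.mem_sdiff]
  constructor
  · rintro ⟨⟨h1, _⟩, h3⟩
    exact ⟨h1, h3⟩
  · rintro ⟨h1, h3⟩
    exact ⟨⟨h1, fun h => Finset.disjoint_left.mp (hP j i hij) h3 h⟩, h3⟩

private theorem Cfo_TT {N : ℕ} (P : ℕ → Finset (Fin N)) (hP : ∀ i j, i ≠ j → Disjoint (P i) (P j)) (M : ℕ)
    (S : Finset (Fin N)) (i : ℕ) : TT P M (S \ P i) = (TT P M S).erase i := by
  ext j
  simp only [TT, Finset.mem_filter, Finset.mem_erase]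
  by_cases hij : j = i
  · subst hij
    constructor
    · rintro ⟨_, a, ha⟩
      simp only [Finset.mem_inter, Finset.mem_sdiff] at ha
      exact absurd ha.2 ha.1.2
    · rintro ⟨h, _⟩
      exact absurd rfl h
  · rw [Cfo_inter P hP S i j hij]
    constructor
    · intro h
      exact ⟨hij, h⟩
    · intro h
      exact h.2

private theorem Cfo_Lp {N : ℕ} (P : ℕ → Finset (Fin N)) (hP : ∀ i j, i ≠ j → Disjoint (P i) (P j)) (M : ℕ)
    (ψ : ℕ → Finset (Fin N) → ℝ) (S : Finset (Fin N)) (i : ℕ) (hi : i < M) (hS : (S ∩ P i).Nonempty) :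
    Lp P M ψ S = ψ i (S ∩ P i) * Lp P M ψ (S \ P i) := by
  have hT : i ∈ TT P M S := by
    simp only [TT, Finset.mem_filter, Finset.mem_range]
    exact ⟨hi, hS⟩
  have hsub : S \ P i ⊆ (range M).biUnion P ↔ S ⊆ (range M).biUnion P := by
    constructor
    · intro h a ha
      by_cases hai : a ∈ P i
      · rw [Finset.mem_biUnion]
        exact ⟨i, Finset.mem_range.mpr hi, hai⟩
      · exact h (Finset.mem_sdiff.mpr ⟨ha, hai⟩)
    · intro h a ha
      exact h (Finset.mem_sdiff.mp ha).1
  unfold Lp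
  by_cases h : S ⊆ (range M).biUnion P
  · rw [if_pos h, if_pos (hsub.mpr h), Cfo_TT P hP M S i, ← Finset.mul_prod_erase _ _ hT]
    congr 1
    apply Finset.prod_congr rfl
    intro j hj
    rw [Cfo_inter P hP S i j (Finset.ne_of_mem_erase hj)]
  · rw [if_neg h, if_neg (fun h' => h (hsub.mp h'))]
    simp

theorem rCfo (h1 : S_Prd) : S_Cfo := by
  obtain ⟨hA, hB⟩ := h1
  intro w N M n s v o P u hC hv hr k
  obtain ⟨hP, hd, hu⟩ := hC
  induction k with
  | zero =>
    intro t _ x S
    have hF : Fs s v o u 0 t x = fun _ => o x := by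
      funext y
      simp only [Fs]
    rw [hF]
    simp only [Cf]
    by_cases hS : S = ∅
    · subst hS
      have hT : TT P M (∅ : Finset (Fin N)) = ∅ := by
        simp [TT]
      have hL : Lp P M (fun i R => coeff (u i) R) (∅ : Finset (Fin N)) = 1 := by
        unfold Lp
        rw [if_pos (Finset.empty_subset _), hT, Finset.prod_empty]
      rw [hT, hL, if_pos rfl, Q.coeff_mean]
      have : (fun y : Fin N → Bool => o x * sgn y ∅) = fun _ => o x := by
        funext y
        simp [sgn]
      rw [this, Q.mean_const]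
      ring
    · have h0 : coeff (fun _ : Fin N → Bool => o x) S = 0 := by
        apply hB N ∅ _ (fun _ _ _ => rfl)
        intro h
        exact hS (Finset.subset_empty.mp h)
      rw [h0]
      by_cases hU : S ⊆ (range M).biUnion P
      · have hT : TT P M S ≠ ∅ := by
          obtain ⟨a, ha⟩ := Finset.nonempty_iff_ne_empty.mpr hS
          obtain ⟨j, hj, haj⟩ := Finset.mem_biUnion.mp (hU ha)
          apply Finset.nonempty_iff_ne_empty.mp
          refine ⟨j, ?_⟩
          simp only [TT, Finset.mem_filter]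
          exact ⟨hj, a, Finset.mem_inter.mpr ⟨ha, haj⟩⟩
        rw [if_neg hT, mul_zero]
      · unfold Lp
        rw [if_neg hU, zero_mul]
  | succ k ih =>
    intro t ht x S
    have htn : t < n := by omega
    have hk : n - (t + 1) = k := by omega
    have hro : ∀ b, v t x ∉ rd s v k (t + 1) (s t x b) := by
      intro b
      have := hr t x b htn
      rwa [hk] at this
    have hdis : ∀ b, Disjoint (P (v t x)) ((rd s v k (t + 1) (s t x b)).biUnion P) := by
      intro b
      rw [Finset.disjoint_left]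
      intro a ha hab
      obtain ⟨j, hj, haj⟩ := Finset.mem_biUnion.mp hab
      have hij : v t x ≠ j := fun h => hro b (h ▸ hj)
      exact Finset.disjoint_left.mp (hP _ _ hij) ha haj
    have hdep : ∀ b, Dp ((rd s v k (t + 1) (s t x b)).biUnion P) (Fs s v o u k (t + 1) (s t x b)) :=
      fun b => Cfo_dep s v o P u hd k (t + 1) (s t x b)
    have hprod : ∀ b, coeff (fun y => u (v t x) y * Fs s v o u k (t + 1) (s t x b) y) S =
        coeff (u (v t x)) (S ∩ P (v t x)) *
          coeff (Fs s v o u k (t + 1) (s t x b)) (S \ P (v t x)) := fun b =>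
      hA N (P (v t x)) _ (u (v t x)) _ (hdis b) (hd _) (hdep b) S
    have hsplit := Cfo_split (u (v t x)) (Fs s v o u k (t + 1) (s t x false))
      (Fs s v o u k (t + 1) (s t x true)) (hu (v t x)) (Fs s v o u (k + 1) t x)
      (fun y hy => by simp only [Fs]; rw [if_pos hy]) (fun y hy => by simp only [Fs]; rw [if_neg hy]) S
    rw [hprod, hprod] at hsplit
    rw [hsplit]
    have ht' : t + 1 + k = n := by omega
    by_cases hS : (S ∩ P (v t x)).Nonempty
    · have hT : v t x ∈ TT P M S := by
        simp only [TT, Finset.mem_filter, Finset.mem_range]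
        exact ⟨hv t x, hS⟩
      have h0 : ∀ b, coeff (Fs s v o u k (t + 1) (s t x b)) S = 0 := by
        intro b
        apply hB N _ _ (hdep b)
        intro h
        obtain ⟨a, ha⟩ := hS
        rw [Finset.mem_inter] at ha
        exact Finset.disjoint_left.mp (hdis b) ha.2 (h ha.1)
      rw [h0, h0, ih (t + 1) ht', ih (t + 1) ht', Cfo_TT P hP M S (v t x),
        Cfo_Lp P hP M (fun i R => coeff (u i) R) S (v t x) (hv t x) hS]
      simp only [Cf]
      rw [if_pos hT]
      ring
    · have hS0 : S ∩ P (v t x) = ∅ := Finset.not_nonempty_iff_eq_empty.mp hS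
      have hT : v t x ∉ TT P M S := by
        simp only [TT, Finset.mem_filter, not_and]
        intro _
        exact hS
      have hS1 : S \ P (v t x) = S := by
        rw [Finset.sdiff_eq_self_iff_disjoint, Finset.disjoint_iff_inter_eq_empty]
        exact hS0
      rw [hS0, hS1, ih (t + 1) ht', ih (t + 1) ht']
      simp only [Cf]
      rw [if_neg hT]
      unfold pb
      ring

end Pool.Agent.MP3145b1.RC
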