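import Pool.Agent.Lib.MP_3145b1_co.RC.SpecF

/-!
# MP_3145b1_co, project RC, module Clo: the sharp entropy inequality for the class `RO w`
-/

set_option autoImplicit false

namespace Pool.Agent.MP3145b1.RC

open Finset Pool.Agent.MP3145b1

/-- the inequality for one function -/
private def Clo_Ineq (K : ℝ) {N : ℕ} (f : (Fin N → Bool) → ℝ) : Prop :=
  ∑ S ∈ (univ : Finset (Finset (Fin N))).erase ∅, hh (coeff f S ^ 2) ≤
    K * (influence f - (1 - coeff f ∅ ^ 2))

private theorem Clo_hh0 : hh 0 = 0 := by
  unfold hh
  exact Real.negMulLog_zero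

private theorem Clo_hh1 : hh 1 = 0 := by
  unfold hh
  exact Real.negMulLog_one

/-- constants -/
private theorem Clo_const (K : ℝ) (N : ℕ) (c : ℝ) (hc : c = 1 ∨ c = -1) :
    Clo_Ineq K (fun _ : Fin N → Bool => c) := by
  have h0 : ∀ S : Finset (Fin N), S ≠ ∅ → coeff (fun _ : Fin N → Bool => c) S = 0 := by
    intro S hS
    obtain ⟨i, hi⟩ := Finset.nonempty_iff_ne_empty.mpr hS
    exact Q.coeff_zero _ i S hi (fun _ _ => rfl)
  have h1 : coeff (fun _ : Fin N → Bool => c) ∅ = c := by
    rw [Q.coeff_mean]
    have : (fun x : Fin N → Bool => c * sgn x ∅) = fun _ => c := by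
      funext x
      simp [sgn]
    rw [this, Q.mean_const]
  have h2 : influence (fun _ : Fin N → Bool => c) = 0 := by
    unfold influence
    apply Finset.sum_eq_zero
    intro S _
    by_cases hS : S = ∅
    · subst hS
      simp
    · rw [h0 S hS]
      simp
  have h3 : c ^ 2 = 1 := by
    rcases hc with h | h <;> rw [h] <;> norm_num
  unfold Clo_Ineq
  rw [h2, h1, h3]
  have h4 : ∑ S ∈ (univ : Finset (Finset (Fin N))).erase ∅,
      hh (coeff (fun _ : Fin N → Bool => c) S ^ 2) = 0 := by
    apply Finset.sum_eq_zero
    intro S hS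
    rw [h0 S (Finset.ne_of_mem_erase hS)]
    norm_num
    exact Clo_hh0
  rw [h4]
  simp

/-- variables -/
private theorem Clo_var (K : ℝ) (N : ℕ) (a : Fin N) :
    Clo_Ineq K (fun x : Fin N → Bool => if x a then -1 else 1) := by
  set f : (Fin N → Bool) → ℝ := fun x => if x a then -1 else 1 with hf
  have hsg : ∀ x : Fin N → Bool, f x = sgn x {a} := by
    intro x
    simp [hf, sgn]
  have h1 : coeff f {a} = 1 := by
    rw [Q.coeff_mean]
    have : (fun x : Fin N → Bool => f x * sgn x {a}) = fun _ => (1 : ℝ) := by
      funext x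
      rw [hsg, ← pow_two, sgn_sq]
    rw [this, Q.mean_const]
  have hpar : ∑ S : Finset (Fin N), coeff f S ^ 2 = 1 := by
    rw [Q.parseval]
    have : (fun x : Fin N → Bool => f x ^ 2) = fun _ => (1 : ℝ) := by
      funext x
      rw [hsg, sgn_sq]
    rw [this, Q.mean_const]
  have h0 : ∀ S : Finset (Fin N), S ≠ {a} → coeff f S = 0 := by
    intro S hS
    have h2 : coeff f S ^ 2 ≤ 0 := by
      have h3 : coeff f S ^ 2 + coeff f {a} ^ 2 ≤ ∑ S : Finset (Fin N), coeff f S ^ 2 := by
        rw [← Finset.sum_pair (f := fun S => coeff f S ^ 2) hS]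
        exact Finset.sum_le_sum_of_subset_of_nonneg (Finset.subset_univ _)
          (fun _ _ _ => sq_nonneg _)
      rw [hpar, h1] at h3
      linarith
    exact pow_eq_zero_iff (two_ne_zero) |>.mp (le_antisymm h2 (sq_nonneg _))
  have h2 : influence f = 1 := by
    unfold influence
    rw [Finset.sum_eq_single ({a} : Finset (Fin N))]
    · rw [h1]
      simp
    · intro S _ hS
      rw [h0 S hS]
      simp
    · intro h
      exact absurd (Finset.mem_univ _) h
  have h3 : coeff f ∅ = 0 := h0 ∅ (by
    intro h
    exact (Finset.singleton_ne_empty a) h.symm)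
  have h4 : ∑ S ∈ (univ : Finset (Finset (Fin N))).erase ∅, hh (coeff f S ^ 2) = 0 := by
    apply Finset.sum_eq_zero
    intro S _
    by_cases hS : S = {a}
    · rw [hS, h1]
      norm_num
      exact Clo_hh1
    · rw [h0 S hS]
      norm_num
      exact Clo_hh0
  unfold Clo_Ineq
  rw [h4, h2, h3]
  norm_num

/-- the function computed by a program in terms of runs -/
private theorem Clo_run {w N : ℕ} (s : ℕ → Fin w → Bool → Fin w) (v : ℕ → Fin w → ℕ)
    (O : Fin w → ℝ) (u : ℕ → (Fin N → Bool) → ℝ) (x0 : Fin w) (y : Fin N → Bool) (n : ℕ)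
    (Y : ℕ → Bool) (hY : ∀ j, Y j = true ↔ u j y = -1) :
    ∀ k i, i + k = n → Fs s v O u k i (run s v x0 Y i) y = O (run s v x0 Y n) := by
  intro k
  induction k with
  | zero =>
    intro i hi
    rw [← hi]
    rfl
  | succ k ih =>
    intro i hi
    have h1 := ih (i + 1) (by omega)
    rw [← h1]
    simp only [Fs]
    by_cases hu : u (v i (run s v x0 Y i)) y = -1
    · rw [if_pos hu]
      have h2 : Y (v i (run s v x0 Y i)) = true := (hY _).mpr hu
      simp only [run, h2]
    · rw [if_neg hu]
      have h2 : Y (v i (run s v x0 Y i)) = false := by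
        rw [← Bool.not_eq_true, hY]
        exact hu
      simp only [run, h2]

private theorem Clo_all (h1 : S_Cmp) (h2 : S_Fix) (w : ℕ) (K0 K : ℝ) (hPG : PG w K0)
    (hK : K0 ≤ K) (N : ℕ) (f : (Fin N → Bool) → ℝ) (hf : RO w f) :
    (∀ x, f x = 1 ∨ f x = -1) ∧ Clo_Ineq K f := by
  induction hf with
  | const c =>
    refine ⟨fun x => ?_, ?_⟩
    · cases c <;> simp
    · exact Clo_const K N _ (by cases c <;> simp)
  | var a =>
    refine ⟨fun x => ?_, Clo_var K N a⟩
    beta_reduce
    split_ifs
    · exact Or.inr rfl
    · exact Or.inl rfl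
  | comp P u hP hd hu n s v x0 o hr ih =>
    refine ⟨fun x => ?_, ?_⟩
    · beta_reduce
      split_ifs
      · exact Or.inr rfl
      · exact Or.inl rfl
    · obtain ⟨M0, M, v', hv', hRo, hrun⟩ := h2 w n s v x0 hr
      set O : Fin w → ℝ := fun z => if o z then -1 else 1 with hO
      set u' : ℕ → (Fin N → Bool) → ℝ := fun i => if i < M0 then u i else (fun _ => 1) with hu'
      set P' : ℕ → Finset (Fin N) := fun i => if i < M0 then P i else ∅ with hP'
      have hCp : Cp P' u' := by
        refine ⟨fun i j hij => ?_, fun i => ?_, fun i x => ?_⟩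
        · simp only [hP']
          split_ifs
          · exact hP i j hij
          · exact Finset.disjoint_empty_right _
          · exact Finset.disjoint_empty_left _
          · exact Finset.disjoint_empty_left _
        · simp only [hP', hu']
          split_ifs
          · exact hd i
          · intro x y _
            rfl
        · simp only [hu']
          split_ifs
          · exact (ih i).1 x
          · exact Or.inl rfl
      have hin : ∀ i, Clo_Ineq K (u' i) := by
        intro i
        by_cases hi : i < M0
        · have : u' i = u i := by simp only [hu', if_pos hi]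
          rw [this]
          exact (ih i).2
        · have : u' i = fun _ => (1 : ℝ) := by simp only [hu', if_neg hi]
          rw [this]
          exact Clo_const K N 1 (Or.inl rfl)
      have hOv : ∀ z, O z = 1 ∨ O z = -1 := by
        intro z
        simp only [hO]
        split_ifs
        · exact Or.inr rfl
        · exact Or.inl rfl
      have hfe : (fun x : Fin N → Bool =>
          if o (run s v x0 (fun i => decide (u i x = -1)) n) then (-1 : ℝ) else 1) =
          Fs s v' O u' n 0 x0 := by
        funext y
        have e1 := Clo_run s v' O u' x0 y n (fun j => decide (u' j y = -1))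
          (fun j => by simp) n 0 (by omega)
        have e2 := hrun (fun i => decide (u i y = -1)) (fun j => decide (u' j y = -1)) (by
          intro i hi
          simp only [hu', if_pos hi])
        rw [e2] at e1
        simp only [run] at e1
        rw [e1]
      rw [hfe]
      exact h1 w K0 K hPG hK N M n s v' O x0 P' u' hCp hv' hRo hOv hin

theorem rClo (h1 : S_Cmp) (h2 : S_Fix) : S_Clo := by
  intro w K0 K hPG hK _ N f hf
  exact Clo_all h1 h2 w K0 K hPG hK N f hf

end Pool.Agent.MP3145b1.RC
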