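import Pool.Agent.Lib.MP_3145b1_co.RC.SpecF

/-!
# MP_3145b1_co, project RC, module Cmp: the sharp entropy inequality is preserved by composition
-/

set_option autoImplicit false

namespace Pool.Agent.MP3145b1.RC

open Finset Pool.Agent.MP3145b1

private lemma Cmp_Qi_nonneg {w : ℕ} (s : ℕ → Fin w → Bool → Fin w) (v : ℕ → Fin w → ℕ) (p : ℕ → ℝ) (o : Fin w → ℝ)
    (n M : ℕ) (x : Fin w) (i : ℕ) (hp : ∀ i, 0 ≤ p i ∧ p i ≤ 1) : 0 ≤ Qi s v p o n M x i := by
  unfold Qi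
  exact Finset.sum_nonneg fun T _ => mul_nonneg (wt_nonneg hp T) (sq_nonneg _)

theorem rCmp (h1 : S_Vsm) (h2 : S_Fml) (h3 : S_Piv) : S_Cmp := by
  intro w K0 K hPG hK N M n s v o x P u hC hv hR ho hu
  have hp : ∀ i, 0 ≤ pb u i ∧ pb u i ≤ 1 := fun i => (h1 N P u hC i).1
  obtain ⟨f1, f2, f3, f4⟩ := h2 w N M n s v o x P u hC hv hR
  have hpg := hPG K hK M n s v (pb u) o x hp hv hR ho (h3 w N M n s v o P u hC hv hR ho)
  have hs : ∑ S ∈ (univ : Finset (Finset (Fin N))).erase ∅, hh (coeff (Fs s v o u n 0 x) S ^ 2) =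
      ∑ S : Finset (Fin N), hh (coeff (Fs s v o u n 0 x) S ^ 2) - hh (coeff (Fs s v o u n 0 x) ∅ ^ 2) := by
    rw [eq_sub_iff_add_eq, Finset.sum_erase_add _ _ (Finset.mem_univ _)]
  have hE : ∑ i ∈ range M, (∑ S ∈ (univ : Finset (Finset (Fin N))).erase ∅, hh (coeff (u i) S ^ 2)) *
      Qi s v (pb u) o n M x i ≤
      K * (∑ i ∈ range M, influence (u i) * Qi s v (pb u) o n M x i) -
        K * (∑ i ∈ range M, 4 * (pb u i * (1 - pb u i)) * Qi s v (pb u) o n M x i) := by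
    rw [Finset.mul_sum, Finset.mul_sum, ← Finset.sum_sub_distrib]
    refine Finset.sum_le_sum fun i _ => ?_
    have hq := Cmp_Qi_nonneg s v (pb u) o n M x i hp
    have e := (h1 N P u hC i).2.1
    have h := mul_le_mul_of_nonneg_right (hu i) hq
    rw [← e] at h
    refine h.trans (le_of_eq ?_)
    ring
  rw [hs, f1, f2, f4]
  rw [f3] at hpg
  have e : K * (∑ i ∈ range M, influence (u i) * Qi s v (pb u) o n M x i -
      (1 - Cf s v (pb u) o ∅ n 0 x ^ 2)) =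
      K * (∑ i ∈ range M, influence (u i) * Qi s v (pb u) o n M x i) -
      K * (1 - Cf s v (pb u) o ∅ n 0 x ^ 2) := by ring
  have e' : K * (∑ i ∈ range M, 4 * (pb u i * (1 - pb u i)) * Qi s v (pb u) o n M x i -
      (1 - Cf s v (pb u) o ∅ n 0 x ^ 2)) =
      K * (∑ i ∈ range M, 4 * (pb u i * (1 - pb u i)) * Qi s v (pb u) o n M x i) -
      K * (1 - Cf s v (pb u) o ∅ n 0 x ^ 2) := by ring
  rw [e'] at hpg
  rw [e]
  linarith

end Pool.Agent.MP3145b1.RC
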