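import Pool.Agent.Lib.MP_3145b1_co.RC.Spec

/-!
# MP_3145b1_co, project RC: small steps against large steps
-/

set_option autoImplicit false

namespace Pool.Agent.MP3145b1.RC

open Finset

variable {σ : Type}

private theorem Exc_cN_nonneg (s : ℕ → σ → Bool → σ) {p : ℕ → σ → ℝ} (hp : Pb p) (m : ℕ → σ → ℝ)
    {ρ : ℝ} (hρ : 0 < ρ) (u : ℕ) (y : σ) : 0 ≤ cN s p m ρ u y := by
  unfold cN; split_ifs
  · exact le_rfl
  · exact div_nonneg (mul_nonneg (vv_nonneg hp u y) (abs_nonneg _)) hρ.le

private theorem Exc_N_nonneg (s : ℕ → σ → Bool → σ) {p : ℕ → σ → ℝ} (hp : Pb p) (m : ℕ → σ → ℝ)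
    (A : ℕ → Finset σ) {ρ : ℝ} (hρ : 0 < ρ) (n u : ℕ) (y : σ) :
    0 ≤ EV s p A (cN s p m ρ) 0 n u y :=
  EV_nonneg s hp A (fun u y _ => Exc_cN_nonneg s hp m hρ u y) (fun _ _ => le_rfl) n u y

/-- (L) -/
private theorem Exc_L (s : ℕ → σ → Bool → σ) {p : ℕ → σ → ℝ} (hp : Pb p) (m : ℕ → σ → ℝ)
    (A : ℕ → Finset σ) (ρ D : ℝ) (hD0 : 0 ≤ D)
    (n : ℕ) (ih : ∀ k < n, ∀ (t : ℕ) (x : σ),
      EV s p A (cS s p m ρ) 0 k t x ≤ D * (1 + 8 * EV s p A (cN s p m ρ) 0 k t x))
    (k : ℕ) (hk : k ≤ n) (u : ℕ) (y : σ) (hy : y ∈ A u) (hs : ρ < |al s m u y|)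
    (hst : 1 / 4 ≤ vv p u y * |al s m u y| / ρ) :
    EV s p A (cS s p m ρ) 0 k u y ≤ D * (8 * EV s p A (cN s p m ρ) 0 k u y) := by
  cases k with
  | zero =>
    rw [EV_zero, EV_zero]
    simp
  | succ k =>
    rw [EV_mem _ _ _ _ _ _ _ _ hy, EV_mem _ _ _ _ _ _ _ _ hy]
    have e1 : cS s p m ρ u y = 0 := by unfold cS; rw [if_neg (not_le.2 hs)]
    have e2 : cN s p m ρ u y = vv p u y * |al s m u y| / ρ := by
      unfold cN; rw [if_neg (not_le.2 hs)]
    rw [e1, e2]
    have h1 := avg_mono hp u y (ih k (by omega) (u + 1) (s u y false))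
      (ih k (by omega) (u + 1) (s u y true))
    have h2 : 0 ≤ D * (8 * (vv p u y * |al s m u y| / ρ) - 1) :=
      mul_nonneg hD0 (by linarith)
    linarith

/-- weak states -/
private def Exc_WK (s : ℕ → σ → Bool → σ) (p : ℕ → σ → ℝ) (m : ℕ → σ → ℝ) (ρ : ℝ) (u : ℕ) (y : σ) :
    Prop := ρ < |al s m u y| ∧ vv p u y * |al s m u y| / ρ < 1 / 4

open Classical in
/-- the rare bit -/
private noncomputable def Exc_ra (p : ℕ → σ → ℝ) (u : ℕ) (y : σ) : Bool :=
  if p u y ≤ 1 / 2 then false else true

open Classical in
private noncomputable def Exc_s (s : ℕ → σ → Bool → σ) (p : ℕ → σ → ℝ) (m : ℕ → σ → ℝ) (ρ : ℝ)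
    (u : ℕ) : Option σ → Bool → Option σ
  | none, _ => none
  | some y, b => if Exc_WK s p m ρ u y ∧ b = Exc_ra p u y then none else some (s u y b)

private noncomputable def Exc_p (p : ℕ → σ → ℝ) (u : ℕ) : Option σ → ℝ
  | none => 0
  | some y => p u y

private noncomputable def Exc_m (m : ℕ → σ → ℝ) (ρ : ℝ) (u : ℕ) : Option σ → ℝ
  | none => 0
  | some y => m u y / ρ

open Classical in
private noncomputable def Exc_ν (s : ℕ → σ → Bool → σ) (p : ℕ → σ → ℝ) (m : ℕ → σ → ℝ) (ρ : ℝ)
    (u : ℕ) : Option σ → ℝ
  | none => 0
  | some y => if Exc_WK s p m ρ u y then vv p u y * |al s m u y| / ρ else 0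

private theorem Exc_s_small (s : ℕ → σ → Bool → σ) (p : ℕ → σ → ℝ) (m : ℕ → σ → ℝ) (ρ : ℝ)
    (u : ℕ) (y : σ) (b : Bool) (h : ¬ Exc_WK s p m ρ u y) :
    Exc_s s p m ρ u (some y) b = some (s u y b) := by
  simp only [Exc_s]
  rw [if_neg (fun h' => h h'.1)]

private theorem Exc_s_rare (s : ℕ → σ → Bool → σ) (p : ℕ → σ → ℝ) (m : ℕ → σ → ℝ) (ρ : ℝ)
    (u : ℕ) (y : σ) (b : Bool) (h : Exc_WK s p m ρ u y) (hb : b = Exc_ra p u y) :
    Exc_s s p m ρ u (some y) b = none := by
  simp only [Exc_s]
  rw [if_pos ⟨h, hb⟩]

private theorem Exc_s_freq (s : ℕ → σ → Bool → σ) (p : ℕ → σ → ℝ) (m : ℕ → σ → ℝ) (ρ : ℝ)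
    (u : ℕ) (y : σ) (b : Bool) (hb : b ≠ Exc_ra p u y) :
    Exc_s s p m ρ u (some y) b = some (s u y b) := by
  simp only [Exc_s]
  rw [if_neg (fun h' => hb h'.2)]

private theorem Exc_ra1 (p : ℕ → σ → ℝ) (u : ℕ) (y : σ) (h : p u y ≤ 1 / 2) :
    Exc_ra p u y = false := by
  unfold Exc_ra; rw [if_pos h]

private theorem Exc_ra2 (p : ℕ → σ → ℝ) (u : ℕ) (y : σ) (h : ¬ p u y ≤ 1 / 2) :
    Exc_ra p u y = true := by
  unfold Exc_ra; rw [if_neg h]

private theorem Exc_ν_weak (s : ℕ → σ → Bool → σ) (p : ℕ → σ → ℝ) (m : ℕ → σ → ℝ) (ρ : ℝ)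
    (u : ℕ) (y : σ) (h : Exc_WK s p m ρ u y) :
    Exc_ν s p m ρ u (some y) = vv p u y * |al s m u y| / ρ := by
  simp only [Exc_ν]
  rw [if_pos h]

private theorem Exc_ν_small (s : ℕ → σ → Bool → σ) (p : ℕ → σ → ℝ) (m : ℕ → σ → ℝ) (ρ : ℝ)
    (u : ℕ) (y : σ) (h : ¬ Exc_WK s p m ρ u y) : Exc_ν s p m ρ u (some y) = 0 := by
  simp only [Exc_ν]
  rw [if_neg h]

private theorem Exc_Pb {p : ℕ → σ → ℝ} (hp : Pb p) : Pb (Exc_p p) := by
  intro u o
  cases o with
  | none => simp [Exc_p]
  | some y => exact hp u y

/-- the numbers at a weak state: `π` probability of the rare bit, `δ` the change of the value at the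
frequent child -/
private theorem Exc_num {ρ π α v : ℝ} (hρ : 0 < ρ) (hπ0 : 0 ≤ π) (hπ1 : π ≤ 1 / 2)
    (hv : v = π * (1 - π)) (hα : ρ < |α|) (hw : v * |α| / ρ < 1 / 4) :
    π ≤ 2 * (v * |α| / ρ) ∧ π * |α| ≤ 2 * (v * |α| / ρ) * ρ ∧ π * |α| ≤ ρ := by
  have h1 : π ≤ 2 * v := by rw [hv]; nlinarith
  have hv0 : 0 ≤ v := by linarith
  have h2 : v ≤ v * |α| / ρ := by
    rw [le_div_iff₀ hρ]
    exact mul_le_mul_of_nonneg_left hα.le hv0
  have h3 : 2 * (v * |α| / ρ) * ρ = 2 * v * |α| := by field_simp
  refine ⟨by linarith, ?_, ?_⟩
  · rw [h3]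
    exact mul_le_mul_of_nonneg_right h1 (abs_nonneg _)
  · have h4 : π * |α| ≤ 2 * (v * |α| / ρ) * ρ := by
      rw [h3]
      exact mul_le_mul_of_nonneg_right h1 (abs_nonneg _)
    nlinarith

/-- the final inequality at a weak state -/
private theorem Exc_fin {K ρ D π ν a y f : ℝ} (hK : 1 ≤ K) (hρ : 0 < ρ) (hD : (K + 1) ^ 2 * ρ ^ 2 ≤ D)
    (hπ0 : 0 ≤ π) (hπ : π ≤ 2 * ν) (hfy : |f - y| ≤ 2 * ν * ρ)
    (hy : |y - a| ≤ (K + 1) * ρ) (hf : |f - a| ≤ (K + 1) * ρ) :
    (1 - π) * ((K + 1) ^ 2 * ρ ^ 2 - (f - a) ^ 2) + π * D ≤
      (K + 1) ^ 2 * ρ ^ 2 - (y - a) ^ 2 + 6 * ν * D := by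
  have hν : 0 ≤ ν := by linarith
  have h1 : (f - a) ^ 2 ≤ (K + 1) ^ 2 * ρ ^ 2 := by
    rw [← sq_abs (f - a), ← mul_pow]
    exact pow_le_pow_left₀ (abs_nonneg _) hf 2
  have h2 : 0 ≤ π * ((K + 1) ^ 2 * ρ ^ 2 - (f - a) ^ 2) := mul_nonneg hπ0 (by linarith)
  have hD0 : 0 ≤ D := le_trans (by positivity) hD
  have h3 : π * D ≤ 2 * ν * D := mul_le_mul_of_nonneg_right hπ hD0
  have h4 : (y - a) ^ 2 - (f - a) ^ 2 ≤ 2 * ν * ρ * (2 * ((K + 1) * ρ)) := by
    have e : (y - a) ^ 2 - (f - a) ^ 2 = -(f - y) * ((y - a) + (f - a)) := by ring
    rw [e]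
    calc -(f - y) * ((y - a) + (f - a)) ≤ |-(f - y) * ((y - a) + (f - a))| := le_abs_self _
      _ = |f - y| * |(y - a) + (f - a)| := by rw [abs_mul, abs_neg]
      _ ≤ 2 * ν * ρ * (2 * ((K + 1) * ρ)) := by
        apply mul_le_mul hfy _ (abs_nonneg _) (by positivity)
        have := abs_add_le (y - a) (f - a)
        linarith
  have h5 : (K + 1) * ρ ^ 2 ≤ D := by
    refine le_trans ?_ hD
    have : 0 ≤ (K + 1) * K * ρ ^ 2 := by positivity
    nlinarith
  have h6 : 2 * ν * ρ * (2 * ((K + 1) * ρ)) ≤ 4 * ν * D := by
    have := mul_le_mul_of_nonneg_left h5 (by linarith : 0 ≤ 4 * ν)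
    nlinarith
  linarith

theorem rExc : S_Exc := by
  intro w K c hK hc hc1 hPK σ s p m A ρ n t x hp hρ hcard hMg
  classical
  set D : ℝ := (K + 1) ^ 2 / c * ρ ^ 2 with hD
  have hDc : D * c = (K + 1) ^ 2 * ρ ^ 2 := by
    rw [hD]; field_simp
  have hD0 : 0 ≤ D := by rw [hD]; positivity
  have hD1 : (K + 1) ^ 2 * ρ ^ 2 ≤ D := by
    rw [← hDc]
    nlinarith
  induction n using Nat.strong_induction_on generalizing t x with
  | _ n ih =>
    have hN := Exc_N_nonneg s hp m A hρ n t x
    by_cases hx : x ∈ A t
    swap
    · rw [EV_not s p A (cS s p m ρ) 0 n t x hx]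
      have : 0 ≤ D * (1 + 8 * EV s p A (cN s p m ρ) 0 n t x) := mul_nonneg hD0 (by linarith)
      simpa using this
    by_cases hs : ρ < |al s m t x| ∧ 1 / 4 ≤ vv p t x * |al s m t x| / ρ
    · have h := Exc_L s hp m A ρ D hD0 n ih n le_rfl t x hx hs.1 hs.2
      linarith
    -- the main case
    set a : ℝ := m t x with ha
    set R : ℕ → Finset σ := fun u => (A u).filter (fun y =>
      ¬ (ρ < |al s m u y| ∧ 1 / 4 ≤ vv p u y * |al s m u y| / ρ) ∧ |m u y - a| < K * ρ) with hR
    set E : ℕ → Set σ := fun u => {y | y ∈ A u ∧
      ¬ (ρ < |al s m u y| ∧ 1 / 4 ≤ vv p u y * |al s m u y| / ρ) ∧ K * ρ ≤ |m u y - a|} with hE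
    have hKρ : 0 < K * ρ := mul_pos (by linarith) hρ
    have memR : ∀ u y, y ∈ R u ↔ y ∈ A u ∧
        ¬ (ρ < |al s m u y| ∧ 1 / 4 ≤ vv p u y * |al s m u y| / ρ) ∧ |m u y - a| < K * ρ := by
      intro u y
      simp only [hR, Finset.mem_filter]
    have memE : ∀ u y, y ∈ E u ↔ y ∈ A u ∧
        ¬ (ρ < |al s m u y| ∧ 1 / 4 ≤ vv p u y * |al s m u y| / ρ) ∧ K * ρ ≤ |m u y - a| :=
      fun u y => Iff.rfl
    have hxR : x ∈ R t := by
      rw [memR]
      refine ⟨hx, hs, ?_⟩
      rw [ha]; simpa using hKρ
    -- the new program
    set s' := Exc_s s p m ρ with hs'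
    set p' := Exc_p p with hp'
    set m' := Exc_m m ρ with hm'
    set ν' := Exc_ν s p m ρ with hν'
    set R' : ℕ → Finset (Option σ) := fun u => (R u).map Function.Embedding.some with hR'
    set E' : ℕ → Set (Option σ) := fun u => {o | ∃ y ∈ E u, o = some y} with hE'
    have hPb' : Pb p' := Exc_Pb hp
    have memR' : ∀ u y, some y ∈ R' u ↔ y ∈ R u := by
      intro u y
      simp [hR']
    have noneR' : ∀ u, none ∉ R' u := by
      intro u
      simp [hR']
    have memE' : ∀ u y, some y ∈ E' u ↔ y ∈ E u := by
      intro u y
      constructor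
      · rintro ⟨z, hz, he⟩
        rwa [Option.some.inj he]
      · intro h
        exact ⟨y, h, rfl⟩
    have noneE' : ∀ u, none ∉ E' u := by
      rintro u ⟨z, hz, he⟩
      cases he
    have hν0 : ∀ u, ∀ o ∈ R' u, 0 ≤ ν' u o := by
      intro u o _
      cases o with
      | none => exact le_rfl
      | some y =>
        by_cases hw : Exc_WK s p m ρ u y
        · rw [hν', Exc_ν_weak s p m ρ u y hw]
          exact div_nonneg (mul_nonneg (vv_nonneg hp u y) (abs_nonneg _)) hρ.le
        · rw [hν', Exc_ν_small s p m ρ u y hw]
    -- the two kinds of states of R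
    have kinds : ∀ u y, y ∈ R u → (|al s m u y| ≤ ρ ∧ ¬ Exc_WK s p m ρ u y) ∨ Exc_WK s p m ρ u y := by
      intro u y hy
      have h := ((memR u y).1 hy).2.1
      by_cases h1 : |al s m u y| ≤ ρ
      · left
        exact ⟨h1, fun h2 => absurd h2.1 (not_lt.2 h1)⟩
      · right
        push Not at h1
        refine ⟨h1, ?_⟩
        by_contra h3
        push Not at h3
        exact h ⟨h1, h3⟩
    have hpk : c ≤ EV s' p' R' ν' (fun u o => 1 - ind E' u o) n t (some x) := by
      apply hPK (Option σ) s' p' m' R' E' ν' t n (some x) hPb' ((memR' t x).2 hxR)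
      · intro u
        rw [hR', Finset.card_map]
        exact (Finset.card_le_card (Finset.filter_subset _ _)).trans (hcard u)
      · exact hν0
      · intro u o ho
        cases o with
        | none => exact absurd ho (noneR' u)
        | some y =>
          have hy := (memR' u y).1 ho
          have hyA := ((memR u y).1 hy).1
          have hm := hMg u y hyA
          have hch := hm.child
          have hpy := hp u y
          rcases kinds u y hy with ⟨h1, h2⟩ | hw
          · refine ⟨fun b => m (u + 1) (s u y b) / ρ, ?_, ?_, ?_⟩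
            · intro b
              change |m (u + 1) (s u y b) / ρ - m u y / ρ| ≤ 1
              rw [← sub_div, abs_div, abs_of_pos hρ, div_le_one hρ]
              refine le_trans ?_ h1
              cases b with
              | false =>
                rw [hch.1, add_sub_cancel_left, abs_mul]
                have : |1 - p u y| ≤ 1 := by rw [abs_le]; constructor <;> linarith [hpy.1, hpy.2]
                nlinarith [abs_nonneg (al s m u y)]
              | true =>
                rw [hch.2]
                have e : m u y - p u y * al s m u y - m u y = -(p u y * al s m u y) := by ring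
                rw [e, abs_neg, abs_mul]
                have : |p u y| ≤ 1 := by rw [abs_le]; constructor <;> linarith [hpy.1, hpy.2]
                nlinarith [abs_nonneg (al s m u y)]
            · intro b _
              rw [hs', Exc_s_small s p m ρ u y b h2]
              rfl
            · have e0 : ν' u (some y) = 0 := Exc_ν_small s p m ρ u y h2
              rw [e0]
              have e1 : p' u (some y) * (m (u + 1) (s u y false) / ρ) +
                  (1 - p' u (some y)) * (m (u + 1) (s u y true) / ρ) - m' u (some y) = 0 := by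
                change p u y * (m (u + 1) (s u y false) / ρ) +
                  (1 - p u y) * (m (u + 1) (s u y true) / ρ) - m u y / ρ = 0
                rw [hch.1, hch.2]
                ring
              rw [e1, abs_zero]
          · have hνw : ν' u (some y) = vv p u y * |al s m u y| / ρ := Exc_ν_weak s p m ρ u y hw
            by_cases hph : p u y ≤ 1 / 2
            · have hra := Exc_ra1 p u y hph
              have hnum := Exc_num (v := vv p u y) hρ hpy.1 hph rfl hw.1 hw.2
              refine ⟨fun b => if b = false then m u y / ρ else m (u + 1) (s u y b) / ρ, ?_, ?_, ?_⟩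
              · intro b
                cases b with
                | false =>
                  change |m u y / ρ - m u y / ρ| ≤ 1
                  rw [sub_self, abs_zero]; exact zero_le_one
                | true =>
                  change |m (u + 1) (s u y true) / ρ - m u y / ρ| ≤ 1
                  rw [← sub_div, abs_div, abs_of_pos hρ, div_le_one hρ, hch.2]
                  have e : m u y - p u y * al s m u y - m u y = -(p u y * al s m u y) := by ring
                  rw [e, abs_neg, abs_mul, abs_of_nonneg hpy.1]
                  exact hnum.2.2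
              · intro b hb
                cases b with
                | false =>
                  rw [hs', Exc_s_rare s p m ρ u y false hw hra.symm] at hb
                  rcases hb with hb | hb
                  · exact absurd hb (noneR' _)
                  · exact absurd hb (noneE' _)
                | true =>
                  rw [hs', Exc_s_freq s p m ρ u y true (by rw [hra]; decide)]
                  rfl
              · rw [hνw]
                change |p u y * (m u y / ρ) + (1 - p u y) * (m (u + 1) (s u y true) / ρ) - m u y / ρ| ≤ _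
                rw [hch.2]
                have e : p u y * (m u y / ρ) + (1 - p u y) * ((m u y - p u y * al s m u y) / ρ) -
                    m u y / ρ = -(vv p u y * al s m u y / ρ) := by
                  unfold vv; ring
                rw [e, abs_neg, abs_div, abs_mul, abs_of_nonneg (vv_nonneg hp u y), abs_of_pos hρ]
            · have hra := Exc_ra2 p u y hph
              push Not at hph
              have hnum := Exc_num (v := vv p u y) (π := 1 - p u y) hρ (by linarith [hpy.2])
                (by linarith) (by unfold vv; ring) hw.1 hw.2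
              refine ⟨fun b => if b = true then m u y / ρ else m (u + 1) (s u y b) / ρ, ?_, ?_, ?_⟩
              · intro b
                cases b with
                | true =>
                  change |m u y / ρ - m u y / ρ| ≤ 1
                  rw [sub_self, abs_zero]; exact zero_le_one
                | false =>
                  change |m (u + 1) (s u y false) / ρ - m u y / ρ| ≤ 1
                  rw [← sub_div, abs_div, abs_of_pos hρ, div_le_one hρ, hch.1, add_sub_cancel_left,
                    abs_mul, abs_of_nonneg (by linarith [hpy.2] : 0 ≤ 1 - p u y)]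
                  exact hnum.2.2
              · intro b hb
                cases b with
                | true =>
                  rw [hs', Exc_s_rare s p m ρ u y true hw hra.symm] at hb
                  rcases hb with hb | hb
                  · exact absurd hb (noneR' _)
                  · exact absurd hb (noneE' _)
                | false =>
                  rw [hs', Exc_s_freq s p m ρ u y false (by rw [hra]; decide)]
                  rfl
              · rw [hνw]
                change |p u y * (m (u + 1) (s u y false) / ρ) + (1 - p u y) * (m u y / ρ) - m u y / ρ| ≤ _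
                rw [hch.1]
                have e : p u y * ((m u y + (1 - p u y) * al s m u y) / ρ) + (1 - p u y) * (m u y / ρ) -
                    m u y / ρ = vv p u y * al s m u y / ρ := by
                  unfold vv; ring
                rw [e, abs_div, abs_mul, abs_of_nonneg (vv_nonneg hp u y), abs_of_pos hρ]
      · intro u o ho
        cases o with
        | none => exact absurd ho (noneR' u)
        | some y =>
          have hy := (memR' u y).1 ho
          change |m u y / ρ - m t x / ρ| < K
          rw [← sub_div, abs_div, abs_of_pos hρ, div_lt_iff₀ hρ]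
          exact ((memR u y).1 hy).2.2
      · intro u o ho
        cases o with
        | none => exact absurd ho (noneE' u)
        | some y =>
          have hy := (memE' u y).1 ho
          change K ≤ |m u y / ρ - m t x / ρ|
          rw [← sub_div, abs_div, abs_of_pos hρ, le_div_iff₀ hρ]
          exact ((memE u y).1 hy).2.2
    have hYn : ∀ k u o, 0 ≤ EV s' p' R' ν' 0 k u o := fun k u o =>
      EV_nonneg s' hPb' R' hν0 (fun _ _ => le_rfl) k u o
    have hZn : ∀ k u o, 0 ≤ EV s' p' R' 0 (ind E') k u o := fun k u o =>
      EV_ind_nonneg s' hPb' R' E' k u o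
    have key : ∀ k : ℕ, ∀ u y, ((k ≤ n ∧ y ∈ R u) ∨ (k < n ∧ |m u y - a| ≤ (K + 1) * ρ)) →
        EV s p A (cS s p m ρ) 0 k u y ≤ (K + 1) ^ 2 * ρ ^ 2 - (m u y - a) ^ 2 +
          D * (8 * EV s p A (cN s p m ρ) 0 k u y - 2 * EV s' p' R' ν' 0 k u (some y) +
            EV s' p' R' 0 (ind E') k u (some y)) := by
      intro k
      induction k with
      | zero =>
        intro u y h
        have hab : |m u y - a| ≤ (K + 1) * ρ := by
          rcases h with h | h
          · have := ((memR u y).1 h.2).2.2
            linarith
          · exact h.2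
        have h2 := hZn 0 u (some y)
        have h3 : (m u y - a) ^ 2 ≤ (K + 1) ^ 2 * ρ ^ 2 := by
          rw [← sq_abs (m u y - a), ← mul_pow]
          exact pow_le_pow_left₀ (abs_nonneg _) hab 2
        have h4 : 0 ≤ D * EV s' p' R' 0 (ind E') 0 u (some y) := mul_nonneg hD0 h2
        rw [EV_zero s p A (cS s p m ρ), EV_zero s p A (cN s p m ρ), EV_zero s' p' R' ν']
        have h5 : (0 : ℕ → σ → ℝ) u y = 0 := rfl
        have h6 : (0 : ℕ → Option σ → ℝ) u (some y) = 0 := rfl
        rw [h5, h6]
        linarith
      | succ k ihk =>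
        intro u y h
        have hab : |m u y - a| ≤ (K + 1) * ρ := by
          rcases h with h | h
          · have := ((memR u y).1 h.2).2.2
            linarith
          · exact h.2
        have h1 := Exc_N_nonneg s hp m A hρ (k + 1) u y
        have h2 := hZn (k + 1) u (some y)
        have h3 : (m u y - a) ^ 2 ≤ (K + 1) ^ 2 * ρ ^ 2 := by
          rw [← sq_abs (m u y - a), ← mul_pow]
          exact pow_le_pow_left₀ (abs_nonneg _) hab 2
        by_cases hyR : y ∈ R u
        · have hkn : k < n := by
            rcases h with h | h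
            · omega
            · omega
          have hyA := ((memR u y).1 hyR).1
          have hya := ((memR u y).1 hyR).2.2
          have hm := hMg u y hyA
          have hpy := hp u y
          have hyR' := (memR' u y).2 hyR
          have hch := hm.child
          rw [EV_mem s p A (cS s p m ρ) 0 k u y hyA, EV_mem s p A (cN s p m ρ) 0 k u y hyA,
            EV_mem s' p' R' ν' 0 k u (some y) hyR', EV_mem s' p' R' 0 (ind E') k u (some y) hyR']
          have e3 : (0 : ℕ → Option σ → ℝ) u (some y) = 0 := rfl
          have ep : p' u (some y) = p u y := rfl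
          rw [e3, ep]
          rcases kinds u y hyR with ⟨hsm, hnw⟩ | hw
          · -- small
            have hb : ∀ b, |m (u + 1) (s u y b) - a| ≤ (K + 1) * ρ := by
              intro b
              have e : |m (u + 1) (s u y b) - m u y| ≤ ρ := by
                refine le_trans ?_ hsm
                cases b with
                | false =>
                  rw [hch.1, add_sub_cancel_left, abs_mul]
                  have : |1 - p u y| ≤ 1 := by rw [abs_le]; constructor <;> linarith [hpy.1, hpy.2]
                  nlinarith [abs_nonneg (al s m u y)]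
                | true =>
                  rw [hch.2]
                  have e : m u y - p u y * al s m u y - m u y = -(p u y * al s m u y) := by ring
                  rw [e, abs_neg, abs_mul]
                  have : |p u y| ≤ 1 := by rw [abs_le]; constructor <;> linarith [hpy.1, hpy.2]
                  nlinarith [abs_nonneg (al s m u y)]
              have : |m (u + 1) (s u y b) - a| ≤ |m (u + 1) (s u y b) - m u y| + |m u y - a| := by
                have := abs_add_le (m (u + 1) (s u y b) - m u y) (m u y - a)
                rwa [sub_add_sub_cancel] at this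
              linarith
            have i1 := ihk (u + 1) (s u y false) (Or.inr ⟨hkn, hb false⟩)
            have i2 := ihk (u + 1) (s u y true) (Or.inr ⟨hkn, hb true⟩)
            have i3 := avg_mono hp u y i1 i2
            have hsq := hm.sq a
            have e1 : cS s p m ρ u y = vv p u y * al s m u y ^ 2 := by unfold cS; rw [if_pos hsm]
            have e2 : cN s p m ρ u y = 0 := by unfold cN; rw [if_pos hsm]
            have e4 : ν' u (some y) = 0 := Exc_ν_small s p m ρ u y hnw
            have e5 : s' u (some y) false = some (s u y false) := Exc_s_small s p m ρ u y false hnw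
            have e6 : s' u (some y) true = some (s u y true) := Exc_s_small s p m ρ u y true hnw
            rw [e1, e2, e4, e5, e6]
            linarith
          · -- weak
            have e1 : cS s p m ρ u y = 0 := by unfold cS; rw [if_neg (not_le.2 hw.1)]
            have e2 : cN s p m ρ u y = vv p u y * |al s m u y| / ρ := by
              unfold cN; rw [if_neg (not_le.2 hw.1)]
            have e4 : ν' u (some y) = vv p u y * |al s m u y| / ρ := Exc_ν_weak s p m ρ u y hw
            have nY : EV s' p' R' ν' 0 k (u + 1) none = 0 := EV_not s' p' R' ν' 0 k (u + 1) none (noneR' _)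
            have nZ : EV s' p' R' 0 (ind E') k (u + 1) none = 0 := by
              rw [EV_not s' p' R' 0 (ind E') k (u + 1) none (noneR' _)]
              exact ind_not E' (u + 1) none (noneE' _)
            rw [e1, e2, e4]
            by_cases hph : p u y ≤ 1 / 2
            · have hra := Exc_ra1 p u y hph
              have hnum := Exc_num (v := vv p u y) hρ hpy.1 hph rfl hw.1 hw.2
              have hfy : |m (u + 1) (s u y true) - m u y| = p u y * |al s m u y| := by
                rw [hch.2]
                have e : m u y - p u y * al s m u y - m u y = -(p u y * al s m u y) := by ring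
                rw [e, abs_neg, abs_mul, abs_of_nonneg hpy.1]
              have hfa : |m (u + 1) (s u y true) - a| ≤ (K + 1) * ρ := by
                have := abs_add_le (m (u + 1) (s u y true) - m u y) (m u y - a)
                rw [sub_add_sub_cancel] at this
                linarith [hnum.2.2]
              have i1 := ihk (u + 1) (s u y true) (Or.inr ⟨hkn, hfa⟩)
              have i2 := ih k hkn (u + 1) (s u y false)
              have i3 := avg_mono hp u y i2 i1
              have hF := Exc_fin (a := a) hK hρ hD1 hpy.1 hnum.1 (by rw [hfy]; exact hnum.2.1) hab hfa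
              have e5 : s' u (some y) false = none := Exc_s_rare s p m ρ u y false hw hra.symm
              have e6 : s' u (some y) true = some (s u y true) :=
                Exc_s_freq s p m ρ u y true (by rw [hra]; decide)
              rw [e5, e6, nY, nZ]
              linarith
            · have hra := Exc_ra2 p u y hph
              push Not at hph
              have hnum := Exc_num (v := vv p u y) (π := 1 - p u y) hρ (by linarith [hpy.2])
                (by linarith) (by unfold vv; ring) hw.1 hw.2
              have hfy : |m (u + 1) (s u y false) - m u y| = (1 - p u y) * |al s m u y| := by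
                rw [hch.1, add_sub_cancel_left, abs_mul, abs_of_nonneg (by linarith [hpy.2] : 0 ≤ 1 - p u y)]
              have hfa : |m (u + 1) (s u y false) - a| ≤ (K + 1) * ρ := by
                have := abs_add_le (m (u + 1) (s u y false) - m u y) (m u y - a)
                rw [sub_add_sub_cancel] at this
                linarith [hnum.2.2]
              have i1 := ihk (u + 1) (s u y false) (Or.inr ⟨hkn, hfa⟩)
              have i2 := ih k hkn (u + 1) (s u y true)
              have i3 := avg_mono hp u y i1 i2
              have hF := Exc_fin (a := a) hK hρ hD1 (by linarith [hpy.2] : 0 ≤ 1 - p u y) hnum.1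
                (by rw [hfy]; exact hnum.2.1) hab hfa
              have e5 : s' u (some y) true = none := Exc_s_rare s p m ρ u y true hw hra.symm
              have e6 : s' u (some y) false = some (s u y false) :=
                Exc_s_freq s p m ρ u y false (by rw [hra]; decide)
              rw [e5, e6, nY, nZ]
              linarith
        · have hkn : k + 1 < n := by
            rcases h with h | h
            · exact absurd h.2 hyR
            · exact h.1
          have hyR' : some y ∉ R' u := fun h' => hyR ((memR' u y).1 h')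
          have hY0 : EV s' p' R' ν' 0 (k + 1) u (some y) = 0 :=
            EV_not s' p' R' ν' 0 (k + 1) u (some y) hyR'
          rw [hY0]
          by_cases hyA : y ∈ A u
          · by_cases hys : ρ < |al s m u y| ∧ 1 / 4 ≤ vv p u y * |al s m u y| / ρ
            · have := Exc_L s hp m A ρ D hD0 n ih (k + 1) hkn.le u y hyA hys.1 hys.2
              have h4 : 0 ≤ D * EV s' p' R' 0 (ind E') (k + 1) u (some y) := mul_nonneg hD0 h2
              linarith
            · have hyE : y ∈ E u := by
                rw [memE]
                refine ⟨hyA, hys, ?_⟩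
                by_contra hcon
                push Not at hcon
                exact hyR ((memR u y).2 ⟨hyA, hys, hcon⟩)
              rw [EV_not s' p' R' 0 (ind E') (k + 1) u (some y) hyR',
                ind_mem E' u (some y) ((memE' u y).2 hyE)]
              have := ih (k + 1) hkn u y
              linarith
          · rw [EV_not s p A (cS s p m ρ) 0 (k + 1) u y hyA]
            have h4 : 0 ≤ D * (8 * EV s p A (cN s p m ρ) 0 (k + 1) u y +
                EV s' p' R' 0 (ind E') (k + 1) u (some y)) :=
              mul_nonneg hD0 (by linarith)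
            have h5 : (0 : ℕ → σ → ℝ) u y = 0 := rfl
            rw [h5]
            linarith
    have hfin := key n t x (Or.inl ⟨le_rfl, hxR⟩)
    have hz : m t x - a = 0 := by rw [ha]; ring
    rw [hz] at hfin
    rw [EV_sep s' p' R' ν' (fun u o => 1 - ind E' u o), EV_compl s' p' R' (ind E')] at hpk
    have h6 := mul_le_mul_of_nonneg_left hpk hD0
    have h7 := mul_nonneg hD0 (hYn n t (some x))
    linarith

end Pool.Agent.MP3145b1.RC
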