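import Pool.Agent.Lib.MP_3145b1_co.RC.SpecF

/-!
# MP_3145b1_co, project RC, Fix: read-once at all nodes (relabelling of unreachable nodes)
-/

set_option autoImplicit false

namespace Pool.Agent.MP3145b1.RC

open Finset Pool.Agent.MP3145b1

/-- a path depends on the bits before the time only -/
private theorem Fix_path {w : ℕ} (s : ℕ → Fin w → Bool → Fin w) (x0 : Fin w) (b b' : ℕ → Bool) (t : ℕ)
    (h : ∀ i, i < t → b i = b' i) : path s x0 b t = path s x0 b' t := by
  induction t with
  | zero => rfl
  | succ t ih =>
    show s t (path s x0 b t) (b t) = s t (path s x0 b' t) (b' t)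
    rw [ih (fun i hi => h i (by omega)), h t (by omega)]

private theorem Fix_reach {w : ℕ} (s : ℕ → Fin w → Bool → Fin w) (v' : ℕ → Fin w → ℕ) (x0 : Fin w)
    (k : ℕ) : ∀ (t : ℕ) (x : Fin w) (b0 : ℕ → Bool) (a : ℕ), path s x0 b0 t = x → a ∈ rd s v' k t x →
      ∃ b1 : ℕ → Bool, (∀ i, i < t → b1 i = b0 i) ∧ ∃ j, t ≤ j ∧ j < t + k ∧ a = v' j (path s x0 b1 j) := by
  induction k with
  | zero =>
    intro t x b0 a _ ha
    exact absurd ha (Finset.notMem_empty a)
  | succ k ih =>
    intro t x b0 a hx ha
    simp only [rd, Finset.mem_insert, Finset.mem_union] at ha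
    have hstep : ∀ c : Bool, a ∈ rd s v' k (t + 1) (s t x c) →
        ∃ b1 : ℕ → Bool, (∀ i, i < t → b1 i = b0 i) ∧
          ∃ j, t ≤ j ∧ j < t + (k + 1) ∧ a = v' j (path s x0 b1 j) := by
      intro c hc
      have h1 : path s x0 (Function.update b0 t c) t = x := by
        rw [← hx]
        apply Fix_path
        intro i hi
        exact Function.update_of_ne (by omega) _ _
      have h2 : path s x0 (Function.update b0 t c) (t + 1) = s t x c := by
        show s t (path s x0 (Function.update b0 t c) t) (Function.update b0 t c t) = s t x c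
        rw [h1, Function.update_self]
      obtain ⟨b1, hb1, j, hj1, hj2, hj3⟩ := ih (t + 1) (s t x c) (Function.update b0 t c) a h2 hc
      refine ⟨b1, ?_, j, by omega, by omega, hj3⟩
      intro i hi
      rw [hb1 i (by omega)]
      exact Function.update_of_ne (by omega) _ _
    rcases ha with ha | ha | ha
    · refine ⟨b0, fun _ _ => rfl, t, le_rfl, by omega, ?_⟩
      rw [hx]
      exact ha
    · exact hstep false ha
    · exact hstep true ha

private theorem Fix_sep {w : ℕ} (s : ℕ → Fin w → Bool → Fin w) (v' : ℕ → Fin w → ℕ) (M0 : ℕ)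
    (hv : ∀ t x, v' t x < M0 ∨ v' t x = M0 + t) (k : ℕ) : ∀ (t : ℕ) (x : Fin w) (a : ℕ),
      a ∈ rd s v' k t x → a < M0 ∨ M0 + t ≤ a := by
  induction k with
  | zero =>
    intro t x a ha
    exact absurd ha (Finset.notMem_empty a)
  | succ k ih =>
    intro t x a ha
    simp only [rd, Finset.mem_insert, Finset.mem_union] at ha
    rcases ha with ha | ha | ha
    · rcases hv t x with h | h
      · left
        omega
      · right
        omega
    · rcases ih _ _ _ ha with h | h
      · exact Or.inl h
      · right
        omega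
    · rcases ih _ _ _ ha with h | h
      · exact Or.inl h
      · right
        omega

private theorem Fix_run {w : ℕ} (s : ℕ → Fin w → Bool → Fin w) (v : ℕ → Fin w → ℕ) (x0 : Fin w)
    (y : ℕ → Bool) (t : ℕ) :
    path s x0 (fun i => y (v i (run s v x0 y i))) t = run s v x0 y t := by
  induction t with
  | zero => rfl
  | succ t ih =>
    show s t (path s x0 (fun i => y (v i (run s v x0 y i))) t) (y (v t (run s v x0 y t))) =
      s t (run s v x0 y t) (y (v t (run s v x0 y t)))
    rw [ih]

theorem rFix : S_Fix := by
  classical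
  intro w n s v x0 hr
  obtain ⟨M0, hM0⟩ : ∃ M0 : ℕ, ∀ t, t < n → ∀ x : Fin w, v t x < M0 := by
    refine ⟨((range n ×ˢ (univ : Finset (Fin w))).sup fun z => v z.1 z.2) + 1, ?_⟩
    intro t ht x
    have h1 : (t, x) ∈ range n ×ˢ (univ : Finset (Fin w)) := by
      rw [Finset.mem_product]
      exact ⟨Finset.mem_range.mpr ht, Finset.mem_univ x⟩
    have h2 := Finset.le_sup (f := fun z : ℕ × Fin w => v z.1 z.2) h1
    exact Nat.lt_succ_of_le h2
  obtain ⟨v', hv'⟩ : ∃ v' : ℕ → Fin w → ℕ, ∀ t x, v' t x =
      if t < n then (if ∃ b, path s x0 b t = x then v t x else M0 + 1 + t) else 0 :=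
    ⟨_, fun _ _ => rfl⟩
  have hreach : ∀ t x, t < n → (∃ b, path s x0 b t = x) → v' t x = v t x := by
    intro t x ht hb
    rw [hv', if_pos ht, if_pos hb]
  have hnot : ∀ t x, t < n → ¬ (∃ b, path s x0 b t = x) → v' t x = M0 + 1 + t := by
    intro t x ht hb
    rw [hv', if_pos ht, if_neg hb]
  have hcase : ∀ t x, v' t x < M0 + 1 ∨ v' t x = M0 + 1 + t := by
    intro t x
    by_cases ht : t < n
    · by_cases hb : ∃ b, path s x0 b t = x
      · left
        rw [hreach t x ht hb]
        have := hM0 t ht x
        omega
      · right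
        exact hnot t x ht hb
    · left
      rw [hv', if_neg ht]
      omega
  refine ⟨M0 + 1, M0 + 1 + n + 1, v', ?_, ?_, ?_⟩
  · intro t x
    by_cases ht : t < n
    · rcases hcase t x with h | h <;> omega
    · rw [hv', if_neg ht]
      omega
  · intro t x b ht hmem
    by_cases hb : ∃ b, path s x0 b t = x
    · obtain ⟨b0, hb0⟩ := hb
      have h1 : path s x0 (Function.update b0 t b) t = x := by
        rw [← hb0]
        apply Fix_path
        intro i hi
        exact Function.update_of_ne (by omega) _ _
      have h2 : path s x0 (Function.update b0 t b) (t + 1) = s t x b := by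
        show s t (path s x0 (Function.update b0 t b) t) (Function.update b0 t b t) = s t x b
        rw [h1, Function.update_self]
      obtain ⟨b1, hb1, j, hj1, hj2, hj3⟩ := Fix_reach s v' x0 _ _ _ _ _ h2 hmem
      have h3 : path s x0 b1 t = x := by
        rw [← h1]
        apply Fix_path
        intro i hi
        exact hb1 i (by omega)
      have hjn : j < n := by omega
      rw [hreach t x ht ⟨b0, hb0⟩, hreach j _ hjn ⟨b1, rfl⟩, ← h3] at hj3
      exact hr b1 t j (by omega) hjn hj3
    · have h1 := hnot t x ht hb
      rcases Fix_sep s v' (M0 + 1) hcase _ _ _ _ hmem with h | h <;> omega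
  · intro y y' hyy
    have hrun : ∀ i, i ≤ n → run s v' x0 y' i = run s v x0 y i := by
      intro i
      induction i with
      | zero => intro _; rfl
      | succ i ih =>
        intro hi
        have h1 := ih (by omega)
        show s i (run s v' x0 y' i) (y' (v' i (run s v' x0 y' i))) =
          s i (run s v x0 y i) (y (v i (run s v x0 y i)))
        rw [h1, hreach i (run s v x0 y i) (by omega) ⟨_, Fix_run s v x0 y i⟩,
          hyy (v i (run s v x0 y i)) (by have := hM0 i (by omega) (run s v x0 y i); omega)]
    exact hrun n le_rfl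

end Pool.Agent.MP3145b1.RC
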