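import Pool.Agent.Lib.MP_3145b1_co.RC.SpecF

/-!
# MP_3145b1_co, project RC: entropy and influence of a composition
-/

set_option autoImplicit false

namespace Pool.Agent.MP3145b1.RC

open Finset Pool.Agent.MP3145b1

private theorem Fml_split (M i : ℕ) (hi : i < M) (f : Finset ℕ → ℝ) :
    ∑ T ∈ (range M).powerset, f T = ∑ T ∈ ((range M).erase i).powerset, (f T + f (insert i T)) := by
  have h : range M = insert i ((range M).erase i) := by
    rw [Finset.insert_erase (Finset.mem_range.2 hi)]
  conv_lhs => rw [h]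
  rw [Finset.sum_powerset_insert (Finset.notMem_erase i _), Finset.sum_add_distrib]

private theorem Fml_filter (M i : ℕ) :
    (range M).powerset.filter (fun T => i ∉ T) = ((range M).erase i).powerset := by
  ext T
  rw [Finset.mem_filter, Finset.mem_powerset, Finset.mem_powerset, Finset.subset_erase]

private theorem Fml_hh0 : hh 0 = 0 := by
  unfold hh
  simp

private theorem Fml_hhmul (x y : ℝ) : hh (x * y) = y * hh x + x * hh y := by
  unfold hh
  exact Real.negMulLog_mul x y

private theorem Fml_Lp_sq {N : ℕ} (P : ℕ → Finset (Fin N)) (M : ℕ) (ψ : ℕ → Finset (Fin N) → ℝ)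
    (S : Finset (Fin N)) : Lp P M ψ S ^ 2 = Lp P M (fun i R => ψ i R ^ 2) S := by
  unfold Lp
  split_ifs
  · rw [Finset.prod_pow]
  · norm_num

private theorem Fml_TT0 {N : ℕ} (P : ℕ → Finset (Fin N)) (M : ℕ) : TT P M ∅ = ∅ := by
  unfold TT
  apply Finset.filter_eq_empty_iff.2
  intro i _ h
  rw [Finset.empty_inter] at h
  exact Finset.not_nonempty_empty h

private theorem Fml_Lp0 {N : ℕ} (P : ℕ → Finset (Fin N)) (M : ℕ) (ψ : ℕ → Finset (Fin N) → ℝ) :
    Lp P M ψ ∅ = 1 := by
  unfold Lp
  rw [if_pos (Finset.empty_subset _), Fml_TT0, Finset.prod_empty]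

/-- the term of the block `i` -/
private noncomputable def Fml_G {N : ℕ} (P : ℕ → Finset (Fin N)) (M : ℕ) (a θ : ℕ → Finset (Fin N) → ℝ)
    (c : Finset ℕ → ℝ) (i : ℕ) (S : Finset (Fin N)) : ℝ :=
  if S ⊆ (range M).biUnion P then
    (if i ∈ TT P M S then θ i (S ∩ P i) * (∏ j ∈ (TT P M S).erase i, a j (S ∩ P j)) *
      c (TT P M S) else 0)
  else 0

private theorem Fml_Geq {N : ℕ} (P : ℕ → Finset (Fin N)) (M : ℕ) (a θ : ℕ → Finset (Fin N) → ℝ)
    (c : Finset ℕ → ℝ) (i : ℕ) (S : Finset (Fin N)) :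
    Fml_G P M a θ c i S = Lp P M (fun j R => if j = i then θ j R else a j R) S *
      (fun T => if i ∈ T then c T else 0) (TT P M S) := by
  unfold Fml_G Lp
  by_cases h : S ⊆ (range M).biUnion P
  · rw [if_pos h, if_pos h]
    by_cases hi : i ∈ TT P M S
    · simp only [if_pos hi]
      congr 1
      rw [← Finset.mul_prod_erase _ _ hi, if_pos rfl]
      congr 1
      apply Finset.prod_congr rfl
      intro j hj
      rw [if_neg (Finset.ne_of_mem_erase hj)]
    · simp only [if_neg hi]
      rw [mul_zero]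
  · rw [if_neg h, if_neg h, zero_mul]

/-- the general fact (G) -/
private theorem Fml_Gsum (h1 : S_Smm) {N : ℕ} (M : ℕ) (P : ℕ → Finset (Fin N))
    (hP : ∀ i j, i ≠ j → Disjoint (P i) (P j)) (p : ℕ → ℝ) (a θ : ℕ → Finset (Fin N) → ℝ)
    (ha : ∀ i, ∑ R ∈ (P i).powerset.erase ∅, a i R = 4 * (p i * (1 - p i)))
    (c : Finset ℕ → ℝ) (i : ℕ) (hi : i < M) :
    ∑ S : Finset (Fin N), Fml_G P M a θ c i S = (∑ R ∈ (P i).powerset.erase ∅, θ i R) *
      ∑ T ∈ (range M).powerset.filter (fun T => i ∉ T), wt p T * c (insert i T) := by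
  rw [Finset.sum_congr rfl (fun S _ => Fml_Geq P M a θ c i S)]
  refine (h1 N M P hP (fun j R => if j = i then θ j R else a j R)
    (fun T => if i ∈ T then c T else 0)).trans ?_
  rw [Fml_split M i hi, Fml_filter, Finset.mul_sum]
  apply Finset.sum_congr rfl
  intro T hT
  have hiT : i ∉ T := fun h => Finset.notMem_erase i (range M) (Finset.mem_powerset.1 hT h)
  rw [if_neg hiT, if_pos (Finset.mem_insert_self i T), mul_zero, zero_add,
    Finset.prod_insert hiT]
  have e1 : ∑ R ∈ (P i).powerset.erase ∅, (if i = i then θ i R else a i R) =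
      ∑ R ∈ (P i).powerset.erase ∅, θ i R := by
    simp only [if_true]
  have e2 : ∏ j ∈ T, ∑ R ∈ (P j).powerset.erase ∅, (if j = i then θ j R else a j R) = wt p T := by
    unfold wt
    apply Finset.prod_congr rfl
    intro j hj
    have hji : j ≠ i := fun h => hiT (h ▸ hj)
    rw [← ha j]
    apply Finset.sum_congr rfl
    intro R _
    rw [if_neg hji]
  rw [e1, e2]
  ring

private theorem Fml_card {N : ℕ} (P : ℕ → Finset (Fin N)) (hP : ∀ i j, i ≠ j → Disjoint (P i) (P j))
    (M : ℕ) (S : Finset (Fin N)) (hS : S ⊆ (range M).biUnion P) :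
    (S.card : ℝ) = ∑ i ∈ TT P M S, ((S ∩ P i).card : ℝ) := by
  have h1 : S = (TT P M S).biUnion (fun i => S ∩ P i) := by
    ext b
    rw [Finset.mem_biUnion]
    constructor
    · intro hb
      obtain ⟨i, hi, hbi⟩ := Finset.mem_biUnion.1 (hS hb)
      refine ⟨i, ?_, Finset.mem_inter.2 ⟨hb, hbi⟩⟩
      unfold TT
      exact Finset.mem_filter.2 ⟨hi, ⟨b, Finset.mem_inter.2 ⟨hb, hbi⟩⟩⟩
    · rintro ⟨i, _, hb⟩
      exact (Finset.mem_inter.1 hb).1
  have h2 : ((TT P M S).biUnion (fun i => S ∩ P i)).card = ∑ i ∈ TT P M S, (S ∩ P i).card := by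
    apply Finset.card_biUnion
    intro i _ j _ hij
    exact Finset.disjoint_of_subset_left Finset.inter_subset_right
      (Finset.disjoint_of_subset_right Finset.inter_subset_right (hP i j hij))
  rw [← h1] at h2
  rw [h2]
  push_cast
  rfl

theorem rFml (h1 : S_Smm) (h2 : S_Cfo) (h3 : S_Vsm) (h4 : S_Hpr) : S_Fml := by
  intro w N M n s v o x P u hC hM hr
  have hP := hC.1
  have hcf : ∀ S, coeff (Fs s v o u n 0 x) S ^ 2 =
      Lp P M (fun i R => coeff (u i) R ^ 2) S * Cf s v (pb u) o (TT P M S) n 0 x ^ 2 := by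
    intro S
    rw [h2 w N M n s v o P u hC hM hr n 0 (by omega) x S, mul_pow, Fml_Lp_sq]
  have ha : ∀ i, ∑ R ∈ (P i).powerset.erase ∅, coeff (u i) R ^ 2 = 4 * (pb u i * (1 - pb u i)) :=
    fun i => (h3 N P u hC i).2.2.1
  have hsum : ∀ (i : ℕ) (c : Finset ℕ → ℝ), i ∈ range M → ∀ (θ : ℕ → Finset (Fin N) → ℝ),
      ∑ S : Finset (Fin N), Fml_G P M (fun i R => coeff (u i) R ^ 2) θ c i S =
      (∑ R ∈ (P i).powerset.erase ∅, θ i R) *
        ∑ T ∈ (range M).powerset.filter (fun T => i ∉ T), wt (pb u) T * c (insert i T) :=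
    fun i c hi θ => Fml_Gsum h1 M P hP (pb u) _ θ ha c i (Finset.mem_range.1 hi)
  have hTT : ∀ S, TT P M S ⊆ range M := fun S => Finset.filter_subset _ _
  refine ⟨?_, ?_, ?_, ?_⟩
  · -- entropy
    have e1 : ∀ S : Finset (Fin N), hh (coeff (Fs s v o u n 0 x) S ^ 2) =
        Lp P M (fun i R => coeff (u i) R ^ 2) S * hh (Cf s v (pb u) o (TT P M S) n 0 x ^ 2) +
        ∑ i ∈ range M, Fml_G P M (fun i R => coeff (u i) R ^ 2) (fun i R => hh (coeff (u i) R ^ 2))
          (fun T => Cf s v (pb u) o T n 0 x ^ 2) i S := by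
      intro S
      rw [hcf S, Fml_hhmul, add_comm]
      congr 1
      by_cases hS : S ⊆ (range M).biUnion P
      · have l1 : Lp P M (fun i R => coeff (u i) R ^ 2) S =
            ∏ i ∈ TT P M S, coeff (u i) (S ∩ P i) ^ 2 := by
          unfold Lp
          rw [if_pos hS]
        rw [l1, h4, Finset.mul_sum]
        unfold Fml_G
        simp only [if_pos hS]
        rw [← Finset.sum_filter, Finset.filter_mem_eq_inter, Finset.inter_eq_right.2 (hTT S)]
        apply Finset.sum_congr rfl
        intro i _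
        ring
      · have l1 : Lp P M (fun i R => coeff (u i) R ^ 2) S = 0 := by
          unfold Lp
          rw [if_neg hS]
        rw [l1, Fml_hh0, mul_zero]
        symm
        apply Finset.sum_eq_zero
        intro i _
        unfold Fml_G
        rw [if_neg hS]
    rw [Finset.sum_congr rfl (fun S _ => e1 S), Finset.sum_add_distrib]
    congr 1
    · rw [h1 N M P hP (fun i R => coeff (u i) R ^ 2) (fun T => hh (Cf s v (pb u) o T n 0 x ^ 2))]
      apply Finset.sum_congr rfl
      intro T _
      congr 1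
      unfold wt
      exact Finset.prod_congr rfl fun i _ => ha i
    · rw [Finset.sum_comm]
      apply Finset.sum_congr rfl
      intro i hi
      rw [hsum i _ hi, (h3 N P u hC i).2.2.2.1]
      rfl
  · -- influence
    unfold influence
    have e1 : ∀ S : Finset (Fin N), (S.card : ℝ) * coeff (Fs s v o u n 0 x) S ^ 2 =
        ∑ i ∈ range M, Fml_G P M (fun i R => coeff (u i) R ^ 2)
          (fun i R => (R.card : ℝ) * coeff (u i) R ^ 2)
          (fun T => Cf s v (pb u) o T n 0 x ^ 2) i S := by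
      intro S
      rw [hcf S]
      by_cases hS : S ⊆ (range M).biUnion P
      · have l1 : Lp P M (fun i R => coeff (u i) R ^ 2) S =
            ∏ i ∈ TT P M S, coeff (u i) (S ∩ P i) ^ 2 := by
          unfold Lp
          rw [if_pos hS]
        rw [l1, Fml_card P hP M S hS, Finset.sum_mul]
        unfold Fml_G
        simp only [if_pos hS]
        rw [← Finset.sum_filter, Finset.filter_mem_eq_inter, Finset.inter_eq_right.2 (hTT S)]
        apply Finset.sum_congr rfl
        intro i hi
        rw [← Finset.mul_prod_erase _ _ hi]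
        ring
      · have l1 : Lp P M (fun i R => coeff (u i) R ^ 2) S = 0 := by
          unfold Lp
          rw [if_neg hS]
        rw [l1, zero_mul, mul_zero]
        symm
        apply Finset.sum_eq_zero
        intro i _
        unfold Fml_G
        rw [if_neg hS]
    rw [Finset.sum_congr rfl (fun S _ => e1 S), Finset.sum_comm]
    apply Finset.sum_congr rfl
    intro i hi
    rw [hsum i _ hi, (h3 N P u hC i).2.2.2.2]
    rfl
  · -- the program
    have e1 : ∀ T ∈ (range M).powerset, (T.card : ℝ) * (wt (pb u) T * Cf s v (pb u) o T n 0 x ^ 2) =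
        ∑ i ∈ range M, if i ∈ T then wt (pb u) T * Cf s v (pb u) o T n 0 x ^ 2 else 0 := by
      intro T hT
      rw [← Finset.sum_filter, Finset.filter_mem_eq_inter,
        Finset.inter_eq_right.2 (Finset.mem_powerset.1 hT), Finset.sum_const, nsmul_eq_mul]
    rw [Finset.sum_congr rfl e1, Finset.sum_comm]
    apply Finset.sum_congr rfl
    intro i hi
    unfold Qi
    rw [Fml_split M i (Finset.mem_range.1 hi), Fml_filter, Finset.mul_sum]
    apply Finset.sum_congr rfl
    intro T hT
    have hiT : i ∉ T := fun h => Finset.notMem_erase i (range M) (Finset.mem_powerset.1 hT h)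
    rw [if_neg hiT, if_pos (Finset.mem_insert_self i T), zero_add, wt_insert _ _ _ hiT]
    ring
  · rw [h2 w N M n s v o P u hC hM hr n 0 (by omega) x ∅, Fml_Lp0, Fml_TT0, one_mul]

end Pool.Agent.MP3145b1.RC
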