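import Pool.Agent.Lib.MP_3145b1_co.RC.SpecF

/-!
# MP_3145b1_co, project RC: product rule for `hh`
-/

set_option autoImplicit false

namespace Pool.Agent.MP3145b1.RC

open Finset Pool.Agent.MP3145b1

private theorem Hpr_mul (a b : ℝ) : hh (a * b) = b * hh a + a * hh b := by
  unfold hh
  exact Real.negMulLog_mul a b

/-- the product rule for `hh` -/
theorem rHpr : S_Hpr := by
  intro T a
  induction T using Finset.induction_on with
  | empty => simp [hh]
  | insert i T hi ih =>
    rw [Finset.prod_insert hi, Hpr_mul, ih, Finset.sum_insert hi, Finset.erase_insert hi,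
      Finset.mul_sum]
    have h2 : ∀ j ∈ T, a i * (hh (a j) * ∏ l ∈ T.erase j, a l) =
        hh (a j) * ∏ l ∈ (insert i T).erase j, a l := by
      intro j hj
      have hij : i ≠ j := by
        rintro rfl
        exact hi hj
      have hn : i ∉ T.erase j := fun h => hi (Finset.mem_of_mem_erase h)
      rw [Finset.erase_insert_of_ne hij, Finset.prod_insert hn]
      ring
    rw [Finset.sum_congr rfl h2]
    ring

end Pool.Agent.MP3145b1.RC
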