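import Pool.Agent.Lib.MP_3145b1_co.RC.SpecM

/-!
# MP_3145b1_co, project RC: variation against the second moment (biased coins)
-/

set_option autoImplicit false

namespace Pool.Agent.MP3145b1.RC

open Finset

private theorem MF3_e {σ : Type} (s : ℕ → σ → Bool → σ) {p : ℕ → σ → ℝ} (hp : Pb p) (m : ℕ → σ → ℝ)
    (v : ℕ) (z : σ) : 0 ≤ vv p v z * al s m v z ^ 2 :=
  mul_nonneg (vv_nonneg hp v z) (sq_nonneg _)

/-- the cost of a small step -/
private theorem MF3_small (ε V α μ a : ℝ) (hε : 0 < ε) (hV : 0 ≤ V) (h : |μ| ≤ 3 * a / 2) :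
    V * (|α| ^ (2 - ε) * |μ| ^ ε) ≤ (3 * a / 2) ^ ε * (V * |α| ^ (2 - ε)) := by
  have h1 : |μ| ^ ε ≤ (3 * a / 2) ^ ε := Real.rpow_le_rpow (abs_nonneg _) h hε.le
  have h2 : 0 ≤ V * |α| ^ (2 - ε) := mul_nonneg hV (Real.rpow_nonneg (abs_nonneg _) _)
  have h3 := mul_le_mul_of_nonneg_left h1 h2
  linarith

/-- the cost of a large step -/
private theorem MF3_large (ε V α μ a : ℝ) (hε : 0 < ε) (hε1 : ε ≤ 1 / 2) (hV : 0 ≤ V) (ha : 0 < a)
    (h : |μ| ≤ 3 * a / 2) (h2 : a < |α|) :
    V * (|α| ^ (2 - ε) * |μ| ^ ε) ≤ 9 / 4 * (V * α ^ 2) := by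
  have hM : 0 < 3 / 2 * |α| := by linarith
  have h3 : |μ| ^ ε ≤ (3 / 2 * |α|) ^ ε := Real.rpow_le_rpow (abs_nonneg _) (by linarith) hε.le
  have h4 : |α| ^ (2 - ε) ≤ (3 / 2 * |α|) ^ (2 - ε) :=
    Real.rpow_le_rpow (abs_nonneg _) (by linarith) (by linarith)
  have h5 : |α| ^ (2 - ε) * |μ| ^ ε ≤ (3 / 2 * |α|) ^ (2 - ε) * (3 / 2 * |α|) ^ ε :=
    mul_le_mul h4 h3 (Real.rpow_nonneg (abs_nonneg _) _) (Real.rpow_nonneg hM.le _)
  have h6 : (3 / 2 * |α|) ^ (2 - ε) * (3 / 2 * |α|) ^ ε = 9 / 4 * α ^ 2 := by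
    rw [← Real.rpow_add hM]
    have e : (2 : ℝ) - ε + ε = ((2 : ℕ) : ℝ) := by push_cast; ring
    rw [e, Real.rpow_natCast, mul_pow, sq_abs]
    ring
  rw [h6] at h5
  have h7 := mul_le_mul_of_nonneg_left h5 hV
  linarith

open Classical in
/-- the induction step for a state with value different from 0 -/
private theorem MF3_step (w : ℕ) (ε C : ℝ) (hε : 0 < ε) (hε1 : ε ≤ 1 / 2) (hC : 1 ≤ C)
    (hVR : VR w ε C) (σ : Type) (s : ℕ → σ → Bool → σ) (p : ℕ → σ → ℝ) (m : ℕ → σ → ℝ)
    (A : ℕ → Finset σ) (hp : Pb p) (hw : ∀ u, (A u).card ≤ w) (hM : ∀ u, ∀ y ∈ A u, Mg s p m u y)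
    (n : ℕ)
    (IH : ∀ k, k < n → ∀ v z,
      EV s p A (fun u y => vv p u y * (|al s m u y| ^ (2 - ε) * |m u y| ^ ε)) 0 k v z ≤
        16 * C * EV s p A 0 (fun u y => m u y ^ 2) k v z - 10 * C * m v z ^ 2)
    (u : ℕ) (y : σ) (hy : y ∈ A u) (a : ℝ) (ha : 0 < a) (hay : |m u y| = a) :
    EV s p A (fun u y => vv p u y * (|al s m u y| ^ (2 - ε) * |m u y| ^ ε)) 0 n u y ≤
        16 * C * EV s p A 0 (fun u y => m u y ^ 2) n u y - 10 * C * m u y ^ 2 := by
  obtain ⟨R, hR⟩ : ∃ R : ℕ → Finset σ, R = fun v => (A v).filter (fun z => |m v z - m u y| < a / 2) :=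
    ⟨_, rfl⟩
  have hmem : ∀ v z, z ∈ R v ↔ z ∈ A v ∧ |m v z - m u y| < a / 2 := by
    intro v z
    rw [hR]
    exact Finset.mem_filter
  have hsq : m u y ^ 2 = a ^ 2 := by rw [← hay, sq_abs]
  -- near values
  have hnear : ∀ v z, |m v z - m u y| < a / 2 → a ^ 2 / 4 ≤ m v z ^ 2 ∧ |m v z| ≤ 3 * a / 2 := by
    intro v z h
    have h1 : |m u y| - |m v z| ≤ |m u y - m v z| := abs_sub_abs_le_abs_sub _ _
    have h2 : |m v z| - |m u y| ≤ |m v z - m u y| := abs_sub_abs_le_abs_sub _ _
    rw [abs_sub_comm] at h1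
    rw [hay] at h1 h2
    have h3 : a / 2 ≤ |m v z| := by linarith
    refine ⟨?_, by linarith⟩
    rw [← sq_abs (m v z)]
    nlinarith
  obtain ⟨F, hF⟩ : ∃ F : ℕ → ℕ → σ → ℝ, F = EV s p A
    (fun u y => vv p u y * (|al s m u y| ^ (2 - ε) * |m u y| ^ ε)) 0 := ⟨_, rfl⟩
  obtain ⟨Q, hQ⟩ : ∃ Q : ℕ → ℕ → σ → ℝ, Q = EV s p A 0 (fun u y => m u y ^ 2) := ⟨_, rfl⟩
  obtain ⟨c1, hc1⟩ : ∃ c1 : ℕ → σ → ℝ, c1 = fun v z => (3 * a / 2) ^ ε *
    (if |al s m v z| ≤ a then cP s p m ε v z else 0) := ⟨_, rfl⟩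
  obtain ⟨c2, hc2⟩ : ∃ c2 : ℕ → σ → ℝ, c2 = fun v z => if |al s m v z| ≤ a then 0 else
    3 / 2 * C * (vv p v z * al s m v z ^ 2) := ⟨_, rfl⟩
  rw [← hF, ← hQ] at IH
  rw [← hF, ← hQ]
  have key : ∀ k, k ≤ n → ∀ v z, (z ∈ R v ∨ k < n) →
      F k v z ≤ EV s p R c1 0 k v z - EV s p R c2 0 k v z + 16 * C * Q k v z - 10 * C * m v z ^ 2 -
        6 * C * (a ^ 2 / 4 - (m v z - m u y) ^ 2) := by
    intro k
    induction k with
    | zero =>
      intro _ v z hz
      have hF0 : F 0 v z = 0 := by rw [hF]; rfl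
      have hQ0 : Q 0 v z = m v z ^ 2 := by rw [hQ]; rfl
      have hE1 : EV s p R c1 0 0 v z = 0 := rfl
      have hE2 : EV s p R c2 0 0 v z = 0 := rfl
      rw [hF0, hQ0, hE1, hE2]
      by_cases h : |m v z - m u y| < a / 2
      · have h1 := (hnear v z h).1
        have h2 : 0 ≤ (m v z - m u y) ^ 2 := sq_nonneg _
        nlinarith
      · have h1 : a ^ 2 / 4 ≤ (m v z - m u y) ^ 2 := by
          rw [← sq_abs (m v z - m u y)]
          nlinarith [not_lt.1 h]
        have h2 : 0 ≤ m v z ^ 2 := sq_nonneg _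
        nlinarith
    | succ k ih =>
      intro hk v z hz
      by_cases hzR : z ∈ R v
      · obtain ⟨hzA, hzn⟩ := (hmem v z).1 hzR
        have i0 := ih (by omega) (v + 1) (s v z false) (Or.inr (by omega))
        have i1 := ih (by omega) (v + 1) (s v z true) (Or.inr (by omega))
        have i2 := avg_mono hp v z i0 i1
        have hF1 : F (k + 1) v z = vv p v z * (|al s m v z| ^ (2 - ε) * |m v z| ^ ε) +
            (p v z * F k (v + 1) (s v z false) + (1 - p v z) * F k (v + 1) (s v z true)) := by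
          rw [hF]
          exact EV_mem _ _ _ _ _ _ _ _ hzA
        have hQ1 : Q (k + 1) v z =
            (p v z * Q k (v + 1) (s v z false) + (1 - p v z) * Q k (v + 1) (s v z true)) := by
          rw [hQ, EV_mem _ _ _ _ _ _ _ _ hzA]
          simp only [Pi.zero_apply, zero_add]
        have hE1 := EV_mem s p R c1 0 k v z hzR
        have hE2 := EV_mem s p R c2 0 k v z hzR
        have s0 := (hM v z hzA).sq 0
        have s1 := (hM v z hzA).sq (m u y)
        simp only [sub_zero] at s0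
        have he := MF3_e s hp m v z
        have hCe : vv p v z * al s m v z ^ 2 ≤ C * (vv p v z * al s m v z ^ 2) := by
          have := mul_le_mul_of_nonneg_right hC he
          linarith
        have hcost : vv p v z * (|al s m v z| ^ (2 - ε) * |m v z| ^ ε) ≤
            c1 v z - c2 v z + 4 * C * (vv p v z * al s m v z ^ 2) := by
          rw [hc1, hc2]
          by_cases hal : |al s m v z| ≤ a
          · simp only [hal, if_true]
            have := MF3_small ε (vv p v z) (al s m v z) (m v z) a hε (vv_nonneg hp v z)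
              (hnear v z hzn).2
            unfold cP
            linarith
          · simp only [hal, if_false]
            have := MF3_large ε (vv p v z) (al s m v z) (m v z) a hε hε1 (vv_nonneg hp v z) ha
              (hnear v z hzn).2 (not_le.1 hal)
            linarith
        rw [hF1, hQ1, hE1, hE2]
        have e0 : C * (p v z * m (v + 1) (s v z false) ^ 2 + (1 - p v z) * m (v + 1) (s v z true) ^ 2) =
            C * (m v z ^ 2 + vv p v z * al s m v z ^ 2) := by rw [s0]
        have e1 : C * (p v z * (m (v + 1) (s v z false) - m u y) ^ 2 +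
            (1 - p v z) * (m (v + 1) (s v z true) - m u y) ^ 2) =
            C * ((m v z - m u y) ^ 2 + vv p v z * al s m v z ^ 2) := by rw [s1]
        linarith
      · have hk1 : k + 1 < n := hz.resolve_left hzR
        rw [EV_not s p R c1 0 (k + 1) v z hzR, EV_not s p R c2 0 (k + 1) v z hzR]
        simp only [Pi.zero_apply, sub_zero, zero_add]
        by_cases h : |m v z - m u y| < a / 2
        · have hzA : z ∉ A v := fun hzA => hzR ((hmem v z).2 ⟨hzA, h⟩)
          have hF1 : F (k + 1) v z = 0 := by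
            rw [hF]
            exact EV_not _ _ _ _ _ _ _ _ hzA
          have hQ1 : Q (k + 1) v z = m v z ^ 2 := by
            rw [hQ]
            exact EV_not _ _ _ _ _ _ _ _ hzA
          rw [hF1, hQ1]
          have h1 := (hnear v z h).1
          have h2 : 0 ≤ (m v z - m u y) ^ 2 := sq_nonneg _
          nlinarith
        · have h1 : a ^ 2 / 4 ≤ (m v z - m u y) ^ 2 := by
            rw [← sq_abs (m v z - m u y)]
            nlinarith [not_lt.1 h]
          have h2 := IH (k + 1) hk1 v z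
          nlinarith
  have hyR : y ∈ R u := (hmem u y).2 ⟨hy, by rw [sub_self, abs_zero]; linarith⟩
  have k1 := key n le_rfl u y (Or.inl hyR)
  rw [sub_self] at k1
  -- the variation in the region
  have hv := hVR σ s p m R n u y a hp ha
    (fun v => (Finset.card_le_card (fun z hz => ((hmem v z).1 hz).1)).trans (hw v))
    (fun v z hz => hM v z ((hmem v z).1 hz).1)
  have hE1 : EV s p R c1 0 n u y = (3 * a / 2) ^ ε *
      EV s p R (fun u y => if |al s m u y| ≤ a then cP s p m ε u y else 0) 0 n u y := by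
    rw [hc1]
    exact EV_mul0 s p R (fun u y => if |al s m u y| ≤ a then cP s p m ε u y else 0) _ n u y
  have hlam : (3 * a / 2) ^ ε * a ^ (2 - ε) ≤ 3 / 2 * a ^ 2 := by
    have e1 : (3 * a / 2) ^ ε = (3 / 2 : ℝ) ^ ε * a ^ ε := by
      rw [← Real.mul_rpow (by norm_num) ha.le]
      congr 1
      ring
    have e2 : (3 / 2 : ℝ) ^ ε ≤ 3 / 2 := by
      have := Real.rpow_le_rpow_of_exponent_le (by norm_num : (1 : ℝ) ≤ 3 / 2)
        (by linarith : ε ≤ 1)
      rwa [Real.rpow_one] at this
    have e3 : a ^ ε * a ^ (2 - ε) = a ^ 2 := by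
      rw [← Real.rpow_add ha]
      have e : ε + (2 - ε) = ((2 : ℕ) : ℝ) := by push_cast; ring
      rw [e, Real.rpow_natCast]
    rw [e1, mul_assoc, e3]
    exact mul_le_mul_of_nonneg_right e2 (sq_nonneg _)
  have hN0 : 0 ≤ EV s p R (cN s p m a) 0 n u y := by
    apply EV_nonneg s hp R
    · intro v z _
      unfold cN
      split_ifs
      · exact le_rfl
      · exact div_nonneg (mul_nonneg (vv_nonneg hp v z) (abs_nonneg _)) ha.le
    · intro v z
      exact le_rfl
  have hE2 : 3 / 2 * C * a ^ 2 * EV s p R (cN s p m a) 0 n u y ≤ EV s p R c2 0 n u y := by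
    rw [← EV_mul0 s p R (cN s p m a) (3 / 2 * C * a ^ 2) n u y]
    apply EV_mono s hp R
    · intro v z _
      rw [hc2]
      unfold cN
      by_cases hal : |al s m v z| ≤ a
      · simp only [hal, if_true, mul_zero, le_refl]
      · simp only [hal, if_false]
        have h1 := not_le.1 hal
        have h2 := vv_nonneg hp v z
        have h3 : 3 / 2 * C * a ^ 2 * (vv p v z * |al s m v z| / a) =
            3 / 2 * C * (vv p v z * (a * |al s m v z|)) := by
          field_simp
        rw [h3]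
        have h4 : a * |al s m v z| ≤ al s m v z ^ 2 := by
          rw [← sq_abs (al s m v z)]
          nlinarith
        have h5 := mul_le_mul_of_nonneg_left h4 h2
        have h6 : 0 ≤ 3 / 2 * C := by linarith
        exact mul_le_mul_of_nonneg_left h5 h6
    · intro v z
      exact le_rfl
  have hE1' : EV s p R c1 0 n u y ≤ 3 / 2 * C * a ^ 2 * (1 + EV s p R (cN s p m a) 0 n u y) := by
    rw [hE1]
    have h0 : 0 ≤ (3 * a / 2) ^ ε := Real.rpow_nonneg (by linarith) _
    have h1 := mul_le_mul_of_nonneg_left hv h0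
    have h2 : (3 * a / 2) ^ ε * (C * a ^ (2 - ε) * (1 + EV s p R (cN s p m a) 0 n u y)) =
        ((3 * a / 2) ^ ε * a ^ (2 - ε)) * (C * (1 + EV s p R (cN s p m a) 0 n u y)) := by ring
    rw [h2] at h1
    have h3 : 0 ≤ C * (1 + EV s p R (cN s p m a) 0 n u y) :=
      mul_nonneg (by linarith) (by linarith)
    have h4 := mul_le_mul_of_nonneg_right hlam h3
    linarith
  rw [hsq] at k1 ⊢
  linarith

theorem rMF3 : S_MF3 := by
  intro w ε C hε hε1 hC hVR σ s p m A n t x hp hw hM
  have hC0 : 0 < C := by linarith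
  have key : ∀ n, ∀ u y,
      EV s p A (fun u y => vv p u y * (|al s m u y| ^ (2 - ε) * |m u y| ^ ε)) 0 n u y ≤
        16 * C * EV s p A 0 (fun u y => m u y ^ 2) n u y - 10 * C * m u y ^ 2 := by
    intro n
    induction n using Nat.strong_induction_on with
    | _ n IH =>
      intro u y
      have hs : 0 ≤ m u y ^ 2 := sq_nonneg _
      by_cases hy : y ∈ A u
      · cases n with
        | zero =>
          rw [EV_zero, EV_zero]
          simp only [Pi.zero_apply]
          nlinarith
        | succ n =>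
          by_cases hm : m u y = 0
          · rw [EV_mem _ _ _ _ _ _ _ _ hy, EV_mem _ _ _ _ _ _ _ _ hy]
            have h0 : |m u y| ^ ε = 0 := by
              rw [hm, abs_zero]
              exact Real.zero_rpow hε.ne'
            simp only [h0, mul_zero, zero_add, Pi.zero_apply]
            have i0 := IH n (by omega) (u + 1) (s u y false)
            have i1 := IH n (by omega) (u + 1) (s u y true)
            have i2 := avg_mono hp u y i0 i1
            have s0 := (hM u y hy).sq 0
            simp only [sub_zero] at s0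
            have he := MF3_e s hp m u y
            have e0 : C * (p u y * m (u + 1) (s u y false) ^ 2 +
                (1 - p u y) * m (u + 1) (s u y true) ^ 2) =
                C * (m u y ^ 2 + vv p u y * al s m u y ^ 2) := by rw [s0]
            have e1 : 0 ≤ C * (vv p u y * al s m u y ^ 2) := mul_nonneg hC0.le he
            have e2 : m u y ^ 2 = 0 := by rw [hm]; norm_num
            rw [e2] at e0 ⊢
            linarith
          · exact MF3_step w ε C hε hε1 hC hVR σ s p m A hp hw hM (n + 1)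
              (fun k hk v z => IH k hk v z) u y hy |m u y| (abs_pos.2 hm) rfl
      · rw [EV_not _ _ _ _ _ _ _ _ hy, EV_not _ _ _ _ _ _ _ _ hy]
        simp only [Pi.zero_apply]
        nlinarith
  have h := key n t x
  have hs : 0 ≤ 10 * C * m t x ^ 2 := by positivity
  linarith

end Pool.Agent.MP3145b1.RC
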