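import Pool.Agent.Lib.MP_3145b1_co.RC.SpecM

/-!
# MP_3145b1_co, project RC, module MF4: sharp form of the variation bound for martingales in `[-1, 1]`
-/

set_option autoImplicit false

namespace Pool.Agent.MP3145b1.RC

open Finset

variable {σ : Type}

/-- the expectation of `|m|` at the end is at least `|m|` at the start -/
private theorem MF4_abs (s : ℕ → σ → Bool → σ) {p m : ℕ → σ → ℝ} (hp : Pb p) (A : ℕ → Finset σ)
    (hM : ∀ u, ∀ y ∈ A u, Mg s p m u y) (n t : ℕ) (x : σ) :
    |m t x| ≤ EV s p A 0 (fun u y => |m u y|) n t x := by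
  refine EV_ge s hp A 0 (fun u y => |m u y|) (fun _ u y => |m u y|) (fun _ _ => le_rfl)
    (fun _ _ _ _ => le_rfl) ?_ n t x
  intro n t x hx
  have h := hM t x hx
  have hpx := hp t x
  unfold Mg at h
  have e1 : |p t x * m (t + 1) (s t x false)| = p t x * |m (t + 1) (s t x false)| := by
    rw [abs_mul, abs_of_nonneg hpx.1]
  have e2 : |(1 - p t x) * m (t + 1) (s t x true)| = (1 - p t x) * |m (t + 1) (s t x true)| := by
    rw [abs_mul, abs_of_nonneg (by linarith [hpx.2])]
  have h3 := abs_add_le (p t x * m (t + 1) (s t x false)) ((1 - p t x) * m (t + 1) (s t x true))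
  rw [← h, e1, e2] at h3
  simpa using h3

/-- the cost `cP` of `m` against the cost of `m'` with half the differences -/
private theorem MF4_cP (s : ℕ → σ → Bool → σ) {p m m' : ℕ → σ → ℝ} {ε : ℝ} (hp : Pb p) (hε : 0 < ε)
    (u : ℕ) (y : σ) (h : |al s m' u y| = |al s m u y| / 2) : cP s p m ε u y ≤ 4 * cP s p m' ε u y := by
  unfold cP
  have hv := vv_nonneg hp u y
  have h0 := abs_nonneg (al s m u y)
  have h1 : (2 : ℝ) ^ (2 - ε) ≤ 4 := by
    calc (2 : ℝ) ^ (2 - ε) ≤ (2 : ℝ) ^ (2 : ℝ) := Real.rpow_le_rpow_of_exponent_le (by norm_num) (by linarith)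
      _ = 4 := by norm_num
  have h2 : 0 < (2 : ℝ) ^ (2 - ε) := Real.rpow_pos_of_pos (by norm_num) _
  have h3 : |al s m u y| ^ (2 - ε) ≤ 4 * |al s m' u y| ^ (2 - ε) := by
    rw [h, Real.div_rpow h0 (by norm_num)]
    have h4 : 0 ≤ |al s m u y| ^ (2 - ε) := Real.rpow_nonneg h0 _
    rw [mul_div_assoc', le_div_iff₀ h2]
    nlinarith
  have h5 := mul_le_mul_of_nonneg_left h3 hv
  linarith

/-- the bound `164 C (1 - |m|)` -/
private theorem MF4_one (h3 : S_MFb) (w : ℕ) (ε C : ℝ) (hε : 0 < ε) (hε2 : ε ≤ 1 / 2) (hC : 1 ≤ C) (hV : VR w ε C)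
    (s : ℕ → σ → Bool → σ) (p m : ℕ → σ → ℝ) (A : ℕ → Finset σ) (n t : ℕ) (x : σ) (hp : Pb p)
    (hA : ∀ u, (A u).card ≤ w) (hM : ∀ u, ∀ y ∈ A u, Mg s p m u y) (hm : ∀ u y, |m u y| ≤ 1) (τ : ℝ)
    (hτ : τ = 1 ∨ τ = -1) : EV s p A (cP s p m ε) 0 n t x ≤ 164 * C * (1 - τ * m t x) := by
  have hM' : ∀ u, ∀ y ∈ A u, Mg s p (fun u y => (1 - τ * m u y) / 2) u y := by
    intro u y hy
    have h := hM u y hy
    unfold Mg at h ⊢
    simp only
    rw [h]
    ring
  have hm' : ∀ u y, 0 ≤ (1 - τ * m u y) / 2 ∧ (1 - τ * m u y) / 2 ≤ 1 := by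
    intro u y
    have h := abs_le.1 (hm u y)
    rcases hτ with rfl | rfl
    · constructor <;> linarith [h.1, h.2]
    · constructor <;> linarith [h.1, h.2]
  have hal : ∀ u y, |al s (fun u y => (1 - τ * m u y) / 2) u y| = |al s m u y| / 2 := by
    intro u y
    have e : al s (fun u y => (1 - τ * m u y) / 2) u y = -τ * al s m u y / 2 := by
      unfold al
      ring
    have e2 : |(-τ)| = 1 := by
      rcases hτ with rfl | rfl
      · norm_num
      · norm_num
    rw [e, abs_div, abs_mul, e2, one_mul]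
    norm_num
  have h4 := h3 w ε C hε hε2 hC hV σ s p (fun u y => (1 - τ * m u y) / 2) A n t x hp hA hM' hm'
  have h5 := EV_mono s hp A (c := cP s p m ε)
    (c' := fun u y => 4 * cP s p (fun u y => (1 - τ * m u y) / 2) ε u y) (q := 0) (q' := 0)
    (fun u y _ => MF4_cP s hp hε u y (hal u y)) (fun _ _ => le_rfl) n t x
  rw [EV_mul0] at h5
  calc EV s p A (cP s p m ε) 0 n t x ≤ 4 * EV s p A (cP s p (fun u y => (1 - τ * m u y) / 2) ε) 0 n t x := h5
    _ ≤ 4 * (82 * C * ((1 - τ * m t x) / 2)) := by linarith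
    _ = 164 * C * (1 - τ * m t x) := by ring

theorem rMF4 (h1 : S_MSq) (h2 : S_MF3) (h3 : S_MFb) : S_MF4 := by
  intro w ε C hε hε2 hC hV σ s p m A n t x hp hA hM hm
  have hsq := h1 σ s p m A n t x hM
  have hab := MF4_abs s hp A hM n t x
  -- X + en
  have hX : EV s p A 0 (fun u y => |m u y| - m u y ^ 2) n t x =
      EV s p A 0 (fun u y => |m u y|) n t x - EV s p A 0 (fun u y => m u y ^ 2) n t x := by
    have h := EV_padd s p A (fun u y => |m u y|) (fun u y => (-1) * (m u y ^ 2)) n t x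
    rw [EV_pmul] at h
    have e : (fun (u : ℕ) (y : σ) => |m u y| + (-1) * (m u y ^ 2)) = fun u y => |m u y| - m u y ^ 2 := by
      funext u y
      ring
    rw [e] at h
    rw [h]
    ring
  have hX0 : 0 ≤ EV s p A 0 (fun u y => |m u y| - m u y ^ 2) n t x := by
    refine EV_nonneg s hp A (fun _ _ _ => le_rfl) (fun u y => ?_) n t x
    have h := hm u y
    have h0 := abs_nonneg (m u y)
    rw [← sq_abs]
    nlinarith
  have hen : 0 ≤ EV s p A (fun u y => vv p u y * al s m u y ^ 2) 0 n t x :=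
    EV_nonneg s hp A (fun u y _ => mul_nonneg (vv_nonneg hp u y) (sq_nonneg _)) (fun _ _ => le_rfl) n t x
  have hsum : |m t x| - m t x ^ 2 ≤ EV s p A 0 (fun u y => |m u y| - m u y ^ 2) n t x +
      EV s p A (fun u y => vv p u y * al s m u y ^ 2) 0 n t x := by
    rw [hX, hsq]
    linarith
  have hm0 := hm t x
  have hm00 := abs_nonneg (m t x)
  have hsqa : m t x ^ 2 = |m t x| ^ 2 := (sq_abs _).symm
  rcases le_or_gt (1 / 2) |m t x| with hc | hc
  · -- large
    have hP : EV s p A (cP s p m ε) 0 n t x ≤ 164 * C * (1 - |m t x|) := by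
      rcases abs_cases (m t x) with ⟨h, _⟩ | ⟨h, _⟩
      · have h4 := MF4_one h3 w ε C hε hε2 hC hV s p m A n t x hp hA hM hm 1 (Or.inl rfl)
        rw [h]
        rwa [one_mul] at h4
      · have h4 := MF4_one h3 w ε C hε hε2 hC hV s p m A n t x hp hA hM hm (-1) (Or.inr rfl)
        rw [h]
        rwa [neg_one_mul] at h4
    have h5 := EV_mono s hp A (c := fun u y => vv p u y * (|al s m u y| ^ (2 - ε) * |m u y| ^ ε))
      (c' := cP s p m ε) (q := 0) (q' := 0) (fun u y _ => by
        unfold cP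
        have h6 : |m u y| ^ ε ≤ 1 := Real.rpow_le_one (abs_nonneg _) (hm u y) hε.le
        have h7 : 0 ≤ |al s m u y| ^ (2 - ε) := Real.rpow_nonneg (abs_nonneg _) _
        exact mul_le_mul_of_nonneg_left (mul_le_of_le_one_right h7 h6) (vv_nonneg hp u y)) (fun _ _ => le_rfl) n t x
    refine h5.trans (hP.trans ?_)
    have h8 : 164 * C * (1 - |m t x|) ≤ 328 * C * (|m t x| - m t x ^ 2) := by
      rw [hsqa]
      have e : 328 * C * (|m t x| - |m t x| ^ 2) - 164 * C * (1 - |m t x|) =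
          164 * C * ((1 - |m t x|) * (2 * |m t x| - 1)) := by ring
      have h9 : 0 ≤ 164 * C * ((1 - |m t x|) * (2 * |m t x| - 1)) :=
        mul_nonneg (by linarith) (mul_nonneg (by linarith) (by linarith))
      linarith
    exact h8.trans (mul_le_mul_of_nonneg_left hsum (by linarith))
  · -- small
    have h4 := h2 w ε C hε hε2 hC hV σ s p m A n t x hp hA hM
    have h5 : EV s p A 0 (fun u y => m u y ^ 2) n t x =
        m t x ^ 2 + EV s p A (fun u y => vv p u y * al s m u y ^ 2) 0 n t x := by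
      rw [hsq]
      ring
    have h6 : m t x ^ 2 ≤ |m t x| - m t x ^ 2 := by
      rw [hsqa]
      nlinarith
    refine h4.trans ?_
    rw [h5]
    have h7 : m t x ^ 2 + EV s p A (fun u y => vv p u y * al s m u y ^ 2) 0 n t x ≤
        2 * (EV s p A 0 (fun u y => |m u y| - m u y ^ 2) n t x +
          EV s p A (fun u y => vv p u y * al s m u y ^ 2) 0 n t x) := by linarith
    have h8 := mul_le_mul_of_nonneg_left h7 (by linarith : (0 : ℝ) ≤ 16 * C)
    refine h8.trans ?_
    have h9 : 0 ≤ C * (EV s p A 0 (fun u y => |m u y| - m u y ^ 2) n t x +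
        EV s p A (fun u y => vv p u y * al s m u y ^ 2) 0 n t x) :=
      mul_nonneg (by linarith) (by linarith)
    linarith

end Pool.Agent.MP3145b1.RC
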