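import Pool.Agent.Lib.MP_3145b1_co.RC.SpecM

/-!
# MP_3145b1_co, project RC: variation of a martingale in the unit interval (biased coins)
-/

set_option autoImplicit false

namespace Pool.Agent.MP3145b1.RC

open Finset

/-- both values are at most their mean plus the distance -/
private theorem MFb_max (p x y : ℝ) (hp0 : 0 ≤ p) (hp1 : p ≤ 1) :
    max x y ≤ p * x + (1 - p) * y + |x - y| := by
  have h0 : 0 ≤ |x - y| := abs_nonneg _
  have h1 : x - y ≤ |x - y| := le_abs_self _
  have h2 : -(x - y) ≤ |x - y| := neg_le_abs _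
  have h3 : p * (-(x - y)) ≤ p * |x - y| := mul_le_mul_of_nonneg_left h2 hp0
  have h4 : (1 - p) * (x - y) ≤ (1 - p) * |x - y| := mul_le_mul_of_nonneg_left h1 (by linarith)
  have h5 : 0 ≤ p * |x - y| := mul_nonneg hp0 h0
  have h6 : 0 ≤ (1 - p) * |x - y| := mul_nonneg (by linarith) h0
  apply max_le
  · linarith
  · linarith

/-- the Jensen gap -/
private theorem MFb_gap (h1 : S_MJn) (p x y b : ℝ) (hp0 : 0 ≤ p) (hp1 : p ≤ 1) (hx : 0 ≤ x)
    (hy : 0 ≤ y) (hm : max x y ≤ 5 / 2 * b) :
    0 ≤ p * (x * Real.sqrt x) + (1 - p) * (y * Real.sqrt y) -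
      (p * x + (1 - p) * y) * Real.sqrt (p * x + (1 - p) * y) ∧
    5 / 32 * (p * (1 - p) * (x - y) ^ 2) ≤ Real.sqrt b *
      (p * (x * Real.sqrt x) + (1 - p) * (y * Real.sqrt y) -
        (p * x + (1 - p) * y) * Real.sqrt (p * x + (1 - p) * y)) := by
  have k := h1 p x y hp0 hp1 hx hy
  have he : 0 ≤ p * (1 - p) * (x - y) ^ 2 :=
    mul_nonneg (mul_nonneg hp0 (by linarith)) (sq_nonneg _)
  have hs : Real.sqrt (max x y) ≤ 8 / 5 * Real.sqrt b := by
    have h2 : Real.sqrt (max x y) ≤ Real.sqrt (5 / 2 * b) := Real.sqrt_le_sqrt hm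
    rw [Real.sqrt_mul (by norm_num)] at h2
    have h3 : Real.sqrt (5 / 2) ≤ 8 / 5 := by
      rw [Real.sqrt_le_left (by norm_num)]
      norm_num
    have := mul_le_mul_of_nonneg_right h3 (Real.sqrt_nonneg b)
    linarith
  have hg : 0 ≤ p * (x * Real.sqrt x) + (1 - p) * (y * Real.sqrt y) -
      (p * x + (1 - p) * y) * Real.sqrt (p * x + (1 - p) * y) := by
    rcases (Real.sqrt_nonneg (max x y)).eq_or_lt with h0 | h0
    · have h4 : max x y ≤ 0 := Real.sqrt_eq_zero'.1 h0.symm
      have hx0 : x = 0 := le_antisymm (le_trans (le_max_left _ _) h4) hx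
      have hy0 : y = 0 := le_antisymm (le_trans (le_max_right _ _) h4) hy
      rw [hx0, hy0]
      simp
    · by_contra hc
      rw [not_le] at hc
      have := mul_neg_of_pos_of_neg h0 hc
      linarith
  refine ⟨hg, ?_⟩
  have := mul_le_mul_of_nonneg_right hs hg
  linarith

/-- a small step -/
private theorem MFb_small (h1 : S_MJn) (h2 : S_MPs) (p x y a C : ℝ) (hp0 : 0 ≤ p) (hp1 : p ≤ 1)
    (hx : 0 ≤ x) (hy : 0 ≤ y) (ha : 0 < a) (hC : 0 ≤ C)
    (hm : |p * x + (1 - p) * y - a| < a / 2) (hal : |x - y| ≤ a) :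
    4 * C * (max 0 (a ^ 2 / 4 - (p * x + (1 - p) * y - a) ^ 2) / Real.sqrt a) ≤
      4 * C * ((p * max 0 (a ^ 2 / 4 - (x - a) ^ 2) + (1 - p) * max 0 (a ^ 2 / 4 - (y - a) ^ 2)) /
        Real.sqrt a) +
      80 * C * (p * (x * Real.sqrt x) + (1 - p) * (y * Real.sqrt y) -
        (p * x + (1 - p) * y) * Real.sqrt (p * x + (1 - p) * y)) := by
  have hra : 0 < Real.sqrt a := Real.sqrt_pos.2 ha
  have k1 := (h2 p x y a hp0 hp1 ha hm).1
  have hmx := MFb_max p x y hp0 hp1
  have hm2 := (abs_lt.1 hm).2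
  obtain ⟨g0, g1⟩ := MFb_gap h1 p x y a hp0 hp1 hx hy (by linarith)
  generalize p * (x * Real.sqrt x) + (1 - p) * (y * Real.sqrt y) -
        (p * x + (1 - p) * y) * Real.sqrt (p * x + (1 - p) * y) = G at g0 g1 ⊢
  generalize max 0 (a ^ 2 / 4 - (p * x + (1 - p) * y - a) ^ 2) = P at k1 ⊢
  generalize p * max 0 (a ^ 2 / 4 - (x - a) ^ 2) + (1 - p) * max 0 (a ^ 2 / 4 - (y - a) ^ 2) = Q
    at k1 ⊢
  have h3 : P / Real.sqrt a ≤ Q / Real.sqrt a + 32 / 5 * G := by
    rw [div_le_iff₀ hra, add_mul, div_mul_cancel₀ _ hra.ne']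
    linarith
  have h4 := mul_le_mul_of_nonneg_left h3 (by linarith : 0 ≤ 4 * C)
  have h5 : 0 ≤ C * G := mul_nonneg hC g0
  linarith

/-- a large step -/
private theorem MFb_large (h1 : S_MJn) (h2 : S_MPs) (p x y a C ε : ℝ) (hp0 : 0 ≤ p) (hp1 : p ≤ 1)
    (hx : 0 ≤ x) (hy : 0 ≤ y) (hx1 : x ≤ 1) (hy1 : y ≤ 1) (ha : 0 < a) (hC : 1 ≤ C)
    (hε1 : ε ≤ 1 / 2)
    (hm : |p * x + (1 - p) * y - a| < a / 2) (hal : a < |x - y|) :
    p * (1 - p) * |x - y| ^ (2 - ε) +
    4 * C * (max 0 (a ^ 2 / 4 - (p * x + (1 - p) * y - a) ^ 2) / Real.sqrt a) ≤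
      4 * C * ((p * max 0 (a ^ 2 / 4 - (x - a) ^ 2) + (1 - p) * max 0 (a ^ 2 / 4 - (y - a) ^ 2)) /
        Real.sqrt a) - C * (p * (1 - p) * (|x - y| * Real.sqrt |x - y|)) +
      80 * C * (p * (x * Real.sqrt x) + (1 - p) * (y * Real.sqrt y) -
        (p * x + (1 - p) * y) * Real.sqrt (p * x + (1 - p) * y)) := by
  have hra : 0 < Real.sqrt a := Real.sqrt_pos.2 ha
  have k1 := (h2 p x y a hp0 hp1 ha hm).2 hal.le
  have hmx := MFb_max p x y hp0 hp1
  have hm2 := (abs_lt.1 hm).2
  obtain ⟨g0, g1⟩ := MFb_gap h1 p x y |x - y| hp0 hp1 hx hy (by linarith)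
  have hα1 : |x - y| ≤ 1 := by
    rw [abs_le]
    constructor
    · linarith
    · linarith
  have hα0 : 0 < |x - y| := by linarith
  rw [← sq_abs (x - y)] at g1
  have hV : 0 ≤ p * (1 - p) := mul_nonneg hp0 (by linarith)
  generalize p * (x * Real.sqrt x) + (1 - p) * (y * Real.sqrt y) -
        (p * x + (1 - p) * y) * Real.sqrt (p * x + (1 - p) * y) = G at g0 g1 ⊢
  generalize max 0 (a ^ 2 / 4 - (p * x + (1 - p) * y - a) ^ 2) = P at k1 ⊢
  generalize p * max 0 (a ^ 2 / 4 - (x - a) ^ 2) + (1 - p) * max 0 (a ^ 2 / 4 - (y - a) ^ 2) = Q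
    at k1 ⊢
  generalize |x - y| = α at hal hα0 hα1 k1 g1 ⊢
  generalize p * (1 - p) = V at hV k1 g1 ⊢
  have hrα : 0 < Real.sqrt α := Real.sqrt_pos.2 hα0
  have hrr : Real.sqrt a ≤ Real.sqrt α := Real.sqrt_le_sqrt hal.le
  have hsa : Real.sqrt a * Real.sqrt a = a := Real.mul_self_sqrt ha.le
  have hsα : Real.sqrt α * Real.sqrt α = α := Real.mul_self_sqrt hα0.le
  -- the power
  have hpw : α ^ (2 - ε) ≤ α * Real.sqrt α := by
    have h3 : α ^ (2 - ε) ≤ α ^ (3 / 2 : ℝ) :=
      Real.rpow_le_rpow_of_exponent_ge hα0 hα1 (by linarith)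
    have h4 : α ^ (3 / 2 : ℝ) = α * Real.sqrt α := by
      rw [show (3 / 2 : ℝ) = 1 + 1 / 2 by norm_num, Real.rpow_add hα0, Real.rpow_one,
        ← Real.sqrt_eq_rpow]
    rw [← h4]
    exact h3
  have hcost := mul_le_mul_of_nonneg_left hpw hV
  -- the gap
  have hgap : 5 / 32 * (V * (α * Real.sqrt α)) ≤ G := by
    have h3 : Real.sqrt α * (5 / 32 * (V * (α * Real.sqrt α))) ≤ Real.sqrt α * G := by
      have h4 : Real.sqrt α * (5 / 32 * (V * (α * Real.sqrt α))) = 5 / 32 * (V * α ^ 2) := by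
        calc Real.sqrt α * (5 / 32 * (V * (α * Real.sqrt α))) =
            5 / 32 * (V * (α * (Real.sqrt α * Real.sqrt α))) := by ring
          _ = 5 / 32 * (V * α ^ 2) := by rw [hsα]; ring
      rw [h4]
      exact g1
    exact le_of_mul_le_mul_left h3 hrα
  -- the bump function
  have h3 : P / Real.sqrt a ≤ Q / Real.sqrt a + 3 / 2 * (V * (α * Real.sqrt α)) := by
    rw [div_le_iff₀ hra, add_mul, div_mul_cancel₀ _ hra.ne']
    have h4 : a * α ≤ α * Real.sqrt α * Real.sqrt a := by
      have h5 : α * (Real.sqrt a * Real.sqrt a) ≤ α * (Real.sqrt α * Real.sqrt a) :=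
        mul_le_mul_of_nonneg_left (mul_le_mul_of_nonneg_right hrr hra.le) hα0.le
      rw [hsa] at h5
      linarith
    have h6 := mul_le_mul_of_nonneg_left h4 (by linarith : 0 ≤ 3 / 2 * V)
    linarith
  have h4 := mul_le_mul_of_nonneg_left h3 (by linarith : 0 ≤ 4 * C)
  have hW : 0 ≤ V * (α * Real.sqrt α) := mul_nonneg hV (mul_nonneg hα0.le hrα.le)
  generalize V * (α * Real.sqrt α) = W at *
  have h5 := mul_le_mul_of_nonneg_left hgap (by linarith : 0 ≤ C)
  have h6 := mul_le_mul_of_nonneg_right hC hW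
  have h7 : 0 ≤ C * W := mul_nonneg (by linarith) hW
  linarith

/-- the value of the comparison function is nonnegative -/
private theorem MFb_phi (z : ℝ) (h0 : 0 ≤ z) (h1 : z ≤ 1) :
    0 ≤ z * Real.sqrt z ∧ z * Real.sqrt z ≤ z := by
  have hs : Real.sqrt z ≤ 1 := by
    rw [Real.sqrt_le_left (by norm_num)]
    linarith
  refine ⟨mul_nonneg h0 (Real.sqrt_nonneg z), ?_⟩
  have := mul_le_mul_of_nonneg_left hs h0
  linarith

/-- the terminal value in the region -/
private theorem MFb_psi (z a : ℝ) (ha : 0 < a) (ha1 : a ≤ 1) :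
    max 0 (a ^ 2 / 4 - (z - a) ^ 2) / Real.sqrt a ≤ a / 4 := by
  have hra : 0 < Real.sqrt a := Real.sqrt_pos.2 ha
  have hs : Real.sqrt a ≤ 1 := by
    rw [Real.sqrt_le_left (by norm_num)]
    linarith
  have hsa : Real.sqrt a * Real.sqrt a = a := Real.mul_self_sqrt ha.le
  rw [div_le_iff₀ hra]
  have h1 : a ≤ Real.sqrt a := by
    have := mul_le_mul_of_nonneg_left hs hra.le
    linarith
  have h2 : a * a ≤ a * Real.sqrt a := mul_le_mul_of_nonneg_left h1 ha.le
  apply max_le
  · positivity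
  · have := sq_nonneg (z - a)
    nlinarith

/-- outside the region the bump function vanishes -/
private theorem MFb_out (z a : ℝ) (ha : 0 < a) (h : ¬ |z - a| < a / 2) :
    max 0 (a ^ 2 / 4 - (z - a) ^ 2) = 0 := by
  apply max_eq_left
  have h1 := not_lt.1 h
  have h2 : (a / 2) ^ 2 ≤ |z - a| ^ 2 := by
    have h3 : 0 ≤ a / 2 := by linarith
    exact pow_le_pow_left₀ h3 h1 2
  rw [sq_abs] at h2
  nlinarith

open Classical in
/-- the induction step for a state with positive value -/
private theorem MFb_step (h1 : S_MJn) (h2 : S_MPs) (w : ℕ) (ε C : ℝ) (hε1 : ε ≤ 1 / 2)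
    (hC : 1 ≤ C) (hVR : VR w ε C) (σ : Type) (s : ℕ → σ → Bool → σ) (p : ℕ → σ → ℝ)
    (m : ℕ → σ → ℝ) (A : ℕ → Finset σ) (hp : Pb p) (hw : ∀ u, (A u).card ≤ w)
    (hM : ∀ u, ∀ y ∈ A u, Mg s p m u y) (hm01 : ∀ u y, 0 ≤ m u y ∧ m u y ≤ 1) (n : ℕ)
    (IH : ∀ k, k < n → ∀ v z, EV s p A (cP s p m ε) 0 k v z ≤
      82 * C * m v z - 80 * C * (m v z * Real.sqrt (m v z)))
    (u : ℕ) (y : σ) (hy : y ∈ A u) (a : ℝ) (ha : 0 < a) (hay : m u y = a) :
    EV s p A (cP s p m ε) 0 n u y ≤ 82 * C * m u y - 80 * C * (m u y * Real.sqrt (m u y)) := by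
  have hC0 : 0 < C := by linarith
  have ha1 : a ≤ 1 := by
    rw [← hay]
    exact (hm01 u y).2
  have hra : 0 < Real.sqrt a := Real.sqrt_pos.2 ha
  have hsa : Real.sqrt a * Real.sqrt a = a := Real.mul_self_sqrt ha.le
  obtain ⟨R, hR⟩ : ∃ R : ℕ → Finset σ, R = fun v => (A v).filter (fun z => |m v z - a| < a / 2) :=
    ⟨_, rfl⟩
  have hmem : ∀ v z, z ∈ R v ↔ z ∈ A v ∧ |m v z - a| < a / 2 := by
    intro v z
    rw [hR]
    exact Finset.mem_filter
  obtain ⟨ψ, hψ⟩ : ∃ ψ : ℝ → ℝ, ψ = fun z => max 0 (a ^ 2 / 4 - (z - a) ^ 2) / Real.sqrt a :=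
    ⟨_, rfl⟩
  obtain ⟨φ, hφ⟩ : ∃ φ : ℝ → ℝ, φ = fun z => z * Real.sqrt z := ⟨_, rfl⟩
  have hφ0 : ∀ v z, 0 ≤ φ (m v z) ∧ φ (m v z) ≤ m v z := by
    intro v z
    rw [hφ]
    exact MFb_phi (m v z) (hm01 v z).1 (hm01 v z).2
  have hψ1 : ∀ z, ψ z ≤ a / 4 := by
    intro z
    rw [hψ]
    exact MFb_psi z a ha ha1
  have hψ0 : ∀ z, ¬ |z - a| < a / 2 → ψ z = 0 := by
    intro z hz
    rw [hψ]
    simp only
    rw [MFb_out z a ha hz, zero_div]
  -- terminal states
  have hterm : ∀ v z, 0 ≤ 82 * C * m v z - 80 * C * φ (m v z) - 4 * C * ψ (m v z) := by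
    intro v z
    have h3 := (hφ0 v z).2
    have h4 := mul_le_mul_of_nonneg_left h3 (by linarith : 0 ≤ 80 * C)
    by_cases h : |m v z - a| < a / 2
    · have h5 := (abs_lt.1 h).1
      have h6 : 0 ≤ C * (m v z - a / 2) := mul_nonneg hC0.le (by linarith)
      have h7 := mul_le_mul_of_nonneg_left (hψ1 (m v z)) (by linarith : 0 ≤ 4 * C)
      linarith
    · rw [hψ0 _ h]
      have h6 : 0 ≤ C * m v z := mul_nonneg hC0.le (hm01 v z).1
      linarith
  obtain ⟨F, hF⟩ : ∃ F : ℕ → ℕ → σ → ℝ, F = EV s p A (cP s p m ε) 0 := ⟨_, rfl⟩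
  obtain ⟨c1, hc1⟩ : ∃ c1 : ℕ → σ → ℝ, c1 = fun v z =>
    (if |al s m v z| ≤ a then cP s p m ε v z else 0) := ⟨_, rfl⟩
  obtain ⟨c2, hc2⟩ : ∃ c2 : ℕ → σ → ℝ, c2 = fun v z => if |al s m v z| ≤ a then 0 else
    C * (vv p v z * (|al s m v z| * Real.sqrt |al s m v z|)) := ⟨_, rfl⟩
  have IH' : ∀ k, k < n → ∀ v z, F k v z ≤ 82 * C * m v z - 80 * C * φ (m v z) := by
    intro k hk v z
    rw [hF, hφ]
    exact IH k hk v z
  have key : ∀ k, k ≤ n → ∀ v z, (z ∈ R v ∨ k < n) →
      F k v z ≤ EV s p R c1 0 k v z - EV s p R c2 0 k v z + 82 * C * m v z - 80 * C * φ (m v z) -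
        4 * C * ψ (m v z) := by
    intro k
    induction k with
    | zero =>
      intro _ v z _
      have hF0 : F 0 v z = 0 := by rw [hF]; rfl
      have hE1 : EV s p R c1 0 0 v z = 0 := rfl
      have hE2 : EV s p R c2 0 0 v z = 0 := rfl
      rw [hF0, hE1, hE2]
      have := hterm v z
      linarith
    | succ k ih =>
      intro hk v z hz
      by_cases hzR : z ∈ R v
      · obtain ⟨hzA, hzn⟩ := (hmem v z).1 hzR
        have i0 := ih (by omega) (v + 1) (s v z false) (Or.inr (by omega))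
        have i1 := ih (by omega) (v + 1) (s v z true) (Or.inr (by omega))
        have i2 := avg_mono hp v z i0 i1
        have hF1 : F (k + 1) v z = cP s p m ε v z +
            (p v z * F k (v + 1) (s v z false) + (1 - p v z) * F k (v + 1) (s v z true)) := by
          rw [hF]
          exact EV_mem _ _ _ _ _ _ _ _ hzA
        have hE1 := EV_mem s p R c1 0 k v z hzR
        have hE2 := EV_mem s p R c2 0 k v z hzR
        have s0 : m v z = p v z * m (v + 1) (s v z false) + (1 - p v z) * m (v + 1) (s v z true) :=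
          hM v z hzA
        have hcost : cP s p m ε v z + 4 * C * ψ (m v z) ≤ c1 v z - c2 v z +
            4 * C * (p v z * ψ (m (v + 1) (s v z false)) + (1 - p v z) * ψ (m (v + 1) (s v z true))) +
            80 * C * (p v z * φ (m (v + 1) (s v z false)) + (1 - p v z) * φ (m (v + 1) (s v z true)) -
              φ (m v z)) := by
          have hx := hm01 (v + 1) (s v z false)
          have hy' := hm01 (v + 1) (s v z true)
          have hpv := hp v z
          have hzn' : |p v z * m (v + 1) (s v z false) + (1 - p v z) * m (v + 1) (s v z true) - a| <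
              a / 2 := by
            rw [← s0]
            exact hzn
          have hdiv : p v z * (max 0 (a ^ 2 / 4 - (m (v + 1) (s v z false) - a) ^ 2) / Real.sqrt a) +
              (1 - p v z) * (max 0 (a ^ 2 / 4 - (m (v + 1) (s v z true) - a) ^ 2) / Real.sqrt a) =
              (p v z * max 0 (a ^ 2 / 4 - (m (v + 1) (s v z false) - a) ^ 2) +
              (1 - p v z) * max 0 (a ^ 2 / 4 - (m (v + 1) (s v z true) - a) ^ 2)) / Real.sqrt a := by
            ring
          rw [hψ, hφ, hc1, hc2]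
          simp only
          rw [hdiv]
          by_cases hal : |al s m v z| ≤ a
          · simp only [hal, if_true]
            have h3 := MFb_small h1 h2 (p v z) (m (v + 1) (s v z false)) (m (v + 1) (s v z true)) a C
              hpv.1 hpv.2 hx.1 hy'.1 ha hC0.le hzn' hal
            rw [← s0] at h3
            linarith
          · simp only [hal, if_false]
            have h3 := MFb_large h1 h2 (p v z) (m (v + 1) (s v z false)) (m (v + 1) (s v z true)) a C ε
              hpv.1 hpv.2 hx.1 hy'.1 hx.2 hy'.2 ha hC hε1 hzn' (not_le.1 hal)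
            rw [← s0] at h3
            unfold cP vv al
            linarith
        rw [hF1, hE1, hE2]
        have e1 : C * (p v z * m (v + 1) (s v z false) + (1 - p v z) * m (v + 1) (s v z true)) =
            C * m v z := by rw [← s0]
        linarith
      · rw [EV_not s p R c1 0 (k + 1) v z hzR, EV_not s p R c2 0 (k + 1) v z hzR]
        simp only [Pi.zero_apply, sub_zero, zero_add]
        have hk1 : k + 1 < n := hz.resolve_left hzR
        by_cases h : |m v z - a| < a / 2
        · have hzA : z ∉ A v := fun hzA => hzR ((hmem v z).2 ⟨hzA, h⟩)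
          have hF1 : F (k + 1) v z = 0 := by
            rw [hF]
            exact EV_not _ _ _ _ _ _ _ _ hzA
          rw [hF1]
          have := hterm v z
          linarith
        · have h3 := IH' (k + 1) hk1 v z
          rw [hψ0 _ h]
          linarith
  have hyR : y ∈ R u := (hmem u y).2 ⟨hy, by rw [hay, sub_self, abs_zero]; linarith⟩
  have k1 := key n le_rfl u y (Or.inl hyR)
  have hψa : 4 * C * ψ (m u y) = C * (a * Real.sqrt a) := by
    rw [hψ, hay]
    simp only [sub_self]
    have h3 : max (0 : ℝ) (a ^ 2 / 4 - 0 ^ 2) = a ^ 2 / 4 := by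
      rw [max_eq_right]
      · ring
      · have : 0 ≤ a ^ 2 := sq_nonneg _
        linarith
    rw [h3]
    have h4 : a ^ 2 / 4 / Real.sqrt a = a * Real.sqrt a / 4 := by
      rw [div_eq_iff hra.ne']
      calc a ^ 2 / 4 = a * a / 4 := by ring
        _ = a * (Real.sqrt a * Real.sqrt a) / 4 := by rw [hsa]
        _ = a * Real.sqrt a / 4 * Real.sqrt a := by ring
    rw [h4]
    ring
  -- the variation in the region
  have hv := hVR σ s p m R n u y a hp ha
    (fun v => (Finset.card_le_card (fun z hz => ((hmem v z).1 hz).1)).trans (hw v))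
    (fun v z hz => hM v z ((hmem v z).1 hz).1)
  have hN0 : 0 ≤ EV s p R (cN s p m a) 0 n u y := by
    apply EV_nonneg s hp R
    · intro v z _
      unfold cN
      split_ifs
      · exact le_rfl
      · exact div_nonneg (mul_nonneg (vv_nonneg hp v z) (abs_nonneg _)) ha.le
    · intro v z
      exact le_rfl
  have hpw : a ^ (2 - ε) ≤ a * Real.sqrt a := by
    have h3 : a ^ (2 - ε) ≤ a ^ (3 / 2 : ℝ) :=
      Real.rpow_le_rpow_of_exponent_ge ha ha1 (by linarith)
    have h4 : a ^ (3 / 2 : ℝ) = a * Real.sqrt a := by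
      rw [show (3 / 2 : ℝ) = 1 + 1 / 2 by norm_num, Real.rpow_add ha, Real.rpow_one,
        ← Real.sqrt_eq_rpow]
    rw [← h4]
    exact h3
  have hE1 : EV s p R c1 0 n u y ≤ C * (a * Real.sqrt a) * (1 + EV s p R (cN s p m a) 0 n u y) := by
    rw [hc1]
    refine le_trans hv ?_
    apply mul_le_mul_of_nonneg_right _ (by linarith)
    exact mul_le_mul_of_nonneg_left hpw hC0.le
  have hE2 : C * (a * Real.sqrt a) * EV s p R (cN s p m a) 0 n u y ≤ EV s p R c2 0 n u y := by
    rw [← EV_mul0 s p R (cN s p m a) (C * (a * Real.sqrt a)) n u y]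
    apply EV_mono s hp R
    · intro v z _
      rw [hc2]
      unfold cN
      by_cases hal : |al s m v z| ≤ a
      · simp only [hal, if_true, mul_zero, le_refl]
      · simp only [hal, if_false]
        have h3 := not_le.1 hal
        have h4 := vv_nonneg hp v z
        have h5 : C * (a * Real.sqrt a) * (vv p v z * |al s m v z| / a) =
            C * (vv p v z * (|al s m v z| * Real.sqrt a)) := by
          field_simp
        rw [h5]
        have h6 : Real.sqrt a ≤ Real.sqrt |al s m v z| := Real.sqrt_le_sqrt h3.le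
        exact mul_le_mul_of_nonneg_left (mul_le_mul_of_nonneg_left
          (mul_le_mul_of_nonneg_left h6 (abs_nonneg _)) h4) hC0.le
    · intro v z
      exact le_rfl
  rw [hψa] at k1
  rw [hF, hφ] at k1
  simp only at k1
  linarith

theorem rMFb (h1 : S_MJn) (h2 : S_MPs) : S_MFb := by
  intro w ε C hε hε1 hC hVR σ s p m A n t x hp hw hM hm01
  have hC0 : 0 < C := by linarith
  have hnn : ∀ u y, 0 ≤ 82 * C * m u y - 80 * C * (m u y * Real.sqrt (m u y)) := by
    intro u y
    have h3 := (MFb_phi (m u y) (hm01 u y).1 (hm01 u y).2).2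
    have h4 := mul_le_mul_of_nonneg_left h3 (by linarith : 0 ≤ 80 * C)
    have h5 : 0 ≤ C * m u y := mul_nonneg hC0.le (hm01 u y).1
    linarith
  have key : ∀ n, ∀ u y, EV s p A (cP s p m ε) 0 n u y ≤
      82 * C * m u y - 80 * C * (m u y * Real.sqrt (m u y)) := by
    intro n
    induction n using Nat.strong_induction_on with
    | _ n IH =>
      intro u y
      by_cases hy : y ∈ A u
      · cases n with
        | zero =>
          rw [EV_zero]
          exact hnn u y
        | succ n =>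
          rcases (hm01 u y).1.eq_or_lt with h0 | h0
          · rw [EV_mem _ _ _ _ _ _ _ _ hy, ← h0]
            have hx := hm01 (u + 1) (s u y false)
            have hy' := hm01 (u + 1) (s u y true)
            have hpu := hp u y
            have s0 : m u y = p u y * m (u + 1) (s u y false) + (1 - p u y) * m (u + 1) (s u y true) :=
              hM u y hy
            rw [← h0] at s0
            have hq1 : 0 ≤ p u y * m (u + 1) (s u y false) := mul_nonneg hpu.1 hx.1
            have hq2 : 0 ≤ (1 - p u y) * m (u + 1) (s u y true) :=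
              mul_nonneg (by linarith [hpu.2]) hy'.1
            have z1 : p u y * m (u + 1) (s u y false) = 0 := by linarith
            have z2 : (1 - p u y) * m (u + 1) (s u y true) = 0 := by linarith
            have hcost : cP s p m ε u y = 0 := by
              unfold cP vv
              rcases mul_eq_zero.1 z1 with h3 | h3
              · rw [h3]
                ring
              · rcases mul_eq_zero.1 z2 with h4 | h4
                · rw [h4]
                  ring
                · have h5 : al s m u y = 0 := by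
                    unfold al
                    rw [h3, h4, sub_self]
                  rw [h5, abs_zero, Real.zero_rpow (by linarith), mul_zero]
            rw [hcost]
            have i0 := IH n (by omega) (u + 1) (s u y false)
            have i1 := IH n (by omega) (u + 1) (s u y true)
            have i2 := avg_mono hp u y i0 i1
            have f0 := (MFb_phi _ hx.1 hx.2).1
            have f1 := (MFb_phi _ hy'.1 hy'.2).1
            have g0 : 0 ≤ C * (p u y * (m (u + 1) (s u y false) *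
              Real.sqrt (m (u + 1) (s u y false)))) := mul_nonneg hC0.le (mul_nonneg hpu.1 f0)
            have g1 : 0 ≤ C * ((1 - p u y) * (m (u + 1) (s u y true) *
              Real.sqrt (m (u + 1) (s u y true)))) :=
              mul_nonneg hC0.le (mul_nonneg (by linarith [hpu.2]) f1)
            have e1 : C * (p u y * m (u + 1) (s u y false)) = 0 := by rw [z1, mul_zero]
            have e2 : C * ((1 - p u y) * m (u + 1) (s u y true)) = 0 := by rw [z2, mul_zero]
            linarith
          · exact MFb_step h1 h2 w ε C hε1 hC hVR σ s p m A hp hw hM hm01 (n + 1)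
              (fun k hk v z => IH k hk v z) u y hy (m u y) h0 rfl
      · rw [EV_not _ _ _ _ _ _ _ _ hy]
        exact hnn u y
  have h := key n t x
  have hs : 0 ≤ 80 * C * (m t x * Real.sqrt (m t x)) :=
    mul_nonneg (by linarith) (MFb_phi _ (hm01 t x).1 (hm01 t x).2).1
  linarith

end Pool.Agent.MP3145b1.RC
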