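import Pool.Agent.Lib.MP_3145b1_co.RC.SpecM

/-!
# MP_3145b1_co, project RC: Jensen gap of the function `m sqrt m`
-/

set_option autoImplicit false

namespace Pool.Agent.MP3145b1.RC

open Finset

private theorem MJn_key (u M H : ℝ) (hu : 0 ≤ u) (hM : 0 ≤ M) (huH : u ≤ H) (hMH : M ≤ H) :
    1 / 4 * (u ^ 2 - M ^ 2) ^ 2 ≤ H * (u ^ 3 - M ^ 3 - 3 / 2 * M * (u ^ 2 - M ^ 2)) := by
  have hH : 0 ≤ H := le_trans hu huH
  have e1 : u ^ 3 - M ^ 3 - 3 / 2 * M * (u ^ 2 - M ^ 2) = (u - M) ^ 2 * (2 * u + M) / 2 := by ring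
  have e2 : (u ^ 2 - M ^ 2) ^ 2 = (u - M) ^ 2 * (u + M) * (u + M) := by ring
  rw [e1, e2]
  have h0 : 0 ≤ (u - M) ^ 2 * (u + M) := mul_nonneg (sq_nonneg _) (by linarith)
  have h1 := mul_le_mul_of_nonneg_left (by linarith : u + M ≤ 2 * H) h0
  have h2 : 0 ≤ (u - M) ^ 2 * (u * H) := mul_nonneg (sq_nonneg _) (mul_nonneg hu hH)
  nlinarith

theorem rMJn : S_MJn := by
  intro p x y hp0 hp1 hx hy
  set m : ℝ := p * x + (1 - p) * y with hm
  have hm0 : 0 ≤ m := add_nonneg (mul_nonneg hp0 hx) (mul_nonneg (by linarith) hy)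
  have hmm : m ≤ max x y := by
    have h1 := mul_le_mul_of_nonneg_left (le_max_left x y) hp0
    have h2 := mul_le_mul_of_nonneg_left (le_max_right x y) (by linarith : 0 ≤ 1 - p)
    rw [hm]
    linarith
  have kx := MJn_key (Real.sqrt x) (Real.sqrt m) (Real.sqrt (max x y)) (Real.sqrt_nonneg _)
    (Real.sqrt_nonneg _) (Real.sqrt_le_sqrt (le_max_left x y)) (Real.sqrt_le_sqrt hmm)
  have ky := MJn_key (Real.sqrt y) (Real.sqrt m) (Real.sqrt (max x y)) (Real.sqrt_nonneg _)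
    (Real.sqrt_nonneg _) (Real.sqrt_le_sqrt (le_max_right x y)) (Real.sqrt_le_sqrt hmm)
  have c3 : ∀ z : ℝ, 0 ≤ z → Real.sqrt z ^ 3 = z * Real.sqrt z := by
    intro z hz
    rw [pow_succ, Real.sq_sqrt hz]
  rw [c3 x hx, c3 m hm0, Real.sq_sqrt hx, Real.sq_sqrt hm0] at kx
  rw [c3 y hy, c3 m hm0, Real.sq_sqrt hy, Real.sq_sqrt hm0] at ky
  generalize Real.sqrt (max x y) = H at kx ky ⊢
  generalize Real.sqrt x = X at kx ky ⊢
  generalize Real.sqrt y = Y at kx ky ⊢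
  generalize Real.sqrt m = M at kx ky ⊢
  have h1 := mul_le_mul_of_nonneg_left kx hp0
  have h2 := mul_le_mul_of_nonneg_left ky (by linarith : 0 ≤ 1 - p)
  have e1 : p * (1 / 4 * (x - m) ^ 2) + (1 - p) * (1 / 4 * (y - m) ^ 2) =
      1 / 4 * (p * (1 - p) * (x - y) ^ 2) := by
    rw [hm]
    ring
  have e2 : p * (H * (x * X - m * M - 3 / 2 * M * (x - m))) +
      (1 - p) * (H * (y * Y - m * M - 3 / 2 * M * (y - m))) =
      H * (p * (x * X) + (1 - p) * (y * Y) - m * M) := by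
    rw [hm]
    ring
  linarith

end Pool.Agent.MP3145b1.RC
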