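import Pool.Agent.Lib.MP_3145b1_co.RC.SpecM

set_option autoImplicit false

namespace Pool.Agent.MP3145b1.RC

open Finset

private lemma MPs_lip (a m m0 : ℝ) (h0 : |m0 - a| < a / 2) :
    a ^ 2 / 4 - (m0 - a) ^ 2 - a * |m - m0| ≤ max 0 (a ^ 2 / 4 - (m - a) ^ 2) := by
  by_cases h : |m - a| ≤ a / 2
  · apply le_max_of_le_right
    have h1 : (m - a) ^ 2 - (m0 - a) ^ 2 = (m - m0) * ((m - a) + (m0 - a)) := by ring
    have h2 : (m - m0) * ((m - a) + (m0 - a)) ≤ |m - m0| * |(m - a) + (m0 - a)| := by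
      rw [← abs_mul]
      exact le_abs_self _
    have h3 : |(m - a) + (m0 - a)| ≤ a := by
      refine (abs_add_le _ _).trans ?_
      linarith
    have h4 := mul_le_mul_of_nonneg_left h3 (abs_nonneg (m - m0))
    linarith
  · push Not at h
    apply le_max_of_le_left
    have h1 : |m - a| ≤ |m - m0| + |m0 - a| := by
      have := abs_add_le (m - m0) (m0 - a)
      rwa [show m - m0 + (m0 - a) = m - a by ring] at this
    have h2 : (m0 - a) ^ 2 = |m0 - a| ^ 2 := (sq_abs _).symm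
    rw [h2]
    have h3 := abs_nonneg (m0 - a)
    nlinarith

theorem rMPs : S_MPs := by
  intro p x y a hp0 hp1 ha h
  set m0 : ℝ := p * x + (1 - p) * y with hm0
  have hq : 0 ≤ 1 - p := by linarith
  have hψ : 0 ≤ a ^ 2 / 4 - (m0 - a) ^ 2 := by
    have h2 : (m0 - a) ^ 2 = |m0 - a| ^ 2 := (sq_abs _).symm
    rw [h2]
    have h3 := abs_nonneg (m0 - a)
    nlinarith
  rw [max_eq_right hψ]
  constructor
  · have h1 := mul_le_mul_of_nonneg_left (le_max_right 0 (a ^ 2 / 4 - (x - a) ^ 2)) hp0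
    have h2 := mul_le_mul_of_nonneg_left (le_max_right 0 (a ^ 2 / 4 - (y - a) ^ 2)) hq
    have h3 : a ^ 2 / 4 - (m0 - a) ^ 2 - p * (1 - p) * (x - y) ^ 2 =
        p * (a ^ 2 / 4 - (x - a) ^ 2) + (1 - p) * (a ^ 2 / 4 - (y - a) ^ 2) := by
      rw [hm0]; ring
    linarith
  · intro hxy
    have hle : a ^ 2 / 4 - (m0 - a) ^ 2 ≤ a ^ 2 / 4 := by nlinarith [sq_nonneg (m0 - a)]
    have hpq : 0 ≤ p * (1 - p) := mul_nonneg hp0 hq
    have hax : a * a ≤ a * |x - y| := mul_le_mul_of_nonneg_left hxy ha.le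
    have hax' := mul_le_mul_of_nonneg_left hax hpq
    rcases le_total (1 / 2) p with hp | hp
    · have h1 := mul_le_mul_of_nonneg_left (MPs_lip a x m0 h) hp0
      have h2 := mul_nonneg hq (le_max_left 0 (a ^ 2 / 4 - (y - a) ^ 2))
      have h3 : |x - m0| = (1 - p) * |x - y| := by
        rw [show x - m0 = (1 - p) * (x - y) by rw [hm0]; ring, abs_mul, abs_of_nonneg hq]
      rw [h3] at h1
      have h4 : (1 - p) * (a ^ 2 / 4 - (m0 - a) ^ 2) ≤ 2 * (p * (1 - p)) * (a ^ 2 / 4) := by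
        have e1 : (1 - p) * (a ^ 2 / 4 - (m0 - a) ^ 2) ≤ (1 - p) * (a ^ 2 / 4) :=
          mul_le_mul_of_nonneg_left hle hq
        have e2 : (1 - p) * (a ^ 2 / 4) ≤ 2 * (p * (1 - p)) * (a ^ 2 / 4) := by
          apply mul_le_mul_of_nonneg_right _ (by positivity)
          nlinarith
        exact e1.trans e2
      nlinarith
    · have h1 := mul_le_mul_of_nonneg_left (MPs_lip a y m0 h) hq
      have h2 := mul_nonneg hp0 (le_max_left 0 (a ^ 2 / 4 - (x - a) ^ 2))
      have h3 : |y - m0| = p * |x - y| := by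
        rw [show y - m0 = -(p * (x - y)) by rw [hm0]; ring, abs_neg, abs_mul, abs_of_nonneg hp0]
      rw [h3] at h1
      have h4 : p * (a ^ 2 / 4 - (m0 - a) ^ 2) ≤ 2 * (p * (1 - p)) * (a ^ 2 / 4) := by
        have e1 : p * (a ^ 2 / 4 - (m0 - a) ^ 2) ≤ p * (a ^ 2 / 4) :=
          mul_le_mul_of_nonneg_left hle hp0
        have e2 : p * (a ^ 2 / 4) ≤ 2 * (p * (1 - p)) * (a ^ 2 / 4) := by
          apply mul_le_mul_of_nonneg_right _ (by positivity)
          nlinarith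
        exact e1.trans e2
      nlinarith

end Pool.Agent.MP3145b1.RC
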