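import Pool.Agent.Lib.MP_3145b1_co.RC.SpecM

/-!
# MP_3145b1_co, project RC: the energy identity
-/

set_option autoImplicit false

namespace Pool.Agent.MP3145b1.RC

open Finset

theorem rMSq : S_MSq := by
  intro σ s p m A n t x hM
  induction n generalizing t x with
  | zero =>
    simp only [EV_zero]
    simp
  | succ n ih =>
    by_cases hx : x ∈ A t
    · rw [EV_mem _ _ _ _ _ _ _ _ hx, EV_mem _ _ _ _ _ _ _ _ hx, ih, ih]
      have h := (hM t x hx).sq 0
      simp only [sub_zero] at h
      simp only [Pi.zero_apply]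
      linarith
    · rw [EV_not _ _ _ _ _ _ _ _ hx, EV_not _ _ _ _ _ _ _ _ hx]
      simp

end Pool.Agent.MP3145b1.RC
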