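import Pool.Agent.Lib.MP_3145b1_co.RC.SpecM

set_option autoImplicit false

namespace Pool.Agent.MP3145b1.RC

open Finset

private lemma MTg_core (r : ℝ) (hr : r ≠ 0) :
    2 * r ^ 2 * Real.log |r| - 2 * (r - 1) ≤
      (r - 1) ^ 2 * (4 + 2 * max (Real.log |r|) 0) := by
  rcases lt_or_gt_of_ne hr with h | h
  · have hM0 : 0 ≤ max (Real.log |r|) 0 := le_max_right _ _
    have hM1 : Real.log |r| ≤ max (Real.log |r|) 0 := le_max_left _ _
    generalize max (Real.log |r|) 0 = M at *
    generalize Real.log |r| = l at *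
    have h1 : r ^ 2 * l ≤ r ^ 2 * M := mul_le_mul_of_nonneg_left hM1 (sq_nonneg _)
    have h2 : r ^ 2 * M ≤ (r - 1) ^ 2 * M := mul_le_mul_of_nonneg_right (by nlinarith) hM0
    nlinarith [sq_nonneg r]
  · rw [abs_of_pos h]
    have hl : Real.log r ≤ r - 1 := Real.log_le_sub_one_of_pos h
    by_cases h1 : 1 ≤ r
    · have hl0 : 0 ≤ Real.log r := Real.log_nonneg h1
      rw [max_eq_left hl0]
      generalize Real.log r = l at *
      nlinarith [mul_nonneg (sub_nonneg.2 h1) (sub_nonneg.2 hl)]
    · push Not at h1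
      have hl0 : Real.log r ≤ 0 := Real.log_nonpos h.le h1.le
      rw [max_eq_right hl0]
      generalize Real.log r = l at *
      have h3 : r ^ 2 * l ≤ r ^ 2 * (r - 1) := mul_le_mul_of_nonneg_left hl (sq_nonneg _)
      nlinarith [mul_nonneg (sq_nonneg (r - 1)) (sub_nonneg.2 h1.le)]

theorem rMTg : S_MTg := by
  intro c U
  by_cases hU : U = 0
  · subst hU
    have h1 : max |c| |(0 : ℝ)| = |c| := by
      rw [abs_zero]
      exact max_eq_left (abs_nonneg c)
    rw [h1]
    simp only [abs_zero, Real.log_zero, sub_zero]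
    nlinarith [sq_nonneg c]
  by_cases hc : c = 0
  · subst hc
    have h1 : max |(0 : ℝ)| |U| = |U| := by
      rw [abs_zero]
      exact max_eq_right (abs_nonneg U)
    rw [h1]
    nlinarith [sq_nonneg U]
  have hUa : 0 < |U| := abs_pos.2 hU
  have hr : c / U ≠ 0 := div_ne_zero hc hU
  have hcr : c = c / U * U := by field_simp
  have hra : 0 < |c / U| := abs_pos.2 hr
  have hlc : Real.log |c| = Real.log |c / U| + Real.log |U| := by
    rw [← Real.log_mul hra.ne' hUa.ne', ← abs_mul, ← hcr]
  have hlm : Real.log (max |c| |U|) = max (Real.log |c / U|) 0 + Real.log |U| := by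
    rcases le_total |U| |c| with h | h
    · rw [max_eq_left h, hlc, max_eq_left]
      have : Real.log |U| ≤ Real.log |c| := Real.log_le_log hUa h
      linarith
    · rw [max_eq_right h, max_eq_right, zero_add]
      have : Real.log |c| ≤ Real.log |U| := Real.log_le_log (abs_pos.2 hc) h
      linarith
  have hcore := MTg_core (c / U) hr
  rw [hlc, hlm]
  generalize max (Real.log |c / U|) 0 = M at *
  generalize Real.log |c / U| = l at *
  generalize Real.log |U| = L at *
  generalize c / U = r at *
  subst hcr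
  have h2 := mul_le_mul_of_nonneg_left hcore (sq_nonneg U)
  nlinarith [h2]

end Pool.Agent.MP3145b1.RC
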