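import Pool.Agent.Lib.MP_3145b1_co.RC.Spec

/-!
# MP_3145b1_co, project RC: module Mea
-/

set_option autoImplicit false

namespace Pool.Agent.MP3145b1.RC

open Finset

private theorem Mea_claim {σ : Type} (K a0 : ℝ) (hK : 1 ≤ K) (s : ℕ → σ → Bool → σ)
    (p : ℕ → σ → ℝ) (m : ℕ → σ → ℝ) (R : ℕ → Finset σ) (ν : ℕ → σ → ℝ) (hp : Pb p)
    (h1 : ∀ u, ∀ y ∈ R u, St s p m R (fun _ => ∅) ν u y)
    (h2 : ∀ u, ∀ y ∈ R u, |m u y - a0| < 5 * K) (n : ℕ) : ∀ (u : ℕ) (y : σ), y ∈ R u →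
    K - (m u y - a0) ≤ 7 * K * EV s p R ν (ind (fun u => {y | y ∉ R u ∨ m u y - a0 ≤ K})) n u y := by
  induction n with
  | zero =>
    intro u y hyR
    rw [EV_zero]
    have h3 := (abs_lt.1 (h2 u y hyR)).1
    by_cases hB : y ∈ {y | y ∉ R u ∨ m u y - a0 ≤ K}
    · rw [ind_mem (fun u => {y | y ∉ R u ∨ m u y - a0 ≤ K}) u y hB]
      linarith
    · rw [ind_not (fun u => {y | y ∉ R u ∨ m u y - a0 ≤ K}) u y hB]
      have h4 : ¬ (m u y - a0 ≤ K) := fun h => hB (Or.inr h)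
      linarith
  | succ n ih =>
    intro u y hyR
    rw [EV_mem _ _ _ _ _ _ _ _ hyR]
    obtain ⟨a, ha1, ha2, ha3⟩ := h1 u y hyR
    have h3 := abs_lt.1 (h2 u y hyR)
    have hc : ∀ b : Bool, K - (a b - a0) ≤
        7 * K * EV s p R ν (ind (fun u => {y | y ∉ R u ∨ m u y - a0 ≤ K})) n (u + 1) (s u y b) := by
      intro b
      by_cases hb : s u y b ∈ R (u + 1)
      · rw [ha2 b (Or.inl hb)]
        exact ih (u + 1) (s u y b) hb
      · rw [EV_not _ _ _ _ _ _ _ _ hb,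
          ind_mem (fun u => {y | y ∉ R u ∨ m u y - a0 ≤ K}) (u + 1) (s u y b) (Or.inl hb)]
        have h4 := (abs_le.1 (ha1 b)).1
        linarith [h3.1]
    have hpy := hp u y
    have i1 := mul_le_mul_of_nonneg_left (hc false) hpy.1
    have i2 := mul_le_mul_of_nonneg_left (hc true) (by linarith [hpy.2] : 0 ≤ 1 - p u y)
    have h5 := (abs_le.1 ha3).2
    have hν : 0 ≤ ν u y := le_trans (abs_nonneg _) ha3
    have h6 : 0 ≤ (7 * K - 1) * ν u y := mul_nonneg (by linarith) hν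
    linarith

theorem rMea : S_Mea := by
  intro K hK σ s p m R ν t n x hp h1 h2
  have hK0 : 0 < K := by linarith
  by_cases hx : x ∈ R t
  · have h := Mea_claim K (m t x) hK s p m R ν hp h1 h2 n t x hx
    rw [sub_self, sub_zero] at h
    by_contra hlt
    rw [not_le] at hlt
    have : 7 * K * EV s p R ν (ind (fun u => {y | y ∉ R u ∨ m u y - m t x ≤ K})) n t x <
        7 * K * (1 / 7) := mul_lt_mul_of_pos_left hlt (by linarith)
    linarith
  · rw [EV_not _ _ _ _ _ _ _ _ hx,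
      ind_mem (fun u => {y | y ∉ R u ∨ m u y - m t x ≤ K}) t x (Or.inl hx)]
    norm_num

end Pool.Agent.MP3145b1.RC
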