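import Pool.Agent.Lib.MP_3145b1_co.RC.SpecN

/-!
# MP_3145b1_co, project RC: chain of the entropies
-/

set_option autoImplicit false

namespace Pool.Agent.MP3145b1.RC

open Finset

private theorem NCh_split (M i : ℕ) (hi : i < M) (f : Finset ℕ → ℝ) :
    ∑ T ∈ (range M).powerset, f T = ∑ T ∈ ((range M).erase i).powerset, (f T + f (insert i T)) := by
  have h : range M = insert i ((range M).erase i) := by
    rw [Finset.insert_erase (Finset.mem_range.2 hi)]
  conv_lhs => rw [h]
  rw [Finset.sum_powerset_insert (Finset.notMem_erase i _), Finset.sum_add_distrib]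

private theorem NCh_hh0 : hh (0 ^ 2) = 0 := by
  unfold hh
  simp

private theorem NCh_main (w n M : ℕ) (s : ℕ → Fin w → Bool → Fin w) (v : ℕ → Fin w → ℕ) (p : ℕ → ℝ)
    (o : Fin w → ℝ) (hM : ∀ t z, v t z < M) (hr : Ro s v n) (ho : ∀ z, o z = 1 ∨ o z = -1) (k : ℕ) :
    ∀ (t : ℕ) (x : Fin w), t + k = n →
      ∑ T ∈ (range M).powerset, wt p T * hh (Cf s v p o T k t x ^ 2) =
        EV s (pn v p) (fun _ => univ)
          (fun t y => ∑ T ∈ (range M).powerset, wt p T * DT s v p o n T t y) 0 k t x := by
  induction k with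
  | zero =>
    intro t x _
    rw [EV_zero]
    have e : (0 : ℕ → Fin w → ℝ) t x = 0 := rfl
    rw [e]
    apply Finset.sum_eq_zero
    intro T _
    have e2 : Cf s v p o T 0 t x = if T = ∅ then o x else 0 := by simp only [Cf]
    rw [e2]
    split_ifs with hT
    · have : hh (o x ^ 2) = 0 := by
        rcases ho x with h | h <;> rw [h] <;> simp [hh]
      rw [this, mul_zero]
    · rw [NCh_hh0, mul_zero]
  | succ k ih =>
    intro t x hk
    have ek : n - (t + 1) = k := by omega
    have ht : t < n := by omega
    rw [EV_mem _ _ _ _ _ _ _ _ (Finset.mem_univ x), ← ih (t + 1) _ (by omega),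
      ← ih (t + 1) _ (by omega), Finset.mul_sum, Finset.mul_sum, ← Finset.sum_add_distrib,
      ← Finset.sum_add_distrib, NCh_split M (v t x) (hM t x), NCh_split M (v t x) (hM t x)]
    apply Finset.sum_congr rfl
    intro T hT
    have hi : v t x ∉ T := by
      intro h
      exact Finset.notMem_erase (v t x) (range M) (Finset.mem_powerset.1 hT h)
    have hi' : v t x ∈ insert (v t x) T := Finset.mem_insert_self _ _
    have c0 : ∀ b, Cf s v p o (insert (v t x) T) k (t + 1) (s t x b) = 0 := by
      intro b
      have := Cf_child s v p o hr (insert (v t x) T) t x b ht hi'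
      rwa [ek] at this
    have d0 : DT s v p o n (insert (v t x) T) t x = 0 := by
      unfold DT
      rw [if_pos hi']
    have d1 : DT s v p o n T t x = dlp (p (v t x)) (Cf s v p o T k (t + 1) (s t x false))
        (Cf s v p o T k (t + 1) (s t x true)) := by
      unfold DT
      rw [if_neg hi, ek]
    have u1 : Cf s v p o T (k + 1) t x = p (v t x) * Cf s v p o T k (t + 1) (s t x false) +
        (1 - p (v t x)) * Cf s v p o T k (t + 1) (s t x true) := by
      simp only [Cf]
      rw [if_neg hi]
    have u2 : Cf s v p o (insert (v t x) T) (k + 1) t x =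
        (Cf s v p o T k (t + 1) (s t x false) - Cf s v p o T k (t + 1) (s t x true)) / 2 := by
      simp only [Cf]
      rw [if_pos hi', Finset.erase_insert hi]
    have ep : pn v p t x = p (v t x) := rfl
    rw [c0, c0, d0, d1, u1, u2, NCh_hh0, wt_insert _ _ _ hi, ep]
    unfold dlp
    ring

theorem rNCh : S_NCh := by
  intro w n M s v p o x hM hr ho
  exact NCh_main w n M s v p o hM hr ho n 0 x (by omega)

end Pool.Agent.MP3145b1.RC
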