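import Pool.Agent.Lib.MP_3145b1_co.RC.SpecN

/-!
# MP_3145b1_co, project RC: the entropy along the walk for the empty set
-/

set_option autoImplicit false

namespace Pool.Agent.MP3145b1.RC

open Finset

private theorem NEm_hh (d : ℝ) : hh (d ^ 2) ≤ 2 * (|d| - d ^ 2) := by
  have hd : hh (d ^ 2) = - d ^ 2 * Real.log (d ^ 2) := by
    unfold hh
    rw [Real.negMulLog]
  rw [hd]
  by_cases h : d = 0
  · subst h; simp
  · have hp : 0 < |d| := abs_pos.mpr h
    have h1 := Real.log_le_sub_one_of_pos (inv_pos.mpr hp)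
    rw [Real.log_inv] at h1
    have h2 : Real.log (d ^ 2) = 2 * Real.log |d| := by
      rw [← sq_abs, Real.log_pow]; norm_num
    rw [h2, ← sq_abs d]
    have h3 := mul_le_mul_of_nonneg_left h1 (sq_nonneg |d|)
    have h4 : |d| ^ 2 * (|d|⁻¹ - 1) = |d| - |d| ^ 2 := by field_simp
    nlinarith

private theorem NEm_ind {w : ℕ} (n M : ℕ) (s : ℕ → Fin w → Bool → Fin w) (v : ℕ → Fin w → ℕ) (p : ℕ → ℝ)
    (o : Fin w → ℝ) (hp : ∀ i, 0 ≤ p i ∧ p i ≤ 1) (ho : ∀ z, o z = 1 ∨ o z = -1)
    (hJ : ∀ t z, t < n → |Om s v p o n ∅ t z| ≤ J1 s v p o n M t z) (k : ℕ) :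
    ∀ (t : ℕ) (x : Fin w), t + k = n →
      EV s (pn v p) (fun _ => univ) (DT s v p o n ∅) 0 k t x ≤ hh (Cf s v p o ∅ k t x ^ 2) +
        2 * EV s (pn v p) (fun _ => univ) (fun t y => 4 * vv (pn v p) t y * J2 s v p o n M t y) 0 k t x := by
  induction k with
  | zero =>
    intro t x _
    rw [EV_zero, EV_zero]
    have e : hh (Cf s v p o ∅ 0 t x ^ 2) = 0 := by
      have : Cf s v p o ∅ 0 t x = o x := by simp only [Cf, if_true]
      rw [this]
      have h1 : o x ^ 2 = 1 := by
        rcases ho x with h | h <;> rw [h] <;> norm_num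
      rw [h1]
      unfold hh
      simp
    rw [e]
    simp
  | succ k ih =>
    intro t x htk
    have hk : n - (t + 1) = k := by omega
    have ht : t < n := by omega
    rw [EV_mem _ _ _ _ _ _ _ _ (Finset.mem_univ x), EV_mem _ _ _ _ _ _ _ _ (Finset.mem_univ x)]
    have i1 := ih (t + 1) (s t x false) (by omega)
    have i2 := ih (t + 1) (s t x true) (by omega)
    have av := avg_mono (pn_Pb (v := v) hp) t x i1 i2
    have hpv : pn v p t x = p (v t x) := rfl
    have hC : Cf s v p o ∅ (k + 1) t x = p (v t x) * Cf s v p o ∅ k (t + 1) (s t x false) +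
        (1 - p (v t x)) * Cf s v p o ∅ k (t + 1) (s t x true) := by
      simp only [Cf]
      rw [if_neg (Finset.notMem_empty _)]
    have hD : DT s v p o n ∅ t x = dlp (p (v t x)) (Cf s v p o ∅ k (t + 1) (s t x false))
        (Cf s v p o ∅ k (t + 1) (s t x true)) := by
      unfold DT
      rw [if_neg (Finset.notMem_empty _), hk]
    have hO : Om s v p o n ∅ t x = (Cf s v p o ∅ k (t + 1) (s t x false) -
        Cf s v p o ∅ k (t + 1) (s t x true)) / 2 := by
      unfold Om
      rw [hk]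
    have h1 := NEm_hh (Om s v p o n ∅ t x)
    have h2 := hJ t x ht
    have h3 : hh (Om s v p o n ∅ t x ^ 2) ≤ 2 * J2 s v p o n M t x := by
      unfold J2
      linarith
    have hv := vv_nonneg (pn_Pb (v := v) hp) t x
    have h4 := mul_le_mul_of_nonneg_left h3 (by linarith : 0 ≤ 4 * vv (pn v p) t x)
    have h5 : vv (pn v p) t x = p (v t x) * (1 - p (v t x)) := rfl
    rw [hD, hC]
    unfold dlp
    rw [hO] at h4
    rw [h5] at h4 ⊢
    rw [hpv] at av ⊢
    linarith

theorem rNEm : S_NEm := by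
  intro w n M s v p o x hp ho hJ
  exact NEm_ind n M s v p o hp ho hJ n 0 x (by omega)

end Pool.Agent.MP3145b1.RC
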