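import Pool.Agent.Lib.MP_3145b1_co.RC.SpecN

/-!
# MP_3145b1_co, project RC: the influence minus the variance
-/

set_option autoImplicit false

namespace Pool.Agent.MP3145b1.RC

open Finset

private theorem NIn_split (M i : ℕ) (hi : i < M) (f : Finset ℕ → ℝ) :
    ∑ T ∈ (range M).powerset, f T = ∑ T ∈ ((range M).erase i).powerset, (f T + f (insert i T)) := by
  have h : range M = insert i ((range M).erase i) := by
    rw [Finset.insert_erase (Finset.mem_range.2 hi)]
  conv_lhs => rw [h]
  rw [Finset.sum_powerset_insert (Finset.notMem_erase i _), Finset.sum_add_distrib]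

private theorem NIn_filter (M i : ℕ) :
    (range M).powerset.filter (fun T => i ∉ T) = ((range M).erase i).powerset := by
  ext T
  rw [Finset.mem_filter, Finset.mem_powerset, Finset.mem_powerset, Finset.subset_erase]

private theorem NIn_infl (w n M : ℕ) (s : ℕ → Fin w → Bool → Fin w) (v : ℕ → Fin w → ℕ) (p : ℕ → ℝ)
    (o : Fin w → ℝ) (hM : ∀ t z, v t z < M) (hr : Ro s v n) (k : ℕ) :
    ∀ (t : ℕ) (x : Fin w), t + k = n →
      ∑ T ∈ (range M).powerset, (T.card : ℝ) * (wt p T * Cf s v p o T k t x ^ 2) =
        EV s (pn v p) (fun _ => univ) (fun t y => 4 * vv (pn v p) t y * J1 s v p o n M t y) 0 k t x := by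
  induction k with
  | zero =>
    intro t x _
    rw [EV_zero]
    have e : (0 : ℕ → Fin w → ℝ) t x = 0 := rfl
    rw [e]
    apply Finset.sum_eq_zero
    intro T _
    have e2 : Cf s v p o T 0 t x = if T = ∅ then o x else 0 := by simp only [Cf]
    rw [e2]
    split_ifs with hT
    · rw [hT]; simp
    · simp
  | succ k ih =>
    intro t x hk
    have ek : n - (t + 1) = k := by omega
    have ht : t < n := by omega
    have hJ : J1 s v p o n M t x = ∑ T ∈ ((range M).erase (v t x)).powerset,
        wt p T * Om s v p o n T t x ^ 2 := by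
      unfold J1
      rw [NIn_filter]
    rw [EV_mem _ _ _ _ _ _ _ _ (Finset.mem_univ x), ← ih (t + 1) _ (by omega),
      ← ih (t + 1) _ (by omega), hJ, NIn_split M (v t x) (hM t x), NIn_split M (v t x) (hM t x),
      NIn_split M (v t x) (hM t x), Finset.mul_sum, Finset.mul_sum, Finset.mul_sum,
      ← Finset.sum_add_distrib, ← Finset.sum_add_distrib]
    apply Finset.sum_congr rfl
    intro T hT
    have hi : v t x ∉ T := by
      intro h
      exact Finset.notMem_erase (v t x) (range M) (Finset.mem_powerset.1 hT h)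
    have hi' : v t x ∈ insert (v t x) T := Finset.mem_insert_self _ _
    have c0 : ∀ b, Cf s v p o (insert (v t x) T) k (t + 1) (s t x b) = 0 := by
      intro b
      have := Cf_child s v p o hr (insert (v t x) T) t x b ht hi'
      rwa [ek] at this
    have u1 : Cf s v p o T (k + 1) t x = p (v t x) * Cf s v p o T k (t + 1) (s t x false) +
        (1 - p (v t x)) * Cf s v p o T k (t + 1) (s t x true) := by
      simp only [Cf]
      rw [if_neg hi]
    have u2 : Cf s v p o (insert (v t x) T) (k + 1) t x =
        (Cf s v p o T k (t + 1) (s t x false) - Cf s v p o T k (t + 1) (s t x true)) / 2 := by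
      simp only [Cf]
      rw [if_pos hi', Finset.erase_insert hi]
    have u3 : Om s v p o n T t x =
        (Cf s v p o T k (t + 1) (s t x false) - Cf s v p o T k (t + 1) (s t x true)) / 2 := by
      unfold Om
      rw [ek]
    have ep : pn v p t x = p (v t x) := rfl
    have ev : vv (pn v p) t x = p (v t x) * (1 - p (v t x)) := rfl
    rw [c0, c0, u1, u2, u3, wt_insert _ _ _ hi, ep, ev, Finset.card_insert_of_notMem hi]
    push_cast
    ring

private theorem NIn_var (w n : ℕ) (s : ℕ → Fin w → Bool → Fin w) (v : ℕ → Fin w → ℕ) (p : ℕ → ℝ)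
    (o : Fin w → ℝ) (ho : ∀ z, o z = 1 ∨ o z = -1) (k : ℕ) :
    ∀ (t : ℕ) (x : Fin w), t + k = n →
      1 - Cf s v p o ∅ k t x ^ 2 =
        EV s (pn v p) (fun _ => univ) (fun t y => 4 * vv (pn v p) t y * Om s v p o n ∅ t y ^ 2) 0 k t x := by
  induction k with
  | zero =>
    intro t x _
    rw [EV_zero]
    have e : (0 : ℕ → Fin w → ℝ) t x = 0 := rfl
    rw [e]
    have e2 : Cf s v p o ∅ 0 t x = o x := by simp [Cf]
    rw [e2]
    rcases ho x with h | h <;> rw [h] <;> norm_num
  | succ k ih =>
    intro t x hk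
    have ek : n - (t + 1) = k := by omega
    rw [EV_mem _ _ _ _ _ _ _ _ (Finset.mem_univ x), ← ih (t + 1) _ (by omega),
      ← ih (t + 1) _ (by omega)]
    have u1 : Cf s v p o ∅ (k + 1) t x = p (v t x) * Cf s v p o ∅ k (t + 1) (s t x false) +
        (1 - p (v t x)) * Cf s v p o ∅ k (t + 1) (s t x true) := by
      simp [Cf]
    have u3 : Om s v p o n ∅ t x =
        (Cf s v p o ∅ k (t + 1) (s t x false) - Cf s v p o ∅ k (t + 1) (s t x true)) / 2 := by
      unfold Om
      rw [ek]
    have ep : pn v p t x = p (v t x) := rfl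
    have ev : vv (pn v p) t x = p (v t x) * (1 - p (v t x)) := rfl
    rw [u1, u3, ep, ev]
    ring

theorem rNIn : S_NIn := by
  intro w n M s v p o x hM hr ho
  have h1 := NIn_infl w n M s v p o hM hr n 0 x (by omega)
  have h2 := NIn_var w n s v p o ho n 0 x (by omega)
  have h3 : BB s v p o n M x + EV s (pn v p) (fun _ => univ)
      (fun t y => 4 * vv (pn v p) t y * Om s v p o n ∅ t y ^ 2) 0 n 0 x =
      EV s (pn v p) (fun _ => univ) (fun t y => 4 * vv (pn v p) t y * J1 s v p o n M t y) 0 n 0 x := by
    unfold BB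
    rw [← EV_add0]
    congr 1
    funext t y
    unfold J2
    ring
  rw [h1, h2]
  linarith

end Pool.Agent.MP3145b1.RC
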