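import Pool.Agent.Lib.MP_3145b1_co.RC.SpecN

/-!
MP_3145b1_co, project RC, module NL2: sets with at least two elements.
-/

set_option autoImplicit false

namespace Pool.Agent.MP3145b1.RC

open Finset

private theorem NL2_zero {w : ℕ} (s : ℕ → Fin w → Bool → Fin w) (v : ℕ → Fin w → ℕ) (p : ℕ → ℝ)
    (o : Fin w → ℝ) (n : ℕ) (T : Finset ℕ) (k : ℕ) :
    ∀ (t : ℕ) (x : Fin w), t + k = n → ¬ T ⊆ rd s v k t x →
      EV s (pn v p) (At v n T) 0 (fun u y => mt s v p o n T u y ^ 2) k t x = 0 := by
  induction k with
  | zero =>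
    intro t x ht h
    rw [EV_zero]
    unfold mt
    rw [show n - t = 0 by omega, Cf_zero s v p o 0 T t x h]
    norm_num
  | succ k ih =>
    intro t x ht h
    by_cases hx : x ∈ At v n T t
    · have hsub : ∀ b : Bool, rd s v k (t + 1) (s t x b) ⊆ rd s v (k + 1) t x := by
        intro b a ha
        simp only [rd, Finset.mem_insert, Finset.mem_union]
        cases b
        · exact Or.inr (Or.inl ha)
        · exact Or.inr (Or.inr ha)
      rw [EV_mem _ _ _ _ _ _ _ _ hx,
        ih (t + 1) (s t x false) (by omega) (fun hs => h (hs.trans (hsub false))),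
        ih (t + 1) (s t x true) (by omega) (fun hs => h (hs.trans (hsub true)))]
      simp only [Pi.zero_apply]
      ring
    · rw [EV_not _ _ _ _ _ _ _ _ hx]
      unfold mt
      rw [show n - t = k + 1 by omega, Cf_zero s v p o (k + 1) T t x h]
      norm_num

private theorem NL2_J2 {w : ℕ} (s : ℕ → Fin w → Bool → Fin w) (v : ℕ → Fin w → ℕ) (p : ℕ → ℝ)
    (o : Fin w → ℝ) (n M t : ℕ) (x : Fin w) :
    J2 s v p o n M t x =
      ∑ T ∈ ((range M).powerset.filter (fun T => v t x ∉ T)).erase ∅, wt p T * Om s v p o n T t x ^ 2 := by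
  have h0 : (∅ : Finset ℕ) ∈ (range M).powerset.filter (fun T => v t x ∉ T) :=
    mem_filter.2 ⟨empty_mem_powerset _, notMem_empty _⟩
  rw [Finset.sum_erase_eq_sub h0]
  unfold J2 J1
  have hw : wt p ∅ = 1 := by
    unfold wt
    exact Finset.prod_empty
  rw [hw, one_mul]

private theorem NL2_main {w : ℕ} (s : ℕ → Fin w → Bool → Fin w) (v : ℕ → Fin w → ℕ) (p : ℕ → ℝ)
    (o : Fin w → ℝ) (n M : ℕ) (hv : ∀ t z, v t z < M) (hr : Ro s v n) (k : ℕ) :
    ∀ (t : ℕ) (x : Fin w), t + k = n →
      ∑ T ∈ (range M).powerset.filter (fun T => 2 ≤ T.card), wt p T *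
        EV s (pn v p) (At v n T) 0 (fun u y => mt s v p o n T u y ^ 2) k t x =
      EV s (pn v p) (fun _ => univ) (fun t y => 4 * vv (pn v p) t y * J2 s v p o n M t y) 0 k t x := by
  induction k with
  | zero =>
    intro t x ht
    rw [EV_zero]
    apply Finset.sum_eq_zero
    intro T hT
    have h2 : 2 ≤ T.card := (mem_filter.1 hT).2
    have hne : T ≠ ∅ := by
      rintro rfl
      rw [Finset.card_empty] at h2
      omega
    rw [EV_zero]
    unfold mt
    rw [show n - t = 0 by omega]
    simp only [Cf]
    rw [if_neg hne]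
    norm_num
  | succ k ih =>
    intro t x ht
    have htn : t < n := by omega
    have hk : n - (t + 1) = k := by omega
    rw [EV_mem _ _ _ _ _ _ _ _ (mem_univ x), ← ih (t + 1) (s t x false) (by omega),
      ← ih (t + 1) (s t x true) (by omega)]
    have hz : ∀ b : Bool,
        ∑ T ∈ (range M).powerset.filter (fun T => 2 ≤ T.card), wt p T *
          EV s (pn v p) (At v n T) 0 (fun u y => mt s v p o n T u y ^ 2) k (t + 1) (s t x b) =
        ∑ T ∈ ((range M).powerset.filter (fun T => 2 ≤ T.card)).filter (fun T => v t x ∉ T), wt p T *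
          EV s (pn v p) (At v n T) 0 (fun u y => mt s v p o n T u y ^ 2) k (t + 1) (s t x b) := by
      intro b
      symm
      apply Finset.sum_filter_of_ne
      intro T _ hne hmem
      apply hne
      rw [NL2_zero s v p o n T k (t + 1) (s t x b) (by omega) (fun hs => hr t x b htn (by
        rw [hk]
        exact hs hmem)), mul_zero]
    rw [hz false, hz true, ← Finset.sum_filter_add_sum_filter_not
      ((range M).powerset.filter (fun T => 2 ≤ T.card)) (fun T => v t x ∉ T)]
    have h1 : ∑ T ∈ ((range M).powerset.filter (fun T => 2 ≤ T.card)).filter (fun T => v t x ∉ T), wt p T *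
          EV s (pn v p) (At v n T) 0 (fun u y => mt s v p o n T u y ^ 2) (k + 1) t x =
        pn v p t x * ∑ T ∈ ((range M).powerset.filter (fun T => 2 ≤ T.card)).filter (fun T => v t x ∉ T), wt p T *
          EV s (pn v p) (At v n T) 0 (fun u y => mt s v p o n T u y ^ 2) k (t + 1) (s t x false) +
        (1 - pn v p t x) *
          ∑ T ∈ ((range M).powerset.filter (fun T => 2 ≤ T.card)).filter (fun T => v t x ∉ T), wt p T *
          EV s (pn v p) (At v n T) 0 (fun u y => mt s v p o n T u y ^ 2) k (t + 1) (s t x true) := by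
      rw [mul_sum, mul_sum, ← sum_add_distrib]
      apply sum_congr rfl
      intro T hT
      have hx : x ∈ At v n T t := by
        unfold At
        rw [if_pos htn]
        exact mem_filter.2 ⟨mem_univ _, (mem_filter.1 hT).2⟩
      rw [EV_mem _ _ _ _ _ _ _ _ hx]
      simp only [Pi.zero_apply]
      ring
    have h2 : ∑ T ∈ ((range M).powerset.filter (fun T => 2 ≤ T.card)).filter (fun T => ¬ v t x ∉ T), wt p T *
          EV s (pn v p) (At v n T) 0 (fun u y => mt s v p o n T u y ^ 2) (k + 1) t x =
        4 * vv (pn v p) t x * J2 s v p o n M t x := by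
      rw [NL2_J2, mul_sum]
      refine Finset.sum_nbij' (fun T => T.erase (v t x)) (fun T => insert (v t x) T) ?_ ?_ ?_ ?_ ?_
      · intro T hT
        obtain ⟨hT1, hT2⟩ := mem_filter.1 hT
        obtain ⟨hT3, hT4⟩ := mem_filter.1 hT1
        rw [not_not] at hT2
        have hc := Finset.card_erase_of_mem hT2
        refine mem_erase.2 ⟨?_, mem_filter.2 ⟨mem_powerset.2 ((erase_subset _ _).trans (mem_powerset.1 hT3)),
          notMem_erase _ _⟩⟩
        intro he
        rw [he, Finset.card_empty] at hc
        omega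
      · intro T hT
        obtain ⟨hT1, hT2⟩ := mem_erase.1 hT
        obtain ⟨hT3, hT4⟩ := mem_filter.1 hT2
        have hc := Finset.card_insert_of_notMem hT4
        have hpos : 0 < T.card := Finset.card_pos.2 (Finset.nonempty_iff_ne_empty.2 hT1)
        refine mem_filter.2 ⟨mem_filter.2 ⟨mem_powerset.2 (insert_subset (mem_range.2 (hv t x))
          (mem_powerset.1 hT3)), by omega⟩, not_not.2 (mem_insert_self _ _)⟩
      · intro T hT
        exact insert_erase (not_not.1 (mem_filter.1 hT).2)
      · intro T hT
        exact erase_insert (mem_filter.1 (mem_erase.1 hT).2).2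
      · intro T hT
        have hmem : v t x ∈ T := not_not.1 (mem_filter.1 hT).2
        have hx : x ∉ At v n T t := by
          unfold At
          rw [if_pos htn]
          exact fun h => (mem_filter.1 h).2 hmem
        have hw := wt_insert p (T.erase (v t x)) (v t x) (notMem_erase _ _)
        rw [insert_erase hmem] at hw
        rw [EV_not _ _ _ _ _ _ _ _ hx, hw]
        unfold mt Om vv pn
        rw [show n - t = k + 1 by omega, hk]
        simp only [Cf]
        rw [if_pos hmem]
        ring
    rw [h1, h2]
    ring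

theorem rNL2 : S_NL2 := by
  intro w n M s v p o x hv hr
  exact NL2_main s v p o n M hv hr n 0 x (by omega)

end Pool.Agent.MP3145b1.RC
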