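import Pool.Agent.Lib.MP_3145b1_co.RC.SpecN

/-!
# MP_3145b1_co, project RC: entropy of the sets with at least two elements
-/

set_option autoImplicit false

namespace Pool.Agent.MP3145b1.RC

open Finset

theorem rNLg (h1 : S_MSq) (h2 : S_MF3) (h3 : S_NMg) (h4 : S_NTw) (h5 : S_NL2) : S_NLg := by
  intro w ε C hε hε2 hC hV n M s v p o x hp hv hr ho
  rw [← h5 w n M s v p o x hv hr, Finset.mul_sum]
  apply Finset.sum_le_sum
  intro T _
  have hM := h3 w n s v p o T hp ho
  have a1 := h4 w n ε s v p o x T hε (by linarith) hp ho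
  have a2 := h1 (Fin w) s (pn v p) (mt s v p o n T) (At v n T) n 0 x hM.1
  have a3 := h2 w ε C hε hε2 hC hV (Fin w) s (pn v p) (mt s v p o n T) (At v n T) n 0 x
    (pn_Pb hp) hM.2.2 hM.1
  have hw := wt_nonneg hp T
  have a4 : EV s (pn v p) (At v n T) (fun u y => vv (pn v p) u y * al s (mt s v p o n T) u y ^ 2) 0 n 0 x ≤
      EV s (pn v p) (At v n T) 0 (fun u y => mt s v p o n T u y ^ 2) n 0 x := by
    rw [a2]
    have := sq_nonneg (mt s v p o n T 0 x)
    linarith
  have hε' : 0 ≤ 2 / ε := by positivity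
  have a5 := mul_le_mul_of_nonneg_left a3 hε'
  have a6 : EV s (pn v p) (At v n T) (DT s v p o n T) 0 n 0 x ≤
      (7 + 32 * C / ε) * EV s (pn v p) (At v n T) 0 (fun u y => mt s v p o n T u y ^ 2) n 0 x := by
    have e : 2 / ε * (16 * C * EV s (pn v p) (At v n T) 0 (fun u y => mt s v p o n T u y ^ 2) n 0 x) =
        32 * C / ε * EV s (pn v p) (At v n T) 0 (fun u y => mt s v p o n T u y ^ 2) n 0 x := by
      ring
    rw [e] at a5
    linarith
  have a7 := mul_le_mul_of_nonneg_left a6 hw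
  linarith

end Pool.Agent.MP3145b1.RC
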