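import Pool.Agent.Lib.MP_3145b1_co.RC.SpecN

/-!
# MP_3145b1_co, project RC: module NMg
-/

set_option autoImplicit false

namespace Pool.Agent.MP3145b1.RC

open Finset

private theorem NMg_le {σ : Type} (s : ℕ → σ → Bool → σ) (v : ℕ → σ → ℕ) (p : ℕ → ℝ) (o : σ → ℝ)
    (hp : ∀ i, 0 ≤ p i ∧ p i ≤ 1) (ho : ∀ z, o z = 1 ∨ o z = -1) (k : ℕ) :
    ∀ (T : Finset ℕ) (t : ℕ) (x : σ), |Cf s v p o T k t x| ≤ 1 := by
  induction k with
  | zero =>
    intro T t x
    simp only [Cf]
    split_ifs
    · rcases ho x with h | h <;> rw [h] <;> norm_num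
    · norm_num
  | succ k ih =>
    intro T t x
    simp only [Cf]
    split_ifs
    · have h1 := abs_le.1 (ih (T.erase (v t x)) (t + 1) (s t x false))
      have h2 := abs_le.1 (ih (T.erase (v t x)) (t + 1) (s t x true))
      rw [abs_le]
      constructor
      · linarith [h1.1, h2.2]
      · linarith [h1.2, h2.1]
    · have h1 := abs_le.1 (ih T (t + 1) (s t x false))
      have h2 := abs_le.1 (ih T (t + 1) (s t x true))
      have hq := hp (v t x)
      have h0 : 0 ≤ 1 - p (v t x) := by linarith [hq.2]
      have a1 := mul_le_mul_of_nonneg_left h1.1 hq.1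
      have a2 := mul_le_mul_of_nonneg_left h1.2 hq.1
      have b1 := mul_le_mul_of_nonneg_left h2.1 h0
      have b2 := mul_le_mul_of_nonneg_left h2.2 h0
      rw [abs_le]
      constructor
      · linarith
      · linarith

theorem rNMg : S_NMg := by
  intro w n s v p o T hp ho
  refine ⟨?_, ?_, ?_⟩
  · intro u y hy
    unfold At at hy
    split_ifs at hy with hu
    · have hv : v u y ∉ T := by simpa using hy
      have e : n - u = (n - (u + 1)) + 1 := by omega
      unfold Mg mt pn
      rw [e]
      simp only [Cf]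
      rw [if_neg hv]
    · simp at hy
  · intro u y
    exact NMg_le s v p o hp ho (n - u) T u y
  · intro u
    have h := Finset.card_le_univ (At v n T u)
    rwa [Fintype.card_fin] at h

end Pool.Agent.MP3145b1.RC
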