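import Pool.Agent.Lib.MP_3145b1_co.RC.SpecN

/-!
# MP_3145b1_co, project RC: the entropy inequality for programs
-/

set_option autoImplicit false

namespace Pool.Agent.MP3145b1.RC

open Finset

private theorem NPg_wt0 (p : ℕ → ℝ) : wt p ∅ = 1 := by
  unfold wt
  rw [Finset.prod_empty]

private theorem NPg_J2 {w : ℕ} (s : ℕ → Fin w → Bool → Fin w) (v : ℕ → Fin w → ℕ) (p : ℕ → ℝ)
    (o : Fin w → ℝ) (n M t : ℕ) (x : Fin w) (hp : ∀ i, 0 ≤ p i ∧ p i ≤ 1) :
    0 ≤ J2 s v p o n M t x := by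
  unfold J2 J1
  have hm : (∅ : Finset ℕ) ∈ (range M).powerset.filter (fun T => v t x ∉ T) := by
    rw [Finset.mem_filter]
    exact ⟨Finset.mem_powerset.mpr (Finset.empty_subset _), Finset.notMem_empty _⟩
  have h := Finset.single_le_sum (f := fun T : Finset ℕ => wt p T * Om s v p o n T t x ^ 2)
    (fun T _ => mul_nonneg (wt_nonneg hp T) (sq_nonneg _)) hm
  simp only [NPg_wt0, one_mul] at h
  linarith

private theorem NPg_BB {w : ℕ} (s : ℕ → Fin w → Bool → Fin w) (v : ℕ → Fin w → ℕ) (p : ℕ → ℝ)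
    (o : Fin w → ℝ) (n M : ℕ) (x : Fin w) (hp : ∀ i, 0 ≤ p i ∧ p i ≤ 1) :
    0 ≤ BB s v p o n M x := by
  have hP : Pb (pn v p) := pn_Pb hp
  unfold BB
  apply EV_nonneg s hP _ _ (fun _ _ => le_rfl)
  intro u y _
  have h1 := vv_nonneg hP u y
  have h2 := NPg_J2 s v p o n M u y hp
  positivity

private theorem NPg_split (M : ℕ) (g : Finset ℕ → ℝ) :
    ∑ T ∈ (range M).powerset, g T = g ∅ + ∑ j ∈ range M, g {j} +
      ∑ T ∈ (range M).powerset.filter (fun T => 2 ≤ T.card), g T := by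
  rw [← Finset.sum_filter_add_sum_filter_not (range M).powerset (fun T => 2 ≤ T.card) g]
  have e : (range M).powerset.filter (fun T => ¬ 2 ≤ T.card) =
      insert ∅ ((range M).image fun j => ({j} : Finset ℕ)) := by
    ext T
    simp only [Finset.mem_filter, Finset.mem_powerset, Finset.mem_insert, Finset.mem_image,
      Finset.mem_range]
    constructor
    · rintro ⟨h1, h2⟩
      have h3 : T.card = 0 ∨ T.card = 1 := by omega
      rcases h3 with h3 | h3
      · exact Or.inl (Finset.card_eq_zero.mp h3)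
      · obtain ⟨a, rfl⟩ := Finset.card_eq_one.mp h3
        exact Or.inr ⟨a, Finset.mem_range.mp (h1 (Finset.mem_singleton_self a)), rfl⟩
    · rintro (rfl | ⟨a, ha, rfl⟩)
      · exact ⟨Finset.empty_subset _, by simp⟩
      · exact ⟨Finset.singleton_subset_iff.mpr (Finset.mem_range.mpr ha), by simp⟩
  have hn : (∅ : Finset ℕ) ∉ (range M).image fun j => ({j} : Finset ℕ) := by
    intro h
    obtain ⟨a, _, ha⟩ := Finset.mem_image.mp h
    exact Finset.singleton_ne_empty a ha
  rw [e, Finset.sum_insert hn, Finset.sum_image (fun a _ b _ h => Finset.singleton_injective h)]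
  ring

theorem rNPg (h1 : S_NCh) (h2 : S_NSt) (h3 : S_NIn) (h4 : S_NEm) (h5 : S_NSg) (h6 : S_NLg) : S_NPg := by
  intro w ε C hε hε2 hC hVR K hK M n s v p o x hp hv hr ho hJ
  have hB : 0 ≤ BB s v p o n M x := NPg_BB s v p o n M x hp
  rw [h3 w n M s v p o x hv hr ho, h1 w n M s v p o x hv hr ho]
  have e1 : EV s (pn v p) (fun _ => univ)
      (fun t y => ∑ T ∈ (range M).powerset, wt p T * DT s v p o n T t y) 0 n 0 x =
      ∑ T ∈ (range M).powerset, wt p T * EV s (pn v p) (At v n T) (DT s v p o n T) 0 n 0 x := by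
    rw [EV_sum0 s (pn v p) (fun _ => univ) (range M).powerset
      (fun T t y => wt p T * DT s v p o n T t y) n 0 x]
    apply Finset.sum_congr rfl
    intro T _
    rw [EV_mul0, h2 w n s v p o x T hr]
  rw [e1, NPg_split, NPg_wt0, one_mul, ← h2 w n s v p o x ∅ hr]
  have a1 := h4 w n M s v p o x hp ho hJ
  have a2 := h5 w ε C hε hε2 hC hVR n M s v p o x hp hv ho hJ
  have a3 := h6 w ε C hε hε2 hC hVR n M s v p o x hp hv hr ho
  have a4 : (23 + 1344 * C / ε) * BB s v p o n M x ≤ K * BB s v p o n M x :=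
    mul_le_mul_of_nonneg_right hK hB
  have a5 : (23 + 1344 * C / ε) * BB s v p o n M x = 2 * BB s v p o n M x +
      (7 + 656 * C / ε) * (2 * BB s v p o n M x) + (7 + 32 * C / ε) * BB s v p o n M x := by
    ring
  linarith

end Pool.Agent.MP3145b1.RC
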