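import Pool.Agent.Lib.MP_3145b1_co.RC.SpecN

/-!
# MP_3145b1_co, project RC: energies of the coefficients at the singletons
-/

set_option autoImplicit false

namespace Pool.Agent.MP3145b1.RC

open Finset

private theorem NSe_mem {w : ℕ} {v : ℕ → Fin w → ℕ} {n : ℕ} {T : Finset ℕ} {u : ℕ} {y : Fin w}
    (hy : y ∈ At v n T u) : v u y ∉ T := by
  unfold At at hy
  split_ifs at hy with h
  · exact (Finset.mem_filter.mp hy).2
  · exact absurd hy (Finset.notMem_empty y)

private theorem NSe_cmp {w : ℕ} (s : ℕ → Fin w → Bool → Fin w) (v : ℕ → Fin w → ℕ) (p : ℕ → ℝ) (n j : ℕ)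
    (hp : ∀ i, 0 ≤ p i ∧ p i ≤ 1) (c : ℕ → Fin w → ℝ) (hc : ∀ u y, 0 ≤ c u y) (k t : ℕ) (x : Fin w) :
    EV s (pn v p) (At v n {j}) c 0 k t x ≤
      EV s (pn v p) (fun _ => univ) (fun u y => if v u y = j then 0 else c u y) 0 k t x := by
  have hnn : ∀ k t x, 0 ≤
      EV s (pn v p) (fun _ => univ) (fun u y => if v u y = j then 0 else c u y) 0 k t x := by
    intro k t x
    refine EV_nonneg s (pn_Pb hp) _ ?_ (fun _ _ => le_rfl) k t x
    intro u y _
    split_ifs
    · exact le_rfl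
    · exact hc u y
  refine EV_le s (pn_Pb hp) (At v n {j}) c 0
    (EV s (pn v p) (fun _ => univ) (fun u y => if v u y = j then 0 else c u y) 0) ?_ ?_ ?_ k t x
  · intro t x; exact hnn 0 t x
  · intro k t x _; exact hnn k t x
  · intro k t x hx
    rw [EV_mem _ _ _ _ _ _ _ _ (Finset.mem_univ x)]
    have h := NSe_mem hx
    rw [Finset.mem_singleton] at h
    rw [if_neg h]

private theorem NSe_J2 {w : ℕ} (n M : ℕ) (s : ℕ → Fin w → Bool → Fin w) (v : ℕ → Fin w → ℕ) (p : ℕ → ℝ)
    (o : Fin w → ℝ) (hp : ∀ i, 0 ≤ p i ∧ p i ≤ 1) (t : ℕ) (x : Fin w) :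
    ∑ j ∈ (range M).erase (v t x), wt p {j} * Om s v p o n {j} t x ^ 2 ≤ J2 s v p o n M t x := by
  have hmem : ∅ ∈ (range M).powerset.filter (fun T => v t x ∉ T) := by
    rw [Finset.mem_filter]
    exact ⟨Finset.empty_mem_powerset _, Finset.notMem_empty _⟩
  have h1 := Finset.sum_erase_eq_sub (f := fun T => wt p T * Om s v p o n T t x ^ 2) hmem
  have h2 : J2 s v p o n M t x = ∑ T ∈ ((range M).powerset.filter (fun T => v t x ∉ T)).erase ∅,
      wt p T * Om s v p o n T t x ^ 2 := by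
    rw [h1]
    unfold J2 J1
    have : wt p ∅ = 1 := by unfold wt; simp
    rw [this]
    ring
  rw [h2]
  have h3 : ∑ j ∈ (range M).erase (v t x), wt p {j} * Om s v p o n {j} t x ^ 2 =
      ∑ T ∈ ((range M).erase (v t x)).map ⟨fun j : ℕ => ({j} : Finset ℕ), Finset.singleton_injective⟩,
        wt p T * Om s v p o n T t x ^ 2 := by
    rw [Finset.sum_map]
    rfl
  rw [h3]
  apply Finset.sum_le_sum_of_subset_of_nonneg
  · intro T hT
    obtain ⟨j, hj, rfl⟩ := Finset.mem_map.mp hT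
    rw [Finset.mem_erase] at hj
    simp only [Function.Embedding.coeFn_mk, Finset.mem_erase, Finset.mem_filter, Finset.mem_powerset,
      Finset.singleton_subset_iff, Finset.mem_singleton, ne_eq, Finset.singleton_ne_empty,
      not_false_eq_true, true_and]
    exact ⟨hj.2, fun h => hj.1 h.symm⟩
  · intro T _ _
    exact mul_nonneg (wt_nonneg hp T) (sq_nonneg _)

theorem rNSe : S_NSe := by
  intro w n M s v p o x hp hv
  have h1 : ∑ j ∈ range M, wt p {j} * EV s (pn v p) (At v n {j})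
      (fun u y => vv (pn v p) u y * al s (mt s v p o n {j}) u y ^ 2) 0 n 0 x ≤
      ∑ j ∈ range M, EV s (pn v p) (fun _ => univ) (fun u y => wt p {j} *
        (if v u y = j then 0 else vv (pn v p) u y * al s (mt s v p o n {j}) u y ^ 2)) 0 n 0 x := by
    apply Finset.sum_le_sum
    intro j _
    rw [EV_mul0]
    apply mul_le_mul_of_nonneg_left _ (wt_nonneg hp _)
    exact NSe_cmp s v p n j hp _ (fun u y => mul_nonneg (vv_nonneg (pn_Pb hp) u y) (sq_nonneg _)) n 0 x
  refine h1.trans ?_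
  rw [← EV_sum0]
  unfold BB
  refine EV_mono s (pn_Pb hp) _ ?_ (fun _ _ => le_rfl) n 0 x
  intro u y _
  have h2 := NSe_J2 n M s v p o hp u y
  have h3 : ∑ j ∈ range M, wt p {j} *
      (if v u y = j then 0 else vv (pn v p) u y * al s (mt s v p o n {j}) u y ^ 2) =
      4 * vv (pn v p) u y * ∑ j ∈ (range M).erase (v u y), wt p {j} * Om s v p o n {j} u y ^ 2 := by
    rw [← Finset.add_sum_erase _ _ (Finset.mem_range.mpr (hv u y)), if_pos rfl, mul_zero, zero_add,
      Finset.mul_sum]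
    apply Finset.sum_congr rfl
    intro j hj
    rw [Finset.mem_erase] at hj
    rw [if_neg (fun h => hj.1 h.symm)]
    have e : al s (mt s v p o n {j}) u y = 2 * Om s v p o n {j} u y := by
      unfold al mt Om
      ring
    rw [e]
    ring
  rw [h3]
  exact mul_le_mul_of_nonneg_left h2 (by linarith [vv_nonneg (pn_Pb (v := v) hp) u y])

end Pool.Agent.MP3145b1.RC
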