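import Pool.Agent.Lib.MP_3145b1_co.RC.SpecN

/-!
# MP_3145b1_co, project RC: singletons, payoffs
-/

set_option autoImplicit false

namespace Pool.Agent.MP3145b1.RC

open Finset

private theorem NSx_mt0 {w : ℕ} (s : ℕ → Fin w → Bool → Fin w) (v : ℕ → Fin w → ℕ) (p : ℕ → ℝ)
    (o : Fin w → ℝ) (n j : ℕ) (x : Fin w) : mt s v p o n {j} n x = 0 := by
  unfold mt
  rw [Nat.sub_self]
  simp only [Cf]
  rw [if_neg (Finset.singleton_ne_empty j)]

private theorem NSx_mt1 {w : ℕ} (s : ℕ → Fin w → Bool → Fin w) (v : ℕ → Fin w → ℕ) (p : ℕ → ℝ)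
    (o : Fin w → ℝ) (n t : ℕ) (x : Fin w) (ht : t < n) :
    mt s v p o n {v t x} t x = Om s v p o n ∅ t x := by
  unfold mt Om
  obtain ⟨k, hk⟩ : ∃ k, n - t = k + 1 := ⟨n - t - 1, by omega⟩
  have hk' : n - (t + 1) = k := by omega
  rw [hk, hk']
  simp only [Cf]
  rw [if_pos (Finset.mem_singleton_self (v t x)), Finset.erase_singleton]

private theorem NSx_wt1 (p : ℕ → ℝ) (i : ℕ) : wt p {i} = 4 * (p i * (1 - p i)) := by
  unfold wt
  rw [Finset.prod_singleton]

theorem rNSx (h1 : S_NMg) : S_NSx := by
  intro w n M s v p o x hp hv ho hJ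
  have hP : Pb (pn v p) := pn_Pb hp
  have hpay : ∀ (j u : ℕ) (y : Fin w), 0 ≤ |mt s v p o n {j} u y| - mt s v p o n {j} u y ^ 2 := by
    intro j u y
    have h := (h1 w n s v p o {j} hp ho).2.1 u y
    have h0 := abs_nonneg (mt s v p o n {j} u y)
    rw [← sq_abs]
    nlinarith
  have hnn : ∀ (j k t : ℕ) (x : Fin w), 0 ≤ EV s (pn v p) (At v n {j}) 0
      (fun u y => |mt s v p o n {j} u y| - mt s v p o n {j} u y ^ 2) k t x := by
    intro j k t x
    exact EV_nonneg s hP _ (fun _ _ _ => le_rfl) (hpay j) k t x
  have key : ∀ (k t : ℕ) (x : Fin w), t + k = n →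
      ∑ j ∈ range M, wt p {j} * EV s (pn v p) (At v n {j}) 0
        (fun u y => |mt s v p o n {j} u y| - mt s v p o n {j} u y ^ 2) k t x ≤
      EV s (pn v p) (fun _ => univ) (fun t y => 4 * vv (pn v p) t y * J2 s v p o n M t y) 0 k t x := by
    intro k
    induction k with
    | zero =>
      intro t x ht
      have ht' : t = n := by omega
      subst ht'
      rw [EV_zero]
      apply le_of_eq
      apply Finset.sum_eq_zero
      intro j _
      rw [EV_zero, NSx_mt0]
      simp
    | succ k ih =>
      intro t x ht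
      have htn : t < n := by omega
      rw [EV_mem _ _ _ _ _ _ _ _ (Finset.mem_univ x)]
      rw [← Finset.add_sum_erase (range M) _ (Finset.mem_range.mpr (hv t x))]
      -- the term of the variable which is read
      have hx : x ∉ At v n {v t x} t := by
        unfold At
        rw [if_pos htn]
        simp
      have e1 : wt p {v t x} * EV s (pn v p) (At v n {v t x}) 0
          (fun u y => |mt s v p o n {v t x} u y| - mt s v p o n {v t x} u y ^ 2) (k + 1) t x ≤
          4 * vv (pn v p) t x * J2 s v p o n M t x := by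
        rw [EV_not _ _ _ _ _ _ _ _ hx, NSx_mt1 s v p o n t x htn, NSx_wt1]
        have h4 : (0 : ℝ) ≤ 4 * (p (v t x) * (1 - p (v t x))) := by
          have h := hp (v t x)
          have := mul_nonneg h.1 (by linarith : 0 ≤ 1 - p (v t x))
          linarith
        have e : 4 * vv (pn v p) t x = 4 * (p (v t x) * (1 - p (v t x))) := rfl
        rw [e]
        apply mul_le_mul_of_nonneg_left _ h4
        unfold J2
        linarith [hJ t x htn]
      -- the other terms
      have e2 : ∑ j ∈ (range M).erase (v t x), wt p {j} * EV s (pn v p) (At v n {j}) 0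
          (fun u y => |mt s v p o n {j} u y| - mt s v p o n {j} u y ^ 2) (k + 1) t x =
          pn v p t x * (∑ j ∈ (range M).erase (v t x), wt p {j} * EV s (pn v p) (At v n {j}) 0
            (fun u y => |mt s v p o n {j} u y| - mt s v p o n {j} u y ^ 2) k (t + 1) (s t x false)) +
          (1 - pn v p t x) * (∑ j ∈ (range M).erase (v t x), wt p {j} * EV s (pn v p) (At v n {j}) 0
            (fun u y => |mt s v p o n {j} u y| - mt s v p o n {j} u y ^ 2) k (t + 1) (s t x true)) := by
        rw [Finset.mul_sum, Finset.mul_sum, ← Finset.sum_add_distrib]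
        apply Finset.sum_congr rfl
        intro j hj
        have hj' : v t x ≠ j := fun h => (Finset.mem_erase.mp hj).1 h.symm
        have hm : x ∈ At v n {j} t := by
          unfold At
          rw [if_pos htn]
          simp only [Finset.mem_filter, Finset.mem_univ, true_and, Finset.mem_singleton]
          exact hj'
        rw [EV_mem _ _ _ _ _ _ _ _ hm]
        simp only [Pi.zero_apply]
        ring
      have e3 : ∀ y : Fin w, ∑ j ∈ (range M).erase (v t x), wt p {j} * EV s (pn v p) (At v n {j}) 0
          (fun u y => |mt s v p o n {j} u y| - mt s v p o n {j} u y ^ 2) k (t + 1) y ≤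
          EV s (pn v p) (fun _ => univ)
            (fun t y => 4 * vv (pn v p) t y * J2 s v p o n M t y) 0 k (t + 1) y := by
        intro y
        refine le_trans (Finset.sum_le_sum_of_subset_of_nonneg (Finset.erase_subset _ _) ?_)
          (ih (t + 1) y (by omega))
        intro j _ _
        exact mul_nonneg (wt_nonneg hp _) (hnn j k (t + 1) y)
      rw [e2]
      have := avg_mono hP t x (e3 (s t x false)) (e3 (s t x true))
      linarith
  exact key n 0 x (by omega)

end Pool.Agent.MP3145b1.RC
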