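import Pool.Agent.Lib.MP_3145b1_co.RC.Spec

/-! MP_3145b1_co, project RC, module One: one state per level. -/

set_option autoImplicit false

namespace Pool.Agent.MP3145b1.RC

open Finset

/-- exactly one child is in the region: `P` probability of the lost child, `V` value at the other
child, `e` displacement of the lost child, `d` displacement of the other child, `D` distance of the
value from the starting value, `D'` the same at the other child -/
private theorem One_arith {P ν V e d D D' : ℝ} (hP0 : 0 ≤ P) (hP1 : P ≤ 1) (hD : 0 ≤ D)
    (he : |e| ≤ 1) (hν : 0 ≤ ν) (hm : |P * e + (1 - P) * d| ≤ ν) (hD' : D' ≤ D + |d|)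
    (hV : (1 - D') / 4 ≤ V) : (1 - D) / 4 ≤ ν + (P * 1 + (1 - P) * V) := by
  have h1 : 0 ≤ 1 - P := by linarith
  have h2 : (1 - P) * |d| ≤ ν + P := by
    have e1 : (1 - P) * |d| = |(1 - P) * d| := by rw [abs_mul, abs_of_nonneg h1]
    have e2 : (1 - P) * d = (P * e + (1 - P) * d) - P * e := by ring
    have e3 : |(P * e + (1 - P) * d) - P * e| ≤ |P * e + (1 - P) * d| + |P * e| := abs_sub _ _
    have e4 : |P * e| ≤ P := by
      rw [abs_mul, abs_of_nonneg hP0]
      nlinarith
    rw [e1, e2]
    linarith
  have h3 : (1 - P) * ((1 - D') / 4) ≤ (1 - P) * V := mul_le_mul_of_nonneg_left hV h1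
  have h4 : (1 - P) * ((1 - (D + |d|)) / 4) ≤ (1 - P) * ((1 - D') / 4) :=
    mul_le_mul_of_nonneg_left (by linarith) h1
  have h5 : 0 ≤ P * D := mul_nonneg hP0 hD
  nlinarith

/-- **One** (one state per level). -/
theorem rOne : S_One := by
  intro σ s p m R E ν t n x hp hx hcard hν hst _ hE
  have hnn : ∀ n u y, 0 ≤ EV s p R ν (fun u y => 1 - ind E u y) n u y := by
    intro n u y
    apply EV_nonneg s hp R hν
    intro u y
    have := ind_le E u y
    linarith
  have key : ∀ n u y, y ∈ R u →
      (1 - |m u y - m t x|) / 4 ≤ EV s p R ν (fun u y => 1 - ind E u y) n u y := by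
    intro n
    induction n with
    | zero =>
      intro u y hy
      rw [EV_zero]
      by_cases hyE : y ∈ E u
      · have h1 := hE u y hyE
        have h2 := ind_le E u y
        linarith
      · rw [ind_not E u y hyE]
        have := abs_nonneg (m u y - m t x)
        linarith
    | succ n ih =>
      intro u y hy
      by_cases hD : 1 ≤ |m u y - m t x|
      · have := hnn (n + 1) u y
        linarith
      have hD1 : |m u y - m t x| < 1 := lt_of_not_ge hD
      have hD0 := abs_nonneg (m u y - m t x)
      obtain ⟨a, ha1, ha2, ha3⟩ := hst u y hy
      have hpu := hp u y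
      have hν0 := hν u y hy
      have hnE : ∀ b, s u y b ∉ E (u + 1) := by
        intro b hb
        have h1 := hE (u + 1) _ hb
        have h2 := ha1 b
        rw [ha2 b (Or.inr hb)] at h2
        have h3 := abs_sub_le (m (u + 1) (s u y b)) (m u y) (m t x)
        linarith
      have hout : ∀ b, s u y b ∉ R (u + 1) →
          EV s p R ν (fun u y => 1 - ind E u y) n (u + 1) (s u y b) = 1 := by
        intro b hb
        rw [EV_not s p R ν _ n (u + 1) _ hb, ind_not E (u + 1) _ (hnE b)]
        norm_num
      have hchild : ∀ b, |m (u + 1) (s u y b) - m t x| ≤
          |m u y - m t x| + |m (u + 1) (s u y b) - m u y| := by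
        intro b
        have h3 := abs_sub_le (m (u + 1) (s u y b)) (m u y) (m t x)
        linarith
      have hmean : |p u y * (a false - m u y) + (1 - p u y) * (a true - m u y)| ≤ ν u y := by
        have e : p u y * (a false - m u y) + (1 - p u y) * (a true - m u y) =
            p u y * a false + (1 - p u y) * a true - m u y := by ring
        rw [e]
        exact ha3
      rw [EV_mem _ _ _ _ _ _ _ _ hy]
      by_cases h0 : s u y false ∈ R (u + 1)
      · by_cases h1 : s u y true ∈ R (u + 1)
        · have he : s u y false = s u y true :=
            Finset.card_le_one.mp (hcard (u + 1)) _ h0 _ h1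
          have i1 := ih (u + 1) (s u y true) h1
          have i2 := hchild true
          have i3 : |m (u + 1) (s u y true) - m u y| ≤ ν u y := by
            have a0 := ha2 false (Or.inl h0)
            have a1 := ha2 true (Or.inl h1)
            rw [he] at a0
            have e : p u y * a false + (1 - p u y) * a true - m u y =
                m (u + 1) (s u y true) - m u y := by
              rw [a0, a1]; ring
            rw [e] at ha3
            exact ha3
          rw [he]
          have e2 : p u y * EV s p R ν (fun u y => 1 - ind E u y) n (u + 1) (s u y true) +
              (1 - p u y) * EV s p R ν (fun u y => 1 - ind E u y) n (u + 1) (s u y true) =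
              EV s p R ν (fun u y => 1 - ind E u y) n (u + 1) (s u y true) := by ring
          rw [e2]
          linarith
        · rw [hout true h1]
          have a0 := ha2 false (Or.inl h0)
          have i1 := ih (u + 1) (s u y false) h0
          have i2 := hchild false
          rw [a0] at hmean
          have hm' : |(1 - p u y) * (a true - m u y) +
              (1 - (1 - p u y)) * (m (u + 1) (s u y false) - m u y)| ≤ ν u y := by
            have e : (1 - p u y) * (a true - m u y) +
                (1 - (1 - p u y)) * (m (u + 1) (s u y false) - m u y) =
                p u y * (m (u + 1) (s u y false) - m u y) + (1 - p u y) * (a true - m u y) := by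
              ring
            rw [e]
            exact hmean
          have := One_arith (P := 1 - p u y) (by linarith) (by linarith) hD0 (ha1 true) hν0 hm' i2 i1
          linarith
      · by_cases h1 : s u y true ∈ R (u + 1)
        · rw [hout false h0]
          have a1 := ha2 true (Or.inl h1)
          have i1 := ih (u + 1) (s u y true) h1
          have i2 := hchild true
          rw [a1] at hmean
          exact One_arith hpu.1 hpu.2 hD0 (ha1 false) hν0 hmean i2 i1
        · rw [hout false h0, hout true h1]
          linarith
  have h := key n t x hx
  rw [sub_self, abs_zero] at h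
  linarith

end Pool.Agent.MP3145b1.RC
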