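import Pool.Agent.Lib.MP_3145b1_co.RC.SpecF

/-!
# Project RC: proof of `S_Piv` (derivative and pivotal probability)
-/

set_option autoImplicit false

namespace Pool.Agent.MP3145b1.RC

open Finset Pool.Agent.MP3145b1

private theorem Piv_val {w N : ℕ} (s : ℕ → Fin w → Bool → Fin w) (v : ℕ → Fin w → ℕ) (o : Fin w → ℝ)
    (u : ℕ → (Fin N → Bool) → ℝ) (ho : ∀ z, o z = 1 ∨ o z = -1) (k : ℕ) :
    ∀ (t : ℕ) (x : Fin w) (y : Fin N → Bool), Fs s v o u k t x y = 1 ∨ Fs s v o u k t x y = -1 := by
  induction k with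
  | zero =>
    intro t x y
    exact ho x
  | succ k ih =>
    intro t x y
    unfold Fs
    split_ifs
    · exact ih _ _ _
    · exact ih _ _ _

private theorem Piv_lin {N : ℕ} (g h : (Fin N → Bool) → ℝ) (S : Finset (Fin N)) :
    coeff (fun y => (g y - h y) / 2) S = (coeff g S - coeff h S) / 2 := by
  unfold coeff
  rw [← mul_sub, ← Finset.sum_sub_distrib, mul_div_assoc, Finset.sum_div]
  congr 1
  apply Finset.sum_congr rfl
  intro y _
  ring

private theorem Piv_Lp_sq {N : ℕ} (P : ℕ → Finset (Fin N)) (M : ℕ) (ψ : ℕ → Finset (Fin N) → ℝ)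
    (S : Finset (Fin N)) : Lp P M ψ S ^ 2 = Lp P M (fun i R => ψ i R ^ 2) S := by
  unfold Lp
  split_ifs
  · rw [Finset.prod_pow]
  · norm_num

private theorem Piv_TT {N : ℕ} (P : ℕ → Finset (Fin N)) (M : ℕ) : TT P M ∅ = ∅ := by
  unfold TT
  apply Finset.filter_eq_empty_iff.2
  intro i _ h
  rw [Finset.empty_inter] at h
  exact Finset.not_nonempty_empty h

private theorem Piv_Lp {N : ℕ} (P : ℕ → Finset (Fin N)) (M : ℕ) (ψ : ℕ → Finset (Fin N) → ℝ) :
    Lp P M ψ ∅ = 1 := by
  unfold Lp
  rw [if_pos (Finset.empty_subset _), Piv_TT, Finset.prod_empty]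

theorem rPiv (h1 : S_Smm) (h2 : S_Cfo) (h3 : S_Vsm) : S_Piv := by
  intro w N M n s v o P u hC hM hr ho t z ht
  obtain ⟨k, hk⟩ : ∃ k, k = n - (t + 1) := ⟨_, rfl⟩
  let g : Bool → (Fin N → Bool) → ℝ := fun b => Fs s v o u k (t + 1) (s t z b)
  let h : (Fin N → Bool) → ℝ := fun y => (g false y - g true y) / 2
  have hg : ∀ b y, g b y = 1 ∨ g b y = -1 := fun b y => Piv_val s v o u ho k (t + 1) _ y
  have hh : ∀ y, |h y| = h y ^ 2 := by
    intro y
    change |(g false y - g true y) / 2| = ((g false y - g true y) / 2) ^ 2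
    rcases hg false y with e | e <;> rcases hg true y with e' | e' <;> rw [e, e'] <;> norm_num
  have hco : ∀ S, coeff h S = Lp P M (fun i R => coeff (u i) R) S *
      Om s v (pb u) o n (TT P M S) t z := by
    intro S
    have e0 := h2 w N M n s v o P u hC hM hr k (t + 1) (by omega) (s t z false) S
    have e1 := h2 w N M n s v o P u hC hM hr k (t + 1) (by omega) (s t z true) S
    have e : coeff h S = (coeff (g false) S - coeff (g true) S) / 2 :=
      Piv_lin (g false) (g true) S
    change coeff (g false) S = _ at e0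
    change coeff (g true) S = _ at e1
    rw [e, e0, e1]
    unfold Om
    rw [← hk]
    ring
  have hsum : Pool.Agent.MP3145b1.T.mean (fun y => h y ^ 2) = J1 s v (pb u) o n M t z := by
    rw [← Q.parseval h]
    have e1 : ∀ S : Finset (Fin N), coeff h S ^ 2 =
        Lp P M (fun i R => coeff (u i) R ^ 2) S * (Om s v (pb u) o n (TT P M S) t z) ^ 2 := by
      intro S
      rw [hco, mul_pow, Piv_Lp_sq]
    rw [Finset.sum_congr rfl (fun S _ => e1 S),
      h1 N M P hC.1 (fun i R => coeff (u i) R ^ 2) (fun T => Om s v (pb u) o n T t z ^ 2)]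
    unfold J1
    rw [Finset.sum_filter]
    apply Finset.sum_congr rfl
    intro T _
    have ew : ∏ i ∈ T, ∑ R ∈ (P i).powerset.erase ∅, coeff (u i) R ^ 2 = wt (pb u) T := by
      unfold wt
      apply Finset.prod_congr rfl
      intro i _
      exact (h3 N P u hC i).2.2.1
    rw [ew]
    by_cases hv : v t z ∈ T
    · rw [if_neg (fun hn => hn hv)]
      have z0 := Cf_child s v (pb u) o hr T t z false ht hv
      have z1 := Cf_child s v (pb u) o hr T t z true ht hv
      unfold Om
      rw [z0, z1]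
      norm_num
    · rw [if_pos hv]
  have hOm : Om s v (pb u) o n ∅ t z = Pool.Agent.MP3145b1.T.mean h := by
    have e := hco ∅
    rw [Piv_TT, Piv_Lp, one_mul] at e
    rw [← e, Q.coeff_mean]
    congr 1
    funext y
    unfold sgn
    rw [Finset.prod_empty, mul_one]
  rw [hOm, ← hsum, abs_le]
  constructor
  · have hm : Pool.Agent.MP3145b1.T.mean (fun y => -1 * h y ^ 2) ≤ Pool.Agent.MP3145b1.T.mean h := by
      apply Q.mean_mono
      intro y
      have := hh y
      have h2' := neg_abs_le (h y)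
      linarith
    rw [Q.mean_mul] at hm
    linarith
  · apply Q.mean_mono
    intro y
    have := hh y
    have h2' := le_abs_self (h y)
    linarith

end Pool.Agent.MP3145b1.RC
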