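import Pool.Agent.Lib.MP_3145b1_co.RC.SpecF

/-!
# MP_3145b1_co, project RC: product of functions of disjoint sets of variables
-/

set_option autoImplicit false

namespace Pool.Agent.MP3145b1.RC

open Finset Pool.Agent.MP3145b1

private theorem Prd_sgn {N : ℕ} (x : Fin N → Bool) (S P : Finset (Fin N)) :
    sgn x S = sgn x (S ∩ P) * sgn x (S \ P) := by
  unfold sgn
  exact (Finset.prod_inter_mul_prod_sdiff S P _).symm

private theorem Prd_sgn_congr {N : ℕ} (x y : Fin N → Bool) (S : Finset (Fin N))
    (h : ∀ a ∈ S, x a = y a) : sgn x S = sgn y S := by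
  unfold sgn
  exact Finset.prod_congr rfl fun a ha => by rw [h a ha]

private theorem Prd_ind {N : ℕ} (P : Finset (Fin N)) (G H : (Fin N → Bool) → ℝ) (hG : Dp P G)
    (hH : ∀ x y : Fin N → Bool, (∀ a, a ∉ P → x a = y a) → H x = H y) :
    T.mean (fun x => G x * H x) = T.mean G * T.mean H := by
  rw [← Q.mean_avg P (fun x => G x * H x)]
  have h2 : Q.avg P (fun x => G x * H x) = fun x => T.mean G * H x := by
    funext x
    unfold Q.avg
    have h1 : (fun y => G (T.mix P y x) * H (T.mix P y x)) = fun y => H x * G y := by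
      funext y
      rw [hG (T.mix P y x) y (fun a ha => by simp [T.mix, ha]),
        hH (T.mix P y x) x (fun a ha => by simp [T.mix, ha]), mul_comm]
    rw [h1, Q.mean_mul, mul_comm]
  rw [h2, Q.mean_mul]

theorem rPrd : S_Prd := by
  refine ⟨?_, ?_⟩
  · intro N P R g h hPR hg hh S
    rw [Q.coeff_mean, Q.coeff_mean, Q.coeff_mean]
    have h1 : (fun x => g x * h x * sgn x S) =
        fun x => (g x * sgn x (S ∩ P)) * (h x * sgn x (S \ P)) := by
      funext x
      rw [Prd_sgn x S P]
      ring
    rw [h1]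
    refine Prd_ind P (fun x => g x * sgn x (S ∩ P)) (fun x => h x * sgn x (S \ P)) ?_ ?_
    · intro x y hxy
      show g x * sgn x (S ∩ P) = g y * sgn y (S ∩ P)
      rw [hg x y hxy, Prd_sgn_congr x y (S ∩ P) fun a ha => hxy a (Finset.mem_inter.mp ha).2]
    · intro x y hxy
      show h x * sgn x (S \ P) = h y * sgn y (S \ P)
      rw [hh x y fun a ha => hxy a fun haP => (Finset.disjoint_left.mp hPR) haP ha,
        Prd_sgn_congr x y (S \ P) fun a ha => hxy a (Finset.mem_sdiff.mp ha).2]
  · intro N P g hg S hS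
    obtain ⟨a, haS, haP⟩ := Finset.not_subset.mp hS
    refine Q.coeff_zero g a S haS ?_
    intro y b
    refine hg _ _ ?_
    intro c hc
    refine Function.update_of_ne ?_ b y
    intro hca
    exact haP (hca ▸ hc)

end Pool.Agent.MP3145b1.RC
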