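import Pool.Agent.Lib.MP_3145b1_co.RC.Spec

set_option autoImplicit false

namespace Pool.Agent.MP3145b1.RC

open Finset

private theorem Sid_child {σ : Type} {s : ℕ → σ → Bool → σ} {p m : ℕ → σ → ℝ} {R : ℕ → Finset σ}
    {E : ℕ → Set σ} {ν : ℕ → σ → ℝ} {u : ℕ} {y : σ} (h : St s p m R E ν u y) (b : Bool)
    (hb : s u y b ∈ R (u + 1) ∨ s u y b ∈ E (u + 1)) : m (u + 1) (s u y b) ≤ m u y + 1 := by
  obtain ⟨a, h1, h2, _⟩ := h
  have h3 := (abs_le.1 (h1 b)).2
  rw [h2 b hb] at h3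
  linarith

private theorem Sid_nu {σ : Type} {s : ℕ → σ → Bool → σ} {p m : ℕ → σ → ℝ} {R : ℕ → Finset σ}
    {E : ℕ → Set σ} {ν : ℕ → σ → ℝ} {u : ℕ} {y : σ} (h : St s p m R E ν u y) : 0 ≤ ν u y := by
  obtain ⟨a, _, _, h3⟩ := h
  exact (abs_nonneg _).trans h3

private theorem Sid_notX {σ : Type} {s : ℕ → σ → Bool → σ} {p m : ℕ → σ → ℝ} {R : ℕ → Finset σ}
    {E : ℕ → Set σ} {ν : ℕ → σ → ℝ} {u : ℕ} {y : σ} (h : St s p m R E ν u y) (b : Bool) (a r : ℝ)
    (hr : m u y - a + 1 < r) : ind (Xp m R E a r) (u + 1) (s u y b) = 0 := by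
  apply ind_not
  rintro ⟨h1, h2⟩
  have := Sid_child h b h1
  linarith

private theorem Sid_claim {σ : Type} (K c : ℝ) (hK : 1 ≤ K) (hc : 0 < c) (s : ℕ → σ → Bool → σ)
    (p : ℕ → σ → ℝ) (m : ℕ → σ → ℝ) (R : ℕ → Finset σ) (E : ℕ → Set σ) (ν q : ℕ → σ → ℝ) (t n : ℕ)
    (a : ℝ) (hp : Pb p) (hR : ∀ u, ∀ y ∈ R u, St s p m R E ν u y) (hq : ∀ u y, 0 ≤ q u y)
    (hz : ∀ k u, k + u = t + n → t ≤ u → ∀ y ∈ R u, 4 * K ≤ m u y - a → m u y - a < 4 * K + 1 →
      c ≤ EV s p R ν q k u y) (k : ℕ) :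
    ∀ u y, k + u = t + n → t ≤ u → y ∈ Rin m R a (5 * K) u → m u y - a < 4 * K →
      c * EV s p (Rin m R a (5 * K)) 0 (ind (Xp m R E a (5 * K))) (k + 1) u y ≤
        EV s p R ν q k u y := by
  classical
  have hν : ∀ u, ∀ y ∈ R u, 0 ≤ ν u y := fun u y hy => Sid_nu (hR u y hy)
  induction k with
  | zero =>
    intro u y _ _ hy hm
    have hyR : y ∈ R u := (Finset.mem_filter.1 hy).1
    have hst := hR u y hyR
    rw [EV_mem _ _ _ _ _ _ _ _ hy, EV_zero, EV_zero, EV_zero,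
      Sid_notX hst false a (5 * K) (by linarith), Sid_notX hst true a (5 * K) (by linarith)]
    simp only [Pi.zero_apply, add_zero, mul_zero]
    exact hq u y
  | succ k ih =>
    intro u y hk ht hy hm
    have hyR : y ∈ R u := (Finset.mem_filter.1 hy).1
    have hst := hR u y hyR
    have key : ∀ b, c * EV s p (Rin m R a (5 * K)) 0 (ind (Xp m R E a (5 * K))) (k + 1) (u + 1)
        (s u y b) ≤ EV s p R ν q k (u + 1) (s u y b) := by
      intro b
      have h0 : ind (Xp m R E a (5 * K)) (u + 1) (s u y b) = 0 :=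
        Sid_notX hst b a (5 * K) (by linarith)
      by_cases hyR' : s u y b ∈ R (u + 1)
      · have h4 : m (u + 1) (s u y b) - a < 4 * K + 1 := by
          have := Sid_child hst b (Or.inl hyR')
          linarith
        by_cases h5 : 4 * K ≤ m (u + 1) (s u y b) - a
        · have h6 := hz k (u + 1) (by omega) (by omega) _ hyR' h5 h4
          have h7 := EV_ind_le s hp (Rin m R a (5 * K)) (Xp m R E a (5 * K)) (k + 1) (u + 1)
            (s u y b)
          calc c * EV s p (Rin m R a (5 * K)) 0 (ind (Xp m R E a (5 * K))) (k + 1) (u + 1)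
                (s u y b) ≤ c * 1 := mul_le_mul_of_nonneg_left h7 hc.le
            _ ≤ EV s p R ν q k (u + 1) (s u y b) := by rw [mul_one]; exact h6
        · push Not at h5
          by_cases h6 : |m (u + 1) (s u y b) - a| < 5 * K
          · exact ih (u + 1) _ (by omega) (by omega) (Finset.mem_filter.2 ⟨hyR', h6⟩) h5
          · have h7 : s u y b ∉ Rin m R a (5 * K) (u + 1) := fun h => h6 (Finset.mem_filter.1 h).2
            rw [EV_not _ _ _ _ _ _ _ _ h7, h0, mul_zero]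
            exact EV_nonneg s hp R hν hq k (u + 1) _
      · have h7 : s u y b ∉ Rin m R a (5 * K) (u + 1) := fun h => hyR' (Finset.mem_filter.1 h).1
        rw [EV_not _ _ _ _ _ _ _ _ h7, h0, mul_zero]
        exact EV_nonneg s hp R hν hq k (u + 1) _
    rw [EV_mem s p (Rin m R a (5 * K)) _ _ _ _ _ hy, EV_mem s p R _ _ _ _ _ hyR]
    have h1 := avg_mono hp u y (key false) (key true)
    have h2 := hν u y hyR
    simp only [Pi.zero_apply, zero_add]
    have h3 : c * (p u y * EV s p (Rin m R a (5 * K)) 0 (ind (Xp m R E a (5 * K))) (k + 1) (u + 1)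
        (s u y false) + (1 - p u y) * EV s p (Rin m R a (5 * K)) 0 (ind (Xp m R E a (5 * K)))
        (k + 1) (u + 1) (s u y true)) =
      p u y * (c * EV s p (Rin m R a (5 * K)) 0 (ind (Xp m R E a (5 * K))) (k + 1) (u + 1)
        (s u y false)) + (1 - p u y) * (c * EV s p (Rin m R a (5 * K)) 0
        (ind (Xp m R E a (5 * K))) (k + 1) (u + 1) (s u y true)) := by ring
    rw [h3]
    linarith

theorem rSid : S_Sid := by
  intro K c hK hc σ s p m R E ν q t n x hp hx hR hq hz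
  classical
  refine Sid_claim K c hK hc s p m R E ν q t n (m t x) hp hR hq hz n t x (by omega) le_rfl ?_ ?_
  · refine Finset.mem_filter.2 ⟨hx, ?_⟩
    rw [sub_self, abs_zero]; linarith
  · rw [sub_self]; linarith

end Pool.Agent.MP3145b1.RC
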