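import Pool.Agent.Lib.MP_3145b1_co.RC.SpecF

/-!
# MP_3145b1_co, project RC, module Vsm: sums over the nonempty subsets of a block
-/

set_option autoImplicit false

namespace Pool.Agent.MP3145b1.RC

open Finset Pool.Agent.MP3145b1

private lemma Vsm_sum {N : ℕ} (Q : Finset (Fin N)) (F : Finset (Fin N) → ℝ)
    (hF : ∀ S : Finset (Fin N), ¬ S ⊆ Q → F S = 0) :
    ∑ R ∈ Q.powerset.erase ∅, F R = ∑ S ∈ (univ : Finset (Finset (Fin N))).erase ∅, F S := by
  refine Finset.sum_subset (Finset.erase_subset_erase _ (Finset.subset_univ _)) ?_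
  intro S hS hS'
  refine hF S fun hsub => hS' ?_
  rw [Finset.mem_erase] at hS ⊢
  exact ⟨hS.1, Finset.mem_powerset.2 hsub⟩

/-- Sums over the nonempty subsets of a block. -/
theorem rVsm (h1 : S_Prd) : S_Vsm := by
  intro N P u hC i
  obtain ⟨_, hdp, hval⟩ := hC
  have hz : ∀ S : Finset (Fin N), ¬ S ⊆ P i → coeff (u i) S = 0 := fun S hS =>
    h1.2 N (P i) (u i) (hdp i) S hS
  have hpar : ∑ S : Finset (Fin N), coeff (u i) S ^ 2 = 1 := by
    rw [Q.parseval]
    have h2 : (fun x => u i x ^ 2) = fun _ : Fin N → Bool => (1 : ℝ) := by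
      funext x
      rcases hval i x with h | h <;> rw [h] <;> norm_num
    rw [h2, Q.mean_const]
  have hc : coeff (u i) ∅ ^ 2 ≤ 1 := by
    rw [← hpar]
    exact Finset.single_le_sum (f := fun S => coeff (u i) S ^ 2) (fun S _ => sq_nonneg _)
      (Finset.mem_univ (∅ : Finset (Fin N)))
  have hc1 : -1 ≤ coeff (u i) ∅ := by nlinarith
  have hc2 : coeff (u i) ∅ ≤ 1 := by nlinarith
  have hq : 4 * (pb u i * (1 - pb u i)) = 1 - coeff (u i) ∅ ^ 2 := by
    unfold pb
    ring
  refine ⟨⟨?_, ?_⟩, hq, ?_, ?_, ?_⟩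
  · unfold pb
    linarith
  · unfold pb
    linarith
  · rw [Vsm_sum (P i) (fun R => coeff (u i) R ^ 2) (fun S hS => by
      show coeff (u i) S ^ 2 = 0
      rw [hz S hS]; norm_num)]
    have h3 := Finset.add_sum_erase (univ : Finset (Finset (Fin N))) (fun S => coeff (u i) S ^ 2)
      (Finset.mem_univ (∅ : Finset (Fin N)))
    rw [hpar] at h3
    linarith
  · exact Vsm_sum (P i) (fun R => hh (coeff (u i) R ^ 2)) (fun S hS => by
      show hh (coeff (u i) S ^ 2) = 0
      rw [hz S hS]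
      unfold hh
      simp)
  · rw [Vsm_sum (P i) (fun R => (R.card : ℝ) * coeff (u i) R ^ 2) (fun S hS => by
      show (S.card : ℝ) * coeff (u i) S ^ 2 = 0
      rw [hz S hS]; ring)]
    unfold influence
    have h3 := Finset.add_sum_erase (univ : Finset (Finset (Fin N)))
      (fun S => (S.card : ℝ) * coeff (u i) S ^ 2) (Finset.mem_univ (∅ : Finset (Fin N)))
    rw [← h3]
    simp

end Pool.Agent.MP3145b1.RC
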