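import Pool.Agent.Lib.MP_3145b1_co.RC.Rch
import Pool.Agent.Lib.MP_3145b1_co.RC.Far
import Pool.Agent.Lib.MP_3145b1_co.RC.Mea
import Pool.Agent.Lib.MP_3145b1_co.RC.Sid
import Pool.Agent.Lib.MP_3145b1_co.RC.InP
import Pool.Agent.Lib.MP_3145b1_co.RC.Ind
import Pool.Agent.Lib.MP_3145b1_co.RC.One
import Pool.Agent.Lib.MP_3145b1_co.RC.All
import Pool.Agent.Lib.MP_3145b1_co.RC.Exc
import Pool.Agent.Lib.MP_3145b1_co.RC.Pnt
import Pool.Agent.Lib.MP_3145b1_co.RC.Var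
import Pool.Agent.Lib.MP_3145b1_co.RC.MSq
import Pool.Agent.Lib.MP_3145b1_co.RC.MF3
import Pool.Agent.Lib.MP_3145b1_co.RC.MJn
import Pool.Agent.Lib.MP_3145b1_co.RC.MPs
import Pool.Agent.Lib.MP_3145b1_co.RC.MFb
import Pool.Agent.Lib.MP_3145b1_co.RC.MF4
import Pool.Agent.Lib.MP_3145b1_co.RC.MTg
import Pool.Agent.Lib.MP_3145b1_co.RC.MTw
import Pool.Agent.Lib.MP_3145b1_co.RC.NMg
import Pool.Agent.Lib.MP_3145b1_co.RC.NCh
import Pool.Agent.Lib.MP_3145b1_co.RC.NSt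
import Pool.Agent.Lib.MP_3145b1_co.RC.NTw
import Pool.Agent.Lib.MP_3145b1_co.RC.NL2
import Pool.Agent.Lib.MP_3145b1_co.RC.NIn
import Pool.Agent.Lib.MP_3145b1_co.RC.NSx
import Pool.Agent.Lib.MP_3145b1_co.RC.NSe
import Pool.Agent.Lib.MP_3145b1_co.RC.NEm
import Pool.Agent.Lib.MP_3145b1_co.RC.NSg
import Pool.Agent.Lib.MP_3145b1_co.RC.NLg
import Pool.Agent.Lib.MP_3145b1_co.RC.NPg
import Pool.Agent.Lib.MP_3145b1_co.RC.Prd
import Pool.Agent.Lib.MP_3145b1_co.RC.Smm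
import Pool.Agent.Lib.MP_3145b1_co.RC.Cfo
import Pool.Agent.Lib.MP_3145b1_co.RC.Vsm
import Pool.Agent.Lib.MP_3145b1_co.RC.Hpr
import Pool.Agent.Lib.MP_3145b1_co.RC.Fml
import Pool.Agent.Lib.MP_3145b1_co.RC.Piv
import Pool.Agent.Lib.MP_3145b1_co.RC.Cmp
import Pool.Agent.Lib.MP_3145b1_co.RC.Fix
import Pool.Agent.Lib.MP_3145b1_co.RC.Clo
import Pool.Agent.Lib.MP_3145b1_co.RC.Fin

/-!
# MP_3145b1_co, project RC: assembly

All modules of the specifications `Spec`, `SpecM`, `SpecN`, `SpecF` chained together.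
-/

set_option autoImplicit false

namespace Pool.Agent.MP3145b1.RC

open Finset

theorem aInP : S_InP := rInP rRch rFar rMea rSid

theorem aAll : S_All := rAll rOne (rInd aInP)

theorem aVar : S_Var := rVar aAll rExc rPnt

theorem aMF4 : S_MF4 := rMF4 rMSq rMF3 (rMFb rMJn rMPs)

theorem aMTw : S_MTw := rMTw rMTg

theorem aNTw : S_NTw := rNTw aMTw rNMg

theorem aNSg : S_NSg := rNSg aMF4 rNMg aNTw (rNSx rNMg) rNSe

theorem aNLg : S_NLg := rNLg rMSq rMF3 rNMg aNTw rNL2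

theorem aNPg : S_NPg := rNPg rNCh rNSt rNIn rNEm aNSg aNLg

theorem aPG : ∀ w : ℕ, ∃ K0 : ℝ, PG w K0 := by
  intro w
  rcases Nat.eq_zero_or_pos w with h | h
  · subst h
    exact ⟨0, fun K _ M n s v p o x => x.elim0⟩
  · obtain ⟨ε, C, h0, h1, h2, h3⟩ := aVar w h
    exact ⟨_, aNPg w ε C h0 h1 h2 h3⟩

theorem aCfo : S_Cfo := rCfo rPrd

theorem aVsm : S_Vsm := rVsm rPrd

theorem aFml : S_Fml := rFml rSmm aCfo aVsm rHpr

theorem aPiv : S_Piv := rPiv rSmm aCfo aVsm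

theorem aCmp : S_Cmp := rCmp aVsm aFml aPiv

theorem aClo : S_Clo := rClo aCmp rFix

theorem aFin : S_Fin := rFin aClo

/-- the entropy-influence inequality for read-once compositions of branching programs of width `w` -/
theorem aMain : ∀ w : ℕ, ∃ C : ℝ, 0 < C ∧ ∀ (N : ℕ) (f : (Fin N → Bool) → ℝ), RO w f →
    ∑ S ∈ (univ : Finset (Finset (Fin N))).erase ∅, coeff f S ^ 2 * Real.logb 2 (1 / coeff f S ^ 2) ≤
      C * (influence f - (1 - coeff f ∅ ^ 2)) ∧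
    specEntropy f ≤ C * influence f ∧ ∃ S : Finset (Fin N), (2 : ℝ) ^ (-(C * influence f / 2)) ≤ |coeff f S| := by
  intro w
  obtain ⟨K0, h⟩ := aPG w
  exact aFin w K0 h

end Pool.Agent.MP3145b1.RC
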