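import Mathlib

/-!
# MP_3145b1_co, project RC: entropy of read-once compositions of branching programs of bounded width

Definitions and basic lemmas. A program is a map `s : ℕ → σ → Bool → σ`: `s t x b` is the state at
time `t + 1` after the state `x` at time `t` and the random bit `b`; in the state `x` at time `t`
the bit is `false` with probability `p t x` and `true` with probability `1 - p t x`.

`EV s p A c q n t x` is the expectation of the total cost `c` plus the terminal payoff `q` for the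
random walk which starts in the state `x` at time `t`, makes at most `n` steps and stops as soon as
its state is not in `A u` (`u` the present time): the cost `c u y` is paid for every step from
`y ∈ A u`, the payoff is `q u y` at the final time `u` and state `y`. The probability `p u y` may
depend on the state.
-/

set_option autoImplicit false

namespace Pool.Agent.MP3145b1.RC

open Finset

variable {σ : Type}

open Classical in
/-- expected cost and payoff of the random walk with at most `n` steps, stopped outside `A` -/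
noncomputable def EV (s : ℕ → σ → Bool → σ) (p : ℕ → σ → ℝ) (A : ℕ → Finset σ) (c q : ℕ → σ → ℝ) :
    ℕ → ℕ → σ → ℝ
  | 0, t, x => q t x
  | n + 1, t, x => if x ∈ A t then
      c t x + (p t x * EV s p A c q n (t + 1) (s t x false) +
        (1 - p t x) * EV s p A c q n (t + 1) (s t x true))
      else q t x

/-- the probabilities are in `[0, 1]` -/
def Pb (p : ℕ → σ → ℝ) : Prop := ∀ t x, 0 ≤ p t x ∧ p t x ≤ 1

/-- the variance of the bit (values `0`, `1`) in the state `x` at time `t` -/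
noncomputable def vv (p : ℕ → σ → ℝ) (t : ℕ) (x : σ) : ℝ := p t x * (1 - p t x)

/-- the difference of the values of `m` at the two children of the state `x` at time `t` -/
noncomputable def al (s : ℕ → σ → Bool → σ) (m : ℕ → σ → ℝ) (t : ℕ) (x : σ) : ℝ :=
  m (t + 1) (s t x false) - m (t + 1) (s t x true)

/-- the martingale property of `m` at the state `x` at time `t` -/
def Mg (s : ℕ → σ → Bool → σ) (p : ℕ → σ → ℝ) (m : ℕ → σ → ℝ) (t : ℕ) (x : σ) : Prop :=
  m t x = p t x * m (t + 1) (s t x false) + (1 - p t x) * m (t + 1) (s t x true)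

open Classical in
/-- indicator of a family of sets of states -/
noncomputable def ind (E : ℕ → Set σ) : ℕ → σ → ℝ := fun t x => if x ∈ E t then 1 else 0

/-- condition for the step from `y` at time `u`: there are values `a b` of the two children at
distance at most `1` from the value of `y`, which are the true values for the children in `R` or `E`
(the other children count as lost) and whose mean is `m u y` up to the drift `ν u y` -/
def St (s : ℕ → σ → Bool → σ) (p : ℕ → σ → ℝ) (m : ℕ → σ → ℝ) (R : ℕ → Finset σ) (E : ℕ → Set σ)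
    (ν : ℕ → σ → ℝ) (u : ℕ) (y : σ) : Prop :=
  ∃ a : Bool → ℝ, (∀ b, |a b - m u y| ≤ 1) ∧
    (∀ b, s u y b ∈ R (u + 1) ∨ s u y b ∈ E (u + 1) → a b = m (u + 1) (s u y b)) ∧
    |p u y * a false + (1 - p u y) * a true - m u y| ≤ ν u y

/-- `PK w K c`: a walk which is confined to a region `R` of at most `w` states per level, with steps
at most `1` and drift `ν`: the probability that it does not reach a state of `E` (these have distance
at least `K` from the starting value), plus the expected total drift, is at least `c`. -/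
def PK (w : ℕ) (K c : ℝ) : Prop := ∀ (σ : Type) (s : ℕ → σ → Bool → σ) (p : ℕ → σ → ℝ) (m : ℕ → σ → ℝ)
  (R : ℕ → Finset σ) (E : ℕ → Set σ) (ν : ℕ → σ → ℝ) (t n : ℕ) (x : σ), Pb p → x ∈ R t →
  (∀ u, (R u).card ≤ w) → (∀ u, ∀ y ∈ R u, 0 ≤ ν u y) → (∀ u, ∀ y ∈ R u, St s p m R E ν u y) →
  (∀ u, ∀ y ∈ R u, |m u y - m t x| < K) → (∀ u, ∀ y ∈ E u, K ≤ |m u y - m t x|) →
  c ≤ EV s p R ν (fun u y => 1 - ind E u y) n t x

open Classical in
/-- the states of `R` with value at distance less than `r` from `a` -/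
noncomputable def Rin (m : ℕ → σ → ℝ) (R : ℕ → Finset σ) (a r : ℝ) : ℕ → Finset σ :=
  fun u => (R u).filter (fun y => |m u y - a| < r)

/-- the states of `R` and `E` with value at distance at least `r` from `a` -/
def Xt (m : ℕ → σ → ℝ) (R : ℕ → Finset σ) (E : ℕ → Set σ) (a r : ℝ) : ℕ → Set σ :=
  fun u => {y | (y ∈ R u ∨ y ∈ E u) ∧ r ≤ |m u y - a|}

/-- the states of `R` and `E` with value at least `a + r` -/
def Xp (m : ℕ → σ → ℝ) (R : ℕ → Finset σ) (E : ℕ → Set σ) (a r : ℝ) : ℕ → Set σ :=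
  fun u => {y | (y ∈ R u ∨ y ∈ E u) ∧ r ≤ m u y - a}

/-- cost: energy of the step if the difference is at most `ρ` -/
noncomputable def cS (s : ℕ → σ → Bool → σ) (p : ℕ → σ → ℝ) (m : ℕ → σ → ℝ) (ρ : ℝ) : ℕ → σ → ℝ :=
  fun u y => if |al s m u y| ≤ ρ then vv p u y * al s m u y ^ 2 else 0

/-- cost: drift (in units of `ρ`) of the step if the difference is larger than `ρ` -/
noncomputable def cN (s : ℕ → σ → Bool → σ) (p : ℕ → σ → ℝ) (m : ℕ → σ → ℝ) (ρ : ℝ) : ℕ → σ → ℝ :=
  fun u y => if |al s m u y| ≤ ρ then 0 else vv p u y * |al s m u y| / ρ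

/-- cost: the power `2 - ε` of the difference -/
noncomputable def cP (s : ℕ → σ → Bool → σ) (p : ℕ → σ → ℝ) (m : ℕ → σ → ℝ) (ε : ℝ) : ℕ → σ → ℝ :=
  fun u y => vv p u y * |al s m u y| ^ (2 - ε)

/-- the variation property: for every real martingale on a region `A` with at most `w` states per
level, the expected sum of the powers `2 - ε` of the differences `≤ b` is at most `C b ^ (2 - ε)` times
`1 +` the expected sum of the normalised larger differences -/
def VR (w : ℕ) (ε C : ℝ) : Prop := ∀ (σ : Type) (s : ℕ → σ → Bool → σ) (p : ℕ → σ → ℝ)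
  (m : ℕ → σ → ℝ) (A : ℕ → Finset σ) (n t : ℕ) (x : σ) (b : ℝ), Pb p → 0 < b →
  (∀ u, (A u).card ≤ w) → (∀ u, ∀ y ∈ A u, Mg s p m u y) →
  EV s p A (fun u y => if |al s m u y| ≤ b then cP s p m ε u y else 0) 0 n t x ≤
    C * b ^ (2 - ε) * (1 + EV s p A (cN s p m b) 0 n t x)

/-! ### Programs

Variables are natural numbers, `v t x` is the variable read in the state `x` at time `t`, and
`p i` is the probability that the bit of the variable `i` is `false`. -/

/-- `t log (1/t)`, natural logarithm -/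
noncomputable def hh (t : ℝ) : ℝ := Real.negMulLog t

/-- the entropy difference for one variable (probability `p` for the value `a`, `1 - p` for `b`) -/
noncomputable def dlp (p a b : ℝ) : ℝ :=
  hh ((p * a + (1 - p) * b) ^ 2) + 4 * (p * (1 - p)) * hh (((a - b) / 2) ^ 2) -
    (p * hh (a ^ 2) + (1 - p) * hh (b ^ 2))

/-- the probabilities of the walk of a program -/
def pn (v : ℕ → σ → ℕ) (p : ℕ → ℝ) : ℕ → σ → ℝ := fun t x => p (v t x)

/-- coefficient at the set `T` of variables of the function computed from the state `x` at time `t`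
with `k` steps and the output `o` (not normalised: for `i ∈ T` half of the difference of the two
children, for `i ∉ T` the mean) -/
noncomputable def Cf (s : ℕ → σ → Bool → σ) (v : ℕ → σ → ℕ) (p : ℕ → ℝ) (o : σ → ℝ) :
    Finset ℕ → ℕ → ℕ → σ → ℝ
  | T, 0, _, x => if T = ∅ then o x else 0
  | T, k + 1, t, x => if v t x ∈ T then
      (Cf s v p o (T.erase (v t x)) k (t + 1) (s t x false) -
        Cf s v p o (T.erase (v t x)) k (t + 1) (s t x true)) / 2
      else p (v t x) * Cf s v p o T k (t + 1) (s t x false) +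
        (1 - p (v t x)) * Cf s v p o T k (t + 1) (s t x true)

/-- the variables which are read from the state `x` at time `t` on, within `k` steps -/
def rd (s : ℕ → σ → Bool → σ) (v : ℕ → σ → ℕ) : ℕ → ℕ → σ → Finset ℕ
  | 0, _, _ => ∅
  | k + 1, t, x => insert (v t x) (rd s v k (t + 1) (s t x false) ∪ rd s v k (t + 1) (s t x true))

/-- read-once (`n` steps, from every state): the variable which is read at `(t, x)` is not read
again from the children of `(t, x)` on -/
def Ro (s : ℕ → σ → Bool → σ) (v : ℕ → σ → ℕ) (n : ℕ) : Prop :=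
  ∀ t x b, t < n → v t x ∉ rd s v (n - (t + 1)) (t + 1) (s t x b)

/-- the weight of the set `T`: product of the variances of the bits (values `1`, `-1`) -/
noncomputable def wt (p : ℕ → ℝ) (T : Finset ℕ) : ℝ := ∏ i ∈ T, (4 * (p i * (1 - p i)))

/-- half of the difference of the coefficients of the two children of `x` at time `t`
(`n` steps in total) -/
noncomputable def Om (s : ℕ → σ → Bool → σ) (v : ℕ → σ → ℕ) (p : ℕ → ℝ) (o : σ → ℝ) (n : ℕ)
    (T : Finset ℕ) (t : ℕ) (x : σ) : ℝ :=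
  (Cf s v p o T (n - (t + 1)) (t + 1) (s t x false) -
    Cf s v p o T (n - (t + 1)) (t + 1) (s t x true)) / 2

/-- probability that the bit read at `(t, x)` is pivotal (there are `M` variables) -/
noncomputable def J1 (s : ℕ → σ → Bool → σ) (v : ℕ → σ → ℕ) (p : ℕ → ℝ) (o : σ → ℝ) (n M : ℕ)
    (t : ℕ) (x : σ) : ℝ :=
  ∑ T ∈ (range M).powerset.filter (fun T => v t x ∉ T), wt p T * Om s v p o n T t x ^ 2

/-- the entropy inequality for programs of width `w` with biased bits, in the sharp form, for all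
constants `K ≥ K0` (the last hypothesis is: expectation of the derivative ≤ pivotal probability) -/
def PG (w : ℕ) (K0 : ℝ) : Prop := ∀ K : ℝ, K0 ≤ K → ∀ (M n : ℕ) (s : ℕ → Fin w → Bool → Fin w)
  (v : ℕ → Fin w → ℕ) (p : ℕ → ℝ) (o : Fin w → ℝ) (x : Fin w), (∀ i, 0 ≤ p i ∧ p i ≤ 1) →
  (∀ t z, v t z < M) → Ro s v n → (∀ z, o z = 1 ∨ o z = -1) →
  (∀ t z, t < n → |Om s v p o n ∅ t z| ≤ J1 s v p o n M t z) →
  ∑ T ∈ (range M).powerset, wt p T * hh (Cf s v p o T n 0 x ^ 2) ≤ hh (Cf s v p o ∅ n 0 x ^ 2) +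
    K * (∑ T ∈ (range M).powerset, (T.card : ℝ) * (wt p T * Cf s v p o T n 0 x ^ 2) -
      (1 - Cf s v p o ∅ n 0 x ^ 2))

/-! ### Basic lemmas -/

theorem EV_zero (s : ℕ → σ → Bool → σ) (p : ℕ → σ → ℝ) (A : ℕ → Finset σ) (c q : ℕ → σ → ℝ) (t : ℕ)
    (x : σ) : EV s p A c q 0 t x = q t x := rfl

theorem EV_mem (s : ℕ → σ → Bool → σ) (p : ℕ → σ → ℝ) (A : ℕ → Finset σ) (c q : ℕ → σ → ℝ) (n t : ℕ)
    (x : σ) (hx : x ∈ A t) : EV s p A c q (n + 1) t x =
      c t x + (p t x * EV s p A c q n (t + 1) (s t x false) +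
        (1 - p t x) * EV s p A c q n (t + 1) (s t x true)) := by
  simp only [EV]
  rw [if_pos hx]

theorem EV_not (s : ℕ → σ → Bool → σ) (p : ℕ → σ → ℝ) (A : ℕ → Finset σ) (c q : ℕ → σ → ℝ) (n t : ℕ)
    (x : σ) (hx : x ∉ A t) : EV s p A c q n t x = q t x := by
  cases n with
  | zero => rfl
  | succ n =>
    simp only [EV]
    rw [if_neg hx]

theorem avg_mono {p : ℕ → σ → ℝ} (hp : Pb p) (t : ℕ) (x : σ) {a b a' b' : ℝ} (ha : a ≤ a') (hb : b ≤ b') :
    p t x * a + (1 - p t x) * b ≤ p t x * a' + (1 - p t x) * b' := by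
  have h := hp t x
  have h1 := mul_le_mul_of_nonneg_left ha h.1
  have h2 := mul_le_mul_of_nonneg_left hb (by linarith [h.2] : 0 ≤ 1 - p t x)
  linarith

/-- the main tool: supersolutions -/
theorem EV_le (s : ℕ → σ → Bool → σ) {p : ℕ → σ → ℝ} (hp : Pb p) (A : ℕ → Finset σ) (c q : ℕ → σ → ℝ)
    (v : ℕ → ℕ → σ → ℝ) (h0 : ∀ t x, q t x ≤ v 0 t x) (h1 : ∀ n t x, x ∉ A t → q t x ≤ v n t x)
    (h2 : ∀ n t x, x ∈ A t →
      c t x + (p t x * v n (t + 1) (s t x false) + (1 - p t x) * v n (t + 1) (s t x true)) ≤ v (n + 1) t x)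
    (n t : ℕ) (x : σ) : EV s p A c q n t x ≤ v n t x := by
  induction n generalizing t x with
  | zero => exact h0 t x
  | succ n ih =>
    by_cases hx : x ∈ A t
    · rw [EV_mem s p A c q n t x hx]
      have := h2 n t x hx
      have := avg_mono hp t x (ih (t + 1) (s t x false)) (ih (t + 1) (s t x true))
      linarith
    · rw [EV_not s p A c q _ t x hx]
      exact h1 _ t x hx

/-- the main tool: subsolutions -/
theorem EV_ge (s : ℕ → σ → Bool → σ) {p : ℕ → σ → ℝ} (hp : Pb p) (A : ℕ → Finset σ) (c q : ℕ → σ → ℝ)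
    (v : ℕ → ℕ → σ → ℝ) (h0 : ∀ t x, v 0 t x ≤ q t x) (h1 : ∀ n t x, x ∉ A t → v n t x ≤ q t x)
    (h2 : ∀ n t x, x ∈ A t →
      v (n + 1) t x ≤ c t x + (p t x * v n (t + 1) (s t x false) + (1 - p t x) * v n (t + 1) (s t x true)))
    (n t : ℕ) (x : σ) : v n t x ≤ EV s p A c q n t x := by
  induction n generalizing t x with
  | zero => exact h0 t x
  | succ n ih =>
    by_cases hx : x ∈ A t
    · rw [EV_mem s p A c q n t x hx]
      have := h2 n t x hx
      have := avg_mono hp t x (ih (t + 1) (s t x false)) (ih (t + 1) (s t x true))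
      linarith
    · rw [EV_not s p A c q _ t x hx]
      exact h1 _ t x hx

theorem EV_mono (s : ℕ → σ → Bool → σ) {p : ℕ → σ → ℝ} (hp : Pb p) (A : ℕ → Finset σ)
    {c c' q q' : ℕ → σ → ℝ} (hc : ∀ u, ∀ y ∈ A u, c u y ≤ c' u y) (hq : ∀ u y, q u y ≤ q' u y)
    (n t : ℕ) (x : σ) : EV s p A c q n t x ≤ EV s p A c' q' n t x := by
  apply EV_le s hp A c q (EV s p A c' q')
  · intro t x; exact hq t x
  · intro n t x hx
    rw [EV_not s p A c' q' n t x hx]; exact hq t x
  · intro n t x hx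
    rw [EV_mem s p A c' q' n t x hx]
    have := hc t x hx
    linarith

theorem EV_add (s : ℕ → σ → Bool → σ) (p : ℕ → σ → ℝ) (A : ℕ → Finset σ) (c c' q q' : ℕ → σ → ℝ)
    (n t : ℕ) (x : σ) :
    EV s p A (fun u y => c u y + c' u y) (fun u y => q u y + q' u y) n t x =
      EV s p A c q n t x + EV s p A c' q' n t x := by
  induction n generalizing t x with
  | zero => rfl
  | succ n ih =>
    by_cases hx : x ∈ A t
    · rw [EV_mem _ _ _ _ _ _ _ _ hx, EV_mem _ _ _ _ _ _ _ _ hx, EV_mem _ _ _ _ _ _ _ _ hx, ih, ih]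
      ring
    · rw [EV_not _ _ _ _ _ _ _ _ hx, EV_not _ _ _ _ _ _ _ _ hx, EV_not _ _ _ _ _ _ _ _ hx]

theorem EV_mul (s : ℕ → σ → Bool → σ) (p : ℕ → σ → ℝ) (A : ℕ → Finset σ) (c q : ℕ → σ → ℝ) (a : ℝ)
    (n t : ℕ) (x : σ) :
    EV s p A (fun u y => a * c u y) (fun u y => a * q u y) n t x = a * EV s p A c q n t x := by
  induction n generalizing t x with
  | zero => rfl
  | succ n ih =>
    by_cases hx : x ∈ A t
    · rw [EV_mem _ _ _ _ _ _ _ _ hx, EV_mem _ _ _ _ _ _ _ _ hx, ih, ih]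
      ring
    · rw [EV_not _ _ _ _ _ _ _ _ hx, EV_not _ _ _ _ _ _ _ _ hx]

theorem EV_sum {ι : Type} (s : ℕ → σ → Bool → σ) (p : ℕ → σ → ℝ) (A : ℕ → Finset σ) (I : Finset ι)
    (c q : ι → ℕ → σ → ℝ) (n t : ℕ) (x : σ) :
    EV s p A (fun u y => ∑ i ∈ I, c i u y) (fun u y => ∑ i ∈ I, q i u y) n t x =
      ∑ i ∈ I, EV s p A (c i) (q i) n t x := by
  induction n generalizing t x with
  | zero => rfl
  | succ n ih =>
    by_cases hx : x ∈ A t
    · rw [EV_mem _ _ _ _ _ _ _ _ hx, ih, ih, Finset.mul_sum, Finset.mul_sum,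
        ← Finset.sum_add_distrib, ← Finset.sum_add_distrib]
      apply Finset.sum_congr rfl
      intro i _
      rw [EV_mem _ _ _ _ _ _ _ _ hx]
    · rw [EV_not _ _ _ _ _ _ _ _ hx]
      apply Finset.sum_congr rfl
      intro i _
      rw [EV_not _ _ _ _ _ _ _ _ hx]

/-- costs only: sum and multiple with payoff `0` -/
theorem EV_add0 (s : ℕ → σ → Bool → σ) (p : ℕ → σ → ℝ) (A : ℕ → Finset σ) (c c' : ℕ → σ → ℝ)
    (n t : ℕ) (x : σ) :
    EV s p A (fun u y => c u y + c' u y) 0 n t x = EV s p A c 0 n t x + EV s p A c' 0 n t x := by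
  have h := EV_add s p A c c' 0 0 n t x
  have e : (fun (u : ℕ) (y : σ) => (0 : ℕ → σ → ℝ) u y + (0 : ℕ → σ → ℝ) u y) = 0 := by
    funext u y; simp
  rw [e] at h
  exact h

theorem EV_mul0 (s : ℕ → σ → Bool → σ) (p : ℕ → σ → ℝ) (A : ℕ → Finset σ) (c : ℕ → σ → ℝ) (a : ℝ)
    (n t : ℕ) (x : σ) : EV s p A (fun u y => a * c u y) 0 n t x = a * EV s p A c 0 n t x := by
  have h := EV_mul s p A c 0 a n t x
  have e : (fun (u : ℕ) (y : σ) => a * (0 : ℕ → σ → ℝ) u y) = 0 := by
    funext u y; simp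
  rw [e] at h
  exact h

theorem EV_sum0 {ι : Type} (s : ℕ → σ → Bool → σ) (p : ℕ → σ → ℝ) (A : ℕ → Finset σ) (I : Finset ι)
    (c : ι → ℕ → σ → ℝ) (n t : ℕ) (x : σ) :
    EV s p A (fun u y => ∑ i ∈ I, c i u y) 0 n t x = ∑ i ∈ I, EV s p A (c i) 0 n t x := by
  have h := EV_sum s p A I c (fun _ => 0) n t x
  have e : (fun (u : ℕ) (y : σ) => ∑ i ∈ I, (fun _ => (0 : ℕ → σ → ℝ)) i u y) = 0 := by
    funext u y; simp
  rw [e] at h
  exact h

/-- payoffs only -/
theorem EV_padd (s : ℕ → σ → Bool → σ) (p : ℕ → σ → ℝ) (A : ℕ → Finset σ) (q q' : ℕ → σ → ℝ)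
    (n t : ℕ) (x : σ) :
    EV s p A 0 (fun u y => q u y + q' u y) n t x = EV s p A 0 q n t x + EV s p A 0 q' n t x := by
  have h := EV_add s p A 0 0 q q' n t x
  have e : (fun (u : ℕ) (y : σ) => (0 : ℕ → σ → ℝ) u y + (0 : ℕ → σ → ℝ) u y) = 0 := by
    funext u y; simp
  rw [e] at h
  exact h

theorem EV_pmul (s : ℕ → σ → Bool → σ) (p : ℕ → σ → ℝ) (A : ℕ → Finset σ) (q : ℕ → σ → ℝ) (a : ℝ)
    (n t : ℕ) (x : σ) : EV s p A 0 (fun u y => a * q u y) n t x = a * EV s p A 0 q n t x := by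
  have h := EV_mul s p A 0 q a n t x
  have e : (fun (u : ℕ) (y : σ) => a * (0 : ℕ → σ → ℝ) u y) = 0 := by
    funext u y; simp
  rw [e] at h
  exact h

/-- separate the costs from the payoffs -/
theorem EV_sep (s : ℕ → σ → Bool → σ) (p : ℕ → σ → ℝ) (A : ℕ → Finset σ) (c q : ℕ → σ → ℝ)
    (n t : ℕ) (x : σ) : EV s p A c q n t x = EV s p A c 0 n t x + EV s p A 0 q n t x := by
  have h := EV_add s p A c 0 0 q n t x
  have e : (fun (u : ℕ) (y : σ) => c u y + (0 : ℕ → σ → ℝ) u y) = c := by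
    funext u y; simp
  have e' : (fun (u : ℕ) (y : σ) => (0 : ℕ → σ → ℝ) u y + q u y) = q := by
    funext u y; simp
  rw [e, e'] at h
  exact h

theorem EV_const (s : ℕ → σ → Bool → σ) (p : ℕ → σ → ℝ) (A : ℕ → Finset σ) (a : ℝ) (n t : ℕ) (x : σ) :
    EV s p A 0 (fun _ _ => a) n t x = a := by
  induction n generalizing t x with
  | zero => rfl
  | succ n ih =>
    by_cases hx : x ∈ A t
    · rw [EV_mem _ _ _ _ _ _ _ _ hx, ih, ih]
      simp only [Pi.zero_apply]
      ring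
    · rw [EV_not _ _ _ _ _ _ _ _ hx]

theorem EV_nonneg (s : ℕ → σ → Bool → σ) {p : ℕ → σ → ℝ} (hp : Pb p) (A : ℕ → Finset σ)
    {c q : ℕ → σ → ℝ} (hc : ∀ u, ∀ y ∈ A u, 0 ≤ c u y) (hq : ∀ u y, 0 ≤ q u y) (n t : ℕ) (x : σ) :
    0 ≤ EV s p A c q n t x := by
  have h := EV_mono s hp A (c := 0) (q := fun _ _ => 0) hc hq n t x
  rwa [EV_const] at h

theorem EV_le_one (s : ℕ → σ → Bool → σ) {p : ℕ → σ → ℝ} (hp : Pb p) (A : ℕ → Finset σ)
    {q : ℕ → σ → ℝ} (hq : ∀ u y, q u y ≤ 1) (n t : ℕ) (x : σ) : EV s p A 0 q n t x ≤ 1 := by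
  have h := EV_mono s hp A (c := 0) (c' := 0) (q' := fun _ _ => 1) (fun _ _ _ => le_rfl) hq n t x
  rwa [EV_const] at h

theorem ind_nonneg (E : ℕ → Set σ) (u : ℕ) (y : σ) : 0 ≤ ind E u y := by
  unfold ind; split_ifs <;> norm_num

theorem ind_le (E : ℕ → Set σ) (u : ℕ) (y : σ) : ind E u y ≤ 1 := by
  unfold ind; split_ifs <;> norm_num

theorem ind_mem (E : ℕ → Set σ) (u : ℕ) (y : σ) (h : y ∈ E u) : ind E u y = 1 := by
  unfold ind; rw [if_pos h]

theorem ind_not (E : ℕ → Set σ) (u : ℕ) (y : σ) (h : y ∉ E u) : ind E u y = 0 := by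
  unfold ind; rw [if_neg h]

theorem EV_ind_nonneg (s : ℕ → σ → Bool → σ) {p : ℕ → σ → ℝ} (hp : Pb p) (A : ℕ → Finset σ)
    (E : ℕ → Set σ) (n t : ℕ) (x : σ) : 0 ≤ EV s p A 0 (ind E) n t x :=
  EV_nonneg s hp A (fun _ _ _ => le_rfl) (ind_nonneg E) n t x

theorem EV_ind_le (s : ℕ → σ → Bool → σ) {p : ℕ → σ → ℝ} (hp : Pb p) (A : ℕ → Finset σ)
    (E : ℕ → Set σ) (n t : ℕ) (x : σ) : EV s p A 0 (ind E) n t x ≤ 1 :=
  EV_le_one s hp A (ind_le E) n t x

/-- the complement: `1 - q` -/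
theorem EV_compl (s : ℕ → σ → Bool → σ) (p : ℕ → σ → ℝ) (A : ℕ → Finset σ) (q : ℕ → σ → ℝ)
    (n t : ℕ) (x : σ) : EV s p A 0 (fun u y => 1 - q u y) n t x = 1 - EV s p A 0 q n t x := by
  have h := EV_padd s p A (fun _ _ => 1) (fun u y => (-1) * q u y) n t x
  rw [EV_const, EV_pmul] at h
  have e : (fun (u : ℕ) (y : σ) => (1 : ℝ) + (-1) * q u y) = fun u y => 1 - q u y := by
    funext u y; ring
  rw [e] at h
  rw [h]; ring

/-- the Markov property as an inequality -/
theorem EV_glue (s : ℕ → σ → Bool → σ) {p : ℕ → σ → ℝ} (hp : Pb p) (A : ℕ → Finset σ)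
    (c q r : ℕ → σ → ℝ) (n k t : ℕ) (x : σ) (h1 : ∀ u y, y ∉ A u → q u y ≤ r u y)
    (h2 : ∀ y, q (t + n) y ≤ EV s p A c r k (t + n) y) :
    EV s p A c q n t x ≤ EV s p A c r (n + k) t x := by
  induction n generalizing t x with
  | zero =>
    rw [Nat.zero_add]
    exact h2 x
  | succ n ih =>
    by_cases hx : x ∈ A t
    · rw [show n + 1 + k = (n + k) + 1 by ring, EV_mem _ _ _ _ _ _ _ _ hx,
        EV_mem _ _ _ _ _ _ _ _ hx]
      have e : t + 1 + n = t + (n + 1) := by ring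
      have := avg_mono hp t x (ih (t + 1) (s t x false) (by rw [e]; exact h2))
        (ih (t + 1) (s t x true) (by rw [e]; exact h2))
      linarith
    · rw [EV_not _ _ _ _ _ _ _ _ hx, EV_not _ _ _ _ _ _ _ _ hx]
      exact h1 t x hx

theorem vv_nonneg {p : ℕ → σ → ℝ} (hp : Pb p) (t : ℕ) (x : σ) : 0 ≤ vv p t x := by
  have h := hp t x
  unfold vv
  exact mul_nonneg h.1 (by linarith)

theorem vv_le {p : ℕ → σ → ℝ} (t : ℕ) (x : σ) : vv p t x ≤ 1 / 4 := by
  unfold vv
  nlinarith [sq_nonneg (p t x - 1 / 2)]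

theorem Mg.child {s : ℕ → σ → Bool → σ} {p : ℕ → σ → ℝ} {m : ℕ → σ → ℝ} {t : ℕ} {x : σ}
    (h : Mg s p m t x) : m (t + 1) (s t x false) = m t x + (1 - p t x) * al s m t x ∧
      m (t + 1) (s t x true) = m t x - p t x * al s m t x := by
  unfold Mg at h
  unfold al
  constructor
  · rw [h]; ring
  · rw [h]; ring

/-- the variance identity -/
theorem Mg.sq {s : ℕ → σ → Bool → σ} {p : ℕ → σ → ℝ} {m : ℕ → σ → ℝ} {t : ℕ} {x : σ}
    (h : Mg s p m t x) (a : ℝ) : p t x * (m (t + 1) (s t x false) - a) ^ 2 +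
      (1 - p t x) * (m (t + 1) (s t x true) - a) ^ 2 = (m t x - a) ^ 2 + vv p t x * al s m t x ^ 2 := by
  have h1 := h.child
  rw [h1.1, h1.2]
  unfold vv
  ring

/-! ### Programs: basic lemmas -/

/-- the coefficient vanishes if `T` contains a variable which is not read -/
theorem Cf_zero (s : ℕ → σ → Bool → σ) (v : ℕ → σ → ℕ) (p : ℕ → ℝ) (o : σ → ℝ) (k : ℕ) :
    ∀ (T : Finset ℕ) (t : ℕ) (x : σ), ¬ T ⊆ rd s v k t x → Cf s v p o T k t x = 0 := by
  induction k with
  | zero =>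
    intro T t x h
    have hT : T ≠ ∅ := by
      rintro rfl
      exact h (Finset.empty_subset _)
    simp only [Cf]
    rw [if_neg hT]
  | succ k ih =>
    intro T t x h
    obtain ⟨a, ha, hn⟩ := Finset.not_subset.mp h
    simp only [rd, Finset.mem_insert, Finset.mem_union, not_or] at hn
    simp only [Cf]
    split_ifs with hv
    · rw [ih _ _ _ (fun hs => hn.2.1 (hs (Finset.mem_erase.mpr ⟨hn.1, ha⟩))),
        ih _ _ _ (fun hs => hn.2.2 (hs (Finset.mem_erase.mpr ⟨hn.1, ha⟩)))]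
      simp
    · rw [ih _ _ _ (fun hs => hn.2.1 (hs ha)), ih _ _ _ (fun hs => hn.2.2 (hs ha))]
      simp

/-- the coefficient of a child vanishes if `T` contains the variable read at its parent -/
theorem Cf_child (s : ℕ → σ → Bool → σ) (v : ℕ → σ → ℕ) (p : ℕ → ℝ) (o : σ → ℝ) {n : ℕ}
    (hr : Ro s v n) (T : Finset ℕ) (t : ℕ) (x : σ) (b : Bool) (ht : t < n) (hT : v t x ∈ T) :
    Cf s v p o T (n - (t + 1)) (t + 1) (s t x b) = 0 :=
  Cf_zero s v p o _ T _ _ fun hs => hr t x b ht (hs hT)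

theorem wt_nonneg {p : ℕ → ℝ} (hp : ∀ i, 0 ≤ p i ∧ p i ≤ 1) (T : Finset ℕ) : 0 ≤ wt p T := by
  unfold wt
  apply Finset.prod_nonneg
  intro i _
  have h := hp i
  have := mul_nonneg h.1 (by linarith : 0 ≤ 1 - p i)
  linarith

theorem wt_insert (p : ℕ → ℝ) (T : Finset ℕ) (i : ℕ) (hi : i ∉ T) :
    wt p (insert i T) = 4 * (p i * (1 - p i)) * wt p T := by
  unfold wt
  rw [Finset.prod_insert hi]

theorem pn_Pb {v : ℕ → σ → ℕ} {p : ℕ → ℝ} (hp : ∀ i, 0 ≤ p i ∧ p i ≤ 1) : Pb (pn v p) :=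
  fun t x => hp (v t x)

end Pool.Agent.MP3145b1.RC
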