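import Pool.Agent.Lib.MP_3145b1_co.RC.SpecN

/-!
# MP_3145b1_co, project RC, module NSt: stopping at the first element of `T`
-/

set_option autoImplicit false

namespace Pool.Agent.MP3145b1.RC

open Finset

private theorem NSt_dlp (p : ℝ) : dlp p 0 0 = 0 := by
  unfold dlp hh
  simp

private theorem NSt_rd {w : ℕ} (s : ℕ → Fin w → Bool → Fin w) (v : ℕ → Fin w → ℕ) (k t : ℕ) (x : Fin w)
    (b : Bool) : rd s v k (t + 1) (s t x b) ⊆ rd s v (k + 1) t x := by
  intro a ha
  simp only [rd, Finset.mem_insert, Finset.mem_union]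
  cases b
  · exact Or.inr (Or.inl ha)
  · exact Or.inr (Or.inr ha)

private theorem NSt_zero {w n : ℕ} (s : ℕ → Fin w → Bool → Fin w) (v : ℕ → Fin w → ℕ) (p : ℕ → ℝ)
    (o : Fin w → ℝ) (T : Finset ℕ) (k : ℕ) : ∀ (t : ℕ) (x : Fin w), t + k = n → ¬ T ⊆ rd s v k t x →
    EV s (pn v p) (fun _ => univ) (DT s v p o n T) 0 k t x = 0 := by
  induction k with
  | zero =>
    intro t x _ _
    rw [EV_zero]
    rfl
  | succ k ih =>
    intro t x htk hT
    have hk : n - (t + 1) = k := by omega
    have hb : ∀ b, ¬ T ⊆ rd s v k (t + 1) (s t x b) := fun b hs =>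
      hT (hs.trans (NSt_rd s v k t x b))
    rw [EV_mem _ _ _ _ _ _ _ _ (Finset.mem_univ x), ih (t + 1) _ (by omega) (hb false),
      ih (t + 1) _ (by omega) (hb true)]
    have hD : DT s v p o n T t x = 0 := by
      unfold DT
      split_ifs
      · rfl
      · rw [hk, Cf_zero s v p o k T (t + 1) _ (hb false), Cf_zero s v p o k T (t + 1) _ (hb true)]
        exact NSt_dlp _
    rw [hD]
    ring

private theorem NSt_main {w n : ℕ} (s : ℕ → Fin w → Bool → Fin w) (v : ℕ → Fin w → ℕ) (p : ℕ → ℝ)
    (o : Fin w → ℝ) (T : Finset ℕ) (hr : Ro s v n) (k : ℕ) : ∀ (t : ℕ) (x : Fin w), t + k = n →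
    EV s (pn v p) (fun _ => univ) (DT s v p o n T) 0 k t x =
      EV s (pn v p) (At v n T) (DT s v p o n T) 0 k t x := by
  induction k with
  | zero =>
    intro t x _
    rfl
  | succ k ih =>
    intro t x htk
    have ht : t < n := by omega
    have hk : n - (t + 1) = k := by omega
    by_cases hv : v t x ∈ T
    · have hA : x ∉ At v n T t := by
        unfold At
        rw [if_pos ht]
        simp [hv]
      have hb : ∀ b, ¬ T ⊆ rd s v k (t + 1) (s t x b) := by
        intro b hs
        have h := hr t x b ht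
        rw [hk] at h
        exact h (hs hv)
      rw [EV_not _ _ _ _ _ _ _ _ hA, EV_mem _ _ _ _ _ _ _ _ (Finset.mem_univ x),
        NSt_zero s v p o T k (t + 1) _ (by omega) (hb false),
        NSt_zero s v p o T k (t + 1) _ (by omega) (hb true)]
      have hD : DT s v p o n T t x = 0 := by
        unfold DT
        rw [if_pos hv]
      rw [hD]
      simp
    · have hA : x ∈ At v n T t := by
        unfold At
        rw [if_pos ht]
        simp [hv]
      rw [EV_mem _ _ _ _ _ _ _ _ hA, EV_mem _ _ _ _ _ _ _ _ (Finset.mem_univ x),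
        ih (t + 1) _ (by omega), ih (t + 1) _ (by omega)]

theorem rNSt : S_NSt := by
  intro w n s v p o x T hr
  exact NSt_main s v p o T hr n 0 x (by omega)

end Pool.Agent.MP3145b1.RC
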