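import Pool.Agent.Lib.MP_3145b1_co.RC.Spec

/-!
# MP_3145b1_co, project RC: two separated states (`S_Rch`)
-/

set_option autoImplicit false

namespace Pool.Agent.MP3145b1.RC

open Finset

/-- `x` at time `u` is reached from `a` at time `t` through states of `R` with value at distance less
than `K` from `m t a`. -/
private inductive Rch_Re {σ : Type} (s : ℕ → σ → Bool → σ) (m : ℕ → σ → ℝ) (R : ℕ → Finset σ) (K : ℝ)
    (t : ℕ) (a : σ) : ℕ → σ → Prop
  | base : Rch_Re s m R K t a t a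
  | step (u : ℕ) (x : σ) (b : Bool) : Rch_Re s m R K t a u x → s u x b ∈ R (u + 1) →
      |m (u + 1) (s u x b) - m t a| < K → Rch_Re s m R K t a (u + 1) (s u x b)

open Classical in
private noncomputable def Rch_G {σ : Type} (s : ℕ → σ → Bool → σ) (m : ℕ → σ → ℝ) (R : ℕ → Finset σ)
    (K : ℝ) (t : ℕ) (a : σ) : ℕ → Finset σ :=
  fun u => (R u).filter (fun x => Rch_Re s m R K t a u x)

private theorem Rch_mem {σ : Type} {s : ℕ → σ → Bool → σ} {m : ℕ → σ → ℝ} {R : ℕ → Finset σ} {K : ℝ}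
    {t : ℕ} {a : σ} {u : ℕ} {x : σ} :
    x ∈ Rch_G s m R K t a u ↔ x ∈ R u ∧ Rch_Re s m R K t a u x := by
  classical
  unfold Rch_G
  exact Finset.mem_filter

private theorem Rch_le {σ : Type} {s : ℕ → σ → Bool → σ} {m : ℕ → σ → ℝ} {R : ℕ → Finset σ} {K : ℝ}
    {t : ℕ} {a : σ} {u : ℕ} {x : σ} (h : Rch_Re s m R K t a u x) : t ≤ u := by
  induction h with
  | base => exact le_rfl
  | step u x b _ _ _ ih => omega

private theorem Rch_lt {σ : Type} {s : ℕ → σ → Bool → σ} {m : ℕ → σ → ℝ} {R : ℕ → Finset σ} {K : ℝ}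
    (hK : 0 < K) {t : ℕ} {a : σ} {u : ℕ} {x : σ} (h : Rch_Re s m R K t a u x) :
    |m u x - m t a| < K := by
  cases h with
  | base => simpa using hK
  | step u x b _ _ h3 => exact h3

private theorem Rch_R {σ : Type} {s : ℕ → σ → Bool → σ} {m : ℕ → σ → ℝ} {R : ℕ → Finset σ} {K : ℝ}
    {t : ℕ} {a : σ} (ha : a ∈ R t) {u : ℕ} {x : σ} (h : Rch_Re s m R K t a u x) : x ∈ R u := by
  cases h with
  | base => exact ha
  | step u x b _ h2 _ => exact h2

private theorem Rch_anc {σ : Type} {s : ℕ → σ → Bool → σ} {m : ℕ → σ → ℝ} {R : ℕ → Finset σ} {K : ℝ}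
    {t : ℕ} {a : σ} {v : ℕ} {x : σ} (h : Rch_Re s m R K t a v x) :
    ∀ u, t ≤ u → u ≤ v → ∃ x', Rch_Re s m R K t a u x' := by
  induction h with
  | base =>
    intro u h1 h2
    obtain rfl : u = t := le_antisymm h2 h1
    exact ⟨a, Rch_Re.base⟩
  | step v x b h1 h2 h3 ih =>
    intro u hu hv
    rcases Nat.lt_or_ge v u with h | h
    · obtain rfl : u = v + 1 := by omega
      exact ⟨_, Rch_Re.step v x b h1 h2 h3⟩
    · exact ih u hu h

/-- the exit set -/
private def Rch_E {σ : Type} (m : ℕ → σ → ℝ) (R : ℕ → Finset σ) (E : ℕ → Set σ) (K : ℝ) (t : ℕ)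
    (a : σ) : ℕ → Set σ :=
  fun u => {x | (x ∈ R u ∨ x ∈ E u) ∧ K ≤ |m u x - m t a|}

/-- case (i) -/
private theorem Rch_one (w : ℕ) (K c : ℝ) (hK : 0 < K) (hP : PK w K c) (σ : Type)
    (s : ℕ → σ → Bool → σ) (p : ℕ → σ → ℝ) (m : ℕ → σ → ℝ) (R : ℕ → Finset σ) (E : ℕ → Set σ)
    (ν : ℕ → σ → ℝ) (t : ℕ) (a : σ) (hp : Pb p)
    (ha : a ∈ R t) (hν : ∀ u, ∀ x ∈ R u, 0 ≤ ν u x) (hm : ∀ u, ∀ x ∈ R u, St s p m R E ν u x)
    (hE : ∀ u, ∀ x ∈ E u, K ≤ |m u x - m t a|)
    (hc : ∀ u, (Rch_G s m R K t a u).card ≤ w) (n : ℕ) :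
    c ≤ EV s p R ν (fun u x => 1 - ind E u x) n t a := by
  have hq : ∀ u x, x ∉ R u → 1 - ind (Rch_E m R E K t a) u x ≤ 1 - ind E u x := by
    intro u x hx
    by_cases hxE : x ∈ E u
    · rw [ind_mem _ _ _ hxE, ind_mem _ _ _ (show x ∈ Rch_E m R E K t a u from ⟨Or.inr hxE, hE u x hxE⟩)]
    · rw [ind_not _ _ _ hxE]
      have := ind_nonneg (Rch_E m R E K t a) u x
      linarith
  have claim : ∀ n u x, x ∈ Rch_G s m R K t a u →
      EV s p (Rch_G s m R K t a) ν (fun u x => 1 - ind (Rch_E m R E K t a) u x) n u x ≤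
        EV s p R ν (fun u x => 1 - ind E u x) n u x := by
    intro n
    induction n with
    | zero =>
      intro u x hx
      have hxE : x ∉ E u := by
        intro h
        have h1 := hE u x h
        have h2 := Rch_lt hK (Rch_mem.1 hx).2
        linarith
      change 1 - ind (Rch_E m R E K t a) u x ≤ 1 - ind E u x
      rw [ind_not _ _ _ hxE]
      have := ind_nonneg (Rch_E m R E K t a) u x
      linarith
    | succ n ih =>
      intro u x hx
      have hxR := (Rch_mem.1 hx).1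
      have hxG := (Rch_mem.1 hx).2
      have child : ∀ b,
          EV s p (Rch_G s m R K t a) ν (fun u x => 1 - ind (Rch_E m R E K t a) u x) n (u + 1)
            (s u x b) ≤ EV s p R ν (fun u x => 1 - ind E u x) n (u + 1) (s u x b) := by
        intro b
        by_cases h1 : s u x b ∈ Rch_G s m R K t a (u + 1)
        · exact ih (u + 1) _ h1
        · rw [EV_not s p (Rch_G s m R K t a) _ _ n (u + 1) _ h1]
          by_cases h2 : s u x b ∈ R (u + 1)
          · have h3 : K ≤ |m (u + 1) (s u x b) - m t a| := by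
              by_contra h4
              exact h1 (Rch_mem.2 ⟨h2, Rch_Re.step u x b hxG h2 (not_le.1 h4)⟩)
            rw [ind_mem _ _ _ (show s u x b ∈ Rch_E m R E K t a (u + 1) from ⟨Or.inl h2, h3⟩),
              sub_self]
            exact EV_nonneg s hp R hν (fun u y => by have := ind_le E u y; linarith) n (u + 1) _
          · rw [EV_not s p R _ _ n (u + 1) _ h2]
            exact hq _ _ h2
      rw [EV_mem _ _ _ _ _ _ _ _ hxR, EV_mem _ _ _ _ _ _ _ _ hx]
      have h1 := avg_mono hp u x (child false) (child true)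
      linarith
  have hmem : a ∈ Rch_G s m R K t a t := Rch_mem.2 ⟨ha, Rch_Re.base⟩
  refine le_trans ?_ (claim n t a hmem)
  refine hP σ s p m (Rch_G s m R K t a) (Rch_E m R E K t a) ν t n a hp hmem hc
    (fun u x hx => hν u x (Rch_mem.1 hx).1) (fun u x hx => ?_)
    (fun u x hx => Rch_lt hK (Rch_mem.1 hx).2) (fun u x hx => hx.2)
  obtain ⟨f, h1, h2, h3⟩ := hm u x (Rch_mem.1 hx).1
  refine ⟨f, h1, fun b hb => h2 b ?_, h3⟩
  rcases hb with hb | hb
  · exact Or.inl (Rch_mem.1 hb).1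
  · exact hb.1

/-- case (ii) -/
private theorem Rch_two (w : ℕ) (K : ℝ) (hK : 0 < K) (σ : Type)
    (s : ℕ → σ → Bool → σ) (m : ℕ → σ → ℝ) (R : ℕ → Finset σ) (t : ℕ) (y z : σ)
    (hz : z ∈ R t) (hR : ∀ u, (R u).card ≤ w + 1)
    (hyz : 2 * K ≤ |m t y - m t z|) (u v : ℕ) (huv : u ≤ v)
    (hu : w < (Rch_G s m R K t y u).card) (hv : w < (Rch_G s m R K t z v).card) : False := by
  have e : Rch_G s m R K t y u = R u :=
    Finset.eq_of_subset_of_card_le (fun x hx => (Rch_mem.1 hx).1) ((hR u).trans hu)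
  obtain ⟨x, hx⟩ := Finset.card_pos.1 (lt_of_le_of_lt (Nat.zero_le _) hu)
  obtain ⟨x', hx'⟩ := Finset.card_pos.1 (lt_of_le_of_lt (Nat.zero_le _) hv)
  have htu : t ≤ u := Rch_le (Rch_mem.1 hx).2
  obtain ⟨q, hq⟩ := Rch_anc (Rch_mem.1 hx').2 u htu huv
  have hqR : q ∈ R u := Rch_R hz hq
  rw [← e] at hqR
  have h1 := Rch_lt hK (Rch_mem.1 hqR).2
  have h2 := Rch_lt hK hq
  have h3 : |m t y - m t z| ≤ |m u q - m t y| + |m u q - m t z| := by
    have := abs_sub (m u q - m t z) (m u q - m t y)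
    have e2 : m u q - m t z - (m u q - m t y) = m t y - m t z := by ring
    rw [e2] at this
    linarith
  linarith

/-- **Rch** -/
theorem rRch : S_Rch := by
  intro w K c hK hP σ s p m R E ν t y z hp hy hz hR hν hm hE hyz
  by_cases h1 : ∀ u, (Rch_G s m R K t y u).card ≤ w
  · left
    intro n
    exact Rch_one w K c hK hP σ s p m R E ν t y hp hy hν hm (fun u x hx => (hE u x hx).1) h1 n
  · by_cases h2 : ∀ u, (Rch_G s m R K t z u).card ≤ w
    · right
      intro n
      exact Rch_one w K c hK hP σ s p m R E ν t z hp hz hν hm (fun u x hx => (hE u x hx).2) h2 n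
    · exfalso
      push Not at h1 h2
      obtain ⟨u, hu⟩ := h1
      obtain ⟨v, hv⟩ := h2
      rcases le_total u v with h | h
      · exact Rch_two w K hK σ s m R t y z hz hR hyz u v h hu hv
      · exact Rch_two w K hK σ s m R t z y hy hR (by rw [abs_sub_comm]; exact hyz) v u h hv hu

end Pool.Agent.MP3145b1.RC
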