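import Pool.Agent.Lib.MP_3145b1_co.RC.SpecF

/-!
# MP_3145b1_co, project RC: sum over the sets with given blocks
-/

set_option autoImplicit false

namespace Pool.Agent.MP3145b1.RC

open Finset Pool.Agent.MP3145b1

/-- sum over the subsets of a disjoint union -/
private theorem Smm_union {N : ℕ} (A B : Finset (Fin N)) (hd : Disjoint A B)
    (f : Finset (Fin N) → ℝ) :
    ∑ S ∈ (A ∪ B).powerset, f S = ∑ R ∈ B.powerset, ∑ S' ∈ A.powerset, f (S' ∪ R) := by
  rw [← Finset.sum_product' (f := fun R S' => f (S' ∪ R))]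
  refine Finset.sum_nbij' (fun S => (S ∩ B, S ∩ A)) (fun q => q.2 ∪ q.1) ?_ ?_ ?_ ?_ ?_
  · intro S _
    exact Finset.mem_product.mpr ⟨Finset.mem_powerset.mpr Finset.inter_subset_right,
      Finset.mem_powerset.mpr Finset.inter_subset_right⟩
  · intro q hq
    obtain ⟨h1, h2⟩ := Finset.mem_product.mp hq
    exact Finset.mem_powerset.mpr (Finset.union_subset_union (Finset.mem_powerset.mp h2)
      (Finset.mem_powerset.mp h1))
  · intro S hS
    have hS' := Finset.mem_powerset.mp hS
    show S ∩ A ∪ S ∩ B = S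
    rw [← Finset.inter_union_distrib_left]
    exact Finset.inter_eq_left.mpr hS'
  · intro q hq
    obtain ⟨h1, h2⟩ := Finset.mem_product.mp hq
    have h1' := Finset.mem_powerset.mp h1
    have h2' := Finset.mem_powerset.mp h2
    have e1 : (q.2 ∪ q.1) ∩ B = q.1 := by
      rw [Finset.union_inter_distrib_right, Finset.inter_eq_left.mpr h1',
        Finset.disjoint_iff_inter_eq_empty.mp (hd.mono_left h2'), Finset.empty_union]
    have e2 : (q.2 ∪ q.1) ∩ A = q.2 := by
      rw [Finset.union_inter_distrib_right, Finset.inter_eq_left.mpr h2',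
        Finset.disjoint_iff_inter_eq_empty.mp (hd.symm.mono_left h1'), Finset.union_empty]
    show ((q.2 ∪ q.1) ∩ B, (q.2 ∪ q.1) ∩ A) = q
    rw [e1, e2]
  · intro S hS
    have hS' := Finset.mem_powerset.mp hS
    show f S = f (S ∩ A ∪ S ∩ B)
    rw [← Finset.inter_union_distrib_left, Finset.inter_eq_left.mpr hS']

private theorem Smm_disj {N : ℕ} (M : ℕ) (P : ℕ → Finset (Fin N))
    (hP : ∀ i j, i ≠ j → Disjoint (P i) (P j)) : Disjoint ((range M).biUnion P) (P M) := by
  rw [Finset.disjoint_biUnion_left]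
  intro i hi
  exact hP i M (Finset.mem_range.mp hi).ne

private theorem Smm_lt {N : ℕ} (M : ℕ) (P : ℕ → Finset (Fin N))
    (hP : ∀ i j, i ≠ j → Disjoint (P i) (P j)) (S' R : Finset (Fin N)) (hR : R ⊆ P M) (i : ℕ)
    (hi : i < M) : (S' ∪ R) ∩ P i = S' ∩ P i := by
  rw [Finset.union_inter_distrib_right,
    Finset.disjoint_iff_inter_eq_empty.mp ((hP M i hi.ne').mono_left hR), Finset.union_empty]

private theorem Smm_self {N : ℕ} (M : ℕ) (P : ℕ → Finset (Fin N))
    (hP : ∀ i j, i ≠ j → Disjoint (P i) (P j)) (S' R : Finset (Fin N)) (hR : R ⊆ P M)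
    (hS : S' ⊆ (range M).biUnion P) : (S' ∪ R) ∩ P M = R := by
  rw [Finset.union_inter_distrib_right,
    Finset.disjoint_iff_inter_eq_empty.mp ((Smm_disj M P hP).mono_left hS), Finset.empty_union,
    Finset.inter_eq_left.mpr hR]

private theorem Smm_filter {N : ℕ} (M : ℕ) (P : ℕ → Finset (Fin N))
    (hP : ∀ i j, i ≠ j → Disjoint (P i) (P j)) (S' R : Finset (Fin N)) (hR : R ⊆ P M) :
    (range M).filter (fun i => ((S' ∪ R) ∩ P i).Nonempty) = TT P M S' := by
  unfold TT
  apply Finset.filter_congr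
  intro i hi
  rw [Smm_lt M P hP S' R hR i (Finset.mem_range.mp hi)]

private theorem Smm_TT0 {N : ℕ} (M : ℕ) (P : ℕ → Finset (Fin N))
    (hP : ∀ i j, i ≠ j → Disjoint (P i) (P j)) (S' : Finset (Fin N))
    (hS : S' ⊆ (range M).biUnion P) : TT P (M + 1) S' = TT P M S' := by
  have h0 : S' ∩ P M = ∅ := Finset.disjoint_iff_inter_eq_empty.mp ((Smm_disj M P hP).mono_left hS)
  unfold TT
  rw [Finset.range_add_one, Finset.filter_insert, if_neg]
  rw [h0]
  exact Finset.not_nonempty_empty

private theorem Smm_TT1 {N : ℕ} (M : ℕ) (P : ℕ → Finset (Fin N))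
    (hP : ∀ i j, i ≠ j → Disjoint (P i) (P j)) (S' R : Finset (Fin N)) (hR : R ⊆ P M)
    (hS : S' ⊆ (range M).biUnion P) (hne : R.Nonempty) :
    TT P (M + 1) (S' ∪ R) = insert M (TT P M S') := by
  have h := Smm_filter M P hP S' R hR
  unfold TT at h ⊢
  rw [Finset.range_add_one, Finset.filter_insert, if_pos, h]
  rw [Smm_self M P hP S' R hR hS]
  exact hne

private theorem Smm_notin {N : ℕ} (M : ℕ) (P : ℕ → Finset (Fin N)) (S' : Finset (Fin N)) :
    M ∉ TT P M S' := by
  unfold TT
  intro h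
  exact absurd (Finset.mem_filter.mp h).1 Finset.notMem_range_self

private theorem Smm_main {N : ℕ} (P : ℕ → Finset (Fin N))
    (hP : ∀ i j, i ≠ j → Disjoint (P i) (P j)) (ψ : ℕ → Finset (Fin N) → ℝ) (M : ℕ) :
    ∀ φ : Finset ℕ → ℝ,
    ∑ S ∈ ((range M).biUnion P).powerset, (∏ i ∈ TT P M S, ψ i (S ∩ P i)) * φ (TT P M S) =
      ∑ T ∈ (range M).powerset, (∏ i ∈ T, ∑ R ∈ (P i).powerset.erase ∅, ψ i R) * φ T := by
  induction M with
  | zero =>
    intro φ
    simp [TT]
  | succ M ih =>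
    intro φ
    have hU : (range (M + 1)).biUnion P = (range M).biUnion P ∪ P M := by
      rw [Finset.range_add_one, Finset.biUnion_insert, Finset.union_comm]
    rw [hU, Smm_union _ _ (Smm_disj M P hP),
      ← Finset.add_sum_erase _ _ (Finset.empty_mem_powerset (P M))]
    have h0 : ∑ S' ∈ ((range M).biUnion P).powerset,
        (∏ i ∈ TT P (M + 1) (S' ∪ ∅), ψ i ((S' ∪ ∅) ∩ P i)) * φ (TT P (M + 1) (S' ∪ ∅)) =
        ∑ S' ∈ ((range M).biUnion P).powerset, (∏ i ∈ TT P M S', ψ i (S' ∩ P i)) * φ (TT P M S') := by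
      apply Finset.sum_congr rfl
      intro S' hS'
      rw [Finset.union_empty, Smm_TT0 M P hP S' (Finset.mem_powerset.mp hS')]
    have h1 : ∀ R ∈ (P M).powerset.erase ∅, ∑ S' ∈ ((range M).biUnion P).powerset,
        (∏ i ∈ TT P (M + 1) (S' ∪ R), ψ i ((S' ∪ R) ∩ P i)) * φ (TT P (M + 1) (S' ∪ R)) =
        ψ M R * ∑ S' ∈ ((range M).biUnion P).powerset,
          (∏ i ∈ TT P M S', ψ i (S' ∩ P i)) * φ (insert M (TT P M S')) := by
      intro R hR
      obtain ⟨hR1, hR2⟩ := Finset.mem_erase.mp hR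
      have hR3 := Finset.mem_powerset.mp hR2
      rw [Finset.mul_sum]
      apply Finset.sum_congr rfl
      intro S' hS'
      have hS2 := Finset.mem_powerset.mp hS'
      rw [Smm_TT1 M P hP S' R hR3 hS2 (Finset.nonempty_iff_ne_empty.mpr hR1),
        Finset.prod_insert (Smm_notin M P S'), Smm_self M P hP S' R hR3 hS2]
      have hp : ∏ i ∈ TT P M S', ψ i ((S' ∪ R) ∩ P i) = ∏ i ∈ TT P M S', ψ i (S' ∩ P i) := by
        apply Finset.prod_congr rfl
        intro i hi
        have hi2 : i < M := Finset.mem_range.mp (Finset.mem_filter.mp hi).1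
        rw [Smm_lt M P hP S' R hR3 i hi2]
      rw [hp]
      ring
    rw [h0, Finset.sum_congr rfl h1, ← Finset.sum_mul, ih φ, ih (fun T => φ (insert M T)),
      Finset.range_add_one, Finset.sum_powerset_insert Finset.notMem_range_self]
    congr 1
    rw [Finset.mul_sum]
    apply Finset.sum_congr rfl
    intro T hT
    have hM : M ∉ T := fun h => Finset.notMem_range_self (Finset.mem_powerset.mp hT h)
    rw [Finset.prod_insert hM]
    ring

/-- **Smm** (sum over the sets with given blocks) -/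
theorem rSmm : S_Smm := by
  intro N M P hP ψ φ
  rw [← Smm_main P hP ψ M φ]
  symm
  have hs : ((range M).biUnion P).powerset ⊆ (univ : Finset (Finset (Fin N))) :=
    Finset.subset_univ _
  rw [← Finset.sum_subset hs]
  · apply Finset.sum_congr rfl
    intro S hS
    unfold Lp
    rw [if_pos (Finset.mem_powerset.mp hS)]
  · intro S _ hS
    unfold Lp
    rw [if_neg (fun h => hS (Finset.mem_powerset.mpr h)), zero_mul]

end Pool.Agent.MP3145b1.RC
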