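import Pool.Agent.Lib.MP_3145b1_co.RC.Def

/-!
# MP_3145b1_co, project RC (architect helper95)

THEOREM. For every `w` there is a constant `C` such that the Fourier entropy-influence inequality
`Ent(f) ≤ C I(f)` holds for every read-once composition (of any depth) of Boolean functions with
read-once branching programs (not necessarily oblivious) of width `w`. This contains the projects RB
and RBA (folder RB, modules proved): the modules of Parts 1 and 2 are copies of the RB modules with a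
biased coin (probability `p t x` of `false`, which may depend on the state) and a drift `ν`.

RULES. Module X: file Pool/Agent/Lib/MP_3145b1_co/RC/X.lean, `import Pool.Agent.Lib.MP_3145b1_co.RC.Spec`,
`namespace Pool.Agent.MP3145b1.RC`, `open Finset`, final theorem `theorem rX (h1 : S_A) ... : S_X` (the
statements listed under Uses, in this order, are the hypotheses). Auxiliary lemmas private, names X_.
Definitions and basic lemmas: RC/Def.lean; READ IT FIRST. MODEL: RB/X.lean means: copy this file and change it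
(the signature of EV has the new argument p; averages are p t x * _ + (1 - p t x) * _; avg_mono).

EV s p A c q n t x = expected cost c and payoff q of the walk with at most n steps that stops outside A.
-/

set_option autoImplicit false

namespace Pool.Agent.MP3145b1.RC

open Finset

/-! ## Part 1: `PK` -/

/-- **Rch** (two separated states). Uses: nothing. MODEL: RB/Rch.lean.
Proof. For `a ∈ {y, z}` define `G_a : ℕ → Finset σ`: `G_a u = ∅` for `u < t`, `G_a t = {a}`, and `G_a (u+1)` = the `x ∈ R (u+1)` with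
`|m (u+1) x - m t a| < K` such that `x = s u x' b` for some `x' ∈ G_a u`, `b`. `G_a u ⊆ R u`, values at distance `< K` from `m t a`, so `G_y u` and `G_z u` are disjoint.
(i) If `(G_a u).card ≤ w` for all `u`: `PK w K c` for `(G_a, E', ν)`, `E' u = {x | (x ∈ R u ∨ x ∈ E u) ∧ K ≤ |m u x - m t a|}` (St for `(G_a, E')`: the same `a b`, since a child in `G_a` or `E'` is in `R` or `E`) gives
`c ≤ EV s p G_a ν (1 - ind E') n t a`. Moreover `EV s p G_a ν (1 - ind E') n u x ≤ EV s p R ν (1 - ind E) n u x` for all `x ∈ G_a u`, `t ≤ u`, by induction on `n`. `n = 0`: `x ∉ E u` (the elements of `E u` have distance `≥ K` from `m t a`), the right side is `1`.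
`n + 1`: the costs are equal; children `x' = s u x b`: if `x' ∈ G_a (u+1)` induction; if `x' ∈ R (u+1)`, `x' ∉ G_a (u+1)`, then `x' ∈ E' (u+1)`, the left side is `0 ≤` right side (EV_nonneg; `ν ≥ 0` on `R`); if `x' ∉ R (u+1)` both sides are payoffs, and `x' ∈ E` implies `x' ∈ E'`.
(ii) Otherwise there are `u, v` with `(G_y u).card ≥ w + 1`, `(G_z v).card ≥ w + 1`, so `G_y u = R u`, `G_z v = R v`. If `u ≤ v` then `G_z u` is disjoint from `R u ⊇ G_z u`, so empty, so `G_z v = ∅`, a contradiction; `v ≤ u` is symmetric. -/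
def S_Rch : Prop := ∀ (w : ℕ) (K c : ℝ), 0 < K → PK w K c → ∀ (σ : Type) (s : ℕ → σ → Bool → σ) (p : ℕ → σ → ℝ)
  (m : ℕ → σ → ℝ) (R : ℕ → Finset σ) (E : ℕ → Set σ) (ν : ℕ → σ → ℝ) (t : ℕ) (y z : σ), Pb p → y ∈ R t → z ∈ R t →
  (∀ u, (R u).card ≤ w + 1) → (∀ u, ∀ x ∈ R u, 0 ≤ ν u x) → (∀ u, ∀ x ∈ R u, St s p m R E ν u x) →
  (∀ u, ∀ x ∈ E u, K ≤ |m u x - m t y| ∧ K ≤ |m u x - m t z|) → 2 * K ≤ |m t y - m t z| →
  (∀ n, c ≤ EV s p R ν (fun u x => 1 - ind E u x) n t y) ∨ (∀ n, c ≤ EV s p R ν (fun u x => 1 - ind E u x) n t z)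

/-- **Far** (a state with another state far away at all times). Uses: nothing. MODEL: RB/Far.lean.
Proof. `R' u = (R u).filter (fun x => |m u x - m t y| < K)` for `t ≤ u ≤ t + n` and `∅` for the other `u`; `E' u = {x | (x ∈ R u ∨ x ∈ E u) ∧ K ≤ |m u x - m t y|}`. `(R' u).card ≤ w` (the state `z` is in `R u` and not in `R' u`). `PK` gives
`c ≤ EV s p R' ν (1 - ind E') n t y`. Claim: for `k + u = t + n`, `t ≤ u`, and all `x`: `EV s p R' ν (1 - ind E') k u x ≤ EV s p R ν q k u x`. Induction on `k`. `k = 0`: `x ∈ E' u`: `0 ≤ q`; otherwise if `x ∈ R u` then `q ≥ 1`; if `x ∉ R u` then `x ∉ E u` (`K ≤` on `E`, so `x` would be in `E'`), `q ≥ 1`.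
`k + 1`: `x ∈ R' u`: then `x ∈ R u`, same cost, average; `x ∉ R' u`: the left side is `1 - ind E' u x`; if `x ∈ E' u` it is `0`; otherwise `x ∉ R u`, `x ∉ E u`, the right side is `q u x ≥ 1`. -/
def S_Far : Prop := ∀ (w : ℕ) (K c : ℝ), 0 < K → PK w K c → ∀ (σ : Type) (s : ℕ → σ → Bool → σ) (p : ℕ → σ → ℝ)
  (m : ℕ → σ → ℝ) (R : ℕ → Finset σ) (E : ℕ → Set σ) (ν q : ℕ → σ → ℝ) (t n : ℕ) (y : σ), Pb p → y ∈ R t →
  (∀ u, (R u).card ≤ w + 1) → (∀ u, ∀ x ∈ R u, 0 ≤ ν u x) → (∀ u, ∀ x ∈ R u, St s p m R E ν u x) →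
  (∀ u, ∀ x ∈ E u, K ≤ |m u x - m t y|) →
  (∀ u, t ≤ u → u ≤ t + n → ∃ z ∈ R u, K ≤ |m u z - m t y|) → (∀ u x, 0 ≤ q u x) →
  (∀ u x, x ∉ R u → x ∉ E u → 1 ≤ q u x) →
  (∀ x ∈ R (t + n), |m (t + n) x - m t y| < K → 1 ≤ q (t + n) x) → c ≤ EV s p R ν q n t y

/-- **Mea** (mean value). Uses: nothing. MODEL: RB/Mea.lean.
Proof. `a0 = m t x`, `B u = {y | y ∉ R u ∨ m u y - a0 ≤ K}`. Claim: for all `n`, `u` and all `y ∈ R u`: `K - (m u y - a0) ≤ 7 K * EV s p R ν (ind B) n u y`. `n = 0`: the EV is `ind B u y`: `1` if `y ∈ B u` (`K + 5 K ≤ 7 K`), and if `y ∉ B u` the left side is negative.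
`n + 1`: `a` from St: `K - (m u y - a0) ≤ p (K - (a false - a0)) + (1-p) (K - (a true - a0)) + ν u y` and `K - (a b - a0) ≤ 7 K * EV` at the child: if the child is in `R` then `a b` is its value, induction; otherwise the EV is `1` and `|a b - a0| ≤ 5 K + 1`. `0 ≤ ν ≤ 7 K ν` (`ν ≥ 0` follows from St). For `y = x` the left side is `K`. If `x ∉ R t` the EV is `1`. -/
def S_Mea : Prop := ∀ (K : ℝ), 1 ≤ K → ∀ (σ : Type) (s : ℕ → σ → Bool → σ) (p : ℕ → σ → ℝ) (m : ℕ → σ → ℝ)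
  (R : ℕ → Finset σ) (ν : ℕ → σ → ℝ) (t n : ℕ) (x : σ), Pb p → (∀ u, ∀ y ∈ R u, St s p m R (fun _ => ∅) ν u y) →
  (∀ u, ∀ y ∈ R u, |m u y - m t x| < 5 * K) →
  1 / 7 ≤ EV s p R ν (ind (fun u => {y | y ∉ R u ∨ m u y - m t x ≤ K})) n t x

/-- **Sid** (walks that leave on the positive side). Uses: nothing. MODEL: RB/Sid.lean.
Proof. `R' = Rin m R a0 (5 K)` where `a0 = m t x`. Claim: for `k + u = t + n`, `t ≤ u` and all `y ∈ R' u` with `m u y - a0 < 4 K`: `c * EV s p R' 0 (ind (Xp m R E a0 (5 K))) (k + 1) u y ≤ EV s p R ν q k u y`. Induction on `k`. A child `y'` of `y` in `R` or `E` has `m - a0 < 4 K + 1 ≤ 5 K` (St),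
so no child is in `Xp`. `k = 0`: the left side is `0`. `k + 1`: average over the children `y'` (the cost `ν ≥ 0` is on the right). (a) `y' ∈ R`, `4 K ≤ m y' - a0`: the right side is `≥ c` by (Hz), the left EV is `≤ 1`. (b) `y' ∈ R`, `|m y' - a0| < 5 K`, `m y' - a0 < 4 K`: induction.
(c) `y' ∈ R`, `m y' - a0 ≤ - 5 K`, or `y' ∉ R`: `y' ∉ R'`, the left EV is `ind Xp = 0`, the right one is `≥ 0`. (`ν ≥ 0` on `R` follows from St.) -/
def S_Sid : Prop := ∀ (K c : ℝ), 1 ≤ K → 0 < c → ∀ (σ : Type) (s : ℕ → σ → Bool → σ) (p : ℕ → σ → ℝ) (m : ℕ → σ → ℝ)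
  (R : ℕ → Finset σ) (E : ℕ → Set σ) (ν q : ℕ → σ → ℝ) (t n : ℕ) (x : σ), Pb p → x ∈ R t →
  (∀ u, ∀ y ∈ R u, St s p m R E ν u y) → (∀ u y, 0 ≤ q u y) →
  (∀ k u, k + u = t + n → t ≤ u → ∀ y ∈ R u, 4 * K ≤ m u y - m t x → m u y - m t x < 4 * K + 1 →
    c ≤ EV s p R ν q k u y) →
  c * EV s p (Rin m R (m t x) (5 * K)) 0 (ind (Xp m R E (m t x) (5 * K))) (n + 1) t x ≤ EV s p R ν q n t x

/-- **InP** (induction step, positive side). Uses: S_Rch, S_Far, S_Mea, S_Sid. MODEL: RB/InP.lean.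
Proof. As in RB (docstring of RB.S_InP) with the cost `ν` everywhere: `κ = EV s p R ν (1 - ind E) (n1 + n2) t x`, suppose `κ < c^2/28`. `R'`, `X`, `Kl u = {y | y ∉ R u ∧ y ∉ E u}`, `Bn u = {y | y ∈ R' u ∧ m u y - a0 ≤ K}`, `t1 = t + n1`.
(1) `EV s p R' ν (ind Kl) n u y ≤ EV s p R ν (1 - ind E) N u y` for `n ≤ N` (induction). (2) S_Mea for `R'` (St for `(R', ∅)` with the same `a`): `1/7 ≤ EV s p R' ν (ind B) n t x`, `ind B ≤ ind X + ind Kl + ind Bn`, so (EV_add) `1/7 ≤ EV s p R' 0 (ind X) + EV s p R' ν (ind Kl) + EV s p R' 0 (ind Bn)`,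
so the last term is `≥ 1/28 > 0` for `n ≤ n1` and `Bn (t + n)` is not empty. (3) S_Rch at time `t1`: for `y ∈ Z` (`y ∈ R t1`, `3K < m t1 y - a0 < 5K + 1`) and `z ∈ Bn t1`: `F y ≥ c` or `F z ≥ c`, `F y = EV s p R ν (1 - ind E) n2 t1 y`. (B): `EV s p R ν (ind (Kl ∪ Bn)) n1 t x ≥ EV s p R' ν (ind (Kl ∪ Bn)) n1 t x ≥ 1/7 - 1/14 = 1/14`,
and `c * EV s p R ν g n1 t x ≤ EV s p R ν (c g) n1 t x` (`c ≤ 1`, EV_mul, EV_mono) `≤ κ` by EV_glue: `κ ≥ c/14`. (A): S_Sid with `q = ind Q` as in RB, (Hz) by S_Far: `EV s p R ν q n1 t x ≥ c/28`, EV_glue with `c q`: `κ ≥ c^2/28`. -/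
def S_InP : Prop := ∀ (w : ℕ) (K c : ℝ), 1 ≤ K → 0 < c → c ≤ 1 → PK w K c → ∀ (σ : Type) (s : ℕ → σ → Bool → σ)
  (p : ℕ → σ → ℝ) (m : ℕ → σ → ℝ) (R : ℕ → Finset σ) (E : ℕ → Set σ) (ν : ℕ → σ → ℝ) (t n1 n2 : ℕ) (x : σ), Pb p →
  x ∈ R t → (∀ u, (R u).card ≤ w + 1) → (∀ u, ∀ y ∈ R u, St s p m R E ν u y) →
  (∀ u, ∀ y ∈ R u, |m u y - m t x| < 7 * K) → (∀ u, ∀ y ∈ E u, 7 * K ≤ |m u y - m t x|) →
  (∀ n, n ≤ n1 → EV s p (Rin m R (m t x) (5 * K)) 0 (ind (Xt m R E (m t x) (5 * K))) n t x < 1 / 14) →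
  1 / 28 ≤ EV s p (Rin m R (m t x) (5 * K)) 0 (ind (Xp m R E (m t x) (5 * K))) (n1 + 1) t x →
  c ^ 2 / 28 ≤ EV s p R ν (fun u y => 1 - ind E u y) (n1 + n2) t x

/-- **Ind** (induction step). Uses: S_InP. MODEL: RB/Ind.lean.
Proof. As in RB: `EV s p R 0 (ind E) n u y ≤ EV s p R' 0 (ind X) n u y`; if `e n < 1/14`: `EV s p R ν (1 - ind E) ≥ 1 - EV s p R 0 (ind E) ≥ 13/14` (EV_sep, EV_compl, `ν ≥ 0`). Otherwise `n = n1 + n2`, `n1 + 1` least with `e (n1+1) ≥ 1/14`; one side has `≥ 1/28`; S_InP for `m` or `-m` (St for `-m`: `- a b`). -/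
def S_Ind : Prop := ∀ (w : ℕ) (K c : ℝ), 1 ≤ K → 0 < c → c ≤ 1 → PK w K c → PK (w + 1) (7 * K) (c ^ 2 / 28)

/-- **One** (one state per level). Uses: nothing.
Proof. `a0 = m t x`. Claim by induction on `n`: for all `u`, `y ∈ R u`: `(1 - |m u y - a0|)/4 ≤ EV s p R ν (1 - ind E) n u y`. `n = 0`: `y ∉ E u` (`|m u y - a0| < 2`), the right side is `1`. `n + 1`: if `|m u y - a0| ≥ 1` clear (EV ≥ 0, EV_nonneg). Otherwise no child is in `E` (distance `< 2` by St; the elements of `E` have distance `≥ 2`).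
If both children are in `R (u+1)`: they are equal (card ≤ 1), `a false = a true = m y'`, so `|m y' - m u y| ≤ ν`, and `ν + (1 - |m y' - a0|)/4 ≥ (1 - |m u y - a0|)/4`. If exactly one, `y'`, is in `R` (the other one is lost, value `1` of the EV, probability `P`): if `P ≥ 1/4` the EV is `≥ 1/4`. If `P < 1/4`: `(1-P) |m y' - m u y| ≤ ν + P` (St), so
`|m y' - m u y| ≤ (4/3)(ν + P)` and the EV is `≥ ν + P + (1-P) (1 - |m y' - a0|)/4 ≥ ν + P + (1 - |m u y - a0|)/4 - (ν + P)/3 - P/4` (if `1 - |m y' - a0| < 0` use EV ≥ 0 instead). If no child is in `R`: the EV is `ν + 1`. For `y = x` the left side is `1/4`. -/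
def S_One : Prop := PK 1 2 (1 / 4)

/-- **All**. Uses: S_One, S_Ind. MODEL: RB/All.lean.
Proof. Induction on `w ≥ 1` (K = 2, c = 1/4; then 7 K, c^2/28). -/
def S_All : Prop := ∀ w : ℕ, 1 ≤ w → ∃ K c : ℝ, 1 ≤ K ∧ 0 < c ∧ c ≤ 1 ∧ PK w K c

/-! ## Part 2: the variation -/

/-- **Exc** (small steps against large steps). Uses: nothing. MODEL: RB/Exc.lean (new: weak large steps).
Proof. `S n u y = EV s p A (cS s p m ρ) 0 n u y`, `N n u y = 8 * EV s p A (cN s p m ρ) 0 n u y`, `D = (K + 1)^2 / c`, `D ≥ K + 1`. Write `α = al s m u y`, `v = vv p u y`, `ν = v |α|/ρ`. A state `y ∈ A u` is SMALL if `|α| ≤ ρ`, STRONG if `|α| > ρ` and `ν ≥ 1/4`, WEAK if `|α| > ρ` and `ν < 1/4`.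
Strong induction on `n`: `S n t x ≤ D ρ^2 (1 + N n t x)` for all `t, x`. (L) for `k ≤ n` and strong `y`: `S k u y ≤ D ρ^2 N k u y` (`k = k' + 1`: `S k u y = avg S k' ≤ D ρ^2 (1 + avg N k') ≤ D ρ^2 N k u y` as `8 ν ≥ 1`). `n = 0` or `x ∉ A t`: `S = 0`. `x` strong: (L). Otherwise `a0 = m t x`,
`R u = {y ∈ A u, y not strong, |m u y - a0| < K ρ}`, `E u = {y ∈ A u, y not strong, K ρ ≤ |m u y - a0|}`. For weak `y` let the RARE bit be the one with probability `π ≤ 1/2` (`false` if `p u y ≤ 1/2`, else `true`); `π ≤ 2 v` and `v < ν` (`|α| > ρ`), so `π ≤ 2ν`; the FREQUENT child `f` has `|m f - m u y| = π |α| ≤ 2 ν ρ < ρ/2` (Mg.child).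
New program on `Option σ`: `s' u none b = none`, `s' u (some y) b = none` if `y` is weak and `b` is rare, otherwise `some (s u y b)`; `p' u (some y) = p u y`, `p' u none = 0`, `R' u = (R u).map Embedding.some`, `E' u = {some y | y ∈ E u}`, `m' u (some y) = m u y / ρ`, `m' u none = 0`, `ν' u (some y) = ν` if `y` is weak and `0` otherwise, `ν' u none = 0`.
St for these: small `y`: `a b = m (u+1) (s u y b)/ρ` (`|.| ≤ |α|/ρ ≤ 1`, mean exact); weak `y`: `a f = m f / ρ`, `a rare = m u y/ρ`; the mean is off by `(1-π) π |α|/ρ = ν`. `PK w K c`: `c ≤ EV s' p' R' ν' (1 - ind E') n t (some x) = Y + 1 - Z` with `Y k u o = EV s' p' R' ν' 0 k u o`, `Z k u o = EV s' p' R' 0 (ind E') k u o` (EV_sep, EV_compl).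
Claim: `S k u y ≤ (K+1)^2 ρ^2 - (m u y - a0)^2 + D ρ^2 (N k u y - 2 Y k u (some y) + Z k u (some y))` for `k ≤ n`, `y ∈ R u`, and for `k < n` and all `y` with `|m u y - a0| ≤ (K+1) ρ`. Induction on `k`. `y ∉ A u`: `S = N = Y = 0`, `Z ≥ 0`. `y` strong: (L), `Y = Z = 0`. `y ∈ E u`: `Y = 0`, `Z = 1`, outer induction (`k < n`).
`y ∈ R u`, `k = 0`: clear (`Y = 0`, `Z = ind E' = 0`). `y ∈ R u` small, `k + 1`: `S (k+1) u y = v α^2 + avg S k`, Mg.sq, averages. `y ∈ R u` weak, `k + 1`: `S (k+1) = (1-π) S k f + π S k r`, `S k r ≤ D ρ^2 (1 + N k r)` (outer induction), claim for `f`; `N (k+1) = 8ν + (1-π) N f + π N r`, `Y (k+1) = ν + (1-π) Y f`, `Z (k+1) = (1-π) Z f`; what remains is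
`(1-π)((K+1)^2 ρ^2 - (m f - a0)^2) + π D ρ^2 ≤ (K+1)^2 ρ^2 - (m u y - a0)^2 + 6 ν D ρ^2`: `π ≤ 2ν`, and `(m u y - a0)^2 - (m f - a0)^2 ≤ |m u y - m f| * 2 (K+1) ρ ≤ 4 ν (K+1) ρ^2 ≤ 4 ν D ρ^2`. Finally for `k = n`, `y = x`: `S ≤ D c ρ^2 + D ρ^2 (N - 2Y + 1 - c + Y) ≤ D ρ^2 (1 + N)`. -/
def S_Exc : Prop := ∀ (w : ℕ) (K c : ℝ), 1 ≤ K → 0 < c → c ≤ 1 → PK w K c → ∀ (σ : Type) (s : ℕ → σ → Bool → σ)
  (p : ℕ → σ → ℝ) (m : ℕ → σ → ℝ) (A : ℕ → Finset σ) (ρ : ℝ) (n t : ℕ) (x : σ), Pb p → 0 < ρ → (∀ u, (A u).card ≤ w) →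
  (∀ u, ∀ y ∈ A u, Mg s p m u y) →
  EV s p A (cS s p m ρ) 0 n t x ≤ (K + 1) ^ 2 / c * ρ ^ 2 * (1 + 8 * EV s p A (cN s p m ρ) 0 n t x)

/-- **Pnt** (pointwise inequality). Uses: nothing. MODEL: RB/Pnt.lean. `θ = 1 + 1/(48C) ≤ 49/48`.
Proof. `P = 1 + (θ - 1) ∑_{k ≤ N0, d ≤ 2^(-k)} θ^k = θ^(κ+1)` where `0, .., κ` are the `k ≤ N0` with `d ≤ 2^(-k)` (`0 < d ≤ 1`). (1): if `κ = N0` the left side is `0`; otherwise `d > 2^(-κ-1)` and it is `8 C d ∑_{k=κ+1}^{N0} (θ/2)^k ≤ 8 C d * 3 (θ/2)^(κ+1) ≤ 24 C d^2 P` (`1/(1 - θ/2) ≤ 3`, `2^(-κ-1) ≤ d`).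
`∑ θ^k [d ≤ 2^(-k)] d^2 = d^2 (P - 1)/(θ - 1) = 48 C d^2 (P - 1)`, so `24 C d^2 P = 24 C d^2 + (1/2) 48 C d^2 (P - 1)`. (2) as in RB: the right side is `d^2 P + 2^(-N0)`. (3) `θ/4 ≤ 1/3`, `θ/2 ≤ 2/3`. (4) `1 < θ ≤ sqrt 2`. -/
def S_Pnt : Prop := ∀ (C : ℝ), 1 ≤ C → ∀ (θ : ℝ), θ = 1 + 1 / (48 * C) → ∀ (N0 : ℕ),
  (∀ d : ℝ, 0 ≤ d → d ≤ 1 →
    8 * C * ∑ k ∈ range (N0 + 1), (θ / 2) ^ k * (if d ≤ (1 / 2) ^ k then 0 else d) ≤
      1 / 2 * ∑ k ∈ range (N0 + 1), θ ^ k * (if d ≤ (1 / 2) ^ k then d ^ 2 else 0) + 24 * C * d ^ 2) ∧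
  (∀ d : ℝ, 0 ≤ d → d ≤ 1 → d ^ (2 - Real.logb 2 θ) ≤
      d ^ 2 + 1 / (48 * C) * ∑ k ∈ range (N0 + 1), θ ^ k * (if d ≤ (1 / 2) ^ k then d ^ 2 else 0) + (1 / 2) ^ N0) ∧
  ∑ k ∈ range (N0 + 1), (θ / 4) ^ k ≤ 3 / 2 ∧ ∑ k ∈ range (N0 + 1), (θ / 2) ^ k ≤ 3 ∧
  0 < Real.logb 2 θ ∧ Real.logb 2 θ ≤ 1 / 2

/-- **Var** (variation of order less than 2). Uses: S_All, S_Exc, S_Pnt. MODEL: RB/Var.lean.
Proof. `K, c` from S_All, `D = (K+1)^2/c ≥ 4`, `θ = 1 + 1/(48D)`, `ε = logb 2 θ`, `C = 20 D`. Put `d u y = |al s m u y| / b`, `v = vv p u y`, `L = EV (cN s p m b) = EV (v (if 1 < d then d else 0))`. S_Exc with `ρ = b 2^(-k)`, divided by `b^2`: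
`s_k := EV (v (if d ≤ 2^(-k) then d^2 else 0)) ≤ D 4^(-k) (1 + 8 2^k EV (v (if 2^(-k) < d ≤ 1 then d else 0)) + 8 2^k L)`; `k = 0`: `s_0 ≤ D (1 + 8 L)`. Multiply by `θ^k`, sum over `k ≤ N0`: with `a1 = EV (v ∑_k θ^k (if d ≤ 2^(-k) then d^2 else 0))`:
`a1 ≤ D ∑ (θ/4)^k + 8 D ∑ (θ/2)^k L + EV (v 8 D ∑_k (θ/2)^k (if d ≤ 2^(-k) then 0 else d) [d ≤ 1]) ≤ (3/2) D + 24 D L + a1/2 + 24 D s_0` (S_Pnt (1) for `d ≤ 1`; for `d > 1` all the terms are `0`), so `a1 ≤ 432 D^2 (1 + L)`.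
S_Pnt (2): `EV (v d^(2-ε) [d ≤ 1]) ≤ s_0 + a1/(48 D) + n 2^(-N0) ≤ 17 D (1 + L) + n 2^(-N0)`, for all `N0`; so it is `≤ 20 D (1 + L)`. `|al|^(2-ε) = b^(2-ε) d^(2-ε)`. -/
def S_Var : Prop := ∀ w : ℕ, 1 ≤ w → ∃ ε C : ℝ, 0 < ε ∧ ε ≤ 1 / 2 ∧ 1 ≤ C ∧ VR w ε C

end Pool.Agent.MP3145b1.RC
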