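import Pool.Agent.Lib.MP_3145b1_co.RC.Def
import Pool.Agent.Lib.MP_3145b1_co.Q.Main

/-!
# MP_3145b1_co, project RC: read-once compositions, final statement (architect helper95)

The cube is `Fin N → Bool`; `coeff`, `influence`, `specEntropy` as in Cube.lean, EFin.lean; `Q.mean`, `Q.parseval`,
`Q.coeff_mean`, `Q.coeff_zero`, `Q.sgn_mix`, `Q.mean_avg` (Q/Avg.lean) are useful. The blocks are `P i`, `i : ℕ`
(pairwise disjoint sets of variables), and `u i` is a function with values `1`, `-1` of the variables in `P i`;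
the bit number `i` of the program is `true` if `u i y = -1`.
-/

set_option autoImplicit false

namespace Pool.Agent.MP3145b1.RC

open Finset Pool.Agent.MP3145b1

/-! ## Definitions -/

/-- `g` depends only on the variables in `P` -/
def Dp {N : ℕ} (P : Finset (Fin N)) (g : (Fin N → Bool) → ℝ) : Prop :=
  ∀ x y : Fin N → Bool, (∀ a ∈ P, x a = y a) → g x = g y

/-- pairwise disjoint blocks `P i` and functions `u i` with values `1`, `-1` of the variables in `P i` -/
def Cp {N : ℕ} (P : ℕ → Finset (Fin N)) (u : ℕ → (Fin N → Bool) → ℝ) : Prop :=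
  (∀ i j, i ≠ j → Disjoint (P i) (P j)) ∧ (∀ i, Dp (P i) (u i)) ∧ (∀ i x, u i x = 1 ∨ u i x = -1)

/-- probability that `u i = 1` -/
noncomputable def pb {N : ℕ} (u : ℕ → (Fin N → Bool) → ℝ) (i : ℕ) : ℝ := (1 + coeff (u i) ∅) / 2

open Classical in
/-- the function computed from the state `x` at time `t` with `k` steps -/
noncomputable def Fs {w N : ℕ} (s : ℕ → Fin w → Bool → Fin w) (v : ℕ → Fin w → ℕ) (o : Fin w → ℝ)
    (u : ℕ → (Fin N → Bool) → ℝ) : ℕ → ℕ → Fin w → (Fin N → Bool) → ℝ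
  | 0, _, x, _ => o x
  | k + 1, t, x, y => if u (v t x) y = -1 then Fs s v o u k (t + 1) (s t x true) y
      else Fs s v o u k (t + 1) (s t x false) y

/-- the blocks which meet `S` -/
def TT {N : ℕ} (P : ℕ → Finset (Fin N)) (M : ℕ) (S : Finset (Fin N)) : Finset ℕ :=
  (range M).filter (fun i => (S ∩ P i).Nonempty)

/-- product over the blocks which meet `S` (`0` if `S` is not contained in the union of the blocks) -/
noncomputable def Lp {N : ℕ} (P : ℕ → Finset (Fin N)) (M : ℕ) (ψ : ℕ → Finset (Fin N) → ℝ)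
    (S : Finset (Fin N)) : ℝ :=
  if S ⊆ (range M).biUnion P then ∏ i ∈ TT P M S, ψ i (S ∩ P i) else 0

/-- the state at time `i` of the path with the bits `b` -/
def path {w : ℕ} (s : ℕ → Fin w → Bool → Fin w) (x0 : Fin w) (b : ℕ → Bool) : ℕ → Fin w
  | 0 => x0
  | i + 1 => s i (path s x0 b i) (b i)

/-- on every path from `x0` of length `n` each variable is read at most once -/
def ReadOnce {w : ℕ} (s : ℕ → Fin w → Bool → Fin w) (v : ℕ → Fin w → ℕ) (n : ℕ) (x0 : Fin w) : Prop :=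
  ∀ (b : ℕ → Bool) (i j : ℕ), i < j → j < n → v i (path s x0 b i) ≠ v j (path s x0 b j)

/-- the state at time `i` of the computation with the input `y`: in the state `x` at time `i` the
program reads the bit `y (v i x)` -/
def run {w : ℕ} (s : ℕ → Fin w → Bool → Fin w) (v : ℕ → Fin w → ℕ) (x0 : Fin w) (y : ℕ → Bool) : ℕ → Fin w
  | 0 => x0
  | i + 1 => s i (run s v x0 y i) (y (v i (run s v x0 y i)))

/-- **Read-once compositions of branching programs of width `w`**: the smallest class of functions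
`(Fin N → Bool) → {1, -1}` which contains the constants and the variables, and with functions `u i`
(`i : ℕ`) of pairwise disjoint sets `P i` of variables also every function which is computed by a
read-once branching program with `w` states per level whose nodes read the values of the `u i`:
in the state `x` at time `t` the program evaluates `u (v t x)` and goes to the state
`s t x b` at time `t + 1` (`b` is `true` iff the value is `-1`); after `n` steps the output is `-1` if the state is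
in the set `o`; on every path from the initial state `x0` each of the functions is evaluated at most once. -/
inductive RO (w : ℕ) {N : ℕ} : ((Fin N → Bool) → ℝ) → Prop
  | const (c : Bool) : RO w (fun _ => if c then -1 else 1)
  | var (a : Fin N) : RO w (fun x => if x a then -1 else 1)
  | comp (P : ℕ → Finset (Fin N)) (u : ℕ → (Fin N → Bool) → ℝ)
      (hP : ∀ i j, i ≠ j → Disjoint (P i) (P j)) (hd : ∀ i, Dp (P i) (u i)) (hu : ∀ i, RO w (u i))
      (n : ℕ) (s : ℕ → Fin w → Bool → Fin w) (v : ℕ → Fin w → ℕ) (x0 : Fin w) (o : Fin w → Bool)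
      (hr : ReadOnce s v n x0) :
      RO w (fun x => if o (run s v x0 (fun i => decide (u i x = -1)) n) then -1 else 1)

/-- the pivotal sum of the variable `i` -/
noncomputable def Qi {w : ℕ} (s : ℕ → Fin w → Bool → Fin w) (v : ℕ → Fin w → ℕ) (p : ℕ → ℝ) (o : Fin w → ℝ)
    (n M : ℕ) (x : Fin w) (i : ℕ) : ℝ :=
  ∑ T ∈ (range M).powerset.filter (fun T => i ∉ T), wt p T * Cf s v p o (insert i T) n 0 x ^ 2

/-! ## Statements -/

/-- **Prd** (product of functions of disjoint sets of variables). Uses: nothing.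
Proof. (1) Independence: if `Dp P g` and `Dp Q h`, `P`, `Q` disjoint, then `Q.mean (g h) = Q.mean g * Q.mean h` (`Q.mean φ = (∑ x, φ x)/2^N`). The map `(x, y) ↦ (x', y')` with `x' = x` on `P`, `y` off `P` and `y' = y` on `P`, `x` off `P` is an involution of pairs; `g x' = g x`, `h y' = h x`, so
`∑_{x,y} g x * h y = ∑_{x,y} g x' * h y' = ∑_{x,y} g x * h x = 2^N ∑_x g x * h x`. (2) `coeff (g h) S = mean (g h sgn_S)` (Q.coeff_mean), `sgn x S = sgn x (S ∩ P) * sgn x (S \ P)`; `g * sgn_(S ∩ P)` depends only on `P`, `h * sgn_(S \ P)` only on `Q ∪ (S \ P)`, which is disjoint from `P`.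
(3) `Q.coeff_zero` for an `a ∈ S`, `a ∉ P`. -/
def S_Prd : Prop := (∀ (N : ℕ) (P Q : Finset (Fin N)) (g h : (Fin N → Bool) → ℝ), Disjoint P Q → Dp P g → Dp Q h →
    ∀ S : Finset (Fin N), coeff (fun x => g x * h x) S = coeff g (S ∩ P) * coeff h (S \ P)) ∧
  (∀ (N : ℕ) (P : Finset (Fin N)) (g : (Fin N → Bool) → ℝ), Dp P g → ∀ S : Finset (Fin N), ¬ S ⊆ P → coeff g S = 0)

/-- **Smm** (sum over the sets with given blocks). Uses: nothing.
Proof. Induction on `M` (for all `φ`). `M = 0`: both sides are `φ ∅` (`Lp S = 0` unless `S = ∅`, empty product). `M + 1`: the terms with `S ⊆ (range (M+1)).biUnion P` only; `S = S' ∪ R` with `S' ⊆ (range M).biUnion P`, `R ⊆ P M` (disjoint): a bijection of the sets `S` with the pairs (`S' = S \ P M`, `R = S ∩ P M`; Finset.sum_bij' or Finset.sum_nbij').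
If `R = ∅`: `TT P (M+1) S = TT P M S'`; if `R ≠ ∅`: `TT P (M+1) S = insert M (TT P M S')`, `S ∩ P i = S' ∩ P i` for `i < M`, `Lp (M+1) S = ψ M R * Lp M S'`. So the left side is `LHS_M(φ) + (∑_{R ≠ ∅} ψ M R) LHS_M(φ (insert M ·))`, and the right side satisfies the same recursion (sum over `(range (M+1)).powerset`:
Finset.sum_powerset_insert, Finset.range_add_one). -/
def S_Smm : Prop := ∀ (N M : ℕ) (P : ℕ → Finset (Fin N)), (∀ i j, i ≠ j → Disjoint (P i) (P j)) →
  ∀ (ψ : ℕ → Finset (Fin N) → ℝ) (φ : Finset ℕ → ℝ),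
  ∑ S : Finset (Fin N), Lp P M ψ S * φ (TT P M S) =
    ∑ T ∈ (range M).powerset, (∏ i ∈ T, ∑ R ∈ (P i).powerset.erase ∅, ψ i R) * φ T

/-- **Cfo** (Fourier coefficients of a composition). Uses: S_Prd.
Proof. Induction on `k`. `k = 0`: constant function `o x`; `S = ∅`: `o x = 1 * o x` (`TT = ∅`); `S ≠ ∅`: the coefficient is `0` (S_Prd (2) with `P = ∅`), and either `S` is not contained in the union (`Lp = 0`) or `TT P M S ≠ ∅`, `Cf = 0`. `k + 1`, `i = v t x`, `g_b = Fs k (t+1) (s t x b)`: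
`Fs (k+1) t x y = (1/2) (g_false + g_true) + (1/2) u i y (g_false - g_true)` (values of `u i` are `1`, `-1`). `g_b` depends only on `(rd s v k (t+1) (s t x b)).biUnion P` (easy induction), and `i ∉ rd ..` (Ro), so on a set disjoint from `P i`. S_Prd (1): `coeff (u i * g_b) S = coeff (u i) (S ∩ P i) * coeff g_b (S \ P i)`.
Case `S ∩ P i = ∅` (`i ∉ TT P M S`): `coeff = pb i * coeff g_false S + (1 - pb i) * coeff g_true S`, induction, Cf. Case `S ∩ P i ≠ ∅` (`i ∈ TT`, as `i < M`): `coeff g_b S = 0` (S_Prd (2)), so `coeff = coeff (u i) (S ∩ P i) * (coeff g_false S' - coeff g_true S')/2`, `S' = S \ P i`; `TT P M S' = (TT P M S).erase i`,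
`S' ∩ P j = S ∩ P j` for `j ≠ i`, `Lp S = coeff (u i) (S ∩ P i) * Lp S'` (Finset.mul_prod_erase; `S' ⊆ ∪ ↔ S ⊆ ∪`). -/
def S_Cfo : Prop := ∀ (w N M n : ℕ) (s : ℕ → Fin w → Bool → Fin w) (v : ℕ → Fin w → ℕ) (o : Fin w → ℝ)
  (P : ℕ → Finset (Fin N)) (u : ℕ → (Fin N → Bool) → ℝ), Cp P u → (∀ t x, v t x < M) → Ro s v n →
  ∀ k t, t + k = n → ∀ (x : Fin w) (S : Finset (Fin N)),
    coeff (Fs s v o u k t x) S = Lp P M (fun i R => coeff (u i) R) S * Cf s v (pb u) o (TT P M S) k t x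

/-- **Vsm** (sums over the nonempty subsets of a block). Uses: S_Prd.
Proof. `coeff (u i) S = 0` if `S` is not contained in `P i` (S_Prd (2)), so the sum of any function `F S` with `F S = 0` if `coeff (u i) S = 0` over all `S` (or all `S ≠ ∅`) is the sum over `(P i).powerset` (or `.erase ∅`). Parseval (Q.parseval, `u^2 = 1`): `∑_S coeff^2 = 1`; `1 - c^2 = 4 ((1+c)/2) (1 - (1+c)/2)` for `c = coeff (u i) ∅`, and `|c| ≤ 1`.
`hh 0 = 0`. The term of `S = ∅` in `influence` is `0`. -/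
def S_Vsm : Prop := ∀ (N : ℕ) (P : ℕ → Finset (Fin N)) (u : ℕ → (Fin N → Bool) → ℝ), Cp P u → ∀ i,
  (0 ≤ pb u i ∧ pb u i ≤ 1) ∧ 4 * (pb u i * (1 - pb u i)) = 1 - coeff (u i) ∅ ^ 2 ∧
  ∑ R ∈ (P i).powerset.erase ∅, coeff (u i) R ^ 2 = 4 * (pb u i * (1 - pb u i)) ∧
  ∑ R ∈ (P i).powerset.erase ∅, hh (coeff (u i) R ^ 2) = ∑ S ∈ (univ : Finset (Finset (Fin N))).erase ∅, hh (coeff (u i) S ^ 2) ∧
  ∑ R ∈ (P i).powerset.erase ∅, (R.card : ℝ) * coeff (u i) R ^ 2 = influence (u i)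

/-- **Hpr** (product rule for `hh`). Uses: nothing.
Proof. `hh (a * b) = b * hh a + a * hh b` for all reals (Real.negMulLog_mul). Induction on `T` (Finset.induction_on): `(insert i T).erase j = insert i (T.erase j)` for `j ∈ T`, `(insert i T).erase i = T`. -/
def S_Hpr : Prop := ∀ (T : Finset ℕ) (a : ℕ → ℝ), hh (∏ i ∈ T, a i) = ∑ i ∈ T, hh (a i) * ∏ j ∈ T.erase i, a j

/-- **Fml** (entropy and influence of a composition). Uses: S_Smm, S_Cfo, S_Vsm, S_Hpr.
Proof. `p = pb u`, `f = Fs s v o u n 0 x`, `a_i(S) = coeff (u i) (S ∩ P i)^2`, `c_T = Cf s v p o T n 0 x`. S_Cfo (`k = n`, `t = 0`): `coeff f S = Lp S * c_(TT S)`. General fact (G): for `θ : ℕ → Finset (Fin N) → ℝ`, if `S ⊆ (range M).biUnion P`: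
put `L_i(S) = θ i (S ∩ P i) * ∏ j ∈ (TT S).erase i, a_j(S)` for `i ∈ TT S`; then `∑_S [S ⊆ ∪, i ∈ TT S] L_i(S) c_(TT S)^2 = (∑_{R ∈ (P i).powerset.erase ∅} θ i R) * Qi .. i` for `i < M`: S_Smm with `ψ j R = if j = i then θ i R else coeff (u j) R^2` and `φ T = if i ∈ T then c_T^2 else 0`, then the sum over the `T ∋ i` is the sum over `T = insert i T'`, `i ∉ T'`, and
`∏ j ∈ T' of 4 p_j (1 - p_j) = wt p T'` (S_Vsm). (4) `coeff f ∅ = c_∅`. (1): `hh (Lp^2 c^2) = Lp^2 hh (c^2) + c^2 hh (Lp^2)` (Real.negMulLog_mul), `hh (∏ a_i) = ∑_{i ∈ TT} hh (a_i) ∏_{j ≠ i} a_j` (S_Hpr); the first sum is S_Smm with `ψ i R = coeff (u i) R^2`, `φ T = hh (c_T^2)`; the second is (G) with `θ i R = hh (coeff (u i) R^2)`, exchanging the sums over `S` and `i`.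
(2): for `S ⊆ ∪`: `S.card = ∑_{i ∈ TT S} (S ∩ P i).card` (disjoint union), (G) with `θ i R = R.card * coeff (u i) R^2`. (3): `∑_T |T| wt T c_T^2 = ∑_{i<M} ∑_{T ∋ i} wt T c_T^2`, `T = insert i T'`, wt_insert. -/
def S_Fml : Prop := ∀ (w N M n : ℕ) (s : ℕ → Fin w → Bool → Fin w) (v : ℕ → Fin w → ℕ) (o : Fin w → ℝ) (x : Fin w)
  (P : ℕ → Finset (Fin N)) (u : ℕ → (Fin N → Bool) → ℝ), Cp P u → (∀ t x, v t x < M) → Ro s v n →
  (∑ S : Finset (Fin N), hh (coeff (Fs s v o u n 0 x) S ^ 2) =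
    ∑ T ∈ (range M).powerset, wt (pb u) T * hh (Cf s v (pb u) o T n 0 x ^ 2) +
      ∑ i ∈ range M, (∑ S ∈ (univ : Finset (Finset (Fin N))).erase ∅, hh (coeff (u i) S ^ 2)) * Qi s v (pb u) o n M x i) ∧
  (influence (Fs s v o u n 0 x) = ∑ i ∈ range M, influence (u i) * Qi s v (pb u) o n M x i) ∧
  (∑ T ∈ (range M).powerset, (T.card : ℝ) * (wt (pb u) T * Cf s v (pb u) o T n 0 x ^ 2) =
    ∑ i ∈ range M, 4 * (pb u i * (1 - pb u i)) * Qi s v (pb u) o n M x i) ∧
  coeff (Fs s v o u n 0 x) ∅ = Cf s v (pb u) o ∅ n 0 x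

/-- **Piv** (derivative and pivotal probability). Uses: S_Smm, S_Cfo, S_Vsm.
Proof. `t < n`, `k = n - (t+1)`, `g_b = Fs s v o u k (t+1) (s t z b)` (values `1`, `-1`), `h = (g_false - g_true)/2` has values `0, 1, -1`. S_Cfo: `coeff h S = Lp S * (Cf (TT S) k (t+1) (s t z false) - Cf (TT S) k (t+1) (s t z true))/2 = Lp S * Om .. (TT S) t z`. Parseval (Q.parseval): `mean (h^2) = ∑_S (Lp S)^2 Om_(TT S)^2`
`= ∑ T ∈ (range M).powerset, wt T Om_T^2` (S_Smm with `ψ i R = coeff (u i) R^2`; `(Lp (coeff) S)^2 = Lp (coeff^2) S`; S_Vsm), and the terms with `v t z ∈ T` vanish (Cf_child), so this is `J1`. `|Om ∅| = |coeff h ∅| = |mean h| ≤ mean |h| = mean (h^2)` (`|h| = h^2`). -/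
def S_Piv : Prop := ∀ (w N M n : ℕ) (s : ℕ → Fin w → Bool → Fin w) (v : ℕ → Fin w → ℕ) (o : Fin w → ℝ)
  (P : ℕ → Finset (Fin N)) (u : ℕ → (Fin N → Bool) → ℝ), Cp P u → (∀ t x, v t x < M) → Ro s v n →
  (∀ z, o z = 1 ∨ o z = -1) → ∀ t z, t < n → |Om s v (pb u) o n ∅ t z| ≤ J1 s v (pb u) o n M t z

/-- **Cmp** (the sharp entropy inequality is preserved by composition). Uses: S_Vsm, S_Fml, S_Piv.
Proof. `f = Fs s v o u n 0 x`, `E_i = ∑_{S ≠ ∅} hh (coeff (u i) S^2) ≤ K (I_i - V_i)`, `I_i = influence (u i)`, `V_i = 1 - coeff (u i) ∅^2 = 4 p_i (1 - p_i)`. S_Fml, PG (S_Piv, S_Vsm (1)) and `Qi ≥ 0` (wt_nonneg): `∑_S hh (coeff f S^2) ≤ hh (c_∅^2) + K (∑_i V_i Qi - (1 - c_∅^2)) + ∑_i K (I_i - V_i) Qi = hh (c_∅^2) + K (influence f - (1 - c_∅^2))`, and `coeff f ∅ = c_∅`. -/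
def S_Cmp : Prop := ∀ (w : ℕ) (K0 K : ℝ), PG w K0 → K0 ≤ K → ∀ (N M n : ℕ) (s : ℕ → Fin w → Bool → Fin w) (v : ℕ → Fin w → ℕ)
  (o : Fin w → ℝ) (x : Fin w) (P : ℕ → Finset (Fin N)) (u : ℕ → (Fin N → Bool) → ℝ), Cp P u → (∀ t x, v t x < M) → Ro s v n →
  (∀ z, o z = 1 ∨ o z = -1) →
  (∀ i, ∑ S ∈ (univ : Finset (Finset (Fin N))).erase ∅, hh (coeff (u i) S ^ 2) ≤ K * (influence (u i) - (1 - coeff (u i) ∅ ^ 2))) →
  ∑ S ∈ (univ : Finset (Finset (Fin N))).erase ∅, hh (coeff (Fs s v o u n 0 x) S ^ 2) ≤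
    K * (influence (Fs s v o u n 0 x) - (1 - coeff (Fs s v o u n 0 x) ∅ ^ 2))

/-- **Fix** (read-once at all nodes). Uses: nothing.
Proof. `M0` = 1 + the maximum of `v t x` for `t < n`, `x : Fin w` (finite; e.g. a Finset.sup over `range n ×ˢ univ`). `reach t x := ∃ b, path s x0 b t = x`. `v' t x = if t < n then (if reach t x then v t x else M0 + t) else 0`, `M = M0 + n + 1`. (a) `v' t x < M`. (b) `Ro s v' n`: let `t < n`, `a ∈ rd s v' (n - (t+1)) (t+1) (s t x b)`; claim: every element `a` of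
`rd s v' k t' x'` (`t' + k = n`) is `v' j y` with `t' ≤ j < n` and `y` reachable from `x'` (there are bits `β` such that the path from `x'` at time `t'` is at `y` at time `j`). If `x` is reachable at time `t`, by the path of `b'`, then glue: bits `b'` before `t`, `b` at `t`, then `β`: `path` is at `x` at time `t` and at `y` at time `j`; `v' t x = v t x`, `v' j y = v j y`, and ReadOnce gives `≠`.
If `x` is not reachable: `v' t x = M0 + t`, and `a = v' j y` is either `< M0` or `M0 + j` with `j > t`. (c) `run s v' x0 y' i = run s v x0 y i` for `i ≤ n` if `y = y'` below `M0`: the state `run s v x0 y i` is reachable (path with the bits `y (v i (run i))`), so `v' i (run i) = v i (run i) < M0` for `i < n`. -/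
def S_Fix : Prop := ∀ (w n : ℕ) (s : ℕ → Fin w → Bool → Fin w) (v : ℕ → Fin w → ℕ) (x0 : Fin w), ReadOnce s v n x0 →
  ∃ (M0 M : ℕ) (v' : ℕ → Fin w → ℕ), (∀ t x, v' t x < M) ∧ Ro s v' n ∧
    ∀ y y' : ℕ → Bool, (∀ i, i < M0 → y i = y' i) → run s v' x0 y' n = run s v x0 y n

/-- **Clo** (the sharp entropy inequality for the class `RO w`). Uses: S_Cmp, S_Fix.
Proof. Induction on `RO w f` (prove at the same time: all values are `1` or `-1`). const: `coeff = 0` at `S ≠ ∅`, `coeff ∅ = ± 1`, `influence = 0`: `0 ≤ K * 0` (S = ∅ has card 0). var `a`: `coeff f S = 1` if `S = {a}`, `0` otherwise (e.g. Parseval and `coeff f {a} = mean 1 = 1`); `hh 1 = 0`, `influence = 1`: `0 ≤ K (1 - 1)`.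
comp: `M0, M, v'` from S_Fix; `u' i = if i < M0 then u i else (fun _ => 1)`, `P' i = if i < M0 then P i else ∅`, `Cp P' u'`; the sharp inequality holds for `u' i` (constant function: as above). `f y = Fs s v' O u' n 0 x0 y` with `O z = if o z then -1 else 1`: first `Fs s v' O u' n 0 x0 y = O (run s v' x0 (fun i => decide (u' i y = -1)) n)`
(generalise to a run of `k` steps from the state `x` at time `t`, or prove `Fs (n - i) i (run .. i) y` does not depend on `i ≤ n`, by induction on `i`), then S_Fix. S_Cmp. -/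
def S_Clo : Prop := ∀ (w : ℕ) (K0 K : ℝ), PG w K0 → K0 ≤ K → 1 ≤ K → ∀ (N : ℕ) (f : (Fin N → Bool) → ℝ), RO w f →
  (∀ x, f x = 1 ∨ f x = -1) ∧
  ∑ S ∈ (univ : Finset (Finset (Fin N))).erase ∅, hh (coeff f S ^ 2) ≤ K * (influence f - (1 - coeff f ∅ ^ 2))

/-- **Fin** (final statement). Uses: S_Clo.
Proof. `K = max K0 1`, `C = K / log 2`. `coeff^2 * logb 2 (1/coeff^2) = hh (coeff^2) / log 2` (also for `coeff = 0`). (1) is S_Clo divided by `log 2`. (2): `specEntropy f * log 2 = hh (c^2) + ∑_{S ≠ ∅} hh (coeff f S ^2) ≤ (1 - c^2) + K (influence f - (1 - c^2)) ≤ K * influence f` with `c = coeff f ∅` (`hh t ≤ 1 - t` for `t ≥ 0`: Real.one_sub_inv_le_log_of_pos or `log (1/t) ≤ 1/t - 1`; `1 - c^2 ≥ 0` by Parseval, `K ≥ 1`).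
(3): `Q.large` with `B = C * influence f`. -/
def S_Fin : Prop := ∀ (w : ℕ) (K0 : ℝ), PG w K0 → ∃ C : ℝ, 0 < C ∧ ∀ (N : ℕ) (f : (Fin N → Bool) → ℝ), RO w f →
  ∑ S ∈ (univ : Finset (Finset (Fin N))).erase ∅, coeff f S ^ 2 * Real.logb 2 (1 / coeff f S ^ 2) ≤
    C * (influence f - (1 - coeff f ∅ ^ 2)) ∧
  specEntropy f ≤ C * influence f ∧ ∃ S : Finset (Fin N), (2 : ℝ) ^ (-(C * influence f / 2)) ≤ |coeff f S|

end Pool.Agent.MP3145b1.RC
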