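import Pool.Agent.Lib.MP_3145b1_co.RC.Def

/-!
# MP_3145b1_co, project RC, martingale part (helper45): statements which only use `VR` and `EV`

RULES. Module X: file Pool/Agent/Lib/MP_3145b1_co/RC/X.lean, `import Pool.Agent.Lib.MP_3145b1_co.RC.SpecM`,
`set_option autoImplicit false`, `namespace Pool.Agent.MP3145b1.RC`, `open Finset`, final theorem `theorem rX (h1 : S_A) ... : S_X`
(the statements under Uses, in this order, are the hypotheses). Auxiliary lemmas private, names X_. READ FIRST: RC/Def.lean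
(EV_mem, EV_not, EV_le, EV_mono, EV_add0, EV_mul0, EV_nonneg, avg_mono, Mg.child, Mg.sq, vv_nonneg).
`EV s p A c q n t x` = expected cost `c` and payoff `q` of the walk with at most `n` steps that stops outside `A`; the bit is
`false` with probability `p t x`. Below `α z = |al s m v z|`, `e z = vv p v z * al s m v z ^ 2`, and `avg g` at `z` is
`p * g (child false) + (1 - p) * g (child true)`. Comparisons are inductions on the number of steps.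
-/

set_option autoImplicit false

namespace Pool.Agent.MP3145b1.RC

open Finset

/-- **MSq** (energy). Uses: nothing.
Proof. Induction on `n` (for all `t, x`): `x ∉ A t` or `n = 0`: `0 = m^2 - m^2`. Otherwise `avg m^2 = (m x)^2 + e x` (Mg.sq with `a = 0`). -/
def S_MSq : Prop := ∀ (σ : Type) (s : ℕ → σ → Bool → σ) (p : ℕ → σ → ℝ) (m : ℕ → σ → ℝ) (A : ℕ → Finset σ)
  (n t : ℕ) (x : σ), (∀ u, ∀ y ∈ A u, Mg s p m u y) →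
  EV s p A (fun u y => vv p u y * al s m u y ^ 2) 0 n t x = EV s p A 0 (fun u y => m u y ^ 2) n t x - m t x ^ 2

/-- **MF3** (variation against the second moment). Uses: nothing. MODEL: RBA/F3.lean (unbiased).
Proof. `F n u y` = the left EV at `(u, y)`, `Q n u y = EV s p A 0 (m^2) n u y`. Claim: `F n u y ≤ 16 C Q n u y - 10 C (m u y)^2` for all `u, y`; strong induction on `n` (outer induction).
`y ∉ A u` or `n = 0`: `F = 0`, `Q = m^2`. Let `y ∈ A u`, `n = n' + 1`, `a = |m u y|`. If `a = 0` the cost is `0` (`0^ε = 0`) and `F n = avg F n' ≤ avg (16 C Q n' - 10 C m^2) ≤ 16 C Q n - 10 C (m u y)^2` (Mg.sq).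
Let `a > 0`, `R v = (A v).filter (fun z => |m v z - m u y| < a/2)` (so `a/2 < |m v z| < 3a/2` for `z ∈ R v`), `λ = (3a/2)^ε ≤ (3/2) a^ε`,
`E1 k v z = EV s p R (fun _ z => if α z ≤ a then λ * cP s p m ε v z else 0) 0 k v z`, `E2 k v z = EV s p R (fun _ z => if α z ≤ a then 0 else (3/2) C e z) 0 k v z`.
Inner claim, for all `k ≤ n`, `v`, `z` with (`z ∈ R v` or `k < n`): `F k v z ≤ E1 k v z - E2 k v z + 16 C Q k v z - 10 C (m v z)^2 - 6 C (a^2/4 - (m v z - m u y)^2)`. Induction on `k`.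
 `z ∈ R v`, `k = 0`: `F = E1 = E2 = 0`, `Q = m^2`, `6 C (m v z)^2 ≥ 6 C a^2/4`. `z ∈ R v`, `k + 1`: the claim for both children (`k < n`), `avg m^2 = (m v z)^2 + e z`, `avg (m - m u y)^2 = (m v z - m u y)^2 + e z` (Mg.sq); what remains is
 `cost z ≤ (cost of E1 at z) - (cost of E2 at z) + 10 C e z - 6 C e z`: if `α z ≤ a`: `cost z = vv α^(2-ε) |m|^ε ≤ λ cP`. If `α z > a`: `|m v z| < (3/2) α z`, so `cost z ≤ vv ((3/2) α z)^2 = (9/4) e z` (rpow: `(α)^(2-ε) (|m|)^ε ≤ M^(2-ε) M^ε = M^2`, `M = (3/2) α`), and `9/4 + (3/2) C + 6 C ≤ 10 C`.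
 `z ∉ R v`, `k < n` (`E1 = E2 = 0`): if `a/2 ≤ |m v z - m u y|`: the last term is `≥ 0`, outer induction. Otherwise `z ∉ A v`: `F = 0`, `Q = m^2`, `a/2 < |m v z|`, as above.
For `k = n`, `z = y`: `F n u y ≤ E1 - E2 + 16 C Q - 10 C a^2 - (3/2) C a^2`, and VR for `R`, `b = a`: `E1 ≤ λ C a^(2-ε) (1 + EV s p R (cN s p m a)) ≤ (3/2) C a^2 + E2`, because `(3/2) C a^2 * (vv α / a) ≤ (3/2) C e` for `α > a` (EV_mul0, EV_mono). -/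
def S_MF3 : Prop := ∀ (w : ℕ) (ε C : ℝ), 0 < ε → ε ≤ 1 / 2 → 1 ≤ C → VR w ε C → ∀ (σ : Type) (s : ℕ → σ → Bool → σ)
  (p : ℕ → σ → ℝ) (m : ℕ → σ → ℝ) (A : ℕ → Finset σ) (n t : ℕ) (x : σ), Pb p → (∀ u, (A u).card ≤ w) →
  (∀ u, ∀ y ∈ A u, Mg s p m u y) →
  EV s p A (fun u y => vv p u y * (|al s m u y| ^ (2 - ε) * |m u y| ^ ε)) 0 n t x ≤
    16 * C * EV s p A 0 (fun u y => m u y ^ 2) n t x

/-- **MJn** (Jensen gap of `m sqrt m`). Uses: nothing.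
Proof. `X = sqrt x`, `Y = sqrt y`, `m = p x + (1-p) y`, `M = sqrt m`, `H = max X Y = sqrt (max x y) > 0`, `M ≤ H`. For `u ∈ {X, Y}`: `u^3 - M^3 - (3/2) M (u^2 - M^2) = (u - M)^2 (2u + M)/2` and
`(u^2 - M^2)^2 = (u - M)^2 (u + M)^2 ≤ (u - M)^2 (u + M) 2 H`, so `(1/4)(u^2 - M^2)^2 ≤ H (u - M)^2 (2u + M)/2`. Sum with the weights `p`, `1 - p`: `p (X^2 - M^2) + (1-p)(Y^2 - M^2) = 0`, `p (x - m)^2 + (1-p)(y - m)^2 = p (1-p)(x - y)^2`. -/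
def S_MJn : Prop := ∀ (p x y : ℝ), 0 ≤ p → p ≤ 1 → 0 ≤ x → 0 ≤ y →
  1 / 4 * (p * (1 - p) * (x - y) ^ 2) ≤ Real.sqrt (max x y) *
    (p * (x * Real.sqrt x) + (1 - p) * (y * Real.sqrt y) -
      (p * x + (1 - p) * y) * Real.sqrt (p * x + (1 - p) * y))

/-- **MPs** (the bump function). Uses: nothing. `ψ m = max 0 (a^2/4 - (m - a)^2)`.
Proof. `m0 = p x + (1-p) y`, `x - m0 = (1-p)(x - y)`, `y - m0 = - p (x - y)`; `|m0 - a| < a/2`, so `ψ m0 = a^2/4 - (m0 - a)^2`. (1) `ψ ≥ a^2/4 - (. - a)^2` at `x` and `y`, average. (2) (Lip) `ψ m0 - a |m - m0| ≤ ψ m` for every `m`: if `|m - a| ≤ a/2`: `(m - a)^2 - (m0 - a)^2 = (m - m0)(m + m0 - 2a)`,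
`|m + m0 - 2a| ≤ a`; otherwise `ψ m0 = (a/2 - d)(a/2 + d) ≤ a (a/2 - d) ≤ a |m - m0|`, `d = |m0 - a|`. If `p ≥ 1/2` use (Lip) for `x` (`|x - m0| = (1-p)|x - y|`) and `ψ y ≥ 0`: average `≥ p (ψ m0 - a (1-p)|x - y|) ≥ ψ m0 - (1-p) a^2/4 - p (1-p) a |x - y|`, and `(1-p) ≤ 2 p (1-p)`,
`a^2/4 ≤ a |x - y|/4`. If `p ≤ 1/2` symmetric. Total `≥ ψ m0 - (3/2) p (1-p) a |x - y|`. -/
def S_MPs : Prop := ∀ (p x y a : ℝ), 0 ≤ p → p ≤ 1 → 0 < a → |p * x + (1 - p) * y - a| < a / 2 →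
  max 0 (a ^ 2 / 4 - (p * x + (1 - p) * y - a) ^ 2) - p * (1 - p) * (x - y) ^ 2 ≤
    p * max 0 (a ^ 2 / 4 - (x - a) ^ 2) + (1 - p) * max 0 (a ^ 2 / 4 - (y - a) ^ 2) ∧
  (a ≤ |x - y| → max 0 (a ^ 2 / 4 - (p * x + (1 - p) * y - a) ^ 2) - 3 / 2 * (p * (1 - p)) * (a * |x - y|) ≤
    p * max 0 (a ^ 2 / 4 - (x - a) ^ 2) + (1 - p) * max 0 (a ^ 2 / 4 - (y - a) ^ 2))

/-- **MFb** (variation of a martingale in `[0, 1]`). Uses: S_MJn, S_MPs.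
Proof. `φ m = m sqrt m` (`0 ≤ φ m ≤ m` on `[0,1]`). `F n u y` = the left EV at `(u, y)`. Claim: `F n u y ≤ 82 C m - 80 C φ(m)`, `m = m u y`, for all `u, y`; strong induction on `n` (outer induction). `y ∉ A u` or `n = 0`: `F = 0`.
Let `y ∈ A u`, `n = n' + 1`, `a = m u y`. `gap z = avg φ - φ(m v z) ≥ 0` (S_MJn). If `a = 0`: `p m_f = (1-p) m_t = 0`, so `vv = 0` or `α = 0`, the cost is `0` and `F n = avg F n' ≤ avg (82 C m - 80 C φ) ≤ 0`.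
Let `a > 0` (`a ≤ 1`), `R v = (A v).filter (fun z => |m v z - a| < a/2)`, `ψ m = max 0 (a^2/4 - (m - a)^2)`, `E1 k v z = EV s p R (if α z ≤ a then cP s p m ε v z else 0) 0 k v z`, `E2 k v z = EV s p R (if α z ≤ a then 0 else C vv (α z * sqrt (α z))) 0 k v z`.
Inner claim, for all `k ≤ n`, `v`, `z` with (`z ∈ R v` or `k < n`): `F k v z ≤ E1 - E2 + 82 C m - 80 C φ(m) - 4 C ψ(m)/sqrt a`, `m = m v z`. Induction on `k`.
 `z ∈ R v`, `k = 0`, or `z ∉ R v`, `z ∉ A v`, `|m - a| < a/2`: `F = E1 = E2 = 0`, `80 C φ ≤ 80 C m`, `4 C ψ/sqrt a ≤ C a sqrt a ≤ C a ≤ 2 C m`. `z ∉ A v`, `a/2 ≤ |m - a|`: `ψ = 0`. `z ∈ A v`, `z ∉ R v`, `k < n`: `ψ = 0`, outer induction.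
 `z ∈ R v`, `k + 1`: the claim for both children; what remains is `cost z + 4 C (ψ(m) - avg ψ)/sqrt a ≤ (cost of E1) - (cost of E2) + 80 C gap z`. The larger child is `≤ m + α ≤ 3a/2 + α`, so by S_MJn `gap z ≥ (1/4) e z / sqrt (3a/2 + α)` (if both children are `0`: `α = 0`, clear).
 `α ≤ a`: `sqrt (5a/2) ≤ (8/5) sqrt a`, `gap ≥ (5/32) e/sqrt a`, `80 * 5/32 ≥ 4`, `ψ - avg ψ ≤ e` (S_MPs (1)). `α > a`: `gap ≥ (5/32) vv α sqrt α`, `cost ≤ vv α sqrt α` (`α ≤ 1`, `2 - ε ≥ 3/2`), `4 C (3/2) vv a α / sqrt a ≤ 6 C vv α sqrt α` (S_MPs (2), `a < α`), and `1 + C + 6 C ≤ 80 C * 5/32`.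
For `k = n`, `z = y` (`ψ(a) = a^2/4`): `F n u y ≤ E1 - E2 + 82 C a - 80 C φ(a) - C a sqrt a`, and VR for `R`, `b = a`: `E1 ≤ C a^(2-ε) (1 + EV s p R (cN s p m a)) ≤ C a sqrt a + E2`: `a^(2-ε) ≤ a sqrt a`, and for `α > a`: `a^(2-ε) vv α/a = vv a^(1-ε) α ≤ vv α^(2-ε) ≤ vv α sqrt α`. -/
def S_MFb : Prop := ∀ (w : ℕ) (ε C : ℝ), 0 < ε → ε ≤ 1 / 2 → 1 ≤ C → VR w ε C → ∀ (σ : Type) (s : ℕ → σ → Bool → σ)
  (p : ℕ → σ → ℝ) (m : ℕ → σ → ℝ) (A : ℕ → Finset σ) (n t : ℕ) (x : σ), Pb p → (∀ u, (A u).card ≤ w) →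
  (∀ u, ∀ y ∈ A u, Mg s p m u y) → (∀ u y, 0 ≤ m u y ∧ m u y ≤ 1) →
  EV s p A (cP s p m ε) 0 n t x ≤ 82 * C * m t x

/-- **MF4** (sharp form for martingales in `[-1, 1]`). Uses: S_MSq, S_MF3, S_MFb.
Proof. `X = EV s p A 0 (|m| - m^2) n t x ≥ 0`, `en = EV s p A (vv al^2) 0 n t x ≥ 0`, `m0 = m t x`. S_MFb for `(1 - m)/2` and `(1 + m)/2` (`al` is `∓ al/2`, `|al/2|^(2-ε) ≥ |al|^(2-ε)/4`): `EV s p A (cP s p m ε) ≤ 4 * 82 C * (1 - |m0|)/2 = 164 C (1 - |m0|)`, and the cost here is `≤ cP` (`|m|^ε ≤ 1`).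
`EV s p A 0 (|m|) ≥ |m0|` (EV_ge, triangle inequality), so with S_MSq `|m0| - m0^2 ≤ X + en`. If `|m0| ≥ 1/2`: `164 C (1 - |m0|) ≤ 328 C (|m0| - m0^2)`. If `|m0| < 1/2`: S_MF3 and S_MSq: `≤ 16 C (m0^2 + en)`, `m0^2 ≤ |m0| - m0^2`. -/
def S_MF4 : Prop := ∀ (w : ℕ) (ε C : ℝ), 0 < ε → ε ≤ 1 / 2 → 1 ≤ C → VR w ε C → ∀ (σ : Type) (s : ℕ → σ → Bool → σ)
  (p : ℕ → σ → ℝ) (m : ℕ → σ → ℝ) (A : ℕ → Finset σ) (n t : ℕ) (x : σ), Pb p → (∀ u, (A u).card ≤ w) →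
  (∀ u, ∀ y ∈ A u, Mg s p m u y) → (∀ u y, |m u y| ≤ 1) →
  EV s p A (fun u y => vv p u y * (|al s m u y| ^ (2 - ε) * |m u y| ^ ε)) 0 n t x ≤
    328 * C * (EV s p A 0 (fun u y => |m u y| - m u y ^ 2) n t x +
      EV s p A (fun u y => vv p u y * al s m u y ^ 2) 0 n t x)

/-- **MTg** (tangent inequality for `k x = 2 x^2 log |x|`). Uses: nothing.
Proof. `U = 0`: `2 c^2 log |c| ≤ c^2 (4 + 2 log |c|)` (`Real.log 0 = 0`). `U ≠ 0`, `r = c/U`: the difference of the left side and the linear part is `U^2 (2 r^2 log |r| + 2 (r-1)^2 log |U| - 2 (r-1))`, the last term on the right is `U^2 (r-1)^2 (4 + 2 max (log |r|) 0 + 2 log |U|)`, so it is enough: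
(∗) `2 r^2 log |r| - 2 (r-1) ≤ (r-1)^2 (4 + 2 max (log |r|) 0)`. `r ≥ 1`, `t = r - 1`: `2 log r - 2 t + 4 t log r + 2 t^2 log r ≤ 4 t^2 + 2 t^2 log r` (`log r ≤ t`). `0 < r < 1`: `log r ≤ r - 1`, so the left side is `≤ 2 (r-1)(r^2-1) = 2 (r-1)^2 (r+1)`. `r = 0`: `2 ≤ 4`.
`r < 0`: `2 r^2 log |r| ≤ 2 (r-1)^2 max (log |r|) 0` and `- 2 (r-1) ≤ 4 (r-1)^2`. -/
def S_MTg : Prop := ∀ (c U : ℝ), 2 * c ^ 2 * Real.log |c| ≤
  2 * U ^ 2 * Real.log |U| + (4 * U * Real.log |U| + 2 * U) * (c - U) + (c - U) ^ 2 * (4 + 2 * Real.log (max |c| |U|))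

/-- **MTw** (two-point inequality with a biased coin). Uses: S_MTg.
Proof. `hh (x^2) = - 2 x^2 log |x|`. `U = p a + (1-p) b`, `δ = a - b`, `v = p (1-p)`. `δ = 0`: `dlp = 0`. `δ ≠ 0`: S_MTg for `c = a` and `c = b` with the weights `p`, `1 - p`: the linear terms cancel, `p (a - U)^2 + (1-p)(b - U)^2 = v δ^2`, `max |c| |U| ≤ |U| + |δ|` (if `max |c| |U| = 0` then `(c - U)^2 = 0`), so
`- p hh(a^2) - (1-p) hh(b^2) + hh(U^2) ≤ v δ^2 (4 + 2 log (|U| + |δ|))`; and `4 v hh (δ^2/4) = - 2 v δ^2 log (|δ|/2)`. So `dlp ≤ v δ^2 (4 + 2 log (2 + 2 r))`, `r = |U|/|δ|`. `r < 1`: `log (2 + 2r) ≤ log 4 ≤ 3/2`. `r ≥ 1`: `log (2 + 2 r) ≤ log 4 + log r ≤ 3/2 + r^ε/ε` (Real.log_le_rpow_div).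
`δ^2 r^ε = |δ|^(2-ε) |U|^ε`. -/
def S_MTw : Prop := ∀ (ε p a b : ℝ), 0 < ε → ε ≤ 1 → 0 ≤ p → p ≤ 1 →
  dlp p a b ≤ 7 * (p * (1 - p) * (a - b) ^ 2) +
    2 / ε * (p * (1 - p) * (|a - b| ^ (2 - ε) * |p * a + (1 - p) * b| ^ ε))

end Pool.Agent.MP3145b1.RC
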