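import Pool.Agent.Lib.MP_3145b1_co.RC.SpecM

/-!
# MP_3145b1_co, project RC: programs with biased bits, from the coefficients `Cf` to the inequality `PG`

RULES. Module X: file Pool/Agent/Lib/MP_3145b1_co/RC/X.lean, `import Pool.Agent.Lib.MP_3145b1_co.RC.SpecN`,
`set_option autoImplicit false`, `namespace Pool.Agent.MP3145b1.RC`, `open Finset`, final theorem `theorem rX (h1 : S_A) ... : S_X`
(the statements under Uses, in this order, are the hypotheses). Auxiliary lemmas private, names X_. READ FIRST: RC/Def.lean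
(EV lemmas; part Programs; at the end Cf_zero, Cf_child, wt_nonneg, wt_insert, pn_Pb).
All statements about EV are proved by induction on the number `k` of steps, for all `t, x` with `t + k = n`; note `n - (t + 1) = k'` if
`t + (k' + 1) = n`. Below `c_b = Cf s v p o T (n - (t+1)) (t+1) (s t x b)` (the coefficients of the two children) and `i = v t x`,
`4 * vv (pn v p) t x = 4 * (p i * (1 - p i))`.
-/

set_option autoImplicit false

namespace Pool.Agent.MP3145b1.RC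

open Finset

/-- the coefficient at `T` as a function of time and state (`n` steps in total) -/
noncomputable def mt {w : ℕ} (s : ℕ → Fin w → Bool → Fin w) (v : ℕ → Fin w → ℕ) (p : ℕ → ℝ) (o : Fin w → ℝ) (n : ℕ)
    (T : Finset ℕ) : ℕ → Fin w → ℝ := fun t x => Cf s v p o T (n - t) t x

/-- the nodes (times `< n`) which do not read an element of `T` -/
def At {w : ℕ} (v : ℕ → Fin w → ℕ) (n : ℕ) (T : Finset ℕ) : ℕ → Finset (Fin w) :=
  fun t => if t < n then univ.filter (fun x => v t x ∉ T) else ∅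

/-- cost of the node for the set `T` -/
noncomputable def DT {w : ℕ} (s : ℕ → Fin w → Bool → Fin w) (v : ℕ → Fin w → ℕ) (p : ℕ → ℝ) (o : Fin w → ℝ) (n : ℕ)
    (T : Finset ℕ) : ℕ → Fin w → ℝ := fun t x => if v t x ∈ T then 0 else
  dlp (p (v t x)) (Cf s v p o T (n - (t + 1)) (t + 1) (s t x false)) (Cf s v p o T (n - (t + 1)) (t + 1) (s t x true))

/-- `J1` without the empty set -/
noncomputable def J2 {w : ℕ} (s : ℕ → Fin w → Bool → Fin w) (v : ℕ → Fin w → ℕ) (p : ℕ → ℝ) (o : Fin w → ℝ) (n M : ℕ) :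
    ℕ → Fin w → ℝ := fun t x => J1 s v p o n M t x - Om s v p o n ∅ t x ^ 2

/-- the main quantity: expectation of the sum of `4 vv J2` along the walk -/
noncomputable def BB {w : ℕ} (s : ℕ → Fin w → Bool → Fin w) (v : ℕ → Fin w → ℕ) (p : ℕ → ℝ) (o : Fin w → ℝ) (n M : ℕ)
    (x : Fin w) : ℝ :=
  EV s (pn v p) (fun _ => univ) (fun t y => 4 * vv (pn v p) t y * J2 s v p o n M t y) 0 n 0 x

/-- **NMg** (martingales). Uses: nothing.
Proof. `y ∈ At u`: `u < n`, `n - u = (n - (u+1)) + 1`, unfold Cf (`v u y ∉ T`). `|Cf T k t x| ≤ 1` for all `T`: induction on `k` (`|o| = 1`; half of the difference, or average with `0 ≤ p ≤ 1`). Card: at most `card (Fin w) = w`. -/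
def S_NMg : Prop := ∀ (w n : ℕ) (s : ℕ → Fin w → Bool → Fin w) (v : ℕ → Fin w → ℕ) (p : ℕ → ℝ) (o : Fin w → ℝ) (T : Finset ℕ),
  (∀ i, 0 ≤ p i ∧ p i ≤ 1) → (∀ z, o z = 1 ∨ o z = -1) →
  (∀ u, ∀ y ∈ At v n T u, Mg s (pn v p) (mt s v p o n T) u y) ∧ (∀ u y, |mt s v p o n T u y| ≤ 1) ∧
  (∀ u, (At v n T u).card ≤ w)

/-- **NCh** (chain of the entropies). Uses: nothing.
Proof. `H k t x = ∑ T ∈ (range M).powerset, wt p T * hh (Cf T k t x ^2)`. Claim for `t + k = n`: `H k t x = EV s (pn v p) univ (∑_T wt T DT T) 0 k t x`. `k = 0`: `T = ∅`: `hh 1 = 0`; `T ≠ ∅`: `hh 0 = 0`. `k + 1`, `i = v t x < M`: the sum over `T` is the sum over `T ∌ i` of the terms of `T` and of `insert i T`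
(Finset.sum over `(range M).powerset` = sum over the filter `i ∉ T` plus the sum over the filter `i ∈ T`, the latter is the image of the former under `insert i`; `(insert i T).erase i = T`). For `T ∌ i`: `Cf T = p c_0 + (1-p) c_1`, `Cf (insert i T) = (c_0 - c_1)/2`, wt_insert:
`wt T hh (U^2) + 4 p (1-p) wt T hh (((c_0 - c_1)/2)^2) = wt T (dlp p c_0 c_1 + p hh (c_0^2) + (1-p) hh (c_1^2))`. `DT (insert i T) = 0` at this node; at the children the terms of the `T ∋ i` in `H` are `0` (Cf_child, `hh 0 = 0`). EV_mem, induction. -/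
def S_NCh : Prop := ∀ (w n M : ℕ) (s : ℕ → Fin w → Bool → Fin w) (v : ℕ → Fin w → ℕ) (p : ℕ → ℝ) (o : Fin w → ℝ) (x : Fin w),
  (∀ t z, v t z < M) → Ro s v n → (∀ z, o z = 1 ∨ o z = -1) →
  ∑ T ∈ (range M).powerset, wt p T * hh (Cf s v p o T n 0 x ^ 2) =
    EV s (pn v p) (fun _ => univ) (fun t y => ∑ T ∈ (range M).powerset, wt p T * DT s v p o n T t y) 0 n 0 x

/-- **NSt** (stopping at the first element of `T`). Uses: nothing.
Proof. (1) If `t + k = n` and `¬ T ⊆ rd s v k t x` then `EV univ (DT T) 0 k t x = 0`: induction on `k`; at `k + 1`: `rd` of the children is contained in `rd` of `x`, so Cf_zero for the children: `DT = dlp p 0 0 = 0` (or `0`), induction. (2) Claim: `EV univ (DT T) 0 k t x = EV At (DT T) 0 k t x` for `t + k = n`. `k + 1`: if `v t x ∉ T` then `x ∈ At t` (`t < n`),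
same cost, average. If `v t x ∈ T`: the right side is `0`, the cost on the left is `0` and by (1) the EVs of the children are `0` (`v t x ∈ T` is not in `rd` of the child, Ro). -/
def S_NSt : Prop := ∀ (w n : ℕ) (s : ℕ → Fin w → Bool → Fin w) (v : ℕ → Fin w → ℕ) (p : ℕ → ℝ) (o : Fin w → ℝ) (x : Fin w)
  (T : Finset ℕ), Ro s v n →
  EV s (pn v p) (fun _ => univ) (DT s v p o n T) 0 n 0 x = EV s (pn v p) (At v n T) (DT s v p o n T) 0 n 0 x

/-- **NTw** (two-point inequality along the walk). Uses: S_MTw, S_NMg.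
Proof. EV_mono and EV_add0, EV_mul0: for `y ∈ At u`: `v u y ∉ T`, `DT = dlp (p i) c_0 c_1`, `c_0 = mt T (u+1) (s u y false)`, .., so `c_0 - c_1 = al s (mt T) u y`, and `p c_0 + (1-p) c_1 = mt T u y` (Mg), `p i (1 - p i) = vv (pn v p) u y`; S_MTw. -/
def S_NTw : Prop := ∀ (w n : ℕ) (ε : ℝ) (s : ℕ → Fin w → Bool → Fin w) (v : ℕ → Fin w → ℕ) (p : ℕ → ℝ) (o : Fin w → ℝ)
  (x : Fin w) (T : Finset ℕ), 0 < ε → ε ≤ 1 → (∀ i, 0 ≤ p i ∧ p i ≤ 1) → (∀ z, o z = 1 ∨ o z = -1) →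
  EV s (pn v p) (At v n T) (DT s v p o n T) 0 n 0 x ≤
    7 * EV s (pn v p) (At v n T) (fun u y => vv (pn v p) u y * al s (mt s v p o n T) u y ^ 2) 0 n 0 x +
    2 / ε * EV s (pn v p) (At v n T) (fun u y => vv (pn v p) u y *
      (|al s (mt s v p o n T) u y| ^ (2 - ε) * |mt s v p o n T u y| ^ ε)) 0 n 0 x

/-- **NL2** (sets with at least two elements). Uses: nothing.
Proof. (1) If `t + k = n` and `¬ T ⊆ rd s v k t x` then `EV At 0 (mt T ^2) k t x = 0` (induction on `k`: the payoffs are `0` by Cf_zero, `mt T t x = Cf T k t x`; the children have smaller `rd`). (2) `L k t x = ∑_{T, 2 ≤ |T|} wt T * EV At 0 (mt T ^2) k t x`. Claim: `L k t x = EV univ (4 vv J2) 0 k t x`. `k = 0`: `Cf T 0 = 0` for `T ≠ ∅`.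
`k + 1`, `i = v t x`: for `T ∋ i` (`x ∉ At t`) the EV is `(Cf T (k+1) t x)^2 = Om (T.erase i) t x ^2` and `wt T = 4 p_i (1 - p_i) wt (T.erase i)`: the sum over the `T ∋ i`, `2 ≤ |T|`, is `4 vv` times the sum over `T' = T.erase i ∌ i`, `T' ≠ ∅`, of `wt T' Om T'^2`, that is `4 vv J2`.
For `T ∌ i` the EV is the average of the EVs of the children, and at the children the terms of the `T ∋ i` are `0` by (1) (Ro). -/
def S_NL2 : Prop := ∀ (w n M : ℕ) (s : ℕ → Fin w → Bool → Fin w) (v : ℕ → Fin w → ℕ) (p : ℕ → ℝ) (o : Fin w → ℝ) (x : Fin w),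
  (∀ t z, v t z < M) → Ro s v n →
  ∑ T ∈ (range M).powerset.filter (fun T => 2 ≤ T.card), wt p T *
    EV s (pn v p) (At v n T) 0 (fun u y => mt s v p o n T u y ^ 2) n 0 x = BB s v p o n M x

/-- **NIn** (the influence minus the variance). Uses: nothing.
Proof. (1) `I k t x = ∑_{T ∈ (range M).powerset} |T| wt T Cf T k t x ^2`, claim: `I k t x = EV univ (4 vv J1) 0 k t x` for `t + k = n`. `k = 0`: all terms `0`. `k + 1`, `i = v t x`: pairs `T ∌ i`, `insert i T`: `|T| wt T U^2 + (|T| + 1) 4 p (1-p) wt T W^2`, `U = p c_0 + (1-p) c_1`, `W = (c_0 - c_1)/2 = Om T t x`, and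
`U^2 + 4 p (1-p) W^2 = p c_0^2 + (1-p) c_1^2`; so `= |T| wt T (p c_0^2 + (1-p) c_1^2) + 4 p (1-p) wt T (Om T)^2`; at the children the terms of the `T ∋ i` are `0` (Cf_child). (2) `1 - (Cf ∅ k t x)^2 = EV univ (4 vv (Om ∅)^2) 0 k t x`: `k = 0`: `o^2 = 1`; the same identity. Subtract (EV_add0, EV_mul0 with `-1`). -/
def S_NIn : Prop := ∀ (w n M : ℕ) (s : ℕ → Fin w → Bool → Fin w) (v : ℕ → Fin w → ℕ) (p : ℕ → ℝ) (o : Fin w → ℝ) (x : Fin w),
  (∀ t z, v t z < M) → Ro s v n → (∀ z, o z = 1 ∨ o z = -1) →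
  ∑ T ∈ (range M).powerset, (T.card : ℝ) * (wt p T * Cf s v p o T n 0 x ^ 2) - (1 - Cf s v p o ∅ n 0 x ^ 2) = BB s v p o n M x

/-- **NSx** (singletons, payoffs). Uses: S_NMg.
Proof. Claim for `t + k = n`: `∑_{j<M} wt {j} * EV (At {j}) 0 (|mt {j}| - (mt {j})^2) k t x ≤ EV univ (4 vv J2) 0 k t x`. `k = 0`: payoffs `0` (`mt {j} n x = Cf {j} 0 = 0`). `k + 1`, `i = v t x < M`: `j = i`: `x ∉ At {i} t`, the EV is `|m| - m^2` with `m = Cf {i} (k+1) t x = Om ∅ t x`, `≤ J1 - (Om ∅)^2 = J2` (hypothesis), `wt {i} = 4 p_i (1 - p_i) = 4 vv`.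
`j ≠ i`: average of the EVs of the children; all EVs are `≥ 0` (`|m| ≤ 1` by S_NMg, EV_nonneg), so the sum over `j ≠ i` at the children is at most the sum over all `j`. Induction. -/
def S_NSx : Prop := ∀ (w n M : ℕ) (s : ℕ → Fin w → Bool → Fin w) (v : ℕ → Fin w → ℕ) (p : ℕ → ℝ) (o : Fin w → ℝ) (x : Fin w),
  (∀ i, 0 ≤ p i ∧ p i ≤ 1) → (∀ t z, v t z < M) → (∀ z, o z = 1 ∨ o z = -1) →
  (∀ t z, t < n → |Om s v p o n ∅ t z| ≤ J1 s v p o n M t z) →
  ∑ j ∈ range M, wt p {j} * EV s (pn v p) (At v n {j}) 0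
    (fun u y => |mt s v p o n {j} u y| - mt s v p o n {j} u y ^ 2) n 0 x ≤ BB s v p o n M x

/-- **NSe** (singletons, energies). Uses: nothing.
Proof. `EV (At {j}) c 0 n 0 x ≤ EV univ (if v u y = j then 0 else c) 0 n 0 x` for a cost `c ≥ 0` (induction; on `At {j}` the costs agree, outside the right side is `≥ 0`; the claim for `t + k = n`). Then (EV_mul0, EV_sum0, EV_mono) it is enough that for `t < n`, `i = v t x`: `∑_{j<M, j ≠ i} wt {j} vv (al (mt {j}) t x)^2 ≤ 4 vv J2 t x` (for `t ≥ n` no cost is paid: put the condition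
`t < n` into the costs): `al (mt {j}) t x = 2 Om {j} t x`, and `J2 = ∑_{T ∌ i, T ≠ ∅} wt T (Om T)^2 ≥ ∑_{j ≠ i} wt {j} (Om {j})^2` (Finset.sum_le_sum_of_subset_of_nonneg, the sets `{j}`; the term of `∅` in `J1` is `(Om ∅)^2`). -/
def S_NSe : Prop := ∀ (w n M : ℕ) (s : ℕ → Fin w → Bool → Fin w) (v : ℕ → Fin w → ℕ) (p : ℕ → ℝ) (o : Fin w → ℝ) (x : Fin w),
  (∀ i, 0 ≤ p i ∧ p i ≤ 1) → (∀ t z, v t z < M) →
  ∑ j ∈ range M, wt p {j} * EV s (pn v p) (At v n {j})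
    (fun u y => vv (pn v p) u y * al s (mt s v p o n {j}) u y ^ 2) 0 n 0 x ≤ BB s v p o n M x

/-- **NEm** (the empty set). Uses: nothing.
Proof. `m t x = Cf ∅ (n-t) t x`. For `t < n`: `DT ∅ = hh (m t x ^2) + 4 vv hh ((Om ∅ t x)^2) - (p hh (m_0^2) + (1-p) hh (m_1^2))` (`m_b` = value at the child). So by induction on `k` (`t + k = n`): `EV univ (DT ∅) 0 k t x = hh (m t x^2) + EV univ (4 vv hh ((Om ∅)^2)) 0 k t x` (`k = 0`: `hh (o^2) = 0`). `hh (d^2) = -2 d^2 log |d| ≤ 2 (|d| - d^2)`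
(`log (1/|d|) ≤ 1/|d| - 1`; `d = 0`: `0`), and `|d| - d^2 ≤ J1 - d^2 = J2` for `t < n` (hypothesis). In the comparison of EVs only nodes with `t < n` matter (do the induction directly, with `≤`). -/
def S_NEm : Prop := ∀ (w n M : ℕ) (s : ℕ → Fin w → Bool → Fin w) (v : ℕ → Fin w → ℕ) (p : ℕ → ℝ) (o : Fin w → ℝ) (x : Fin w),
  (∀ i, 0 ≤ p i ∧ p i ≤ 1) → (∀ z, o z = 1 ∨ o z = -1) →
  (∀ t z, t < n → |Om s v p o n ∅ t z| ≤ J1 s v p o n M t z) →
  EV s (pn v p) (fun _ => univ) (DT s v p o n ∅) 0 n 0 x ≤ hh (Cf s v p o ∅ n 0 x ^ 2) + 2 * BB s v p o n M x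

/-- **NSg** (singletons). Uses: S_MF4, S_NMg, S_NTw, S_NSx, S_NSe.
Proof. For every `j`: S_NTw, S_MF4 (hypotheses by S_NMg) give `EV DT ≤ 7 en + (2/ε) 328 C (X + en) ≤ (7 + 656 C/ε) (X + en)` (`X, en ≥ 0`: `|m| ≤ 1`). Multiply by `wt {j} ≥ 0`, sum over `j < M`: S_NSx, S_NSe. -/
def S_NSg : Prop := ∀ (w : ℕ) (ε C : ℝ), 0 < ε → ε ≤ 1 / 2 → 1 ≤ C → VR w ε C → ∀ (n M : ℕ) (s : ℕ → Fin w → Bool → Fin w)
  (v : ℕ → Fin w → ℕ) (p : ℕ → ℝ) (o : Fin w → ℝ) (x : Fin w), (∀ i, 0 ≤ p i ∧ p i ≤ 1) → (∀ t z, v t z < M) →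
  (∀ z, o z = 1 ∨ o z = -1) → (∀ t z, t < n → |Om s v p o n ∅ t z| ≤ J1 s v p o n M t z) →
  ∑ j ∈ range M, wt p {j} * EV s (pn v p) (At v n {j}) (DT s v p o n {j}) 0 n 0 x ≤
    (7 + 656 * C / ε) * (2 * BB s v p o n M x)

/-- **NLg** (sets with at least two elements). Uses: S_MSq, S_MF3, S_NMg, S_NTw, S_NL2.
Proof. For every `T`: S_NTw, S_MSq (`en = Q - m^2 ≤ Q`), S_MF3: `EV DT ≤ (7 + 32 C/ε) Q`, `Q = EV At 0 (mt T ^2)`. Multiply by `wt T ≥ 0`, sum, S_NL2. -/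
def S_NLg : Prop := ∀ (w : ℕ) (ε C : ℝ), 0 < ε → ε ≤ 1 / 2 → 1 ≤ C → VR w ε C → ∀ (n M : ℕ) (s : ℕ → Fin w → Bool → Fin w)
  (v : ℕ → Fin w → ℕ) (p : ℕ → ℝ) (o : Fin w → ℝ) (x : Fin w), (∀ i, 0 ≤ p i ∧ p i ≤ 1) → (∀ t z, v t z < M) → Ro s v n →
  (∀ z, o z = 1 ∨ o z = -1) →
  ∑ T ∈ (range M).powerset.filter (fun T => 2 ≤ T.card), wt p T *
    EV s (pn v p) (At v n T) (DT s v p o n T) 0 n 0 x ≤ (7 + 32 * C / ε) * BB s v p o n M x

/-- **NPg** (the entropy inequality for programs). Uses: S_NCh, S_NSt, S_NIn, S_NEm, S_NSg, S_NLg.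
Proof. `K0 = 23 + 1344 C/ε`. S_NCh, EV_sum0, EV_mul0, and S_NSt for every `T`: the entropy is `∑_T wt T * EV (At T) (DT T) 0 n 0 x`. Split `(range M).powerset` into `∅`, the `{j}` with `j < M`, and `2 ≤ card`. `T = ∅`: S_NEm (by S_NSt; `wt ∅ = 1`). `{j}`: S_NSg. The rest: S_NLg.
Total `≤ hh (c_∅^2) + (2 + 14 + 1312 C/ε + 7 + 32 C/ε) BB`, `BB ≥ 0` (`J2 ≥ 0`: the term of `∅` in `J1`; wt_nonneg, EV_nonneg), `K ≥ K0`, S_NIn. -/
def S_NPg : Prop := ∀ (w : ℕ) (ε C : ℝ), 0 < ε → ε ≤ 1 / 2 → 1 ≤ C → VR w ε C → PG w (23 + 1344 * C / ε)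

end Pool.Agent.MP3145b1.RC
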