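import Pool.Agent.Lib.MP_3145b1_co.RC.Spec

/-!
# Project RC: proof of `S_Var` (bounded variation of order less than 2)
-/

set_option autoImplicit false

namespace Pool.Agent.MP3145b1.RC

open Finset

private theorem Var_const {σ : Type} (s : ℕ → σ → Bool → σ) {p : ℕ → σ → ℝ} (hp : Pb p)
    (A : ℕ → Finset σ) (a : ℝ) (ha : 0 ≤ a)
    (n t : ℕ) (x : σ) : EV s p A (fun _ _ => a) 0 n t x ≤ n * a := by
  apply EV_le s hp A (fun _ _ => a) 0 (fun n _ _ => (n : ℝ) * a)
  · intro t x
    simp
  · intro n t x _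
    change (0 : ℝ) ≤ n * a
    positivity
  · intro n t x _
    push_cast
    linarith

/-- costs which agree on `A` -/
private theorem Var_congr {σ : Type} (s : ℕ → σ → Bool → σ) {p : ℕ → σ → ℝ} (hp : Pb p)
    (A : ℕ → Finset σ) (c c' : ℕ → σ → ℝ)
    (h : ∀ u, ∀ y ∈ A u, c u y = c' u y) (n t : ℕ) (x : σ) :
    EV s p A c 0 n t x = EV s p A c' 0 n t x :=
  le_antisymm (EV_mono s hp A (fun u y hy => (h u y hy).le) (fun _ _ => le_rfl) n t x)
    (EV_mono s hp A (fun u y hy => (h u y hy).ge) (fun _ _ => le_rfl) n t x)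

private theorem Var_sum {σ : Type} (s : ℕ → σ → Bool → σ) (p : ℕ → σ → ℝ)
    (A : ℕ → Finset σ) (N : ℕ) (a : ℕ → ℝ)
    (e : ℕ → ℕ → σ → ℝ) (n t : ℕ) (x : σ) :
    EV s p A (fun u y => ∑ k ∈ range N, a k * e k u y) 0 n t x =
      ∑ k ∈ range N, a k * EV s p A (e k) 0 n t x := by
  rw [EV_sum0 s p A (range N) (fun k u y => a k * e k u y) n t x]
  apply Finset.sum_congr rfl
  intro k _
  rw [EV_mul0]

theorem rVar (h1 : S_All) (h2 : S_Exc) (h4 : S_Pnt) : S_Var := by
  intro w hw
  obtain ⟨K, c, hK, hc, hc1, hPK⟩ := h1 w hw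
  obtain ⟨D, hDdef⟩ : ∃ D : ℝ, D = (K + 1) ^ 2 / c := ⟨_, rfl⟩
  have hD : 1 ≤ D := by
    rw [hDdef, le_div_iff₀ hc]
    nlinarith
  obtain ⟨θ, hθ⟩ : ∃ θ : ℝ, θ = 1 + 1 / (48 * D) := ⟨_, rfl⟩
  have hθ0 : 0 < θ := by
    rw [hθ]
    positivity
  obtain ⟨-, -, -, -, he0, he1⟩ := h4 D hD θ hθ 0
  refine ⟨Real.logb 2 θ, 20 * D, he0, he1, by linarith, ?_⟩
  obtain ⟨ε, hε⟩ : ∃ ε : ℝ, ε = Real.logb 2 θ := ⟨_, rfl⟩
  rw [← hε]
  rw [← hε] at he0 he1
  intro σ s p m A n t x b hp hb hcard hMg
  -- the normalized steps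
  let d : ℕ → σ → ℝ := fun u y => |al s m u y| / b
  let v : ℕ → σ → ℝ := fun u y => vv p u y
  have hv0 : ∀ u y, 0 ≤ v u y := fun u y => vv_nonneg hp u y
  have hv1 : ∀ u y, v u y ≤ 1 := fun u y => (vv_le u y).trans (by norm_num)
  have hd0 : ∀ u y, 0 ≤ d u y := fun u y => div_nonneg (abs_nonneg _) hb.le
  have hstp : ∀ u y, |al s m u y| = b * d u y := by
    intro u y
    change |al s m u y| = b * (|al s m u y| / b)
    field_simp
  have hpow1 : ∀ k : ℕ, (1 / 2 : ℝ) ^ k ≤ 1 := fun k => pow_le_one₀ (by norm_num) (by norm_num)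
  obtain ⟨L, hL⟩ : ∃ L : ℝ, L = EV s p A (cN s p m b) 0 n t x := ⟨_, rfl⟩
  have hL0 : 0 ≤ L := by
    rw [hL]
    apply EV_nonneg s hp A
    · intro u y _
      unfold cN
      split_ifs
      · exact le_rfl
      · have := hv0 u y
        change 0 ≤ vv p u y at this
        positivity
    · intro u y
      exact le_rfl
  rw [← hL]
  let fL : ℕ → σ → ℝ := fun u y => v u y * (if d u y ≤ 1 then 0 else d u y)
  have hLf : L = EV s p A fL 0 n t x := by
    rw [hL]
    apply Var_congr s hp
    intro u y _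
    change (if |al s m u y| ≤ b then (0 : ℝ) else vv p u y * |al s m u y| / b) =
      vv p u y * (if d u y ≤ 1 then 0 else d u y)
    have hiff : |al s m u y| ≤ b ↔ d u y ≤ 1 := by
      change |al s m u y| ≤ b ↔ |al s m u y| / b ≤ 1
      rw [div_le_one hb]
    by_cases hh : d u y ≤ 1
    · rw [if_pos hh, if_pos (hiff.mpr hh), mul_zero]
    · rw [if_neg hh, if_neg (fun h' => hh (hiff.mp h'))]
      change vv p u y * |al s m u y| / b = vv p u y * (|al s m u y| / b)
      ring
  -- the main estimate for fixed `N0`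
  have key : ∀ N0 : ℕ, EV s p A (fun u y => if |al s m u y| ≤ b then cP s p m ε u y else 0) 0 n t x ≤
      b ^ (2 - ε) * (20 * D * (1 + L) + n * (1 / 2) ^ N0) := by
    intro N0
    obtain ⟨q1, q2, q3, q4, -, -⟩ := h4 D hD θ hθ N0
    let e1 : ℕ → ℕ → σ → ℝ := fun k u y => v u y * (if d u y ≤ (1 / 2) ^ k then d u y ^ 2 else 0)
    let e0 : ℕ → ℕ → σ → ℝ := fun k u y =>
      v u y * (if d u y ≤ (1 / 2) ^ k then 0 else if d u y ≤ 1 then d u y else 0)
    have hexc : ∀ k : ℕ, EV s p A (e1 k) 0 n t x ≤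
        D * (1 / 4) ^ k * (1 + 8 * 2 ^ k * EV s p A (e0 k) 0 n t x + 8 * 2 ^ k * L) := by
      intro k
      have hρ : 0 < b * (1 / 2) ^ k := by positivity
      have h := h2 w K c hK hc hc1 hPK σ s p m A (b * (1 / 2) ^ k) n t x hp hρ hcard hMg
      have hiff : ∀ u y, (|al s m u y| ≤ b * (1 / 2) ^ k ↔ d u y ≤ (1 / 2) ^ k) := by
        intro u y
        rw [hstp]
        exact mul_le_mul_iff_right₀ hb
      have eS : EV s p A (cS s p m (b * (1 / 2) ^ k)) 0 n t x =
          b ^ 2 * EV s p A (e1 k) 0 n t x := by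
        rw [← EV_mul0]
        apply Var_congr s hp
        intro u y _
        change (if |al s m u y| ≤ b * (1 / 2) ^ k then vv p u y * al s m u y ^ 2 else 0) =
          b ^ 2 * (vv p u y * (if d u y ≤ (1 / 2) ^ k then d u y ^ 2 else 0))
        by_cases hh : d u y ≤ (1 / 2) ^ k
        · rw [if_pos hh, if_pos ((hiff u y).mpr hh), ← sq_abs, hstp]
          ring
        · rw [if_neg hh, if_neg (fun h' => hh ((hiff u y).mp h'))]
          ring
      have h2k : (2 : ℝ) ^ k * (1 / 2) ^ k = 1 := by
        rw [← mul_pow]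
        norm_num
      have eN : EV s p A (cN s p m (b * (1 / 2) ^ k)) 0 n t x =
          2 ^ k * EV s p A (e0 k) 0 n t x + 2 ^ k * L := by
        rw [hLf, ← EV_mul0, ← EV_mul0, ← EV_add0]
        apply Var_congr s hp
        intro u y _
        change (if |al s m u y| ≤ b * (1 / 2) ^ k then (0 : ℝ) else
            vv p u y * |al s m u y| / (b * (1 / 2) ^ k)) =
          2 ^ k * (vv p u y * (if d u y ≤ (1 / 2) ^ k then 0 else if d u y ≤ 1 then d u y else 0)) +
          2 ^ k * (vv p u y * (if d u y ≤ 1 then 0 else d u y))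
        by_cases hh : d u y ≤ (1 / 2) ^ k
        · rw [if_pos hh, if_pos ((hiff u y).mpr hh), if_pos (hh.trans (hpow1 k))]
          ring
        · rw [if_neg hh, if_neg (fun h' => hh ((hiff u y).mp h'))]
          have e : vv p u y * |al s m u y| / (b * (1 / 2) ^ k) = 2 ^ k * (vv p u y * d u y) := by
            rw [hstp, div_eq_iff (by positivity)]
            linear_combination (-(vv p u y * d u y * b)) * h2k
          rw [e]
          by_cases h1' : d u y ≤ 1
          · rw [if_pos h1', if_pos h1']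
            ring
          · rw [if_neg h1', if_neg h1']
            ring
      rw [eS, eN, ← hDdef] at h
      have hpp : (b * (1 / 2) ^ k) ^ 2 = b ^ 2 * (1 / 4 : ℝ) ^ k := by
        rw [mul_pow, ← pow_mul, mul_comm k 2, pow_mul]
        norm_num
      rw [hpp] at h
      have hb2 : 0 < b ^ 2 := by positivity
      have h' : b ^ 2 * EV s p A (e1 k) 0 n t x ≤
          b ^ 2 * (D * (1 / 4) ^ k *
            (1 + 8 * 2 ^ k * EV s p A (e0 k) 0 n t x + 8 * 2 ^ k * L)) := by
        calc b ^ 2 * EV s p A (e1 k) 0 n t x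
            ≤ D * (b ^ 2 * (1 / 4) ^ k) *
              (1 + 8 * (2 ^ k * EV s p A (e0 k) 0 n t x + 2 ^ k * L)) := h
          _ = _ := by ring
      exact le_of_mul_le_mul_left h' hb2
    obtain ⟨s0, hs0⟩ : ∃ s0 : ℝ, s0 = EV s p A (e1 0) 0 n t x := ⟨_, rfl⟩
    have hs0' : s0 ≤ D * (1 + 8 * L) := by
      have h := hexc 0
      have hz : EV s p A (e0 0) 0 n t x = 0 := by
        have hc0 : EV s p A (e0 0) 0 n t x = EV s p A (fun _ _ => (0 : ℝ)) 0 n t x := by
          apply Var_congr s hp
          intro u y _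
          change v u y * (if d u y ≤ (1 / 2) ^ 0 then 0 else if d u y ≤ 1 then d u y else 0) = 0
          rw [pow_zero]
          by_cases hh : d u y ≤ 1
          · rw [if_pos hh, mul_zero]
          · rw [if_neg hh, if_neg hh, mul_zero]
        rw [hc0]
        exact EV_const s p A 0 n t x
      rw [hz, ← hs0] at h
      simp only [pow_zero, mul_one, mul_zero, add_zero] at h
      exact h
    obtain ⟨a1, ha1⟩ : ∃ a1 : ℝ, a1 = EV s p A (fun u y => ∑ k ∈ range (N0 + 1), θ ^ k * e1 k u y)
      0 n t x := ⟨_, rfl⟩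
    obtain ⟨a2, ha2⟩ : ∃ a2 : ℝ, a2 = EV s p A (fun u y => ∑ k ∈ range (N0 + 1),
      (θ / 2) ^ k * e0 k u y) 0 n t x := ⟨_, rfl⟩
    have ha1' := ha1
    have ha2' := ha2
    rw [Var_sum s p A (N0 + 1) (fun k => θ ^ k) e1 n t x] at ha1'
    rw [Var_sum s p A (N0 + 1) (fun k => (θ / 2) ^ k) e0 n t x] at ha2'
    have i1 : a1 ≤ 3 / 2 * D + 24 * D * L + 8 * D * a2 := by
      have hs : a1 ≤ D * ∑ k ∈ range (N0 + 1), (θ / 4) ^ k +
          8 * D * L * ∑ k ∈ range (N0 + 1), (θ / 2) ^ k + 8 * D * a2 := by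
        rw [ha1', ha2', Finset.mul_sum, Finset.mul_sum, Finset.mul_sum, ← Finset.sum_add_distrib,
          ← Finset.sum_add_distrib]
        apply Finset.sum_le_sum
        intro k _
        have hθk : 0 ≤ θ ^ k := by positivity
        have hh := mul_le_mul_of_nonneg_left (hexc k) hθk
        have e4 : θ ^ k * (1 / 4) ^ k = (θ / 4) ^ k := by
          rw [← mul_pow]
          congr 1
          ring
        have e2 : θ ^ k * (1 / 4) ^ k * 2 ^ k = (θ / 2) ^ k := by
          rw [← mul_pow, ← mul_pow]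
          congr 1
          ring
        calc θ ^ k * EV s p A (e1 k) 0 n t x
            ≤ θ ^ k * (D * (1 / 4) ^ k *
              (1 + 8 * 2 ^ k * EV s p A (e0 k) 0 n t x + 8 * 2 ^ k * L)) := hh
          _ = D * (θ ^ k * (1 / 4) ^ k) + 8 * D * L * (θ ^ k * (1 / 4) ^ k * 2 ^ k) +
              8 * D * ((θ ^ k * (1 / 4) ^ k * 2 ^ k) * EV s p A (e0 k) 0 n t x) := by ring
          _ = _ := by rw [e2, e4]
      have hD0 : 0 ≤ D := by linarith
      have m1 := mul_le_mul_of_nonneg_left q3 hD0
      have m2 := mul_le_mul_of_nonneg_left q4 (by positivity : 0 ≤ 8 * D * L)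
      linarith
    have i2 : 8 * D * a2 ≤ 1 / 2 * a1 + 24 * D * s0 := by
      have hm := EV_mono s hp A
        (c := fun u y => 8 * D * ∑ k ∈ range (N0 + 1), (θ / 2) ^ k * e0 k u y)
        (c' := fun u y => (1 / 2 * ∑ k ∈ range (N0 + 1), θ ^ k * e1 k u y) +
          24 * D * e1 0 u y) (q := 0) (q' := 0)
        (fun u y _ => by
          by_cases hh : d u y ≤ 1
          · have hq := mul_le_mul_of_nonneg_left (q1 (d u y) (hd0 u y) hh) (hv0 u y)
            have eL : 8 * D * ∑ k ∈ range (N0 + 1), (θ / 2) ^ k * e0 k u y =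
                v u y * (8 * D * ∑ k ∈ range (N0 + 1), (θ / 2) ^ k *
                  (if d u y ≤ (1 / 2) ^ k then 0 else d u y)) := by
              rw [mul_left_comm, Finset.mul_sum (range (N0 + 1)) _ (v u y)]
              congr 1
              apply Finset.sum_congr rfl
              intro k _
              change (θ / 2) ^ k * (v u y * (if d u y ≤ (1 / 2) ^ k then 0 else
                if d u y ≤ 1 then d u y else 0)) = _
              rw [if_pos hh]
              ring
            have eR : v u y * (1 / 2 * ∑ k ∈ range (N0 + 1), θ ^ k *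
                (if d u y ≤ (1 / 2) ^ k then d u y ^ 2 else 0) + 24 * D * d u y ^ 2) =
                (1 / 2 * ∑ k ∈ range (N0 + 1), θ ^ k * e1 k u y) + 24 * D * e1 0 u y := by
              have e10 : e1 0 u y = v u y * d u y ^ 2 := by
                change v u y * (if d u y ≤ (1 / 2) ^ 0 then d u y ^ 2 else 0) = _
                rw [pow_zero, if_pos hh]
              have es : ∑ k ∈ range (N0 + 1), θ ^ k * e1 k u y = v u y *
                  ∑ k ∈ range (N0 + 1), θ ^ k * (if d u y ≤ (1 / 2) ^ k then d u y ^ 2 else 0) := by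
                rw [Finset.mul_sum]
                apply Finset.sum_congr rfl
                intro k _
                change θ ^ k * (v u y * (if d u y ≤ (1 / 2) ^ k then d u y ^ 2 else 0)) = _
                ring
              rw [e10, es]
              ring
            rw [eL, ← eR]
            exact hq
          · have z0 : ∀ k, e0 k u y = 0 := by
              intro k
              change v u y * (if d u y ≤ (1 / 2) ^ k then 0 else if d u y ≤ 1 then d u y else 0) = 0
              rw [if_neg hh]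
              split_ifs <;> simp
            have z1 : ∀ k, e1 k u y = 0 := by
              intro k
              change v u y * (if d u y ≤ (1 / 2) ^ k then d u y ^ 2 else 0) = 0
              rw [if_neg (fun h' => hh (h'.trans (hpow1 k))), mul_zero]
            simp only [z0, z1, mul_zero, Finset.sum_const_zero, add_zero]
            exact le_rfl) (fun _ _ => le_rfl) n t x
      rw [EV_add0, EV_mul0, EV_mul0, EV_mul0, ← ha1, ← ha2, ← hs0] at hm
      exact hm
    have hDD : D ≤ D * D := by nlinarith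
    have i3 : a1 ≤ 432 * (D * D) * (1 + L) := by
      have hD0 : 0 ≤ D := by linarith
      have m1 : 24 * D * s0 ≤ 24 * D * (D * (1 + 8 * L)) :=
        mul_le_mul_of_nonneg_left hs0' (by positivity)
      have m2 : D * L ≤ D * D * L := mul_le_mul_of_nonneg_right hDD hL0
      have m3 : 0 ≤ D * D * L := by positivity
      have m4 : 0 ≤ D * D := by positivity
      nlinarith
    have i4 : EV s p A (fun u y => v u y * (if d u y ≤ 1 then d u y ^ (2 - ε) else 0)) 0 n t x ≤
        20 * D * (1 + L) + n * (1 / 2) ^ N0 := by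
      have hm := EV_mono s hp A
        (c := fun u y => v u y * (if d u y ≤ 1 then d u y ^ (2 - ε) else 0))
        (c' := fun u y => (e1 0 u y + 1 / (48 * D) * ∑ k ∈ range (N0 + 1), θ ^ k * e1 k u y) +
          (1 / 2) ^ N0) (q := 0) (q' := 0)
        (fun u y _ => by
          have es : ∑ k ∈ range (N0 + 1), θ ^ k * e1 k u y = v u y *
              ∑ k ∈ range (N0 + 1), θ ^ k * (if d u y ≤ (1 / 2) ^ k then d u y ^ 2 else 0) := by
            rw [Finset.mul_sum]
            apply Finset.sum_congr rfl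
            intro k _
            change θ ^ k * (v u y * (if d u y ≤ (1 / 2) ^ k then d u y ^ 2 else 0)) = _
            ring
          have hN : (0 : ℝ) ≤ (1 / 2) ^ N0 := by positivity
          by_cases hh : d u y ≤ 1
          · have h := mul_le_mul_of_nonneg_left (q2 (d u y) (hd0 u y) hh) (hv0 u y)
            rw [← hε] at h
            have e10 : e1 0 u y = v u y * d u y ^ 2 := by
              change v u y * (if d u y ≤ (1 / 2) ^ 0 then d u y ^ 2 else 0) = _
              rw [pow_zero, if_pos hh]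
            change v u y * (if d u y ≤ 1 then d u y ^ (2 - ε) else 0) ≤ _
            rw [if_pos hh, es, e10]
            have hv := mul_le_mul_of_nonneg_right (hv1 u y) hN
            linarith
          · have z1 : ∀ k, e1 k u y = 0 := by
              intro k
              change v u y * (if d u y ≤ (1 / 2) ^ k then d u y ^ 2 else 0) = 0
              rw [if_neg (fun h' => hh (h'.trans (hpow1 k))), mul_zero]
            change v u y * (if d u y ≤ 1 then d u y ^ (2 - ε) else 0) ≤ _
            rw [if_neg hh]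
            simp only [z1, mul_zero, Finset.sum_const_zero, add_zero, zero_add]
            exact hN) (fun _ _ => le_rfl) n t x
      rw [EV_add0 s p A (fun u y => e1 0 u y + 1 / (48 * D) * ∑ k ∈ range (N0 + 1),
        θ ^ k * e1 k u y) (fun _ _ => (1 / 2) ^ N0), EV_add0 s p A (fun u y => e1 0 u y)
        (fun u y => 1 / (48 * D) * ∑ k ∈ range (N0 + 1), θ ^ k * e1 k u y), EV_mul0, ← ha1,
        ← hs0] at hm
      have hcst := Var_const s hp A ((1 / 2 : ℝ) ^ N0) (by positivity) n t x
      have hC3 : 1 / (48 * D) * a1 ≤ 9 * D * (1 + L) := by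
        rw [one_div, inv_mul_le_iff₀ (by positivity)]
        linarith
      have hDL : 0 ≤ D * L := by positivity
      linarith
    have i5 : EV s p A (fun u y => if |al s m u y| ≤ b then cP s p m ε u y else 0) 0 n t x =
        b ^ (2 - ε) *
          EV s p A (fun u y => v u y * (if d u y ≤ 1 then d u y ^ (2 - ε) else 0)) 0 n t x := by
      rw [← EV_mul0]
      apply Var_congr s hp
      intro u y _
      change (if |al s m u y| ≤ b then vv p u y * |al s m u y| ^ (2 - ε) else 0) =
        b ^ (2 - ε) * (vv p u y * (if d u y ≤ 1 then d u y ^ (2 - ε) else 0))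
      have hiff : |al s m u y| ≤ b ↔ d u y ≤ 1 := by
        change |al s m u y| ≤ b ↔ |al s m u y| / b ≤ 1
        rw [div_le_one hb]
      by_cases hh : d u y ≤ 1
      · rw [if_pos hh, if_pos (hiff.mpr hh), hstp, Real.mul_rpow hb.le (hd0 u y)]
        ring
      · rw [if_neg hh, if_neg (fun h' => hh (hiff.mp h'))]
        ring
    rw [i5]
    exact mul_le_mul_of_nonneg_left i4 (Real.rpow_nonneg hb.le _)
  have hlim : Filter.Tendsto (fun N0 : ℕ => b ^ (2 - ε) * (20 * D * (1 + L) + (n : ℝ) * (1 / 2) ^ N0))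
      Filter.atTop (nhds (b ^ (2 - ε) * (20 * D * (1 + L) + (n : ℝ) * 0))) := by
    apply Filter.Tendsto.const_mul
    apply Filter.Tendsto.const_add
    apply Filter.Tendsto.const_mul
    exact tendsto_pow_atTop_nhds_zero_of_lt_one (by norm_num) (by norm_num)
  have hfin := ge_of_tendsto' hlim key
  rw [mul_zero, add_zero] at hfin
  calc EV s p A (fun u y => if |al s m u y| ≤ b then cP s p m ε u y else 0) 0 n t x
      ≤ b ^ (2 - ε) * (20 * D * (1 + L)) := hfin
    _ = 20 * D * b ^ (2 - ε) * (1 + L) := by ring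

end Pool.Agent.MP3145b1.RC
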